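import Pool.Agent.Lib.MP_94aef8_gt.J.ANum

/-! The divergence theorem on a box. -/

open scoped Manifold ContDiff Topology
open Matrix Filter Set MeasureTheory Real

namespace Pool.Agent.Lib.MP_94aef8_gt

/-- `MeasureTheory.integral_divergence_of_hasFDerivAt_off_countable'` (or the unprimed form) on
`Icc a b ⊆ Fin (3 + 1) → ℝ`, moved to `E4` by the volume preserving equivalence
(`EuclideanSpace.volume_preserving_symm_measurableEquiv_toLp`, `PiLp.volume_preserving_toLp`);
the half open box and the closed box agree almost everywhere (`Measure.univ_pi_Ico_ae_eq_Icc`). -/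
theorem box_div {a b : Fin 4 → ℝ} (hab : ∀ i, a i ≤ b i) {V : E4 → Fin 4 → ℝ}
    (hV : ∀ x : E4, (∀ j, a j ≤ x j ∧ x j ≤ b j) → ∀ i, ContDiffAt ℝ 1 (fun y => V y i) x)
    (h0 : ∀ x : E4, (∀ j, a j ≤ x j ∧ x j ≤ b j) → ∀ i, x i = a i ∨ x i = b i → V x i = 0) :
    ∫ x in {x : E4 | ∀ j, a j ≤ x j ∧ x j < b j}, ∑ i, pd i (fun y => V y i) x = 0 := by
  set L : (Fin 4 → ℝ) →L[ℝ] E4 :=
    (PiLp.continuousLinearEquiv 2 ℝ fun _ : Fin 4 => ℝ).symm.toContinuousLinearMap with hL
  have hm : ∀ z ∈ Icc a b, ∀ j, a j ≤ L z j ∧ L z j ≤ b j := fun z hz j => ⟨hz.1 j, hz.2 j⟩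
  have hc : ContinuousOn (fun z => ∑ i, pd i (fun y => V y i) (L z)) (Icc a b) :=
    continuousOn_finsetSum _ fun i _ z hz =>
      ((((hV _ (hm z hz) i).continuousAt_fderiv one_ne_zero).clm_apply
        continuousAt_const).comp L.continuous.continuousAt).continuousWithinAt
  have h1 := integral_divergence_of_hasFDerivAt_off_countable' (n := 3) a b hab
    (fun i z => V (L z) i) (fun i z => (fderiv ℝ (fun y => V y i) (L z)).comp L) ∅
    countable_empty
    (fun i z hz => ((hV _ (hm z hz) i).continuousAt.comp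
      L.continuous.continuousAt).continuousWithinAt)
    (fun z hz i => ((hV _ (hm z ⟨fun j => (hz.1 j trivial).1.le,
      fun j => (hz.1 j trivial).2.le⟩) i).differentiableAt one_ne_zero).hasFDerivAt.comp z
        L.hasFDerivAt)
    (hc.integrableOn_compact isCompact_Icc)
  have h2 : ∀ (i : Fin 4) (t : ℝ), t = a i ∨ t = b i →
      ∫ z in Icc (a ∘ Fin.succAbove i) (b ∘ Fin.succAbove i),
        V (L (Fin.insertNth i t z)) i = 0 := fun i t ht => by
    refine setIntegral_eq_zero_of_forall_eq_zero fun z hz => h0 _ (hm _ ?_) i ?_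
    · refine Fin.insertNth_mem_Icc.2 ⟨?_, hz⟩
      rcases ht with rfl | rfl
      exacts [⟨le_rfl, hab i⟩, ⟨hab i, le_rfl⟩]
    · have : L (Fin.insertNth i t z) i = t := Fin.insertNth_apply_same (α := fun _ => ℝ) i t z
      rwa [this]
  rw [Finset.sum_eq_zero fun i _ => by
    rw [h2 i _ (Or.inr rfl), h2 i _ (Or.inl rfl), sub_self]] at h1
  rw [← (PiLp.volume_preserving_toLp (Fin 4)).setIntegral_preimage_emb
    (MeasurableEquiv.toLp 2 (Fin 4 → ℝ)).measurableEmbedding]
  have h3 : (WithLp.toLp 2 ⁻¹' {x : E4 | ∀ j, a j ≤ x j ∧ x j < b j}) =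
      univ.pi fun j => Ico (a j) (b j) := by
    ext z
    simp
  rw [h3]
  exact (setIntegral_congr_set Measure.univ_pi_Ico_ae_eq_Icc).trans h1

end Pool.Agent.Lib.MP_94aef8_gt
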