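import Pool.Agent.Lib.MP_94aef8_gt.J.AHar2

/-! Numerical inequalities outside the tube. -/

open scoped Manifold ContDiff Topology
open Matrix Filter Set MeasureTheory Real

namespace Pool.Agent.Lib.MP_94aef8_gt

theorem aco1_l {P : Par} (hP : P.Ok) : 0 < P.l ∧ P.l ≤ 1 / 50 ∧ 200 * P.ϱ ≤ P.l := by
  unfold Par.l
  refine ⟨?_, ?_, ?_⟩ <;> linarith [hP.δ0, hP.δ1, hP.ϱ1]

theorem aco1_u (x : E4) : 0 ≤ u01 x := by
  unfold u01
  positivity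

theorem aco1_R (x : E4) : 0 ≤ R3 x ∧ u01 x ≤ R3 x ^ 2 := by
  refine ⟨Real.sqrt_nonneg _, ?_⟩
  rw [R3, Real.sq_sqrt (add_nonneg (aco1_u x) (sq_nonneg _))]
  linarith [sq_nonneg (x 2)]

theorem aco1_om_one {P : Par} (hP : P.Ok) : P.om2 1 ≤ 1 := by
  obtain ⟨h0, h1, -⟩ := aco1_l hP
  obtain ⟨k0, k1⟩ := hP.ka_pos
  rw [Par.om2, if_neg (by linarith)]
  nlinarith

theorem aco1_mw (P : Par) (R : ℝ) : 0 ≤ P.mw R := by
  unfold Par.mw
  positivity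

theorem aco1_wH_ge {P : Par} (hP : P.Ok) {C : ℝ} (hC : 0 ≤ C) (x : E4) : -C ≤ P.wH C x := by
  have h1 := mul_nonneg (P.c2_mem x).1 (hP.ph_pos x).le
  have h2 := mul_nonneg (P.c3_mem x).1 (aco1_mw P (R3 x))
  unfold Par.wH
  split_ifs <;> linarith

theorem aco1_wH_in {P : Par} (hP : P.Ok) (C : ℝ) {x : E4} (h1 : P.l ^ 2 ≤ u01 x)
    (h2 : u01 x < 1) : P.ph x / 80 ≤ P.wH C x := by
  obtain ⟨l0, -, l2⟩ := aco1_l hP
  obtain ⟨r0, r1⟩ := aco1_R x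
  have h3 : P.l ≤ R3 x := (le_abs_self _).trans (abs_le_of_sq_le_sq (h1.trans r1) r0)
  have h4 : 3 ≤ R3 x / P.ϱ := by
    rw [le_div_iff₀ hP.ϱ0]
    linarith [hP.ϱ0]
  have h5 : P.c2 x = 1 := by
    rw [Par.c2, chI, chC, smoothTransition.one_of_one_le (by linarith),
      smoothTransition.one_of_one_le (by linarith), one_mul]
  have h6 := mul_nonneg (P.c3_mem x).1 (aco1_mw P (R3 x))
  rw [Par.wH, h5, if_neg (by linarith)]
  linarith

theorem aco1_ph {P : Par} (hP : P.Ok) {x : E4} (h1 : P.l ^ 2 ≤ u01 x) (h2 : u01 x < 1) :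
    P.om2 (min 1 (R3 x)) ≤ 2 * P.ph x ∧ 1 ≤ 4 * u01 x * P.ph x ^ 2 := by
  obtain ⟨l0, -, -⟩ := aco1_l hP
  obtain ⟨r0, r1⟩ := aco1_R x
  have hu : 0 < u01 x := lt_of_lt_of_le (by positivity) h1
  obtain ⟨w, hw⟩ : ∃ w, w = u01 x ^ (1 / 40 : ℝ) := ⟨_, rfl⟩
  have w0 : 0 < w := hw ▸ Real.rpow_pos_of_pos hu _
  have w1 : w ≤ 1 := hw ▸ Real.rpow_le_one hu.le h2.le (by norm_num)
  have wp : ∀ k : ℕ, w ^ k = u01 x ^ ((k : ℝ) / 40) := fun k => by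
    rw [hw, ← Real.rpow_natCast, ← Real.rpow_mul hu.le]
    congr 1
    ring
  have w40 : w ^ 40 = u01 x := by
    rw [wp]
    norm_num
  have hph : 1 / (2 * w ^ 39) ≤ P.ph x := by
    have a1 : (u01 x + P.l ^ 2) ^ (39 / 40 : ℝ) ≤ (2 * u01 x) ^ (39 / 40 : ℝ) :=
      Real.rpow_le_rpow (by positivity) (by linarith) (by norm_num)
    have a2 : (2 : ℝ) ^ (39 / 40 : ℝ) ≤ 2 := by
      simpa using Real.rpow_le_rpow_of_exponent_le (x := 2) (by norm_num)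
        (show (39 / 40 : ℝ) ≤ 1 by norm_num)
    have a3 : u01 x ^ (39 / 40 : ℝ) = w ^ 39 := by
      rw [wp]
      norm_num
    rw [Real.mul_rpow (by norm_num) hu.le, a3] at a1
    rw [Par.ph, Real.rpow_neg (by positivity), one_div]
    refine inv_anti₀ (Real.rpow_pos_of_pos (by positivity) _) (a1.trans ?_)
    gcongr
  have hka : P.ka ^ 2 ≤ w ^ 4 := by
    have a1 : P.ka ^ 2 = (P.l ^ 2) ^ (1 / 10 : ℝ) := by
      rw [Par.ka, ← Real.rpow_natCast, ← Real.rpow_natCast, ← Real.rpow_mul l0.le,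
        ← Real.rpow_mul l0.le, mul_comm]
    rw [a1, wp]
    exact (Real.rpow_le_rpow (by positivity) h1 (by norm_num)).trans_eq (by norm_num)
  have hs0 : 0 ≤ min 1 (R3 x) := le_min zero_le_one r0
  have hs : u01 x ≤ min 1 (R3 x) ^ 2 := by
    rcases le_total 1 (R3 x) with h | h
    · rw [min_eq_left h]
      linarith
    · rwa [min_eq_right h]
  have hl : P.l ≤ min 1 (R3 x) := (le_abs_self _).trans (abs_le_of_sq_le_sq (h1.trans hs) hs0)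
  have w39 : 0 < w ^ 39 := by positivity
  have hph' : 1 ≤ P.ph x * (2 * w ^ 39) := by rwa [div_le_iff₀ (by positivity)] at hph
  constructor
  · rw [Par.om2, if_neg (by linarith), add_zero]
    calc P.ka ^ 2 / min 1 (R3 x) ^ 2 ≤ w ^ 4 / w ^ 40 := by
          rw [w40]
          gcongr
      _ ≤ w / w ^ 40 := by
          gcongr
          simpa using pow_le_pow_of_le_one w0.le w1 (show 1 ≤ 4 by norm_num)
      _ = 2 * (1 / (2 * w ^ 39)) := by field_simp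
      _ ≤ 2 * P.ph x := by linarith
  · have a1 : w ^ 78 ≤ w ^ 40 := pow_le_pow_of_le_one w0.le w1 (by norm_num)
    have a2 : 1 ≤ (P.ph x * (2 * w ^ 39)) ^ 2 := one_le_pow₀ hph'
    have a3 : (P.ph x * (2 * w ^ 39)) ^ 2 = 4 * w ^ 78 * P.ph x ^ 2 := by ring
    rw [← w40]
    calc 1 ≤ 4 * w ^ 78 * P.ph x ^ 2 := a3 ▸ a2
      _ ≤ 4 * w ^ 40 * P.ph x ^ 2 := by gcongr

/-- Here `l ≤ R`, `3 ϱ ≤ R`, so `chI = 1`, `chA (R / l) = 0`, `s = min 1 R ≥ l / 5` and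
`om2 s = ka ^ 2 / s ^ 2`. Put `u = u01 x`, `τ = θ / (738 J)`.
For `1 ≤ u`: `s = 1`, `wH ≥ - C`, the bracket is at least `1 / 16`, and `τ C ≤ 1 / (16 J)`.
For `u < 1`: `wH = ph / 80`, `ph ≥ (2 u) ^ (-39/40) ≥ u ^ (-39/40) / 2 ≥ 1 / (2 √u)`,
`ka ^ 2 / s ^ 2 ≤ l ^ (1/5) / u ≤ u ^ (-9/10) ≤ 2 ph`. Let `u0 = (2 * 20 * 738 * 160 * J ^ 2)⁻¹ ^ 2`.
If `u ≤ u0` then `20 θ J ≤ τ ph / 160`; otherwise `20 θ ≤ (1 - θ) u / 4` for `θ ≤ u0 / 160`.
Finally `c * 2 ph * J ≤ τ ph / 160` for small `c`. -/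
theorem co_out {J C : ℝ} (hJ : 1 ≤ J) (hC : 0 ≤ C) : ∃ θ, 0 < θ ∧ θ ≤ 1 / 42 ∧ ∃ c0, 0 < c0 ∧
    ∀ c, 0 ≤ c → c ≤ c0 → ∀ P : Par, P.Ok → ∀ x ∈ P.Box, P.l ^ 2 ≤ u01 x → ∀ r, J⁻¹ ≤ r → r ≤ J →
      0 ≤ ((1 - θ) * (u01 x / 4) - 20 * θ - c * P.om2 (min 1 (R3 x))) * r +
        θ / (738 * J) * P.wH C x := by
  have J0 : 0 < J := by linarith
  obtain ⟨N, hN⟩ : ∃ N, N = 20 * 738 * 160 * J ^ 2 := ⟨_, rfl⟩
  have N0 : 0 < N := by rw [hN]; positivity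
  obtain ⟨u0, hu0⟩ : ∃ u0, u0 = 1 / (4 * N ^ 2) := ⟨_, rfl⟩
  have u00 : 0 < u0 := by rw [hu0]; positivity
  obtain ⟨θ, t0, t1, t2, t3⟩ : ∃ θ : ℝ, 0 < θ ∧ θ ≤ 1 / 200 ∧ θ ≤ 1 / (C + 1) ∧ θ ≤ u0 / 160 :=
    ⟨min (1 / 200) (min (1 / (C + 1)) (u0 / 160)), by positivity, min_le_left _ _,
      (min_le_right _ _).trans (min_le_left _ _), (min_le_right _ _).trans (min_le_right _ _)⟩
  obtain ⟨τ, hτ⟩ : ∃ τ, τ = θ / (738 * J) := ⟨_, rfl⟩
  have τ0 : 0 < τ := by rw [hτ]; positivity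
  refine ⟨θ, t0, by linarith, min (1 / 16) (τ / (320 * J)), by positivity, ?_⟩
  intro c c0 c1 P hP x _ hx r r1 r2
  have c2 : c ≤ 1 / 16 := c1.trans (min_le_left _ _)
  have c3 : c * (320 * J) ≤ τ := (le_div_iff₀ (by positivity)).1 (c1.trans (min_le_right _ _))
  have r0 : 0 < r := lt_of_lt_of_le (by positivity) r1
  rw [← hτ]
  rcases le_or_gt 1 (u01 x) with hu | hu
  · obtain ⟨a0, a1⟩ := aco1_R x
    have a2 : 1 ≤ R3 x := by nlinarith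
    have a3 := aco1_om_one hP
    have a4 := aco1_wH_ge hP hC x
    rw [min_eq_left a2]
    have a5 : 1 / 16 ≤ (1 - θ) * (u01 x / 4) - 20 * θ - c * P.om2 1 := by nlinarith
    have a6 : θ * C ≤ 1 := by
      rw [le_div_iff₀ (by positivity)] at t2
      nlinarith
    have a7 : τ * C ≤ 1 / 16 * J⁻¹ := by
      rw [hτ, div_mul_eq_mul_div, div_le_iff₀ (by positivity)]
      have : 1 / 16 * J⁻¹ * (738 * J) = 738 / 16 := by field_simp
      linarith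
    have a8 : 1 / 16 * J⁻¹ ≤ ((1 - θ) * (u01 x / 4) - 20 * θ - c * P.om2 1) * r :=
      mul_le_mul a5 r1 (by positivity) (by linarith)
    nlinarith
  · obtain ⟨a1, a2⟩ := aco1_ph hP hx hu
    have a3 := aco1_wH_in hP C hx hu
    have p0 := hP.ph_pos x
    have a4 : τ * (P.ph x / 80) ≤ τ * P.wH C x := by gcongr
    have a5 : c * P.om2 (min 1 (R3 x)) * r ≤ τ * P.ph x / 160 := by
      calc c * P.om2 (min 1 (R3 x)) * r ≤ c * (2 * P.ph x) * r := by gcongr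
        _ ≤ c * (2 * P.ph x) * J := by gcongr
        _ = c * (320 * J) * P.ph x / 160 := by ring
        _ ≤ τ * P.ph x / 160 := by gcongr
    have a6 : -(τ * P.ph x / 160) ≤ ((1 - θ) * (u01 x / 4) - 20 * θ) * r := by
      have u1 := aco1_u x
      rcases le_or_gt (u01 x) u0 with h | h
      · have b1 : N ^ 2 ≤ P.ph x ^ 2 := by
          have b2 : 4 * u01 x * P.ph x ^ 2 ≤ 4 * u0 * P.ph x ^ 2 := by gcongr
          have b3 : 4 * u0 * P.ph x ^ 2 = P.ph x ^ 2 / N ^ 2 := by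
            rw [hu0]
            field_simp
          have b4 : 1 ≤ P.ph x ^ 2 / N ^ 2 := by linarith
          rwa [le_div_iff₀ (by positivity), one_mul] at b4
        have b5 : N ≤ P.ph x := (le_abs_self _).trans (abs_le_of_sq_le_sq b1 p0.le)
        have b6 : τ * N / 160 = 20 * θ * J := by
          rw [hτ, hN]
          field_simp
        have b7 : τ * N / 160 ≤ τ * P.ph x / 160 := by gcongr
        have b8 : 20 * θ * r ≤ 20 * θ * J := by gcongr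
        have b9 : 0 ≤ (1 - θ) * (u01 x / 4) * r :=
          mul_nonneg (mul_nonneg (by linarith) (by linarith)) r0.le
        linarith
      · have b1 : 0 ≤ (1 - θ) * (u01 x / 4) - 20 * θ := by nlinarith
        have b2 := mul_nonneg b1 r0.le
        have b3 : 0 ≤ τ * P.ph x / 160 := by positivity
        linarith
    linarith

theorem Par.Ok.om2_one {P : Par} (hP : P.Ok) : P.om2 1 ≤ 1 := aco1_om_one hP

theorem Par.Ok.om2_le {P : Par} (hP : P.Ok) {s : ℝ} (hs : P.ϱ ≤ s) :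
    0 ≤ P.om2 s ∧ P.om2 s ≤ 2 * (P.ϱ ^ 2)⁻¹ := by
  obtain ⟨k0, k1⟩ := hP.ka_pos
  have r0 := hP.ϱ0
  have s0 := hP.s0_pos
  have h0 : 0 < s := by linarith
  have h1 : P.ka ^ 2 / s ^ 2 ≤ (P.ϱ ^ 2)⁻¹ := by
    rw [← one_div]
    gcongr
    nlinarith
  have h2 : 1 / (s ^ 2 * (1 + s / P.s0) ^ 2) ≤ (P.ϱ ^ 2)⁻¹ := by
    rw [← one_div]
    gcongr
    have h3 : 1 ≤ (1 + s / P.s0) ^ 2 := one_le_pow₀ (le_add_of_nonneg_right (by positivity))
    calc P.ϱ ^ 2 ≤ s ^ 2 * 1 := by rw [mul_one]; gcongr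
      _ ≤ _ := by gcongr
  have h4 : 0 ≤ (P.ϱ ^ 2)⁻¹ := by positivity
  unfold Par.om2
  split_ifs
  · exact ⟨by positivity, by linarith⟩
  · exact ⟨by positivity, by linarith⟩

theorem Par.measurable_om2 (P : Par) : Measurable P.om2 := by
  unfold Par.om2
  refine Measurable.add (by fun_prop) (Measurable.ite measurableSet_Iio (by fun_prop) (by fun_prop))

theorem Par.Ok.wH_nonneg {P : Par} (hP : P.Ok) (C : ℝ) {x : E4} (hx : u01 x < 1) :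
    0 ≤ P.wH C x := by
  have h1 := mul_nonneg (P.c2_mem x).1 (hP.ph_pos x).le
  have h2 := mul_nonneg (P.c3_mem x).1 (aco1_mw P (R3 x))
  rw [Par.wH, if_neg (by linarith)]
  linarith

end Pool.Agent.Lib.MP_94aef8_gt
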