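import Pool.Agent.Lib.MP_94aef8_gt.J.AHar2

/-! Numerical inequalities in the tube. -/

open scoped Manifold ContDiff Topology
open Matrix Filter Set MeasureTheory Real

namespace Pool.Agent.Lib.MP_94aef8_gt

theorem aco2_root {l : ℝ} (hl : 0 < l) :
    ∃ m : ℝ, 0 < m ∧ m ^ 20 = l ∧ l ^ (1 / 10 : ℝ) = m ^ 2 := by
  refine ⟨l ^ (1 / 20 : ℝ), Real.rpow_pos_of_pos hl _, ?_, ?_⟩
  · rw [← Real.rpow_natCast, ← Real.rpow_mul hl.le]
    norm_num
  · rw [← Real.rpow_natCast, ← Real.rpow_mul hl.le]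
    norm_num

theorem aco2_ph {m t : ℝ} (hm : 0 < m) (ht : 0 < t) (h : t ≤ 2 * m ^ 40) :
    1 / (2 * m ^ 39) ≤ t ^ (-(39 / 40) : ℝ) := by
  rw [Real.rpow_neg ht.le, one_div]
  refine inv_anti₀ (Real.rpow_pos_of_pos ht _) ?_
  refine (Real.rpow_le_rpow ht.le h (by norm_num)).trans ?_
  have h1 : (m ^ 40) ^ (39 / 40 : ℝ) = m ^ 39 := by
    rw [← Real.rpow_natCast, ← Real.rpow_mul hm.le, ← Real.rpow_natCast]
    norm_num
  have h2 : (2 : ℝ) ^ (39 / 40 : ℝ) ≤ 2 :=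
    (Real.rpow_le_rpow_of_exponent_le one_le_two (by norm_num : (39 / 40 : ℝ) ≤ 1)).trans
      (Real.rpow_one 2).le
  rw [Real.mul_rpow (by norm_num) (by positivity), h1]
  exact mul_le_mul_of_nonneg_right h2 (by positivity)

theorem aco2_near {m R : ℝ} (hm : 0 < m) (hm1 : m ≤ 1 / 4) (hR : 0 < R) (h : R < m ^ 20 / 5) :
    (m ^ 2) ^ 2 / R ^ 2 ≤ 2 * (1 / (R ^ 2 * (1 + R / (m ^ 20 * m ^ 2)) ^ 2)) := by
  have h1 : m ^ 2 * (1 + R / (m ^ 20 * m ^ 2)) = m ^ 2 + R / m ^ 20 := by field_simp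
  have h2 : R / m ^ 20 ≤ 1 / 5 := by
    rw [div_le_iff₀ (by positivity)]
    linarith
  have h3 : m ^ 2 ≤ 1 := by nlinarith
  have h4 : 0 ≤ m ^ 2 + R / m ^ 20 := by positivity
  have h5 : (m ^ 2 * (1 + R / (m ^ 20 * m ^ 2))) ^ 2 ≤ 2 := by
    rw [h1]
    nlinarith
  have h6 : 0 < 1 + R / (m ^ 20 * m ^ 2) := by positivity
  generalize 1 + R / (m ^ 20 * m ^ 2) = y at h5 h6
  rw [mul_one_div, div_le_div_iff₀ (by positivity) (by positivity)]
  have h7 := mul_le_mul_of_nonneg_right h5 (sq_nonneg R)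
  linarith

theorem aco2_far {m R : ℝ} (hm : 0 < m) (hm1 : m ≤ 1 / 4) (h : m ^ 20 / 5 ≤ R) :
    (m ^ 2) ^ 2 / R ^ 2 ≤ 1 / (2 * m ^ 39) := by
  have hR : 0 < R := lt_of_lt_of_le (by positivity) h
  have h1 : (m ^ 20 / 5) ^ 2 ≤ R ^ 2 := pow_le_pow_left₀ (by positivity) h 2
  have h2 : m ^ 3 ≤ (1 / 4) ^ 3 := pow_le_pow_left₀ hm.le hm1 3
  have h3 := mul_le_mul_of_nonneg_left h2 (by positivity : 0 ≤ m ^ 40)
  have h4 : 0 < m ^ 40 := by positivity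
  rw [div_le_div_iff₀ (by positivity) (by positivity)]
  linarith

theorem aco2_out {m R r k : ℝ} (hm : 0 < m) (hm1 : m ≤ 1) (hk : 0 ≤ k) (hr : r ≤ k * m ^ 40)
    (h : m ^ 20 * m ^ 2 ≤ R) : r / R ^ 3 + 1 / R ≤ (k + 1) * m / m ^ 39 := by
  have hR : 0 < R := lt_of_lt_of_le (by positivity) h
  have h1 : r / R ^ 3 ≤ k * m ^ 40 / (m ^ 20 * m ^ 2) ^ 3 :=
    div_le_div₀ (by positivity) hr (by positivity) (pow_le_pow_left₀ (by positivity) h 3)
  have h2 : 1 / R ≤ 1 / (m ^ 20 * m ^ 2) := one_div_le_one_div_of_le (by positivity) h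
  have h3 : k * m ^ 40 / (m ^ 20 * m ^ 2) ^ 3 = k * m ^ 12 * (m / m ^ 39) := by field_simp
  have h4 : 1 / (m ^ 20 * m ^ 2) = m ^ 16 * (m / m ^ 39) := by field_simp
  have h5 : m ^ 12 ≤ 1 := pow_le_one₀ hm.le hm1
  have h6 : m ^ 16 ≤ 1 := pow_le_one₀ hm.le hm1
  have h7 : k * m ^ 12 + m ^ 16 ≤ k + 1 := by nlinarith
  have h8 := mul_le_mul_of_nonneg_right h7 (by positivity : 0 ≤ m / m ^ 39)
  rw [mul_div_assoc]
  linarith

theorem aco2_inn {s R r A : ℝ} (hR : 0 < R) (hA : 0 < A) (hr : A * r ≤ R) (h : R ≤ s) :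
    r / R ^ 3 + 1 / R ≤ (4 / A + 4 * s) * (1 / (R ^ 2 * (1 + R / s) ^ 2)) := by
  have hs : 0 < s := hR.trans_le h
  have h1 : R / s ≤ 1 := (div_le_one hs).2 h
  have h2 : 0 < R / s := by positivity
  have h3 : 1 / (R ^ 2 * 2 ^ 2) ≤ 1 / (R ^ 2 * (1 + R / s) ^ 2) :=
    one_div_le_one_div_of_le (by positivity)
      (mul_le_mul_of_nonneg_left (pow_le_pow_left₀ (by positivity) (by linarith) 2) (sq_nonneg R))
  refine le_trans ?_ (mul_le_mul_of_nonneg_left h3 (by positivity))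
  have h4 : r ≤ R / A := by rwa [le_div_iff₀ hA, mul_comm]
  have h5 : r / R ^ 3 ≤ R / A / R ^ 3 := div_le_div_of_nonneg_right h4 (by positivity)
  have h6 : R / R ^ 2 ≤ s / R ^ 2 := div_le_div_of_nonneg_right h (by positivity)
  have h7 : (4 / A + 4 * s) * (1 / (R ^ 2 * 2 ^ 2)) = R / A / R ^ 3 + s / R ^ 2 := by
    field_simp
    ring
  have h8 : 1 / R = R / R ^ 2 := by field_simp
  rw [h7, h8]
  linarith

/-- Here `chI = 1`, `chC = 1`, `u01 x < 1`, `R ≤ 2 l`. Put `λ = l ^ (1 / 20)`, so `l = λ ^ 20`,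
`ka = λ ^ 2`, `s0 = λ ^ 22`, `ϱ ≤ K ^ 2 λ ^ 40` (`rho_sq`), `ph ≥ 1 / (2 λ ^ 39)`, `λ` small,
`wH = ph / 80 + chA (R / l) * mw R / 2`.
The weight: for `R < l / 5` one has `chA = 1` and `ka ^ 2 / R ^ 2 ≤ 2 mw R` (because
`ka (1 + R / s0) = ka + R / l ≤ 6 / 5`), so `om2 R ≤ 3 mw R`; for `l / 5 ≤ R`,
`om2 R = ka ^ 2 / R ^ 2 ≤ 25 / λ ^ 36 ≤ ph`.
The potential: for `s0 ≤ R`, `ϱ / R ^ 3 + 1 / R ≤ (K ^ 2 + 1) / λ ^ 26`, small against `ph`; for
`R ≤ s0` (then `R < l / 5`) `mw R ≥ 1 / (4 R ^ 2)`, `ϱ / R ^ 3 + 1 / R ≤ (4 / A + 4 s0) mw R`. -/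
theorem co_in {τ C1 : ℝ} (hτ : 0 < τ) (h1 : 0 ≤ C1) : ∃ c0, 0 < c0 ∧ ∃ A, 3 ≤ A ∧ ∀ K : ℕ,
    ∃ l0, 0 < l0 ∧ ∀ c, 0 ≤ c → c ≤ c0 → ∀ P : Par, P.Geom → P.K = K → P.l ≤ l0 → ∀ x ∈ P.Box,
      u01 x ≤ P.l ^ 2 → A * P.ϱ ≤ R3 x → ∀ C,
        C1 * (P.ϱ / R3 x ^ 3 + 1 / R3 x) + c * P.om2 (R3 x) ≤ τ * P.wH C x := by
  have hA3 : 3 ≤ 3 + 32 * C1 / τ := le_add_of_nonneg_right (by positivity)
  refine ⟨τ / 160, by positivity, 3 + 32 * C1 / τ, hA3, fun K =>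
    ⟨(min (1 / 4) (τ / (320 * (C1 + 1) * ((K : ℝ) ^ 2 + 1)))) ^ 20, by positivity, ?_⟩⟩
  rintro c hc0 hc P hP rfl hl x - hu hR C
  have hO := hP.toOk
  have hϱ := hO.ϱ0
  have hl0 := hO.l_pos
  have hl1 := hO.l_le
  obtain ⟨m, hm, e1, e2⟩ := aco2_root hl0
  rw [← e1, pow_le_pow_iff_left₀ hm.le (by positivity) (by norm_num), le_min_iff,
    le_div_iff₀ (c := 320 * (C1 + 1) * ((P.K : ℝ) ^ 2 + 1)) (by positivity)] at hl
  obtain ⟨hm1, hm2⟩ := hl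
  have hR3 : 3 * P.ϱ ≤ R3 x := (mul_le_mul_of_nonneg_right hA3 hϱ.le).trans hR
  have hR0 : 0 < R3 x := by linarith
  have hu0 := Par.anum2_u_nonneg x
  have hu1 : u01 x < 1 := by nlinarith
  have hI : chI (R3 x / P.ϱ) = 1 := by
    refine smoothTransition.one_of_one_le ?_
    have : 3 ≤ R3 x / P.ϱ := by rwa [le_div_iff₀ hϱ]
    linarith
  have hC : chC (u01 x) = 1 := smoothTransition.one_of_one_le (by linarith)
  have ha0 : 0 ≤ chA (R3 x / P.l) := smoothTransition.nonneg _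
  have ha1 : R3 x ≤ P.l / 5 → chA (R3 x / P.l) = 1 := fun h => by
    refine smoothTransition.one_of_one_le ?_
    have : R3 x / P.l ≤ 1 / 5 := by
      rw [div_le_iff₀ hl0]
      linarith
    linarith
  have hph : 1 / (2 * m ^ 39) ≤ P.ph x := by
    refine aco2_ph hm (by positivity) ?_
    have : P.l ^ 2 = m ^ 40 := by
      rw [← e1]
      ring
    linarith
  have hka : P.ka = m ^ 2 := e2
  have hs0 : P.s0 = m ^ 20 * m ^ 2 := by rw [Par.s0, hka, e1]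
  have hrho : P.ϱ ≤ (P.K : ℝ) ^ 2 * m ^ 40 := by
    have h := hP.rho_sq
    rw [← e1] at h
    linarith
  have hph0 := hO.ph_pos x
  have hmw : P.mw (R3 x) = 1 / (R3 x ^ 2 * (1 + R3 x / (m ^ 20 * m ^ 2)) ^ 2) := by
    rw [Par.mw, hs0]
  have hmw0 : 0 < P.mw (R3 x) := by
    rw [hmw]
    positivity
  have hW : P.wH C x = P.ph x / 80 + chA (R3 x / P.l) * P.mw (R3 x) / 2 := by
    rw [Par.wH, Par.c2, Par.c3, hI, hC, if_neg (not_le.2 hu1)]
    ring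
  have ham := mul_nonneg ha0 hmw0.le
  have hW0 : 0 ≤ P.wH C x := by
    rw [hW]
    positivity
  have k1 : P.om2 (R3 x) ≤ 80 * P.wH C x := by
    rw [Par.om2, hka, hs0, hW]
    split_ifs with h
    · have h2 := aco2_near hm hm1 hR0 (by rwa [e1])
      rw [ha1 h.le]
      rw [← hmw] at h2 ⊢
      linarith
    · have h2 := aco2_far hm hm1 (R := R3 x) (by rw [e1]; exact not_lt.1 h)
      linarith
  have k2 : C1 * (P.ϱ / R3 x ^ 3 + 1 / R3 x) ≤ τ / 2 * P.wH C x := by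
    have hK : 0 ≤ (P.K : ℝ) ^ 2 := sq_nonneg _
    have hm3 : 320 * (C1 * (((P.K : ℝ) ^ 2 + 1) * m)) ≤ τ := by
      have : 0 ≤ ((P.K : ℝ) ^ 2 + 1) * m := by positivity
      linarith
    rcases le_total (m ^ 20 * m ^ 2) (R3 x) with h | h
    · have h2 := mul_le_mul_of_nonneg_left (aco2_out hm (by linarith) hK hrho h) h1
      have h3 : C1 * (((P.K : ℝ) ^ 2 + 1) * m / m ^ 39) ≤ τ / 320 / m ^ 39 := by
        rw [← mul_div_assoc]
        exact div_le_div_of_nonneg_right (by linarith) (by positivity)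
      have h4 : τ / 320 / m ^ 39 = τ / 160 * (1 / (2 * m ^ 39)) := by
        field_simp
        norm_num
      have h5 := mul_le_mul_of_nonneg_left hph (by positivity : 0 ≤ τ / 160)
      have h6 := mul_nonneg hτ.le ham
      rw [hW]
      linarith
    · have hm4 : m ^ 2 ≤ 1 / 5 := by nlinarith
      have h2 : R3 x ≤ P.l / 5 := by
        have := mul_le_mul_of_nonneg_left hm4 (by positivity : 0 ≤ m ^ 20)
        rw [← e1]
        linarith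
      have h3 := mul_le_mul_of_nonneg_left (aco2_inn hR0 (by linarith) hR h) h1
      have h4 : C1 * (4 / (3 + 32 * C1 / τ)) ≤ τ / 8 := by
        rw [← mul_div_assoc, div_le_iff₀ (by linarith)]
        have : τ / 8 * (3 + 32 * C1 / τ) = 3 * τ / 8 + C1 * 4 := by
          field_simp
          ring
        linarith
      have h5 : m ^ 20 * m ^ 2 ≤ m := by
        have := mul_le_mul_of_nonneg_right (pow_le_one₀ (n := 21) hm.le (by linarith)) hm.le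
        linarith
      have h6 : C1 * (4 * (m ^ 20 * m ^ 2)) ≤ τ / 8 := by
        have h7 := mul_le_mul_of_nonneg_left h5 h1
        have h8 : 0 ≤ C1 * ((P.K : ℝ) ^ 2 * m) := by positivity
        linarith
      have h7 := mul_le_mul_of_nonneg_right (add_le_add h4 h6) hmw0.le
      have h8 := mul_pos hτ hph0
      rw [← hmw] at h3
      rw [hW, ha1 h2]
      linarith
  have k3 := mul_le_mul_of_nonneg_left k1 hc0
  have k4 := mul_le_mul_of_nonneg_right hc hW0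
  linarith

end Pool.Agent.Lib.MP_94aef8_gt
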