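import Pool.Agent.Lib.MP_94aef8_gt.J.APot
import Pool.Agent.Lib.MP_94aef8_gt.J.ACo1
import Pool.Agent.Lib.MP_94aef8_gt.J.ACo2

/-! The pointwise inequality behind the coercivity estimate. -/

open scoped Manifold ContDiff Topology
open Matrix Filter Set MeasureTheory Real

namespace Pool.Agent.Lib.MP_94aef8_gt

/-- The zero order part of the integrand. -/
noncomputable def AP.FF {P : Par} {A : Arith P.K} {D : MD P A} (a : AP D) (h : D.M → Mat)
    (θ c B C : ℝ) (m : D.M) : ℝ :=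
  (1 - θ) * GKoi a.g h m + θ * GPot a.g h m +
    (if a.s m < B * P.ϱ then C * (P.ϱ ^ 2)⁻¹ else 0) * n0 a.g h m - c * P.om2 (a.s m) * n0 a.g h m

/-- A lower bound for the integrand from lower bounds for the two potentials. -/
theorem aco3_ge {P : Par} {A : Arith P.K} {D : MD P A} (a : AP D) (h : D.M → Mat) {θ B C : ℝ}
    (c : ℝ) (m : D.M) (h0 : 0 ≤ θ) (h1 : θ ≤ 1) (hC : 0 ≤ C) {u v : ℝ}
    (hu : u * n0 a.g h m ≤ GKoi a.g h m) (hv : v * n0 a.g h m ≤ GPot a.g h m) :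
    ((1 - θ) * u + θ * v - c * P.om2 (a.s m)) * n0 a.g h m ≤ a.FF h θ c B C m := by
  have f0 : 0 ≤ n0 a.g h m := ji_ipM_nonneg (a.good.pos m) _
  have e1 := mul_le_mul_of_nonneg_left hu (sub_nonneg.2 h1)
  have e2 := mul_le_mul_of_nonneg_left hv h0
  have e3 : 0 ≤ (if a.s m < B * P.ϱ then C * (P.ϱ ^ 2)⁻¹ else 0) * n0 a.g h m := by
    refine mul_nonneg ?_ f0
    split_ifs
    · positivity
    · exact le_rfl
  rw [AP.FF]
  linarith

/-- Near the bolts. -/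
theorem aco3_near {P : Par} (hP : P.Geom) {A : Arith P.K} {D : MD P A} (a : AP D) (h : D.M → Mat)
    {θ c B C : ℝ} (m : D.M) (h0 : 0 ≤ θ) (h1 : θ ≤ 1) (hc : c ≤ 1)
    (hu : -(C * (P.ϱ ^ 2)⁻¹) * n0 a.g h m ≤ GKoi a.g h m)
    (hv : -(C * (P.ϱ ^ 2)⁻¹) * n0 a.g h m ≤ GPot a.g h m) (hs : a.s m < B * P.ϱ) :
    0 ≤ a.FF h θ c B (C + 2) m := by
  have f0 : 0 ≤ n0 a.g h m := ji_ipM_nonneg (a.good.pos m) _
  have e1 := mul_le_mul_of_nonneg_left hu (sub_nonneg.2 h1)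
  have e2 := mul_le_mul_of_nonneg_left hv h0
  obtain ⟨e3, e4⟩ := hP.toOk.om2_le (a.rho_le_s hP m).1
  have e5 := mul_le_mul_of_nonneg_right ((mul_le_of_le_one_left e3 hc).trans e4) f0
  rw [AP.FF, if_pos hs]
  linarith

/-- Take `θ`, `c0` from `co_out`, `C1` from `pot_tube`, `c0'`, `B` from `co_in` with
`τ = θ / (738 J ^ 2)`, `c = min 1/2 c0 c0'`, `C = C2 + 2` with `C2` from `pot_all`.
Put `f = n0 h m ≥ 0` (`ji_ipM_nonneg`). On a box `s = min 1 R` (`s_T`; `Box ⊆ UT` is elementary).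
If `l ^ 2 ≤ u`: `pot_out`, `co_out`. If `u ≤ l ^ 2` then `s = R`; for `B ϱ ≤ R` use `pot_tube`
(`x ∈ A3`), `co_in` and `r ≤ J`; for `R < B ϱ` use `pot_all`, `om2_le`, `wH_nonneg`, so `0 ≤ FF`.
Outside the boxes `pot_rest`: either `s ≤ 3 ϱ < B ϱ` (replace `B` by `B + 1`; the statement of
`co_in` is monotone in `B`), or `s = 1` and `(1 - θ) - 20 θ - c ≥ 0` (`om2_one`). -/
theorem co_pt {J H : ℝ} (hJ : 1 ≤ J) (hH : 0 ≤ H) : ∃ θ c B C : ℝ, 0 < θ ∧ θ ≤ 1 ∧ 0 < c ∧ 3 ≤ B ∧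
    0 ≤ C ∧ ∀ K : ℕ, ∃ l0, 0 < l0 ∧ ∀ P : Par, P.Geom → P.K = K → P.l ≤ l0 →
      ∀ (A : Arith P.K) (D : MD P A) (a : AP D) (h : D.M → Mat), (∀ x, (h x).IsSymm) →
        (∀ e j, ∀ x ∈ P.Box, ∀ r, J⁻¹ ≤ r → r ≤ J → 0 ≤ a.FF h θ c B C (D.pT e j x) * r +
          θ / (738 * J) * (P.wH H x * n0 a.g h (D.pT e j x))) ∧
        ∀ m, (∀ e (j : Fin (P.K / 2)), m ∉ D.pT e (j : ℕ) '' P.Box) → 0 ≤ a.FF h θ c B C m := by
  obtain ⟨θ, θ0, θ1, c0, hc0, hout⟩ := co_out hJ hH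
  obtain ⟨C1, hC1, htube⟩ := pot_tube
  obtain ⟨C2, hC2, hall⟩ := pot_all
  obtain ⟨δ1, hδ1, hpo⟩ := pot_out
  obtain ⟨δ2, hδ2, hrest⟩ := pot_rest
  have J0 : 0 < J := by linarith
  obtain ⟨c1, hc1, B, hB, hin⟩ := co_in (τ := θ / (738 * J ^ 2)) (by positivity) hC1
  obtain ⟨c, c0', ca, cb, cd⟩ : ∃ c : ℝ, 0 < c ∧ c ≤ 1 / 2 ∧ c ≤ c0 ∧ c ≤ c1 :=
    ⟨min (1 / 2) (min c0 c1), by positivity, min_le_left _ _,
      (min_le_right _ _).trans (min_le_left _ _), (min_le_right _ _).trans (min_le_right _ _)⟩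
  have θ2 : θ ≤ 1 := by linarith
  refine ⟨θ, c, B + 1, C2 + 2, θ0, θ2, c0', by linarith, by linarith, fun K => ?_⟩
  obtain ⟨l1, hl1, hin'⟩ := hin K
  refine ⟨min l1 (min δ1 δ2), by positivity, fun P hP hK hl A D a h hs => ?_⟩
  have hO := hP.toOk
  have l0 := hO.l_pos
  have l2 := hO.l_le
  have ϱ0 := hO.ϱ0
  have d0 : P.δ ≤ P.l := by
    rw [Par.l]
    linarith [hO.δ0]
  have d1 : P.δ ≤ δ1 := d0.trans (hl.trans ((min_le_right _ _).trans (min_le_left _ _)))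
  have d2 : P.δ ≤ δ2 := d0.trans (hl.trans ((min_le_right _ _).trans (min_le_right _ _)))
  have near : ∀ m, a.s m < (B + 1) * P.ϱ → 0 ≤ a.FF h θ c (B + 1) (C2 + 2) m := fun m hm =>
    aco3_near hP a h m θ0.le θ2 (by linarith) (hall P hP A D a h m).1 (hall P hP A D a h m).2 hm
  refine ⟨fun e j x hx r r1 r2 => ?_, fun m hm => ?_⟩
  · have f0 : 0 ≤ n0 a.g h (D.pT e j x) := ji_ipM_nonneg (a.good.pos _) _
    have r0 : 0 ≤ r := (inv_pos.2 J0).le.trans r1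
    obtain ⟨x1, x2, x3, -, -, x4⟩ := id hx
    have x5 : |x 2| ≤ P.l / 2 := abs_le.2 ⟨x2, x3.le⟩
    have hS := a.s_T hO e j (x := x) ⟨by linarith, by linarith, by linarith⟩ x5
    rcases le_total (P.l ^ 2) (u01 x) with hu | hu
    · obtain ⟨p1, p2⟩ := hpo P hO d1 A D a h hs e j x hu x1.le
      have g1 := aco3_ge a h c _ θ0.le θ2 (B := B + 1) (C := C2 + 2) (by linarith) p1 p2
      have g2 := mul_nonneg (hout c c0'.le cb P hO x hx hu r r1 r2) f0
      have g3 := mul_le_mul_of_nonneg_right g1 r0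
      rw [hS] at g3
      linarith
    · have u1 : u01 x < 1 := by nlinarith
      have w0 := mul_nonneg (hO.wH_nonneg H u1) f0
      have R1 : R3 x ≤ 1 := by
        refine le_of_sq_le_sq ?_ zero_le_one
        have := sq_le_sq' x2 x3.le
        rw [R3_sq]
        nlinarith
      rw [min_eq_right R1] at hS
      rcases lt_or_ge (R3 x) ((B + 1) * P.ϱ) with hR | hR
      · exact add_nonneg (mul_nonneg (near _ (hS ▸ hR)) r0) (mul_nonneg (by positivity) w0)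
      · have hR' : B * P.ϱ ≤ R3 x := by linarith
        have h3 : 3 * P.ϱ ≤ B * P.ϱ := mul_le_mul_of_nonneg_right hB ϱ0.le
        obtain ⟨p1, p2⟩ := htube P hP A D a h e j x ⟨by nlinarith, by linarith, by linarith⟩
        have g1 := aco3_ge a h c _ θ0.le θ2 (B := B + 1) (C := C2 + 2) (by linarith) p1 p2
        have g2 := mul_le_mul_of_nonneg_right
          (hin' c c0'.le cd P hP hK (hl.trans (min_le_left _ _)) x hx hu hR' H) f0
        rw [hS] at g1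
        have g3 : -(θ / (738 * J ^ 2) * (P.wH H x * n0 a.g h (D.pT e j x))) ≤
            a.FF h θ c (B + 1) (C2 + 2) (D.pT e j x) := by linarith
        have g4 := mul_le_mul_of_nonneg_right g3 r0
        have g5 := mul_le_mul_of_nonneg_left r2
          (mul_nonneg (show 0 ≤ θ / (738 * J ^ 2) by positivity) w0)
        have g6 : θ / (738 * J ^ 2) * (P.wH H x * n0 a.g h (D.pT e j x)) * J =
            θ / (738 * J) * (P.wH H x * n0 a.g h (D.pT e j x)) := by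
          field_simp
        linarith
  · rcases hrest P hP d2 A D a h hs m hm with h1 | ⟨h1, h2, h3⟩
    · exact near m (by nlinarith)
    · refine le_trans (mul_nonneg ?_ (ji_ipM_nonneg (a.good.pos m) _))
        (aco3_ge a h c m θ0.le θ2 (by linarith) ((one_mul _).trans_le h2) h3)
      have := mul_le_mul_of_nonneg_left hO.om2_one c0'.le
      rw [h1]
      linarith

end Pool.Agent.Lib.MP_94aef8_gt
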