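import Pool.Agent.Lib.MP_94aef8_gt.J.AF3

/-! The patches of the tube. -/

open scoped Manifold ContDiff Topology
open Matrix Filter Set MeasureTheory Real

namespace Pool.Agent.Lib.MP_94aef8_gt

theorem af3b_u01 (c : ℝ) (x : E4) : u01 (c • x) = c ^ 2 * u01 x := by
  simp only [u01, PiLp.smul_apply, smul_eq_mul]
  ring

theorem af3b_l01 (c : ℝ) (x : E4) : l01 (c • x) = c • l01 x := by
  ext i
  fin_cases i <;> simp [l01]

theorem af3b_sq1 (c : ℝ) (a : Fin 4 → ℝ) : sq1 (c • a) = c ^ 2 • sq1 a := by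
  ext i j
  simp only [sq1, vecMulVec_apply, Pi.smul_apply, Matrix.smul_apply, smul_eq_mul]
  ring

theorem af3b_sym2 (c : ℝ) (a b : Fin 4 → ℝ) : sym2 (c • a) b = c • sym2 a b := by
  ext i j
  simp only [sym2, vecMulVec_apply, Pi.smul_apply, Matrix.smul_apply, Matrix.add_apply, smul_eq_mul]
  ring

theorem af3b_qsq (a Z : Fin 4 → ℝ) : Z ⬝ᵥ sq1 a *ᵥ Z = (a ⬝ᵥ Z) ^ 2 := by
  simp only [sq1, dotProduct, mulVec, vecMulVec_apply, Fin.sum_univ_four]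
  ring

theorem af3b_qsym (a b Z : Fin 4 → ℝ) : Z ⬝ᵥ sym2 a b *ᵥ Z = 2 * (a ⬝ᵥ Z) * (b ⬝ᵥ Z) := by
  simp only [sym2, dotProduct, mulVec, vecMulVec_apply, Fin.sum_univ_four, Matrix.add_apply]
  ring

theorem af3b_ee (i : Fin 4) (Z : Fin 4 → ℝ) : ee i ⬝ᵥ Z = Z i := by simp [ee]

theorem af3b_R3 (x : E4) : 0 ≤ R3 x := Real.sqrt_nonneg _

theorem SWf_scale {c : ℝ} (hc : 0 < c) (a b : ℝ) (x : E4) :
    SWf (c * a) b (c • x) = SWf a (c * b) x := by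
  have e : (![(c • x) 0, (c • x) 1, (c • x) 2, 0] : Fin 4 → ℝ) = c • ![x 0, x 1, x 2, 0] := by
    ext i
    fin_cases i <;> simp
  have e1 : c * a / ((c * R3 x - c * a) * (c * R3 x) ^ 2) * c ^ 2 =
      a / ((R3 x - a) * R3 x ^ 2) := by
    rw [show (c * R3 x - c * a) * (c * R3 x) ^ 2 = c ^ 3 * ((R3 x - a) * R3 x ^ 2) by ring,
      div_mul_eq_mul_div, show c * a * c ^ 2 = c ^ 3 * a by ring,
      mul_div_mul_left _ _ (pow_pos hc 3).ne']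
  simp only [SWf, GSW]
  rw [e, af3b_sq1, af3b_l01, af3b_sym2, af3b_u01, R3_smul hc.le, smul_smul, smul_smul, e1,
    mul_div_mul_left _ _ hc.ne', mul_comm b c, mul_pow c b, ← mul_assoc, mul_comm (b ^ 2)]

theorem GBH_scale (c b : ℝ) (x : E4) : GBH b (c • x) = GBHm c (c * b) x := by
  have e : rB (c • x) = rM c x := by rw [rB, rM, af3b_u01]
  have e1 : c • l01 x + (b * (c ^ 2 * u01 x)) • ee 3 = c • (l01 x + (c * b * u01 x) • ee 3) := by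
    rw [smul_add, smul_smul]
    congr 2
    ring
  simp only [GBH, GBHm]
  rw [e, af3b_l01, af3b_sym2, af3b_u01, e1, af3b_sq1, smul_smul b, smul_smul _ (c ^ 2),
    mul_comm b c]
  congr 3
  · congr 2
    ring
  · ring

/-- The metrics do not depend on the last coordinate. -/
theorem GTm_congr (a il b μ : ℝ) {x x' : E4} (h0 : x 0 = x' 0) (h1 : x 1 = x' 1) (h2 : x 2 = x' 2) :
    GTm a il b μ x = GTm a il b μ x' := by
  have e1 : u01 x = u01 x' := by rw [u01, u01, h0, h1]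
  have e2 : R3 x = R3 x' := by rw [R3, R3, e1, h2]
  have e3 : l01 x = l01 x' := by rw [l01, l01, h0, h1]
  simp only [GTm, SWf, GSW, GBHm, rM, e1, e2, e3, h0, h1, h2]

theorem T3_zero (q : E4) : T3 q 0 = q := by simp [T3]

namespace Par

/-- The parameters of the patch with centre `q`. -/
noncomputable def z3 (P : Par) (q : E4) : E4 × ℝ × ℝ × ℝ × ℝ :=
  (mk4 (q 0 / R3 q) (q 1 / R3 q) (q 2 / R3 q) 0, P.ϱ / R3 q, R3 q / P.l, P.B * R3 q, R3 q)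

variable {P : Par} {q : E4}

theorem Ok.R3_A3 (hP : P.Ok) (hq : q ∈ P.A3) : 0 < R3 q ∧ R3 q ≤ 3 / 2 * P.l := by
  obtain ⟨h1, h2, h3⟩ := hq
  have h4 := hP.ϱ0
  have h5 := hP.l_pos
  refine ⟨by linarith, le_of_sq_le_sq ?_ (by positivity)⟩
  have h6 := sq_le_sq' (abs_le.1 h2).1 (abs_le.1 h2).2
  rw [R3_sq]
  nlinarith

theorem Geom.mem_K3 (hP : P.Geom) (hq : q ∈ P.A3) : P.z3 q ∈ K3 := by
  obtain ⟨h1, h2⟩ := hP.toOk.R3_A3 hq
  have h3 := hq.2.2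
  have h4 := hP.ϱ0
  have h5 := hP.toOk.l_pos
  have h6 := hP.toOk.l_le
  have h7 := hP.B_nonneg
  have h8 := hP.B_l
  refine ⟨⟨?_, rfl⟩, ⟨by simp only [z3]; positivity, ?_⟩, ⟨by simp only [z3]; positivity, ?_⟩,
    ⟨by simp only [z3]; positivity, ?_⟩, h1.le, ?_⟩
  · have e := R3_smul (inv_pos.2 h1).le q
    rw [inv_mul_cancel₀ h1.ne'] at e
    rw [← e]
    simp only [z3, R3, u01, mk4_0, mk4_1, mk4_2, PiLp.smul_apply, smul_eq_mul, div_eq_inv_mul]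
  · exact (div_le_iff₀ h1).2 (by linarith)
  · exact (div_le_iff₀ h5).2 (by linarith)
  · exact (mul_le_mul_of_nonneg_left h2 h7).trans (by linarith)
  · exact h2.trans (by linarith)

theorem Ok.T3_mem (hP : P.Ok) (hq : q ∈ P.A3) {y : E4} (hy : y ∈ Q 3) :
    T3 q y ∈ P.UT ∧ |T3 q y 2| ≤ 7 / 10 * P.l ∧ 9 / 10 * R3 q ≤ R3 (T3 q y) ∧
      R3 (T3 q y) ≤ 11 / 10 * R3 q := by
  obtain ⟨h1, h2⟩ := hP.R3_A3 hq
  obtain ⟨-, h3, h4⟩ := hq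
  have h5 := hP.ϱ0
  have h6 := hP.l_pos
  have h7 := hP.l_le
  have hc : 0 ≤ cc * R3 q := by rw [cc]; positivity
  obtain ⟨a1, a2⟩ := abs_le.1 (R3_add (Q_sub_CQ hy) q hc)
  have e : T3 q y = q + (cc * R3 q) • y := rfl
  rw [← e, cc] at a1 a2
  have b1 : |T3 q y 2| ≤ 7 / 10 * P.l := by
    rw [e, PiLp.add_apply, PiLp.smul_apply, smul_eq_mul]
    refine (abs_add_le _ _).trans ?_
    rw [abs_mul, abs_of_nonneg hc]
    have := mul_le_mul_of_nonneg_left (hy 2).le hc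
    rw [cc] at this ⊢
    linarith
  have b2 := R3_sq (T3 q y)
  have b3 : R3 (T3 q y) ^ 2 ≤ 1 ^ 2 := pow_le_pow_left₀ (af3b_R3 _) (by linarith) 2
  exact ⟨⟨by nlinarith [sq_nonneg (T3 q y 2)], by linarith, by linarith⟩, b1, by linarith,
    by linarith⟩

theorem Ok.ld_T3 (hP : P.Ok) (hq : q ∈ P.A3) : LDif (T3 q) (Q 3) P.UT :=
  ld_aff q (mul_ne_zero (by norm_num [cc]) (hP.R3_A3 hq).1.ne') (ja_isOpen_Q 3)
    fun _ hy => (hP.T3_mem hq hy).1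

/-- Where `2 ϱ ≤ R` the cut-off `chiT` is `1`. -/
theorem Ok.GT_eq (hP : P.Ok) {x : E4} (hx : 2 * P.ϱ ≤ R3 x) :
    P.GT x = GTm P.ϱ P.l⁻¹ P.B 1 x := by
  have e : chiT (R3 x / P.ϱ) = 1 := by
    refine smoothTransition.one_of_one_le ?_
    have := (le_div_iff₀ hP.ϱ0).2 hx
    linarith
  rw [GT, GTm, e, mul_one, GBHm_one, SWf, div_eq_inv_mul]

/-- `pull_aff`, `GT_eq`, `T3 q y = R0 • (R0⁻¹ • q + cc • y)`, `SWf_scale`, `GBH_scale`,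
`GTm_congr`. -/
theorem Ok.pull_T3 (hP : P.Ok) (hq : q ∈ P.A3) :
    ∀ y ∈ Q 3, pull (T3 q) P.GT y = R3 q ^ 2 • G3 (P.z3 q) y := by
  intro y hy
  obtain ⟨h1, h2⟩ := hP.R3_A3 hq
  obtain ⟨-, -, h3, -⟩ := hP.T3_mem hq hy
  have h4 := hq.2.2
  have h5 := hP.ϱ0
  have e0 : pull (T3 q) P.GT y = (cc * R3 q) ^ 2 • P.GT (T3 q y) := pull_aff q _ _ y
  have e1 : T3 q y = R3 q • ((R3 q)⁻¹ • q + cc • y) := by
    rw [smul_add, smul_smul, smul_smul, mul_inv_cancel₀ h1.ne', one_smul, mul_comm, T3]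
  have e2 := SWf_scale h1 (P.ϱ / R3 q) P.B ((R3 q)⁻¹ • q + cc • y)
  rw [mul_div_cancel₀ _ h1.ne'] at e2
  have e3 : G3 (P.z3 q) y = cc ^ 2 •
      GTm (P.ϱ / R3 q) (R3 q / P.l) (P.B * R3 q) (R3 q) ((R3 q)⁻¹ • q + cc • y) := by
    simp only [G3, z3]
    rw [GTm_congr _ _ _ _ (x' := (R3 q)⁻¹ • q + cc • y)] <;>
      simp only [PiLp.add_apply, PiLp.smul_apply, smul_eq_mul, mk4_0, mk4_1, mk4_2,
        div_eq_inv_mul]
  rw [e0, hP.GT_eq (by linarith), e1, e3, smul_smul, mul_pow, mul_comm (cc ^ 2), GTm, GTm, e2,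
    GBHm_one, GBH_scale, R3_smul h1.le, ← mul_assoc, ← div_eq_inv_mul, mul_comm P.B]

theorem Ok.GT_far (hP : P.Ok) {x : E4} (hx : P.l / 10 ≤ R3 x) : P.GT x = GBH P.B x := by
  have e : chiS (R3 x / P.l) = 0 := by
    refine smoothTransition.zero_of_nonpos ?_
    have : 1 / 10 ≤ R3 x / P.l := (le_div_iff₀ hP.l_pos).2 (by linarith)
    linarith
  rw [GT, e, zero_smul, zero_add, sub_zero, one_smul]

theorem Ok.GT_near (hP : P.Ok) {x : E4} (hx : R3 x ≤ P.l / 20) :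
    P.GT x = SWf P.ϱ (P.B * chiT (R3 x / P.ϱ)) x := by
  have e : chiS (R3 x / P.l) = 1 := by
    refine smoothTransition.one_of_one_le ?_
    have : R3 x / P.l ≤ 1 / 20 := (div_le_iff₀ hP.l_pos).2 (by linarith)
    linarith
  rw [GT, e, one_smul, sub_self, zero_smul, add_zero, SWf]

/-- For `SWf` the form is `|Z| ^ 2 + ϱ / ((R - ϱ) R ^ 2) (x ⬝ Z) ^ 2 ≤ 2 |Z| ^ 2`, for `GBH` it is
`3 r / (r ^ 2 + r + 1) (Z0 ^ 2 + Z1 ^ 2) + r ^ 2 Z2 ^ 2` with `1 ≤ r ≤ 5 / 2`. -/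
theorem Ok.GT_quad (hP : P.Ok) {x : E4} (h1 : u01 x < 2) (h2 : 2 * P.ϱ ≤ R3 x) {Z : Fin 4 → ℝ}
    (h3 : Z 3 = 0) (h4 : l01 x ⬝ᵥ Z = 0) : Z ⬝ᵥ P.GT x *ᵥ Z ≤ 9 * (Z ⬝ᵥ Z) := by
  have h5 := hP.ϱ0
  have hZ : Z ⬝ᵥ Z = Z 0 ^ 2 + Z 1 ^ 2 + Z 2 ^ 2 := by
    simp only [dotProduct, Fin.sum_univ_four, h3]
    ring
  have hR : 0 < R3 x := by linarith
  have a1 : ∀ b, Z ⬝ᵥ GSW P.ϱ b (x 2) (R3 x) x *ᵥ Z ≤ 9 * (Z ⬝ᵥ Z) := fun b => by
    simp only [GSW, add_mulVec, smul_mulVec, dotProduct_add, dotProduct_smul, af3b_qsq, af3b_qsym,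
      af3b_ee, h3, h4, smul_eq_mul, hZ]
    have e : (![x 0, x 1, x 2, 0] : Fin 4 → ℝ) ⬝ᵥ Z = x 0 * Z 0 + x 1 * Z 1 + x 2 * Z 2 := by
      simp [dotProduct, Fin.sum_univ_four]
    have c1 : (x 0 * Z 0 + x 1 * Z 1 + x 2 * Z 2) ^ 2 ≤
        R3 x ^ 2 * (Z 0 ^ 2 + Z 1 ^ 2 + Z 2 ^ 2) := by
      rw [R3_sq, u01]
      nlinarith [sq_nonneg (x 0 * Z 1 - x 1 * Z 0), sq_nonneg (x 0 * Z 2 - x 2 * Z 0),
        sq_nonneg (x 1 * Z 2 - x 2 * Z 1)]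
    have c0 : 0 < R3 x - P.ϱ := by linarith
    have c2 : P.ϱ / ((R3 x - P.ϱ) * R3 x ^ 2) * R3 x ^ 2 ≤ 1 := by
      rw [div_mul_eq_mul_div, mul_div_mul_right _ _ (pow_pos hR 2).ne']
      exact (div_le_one c0).2 (by linarith)
    have c3 : 0 ≤ P.ϱ / ((R3 x - P.ϱ) * R3 x ^ 2) := by positivity
    have c4 := mul_le_mul_of_nonneg_left c1 c3
    have c5 := mul_le_mul_of_nonneg_right c2 (show 0 ≤ Z 0 ^ 2 + Z 1 ^ 2 + Z 2 ^ 2 by positivity)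
    rw [e]
    nlinarith [sq_nonneg (Z 0), sq_nonneg (Z 1), sq_nonneg (Z 2)]
  have a2 : Z ⬝ᵥ GBH P.B x *ᵥ Z ≤ 9 * (Z ⬝ᵥ Z) := by
    simp only [GBH, add_mulVec, smul_mulVec, dotProduct_add, dotProduct_smul, af3b_qsq, af3b_qsym,
      add_dotProduct, smul_dotProduct, af3b_ee, h3, h4, smul_eq_mul, hZ]
    have u0 : 0 ≤ u01 x := by rw [u01]; positivity
    have r1 : 1 ≤ rB x := by rw [rB]; linarith
    have r2 : rB x ≤ 3 := by rw [rB]; linarith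
    have c1 : 3 * rB x / (rB x ^ 2 + rB x + 1) ≤ 1 :=
      (div_le_one (by positivity)).2 (by nlinarith [sq_nonneg (rB x - 1)])
    have c2 : rB x ^ 2 ≤ 9 := by nlinarith
    have c3 := mul_le_mul_of_nonneg_right c1 (show 0 ≤ Z 0 ^ 2 + Z 1 ^ 2 by positivity)
    have c4 := mul_le_mul_of_nonneg_right c2 (sq_nonneg (Z 2))
    nlinarith [sq_nonneg (Z 0), sq_nonneg (Z 1), sq_nonneg (Z 2)]
  have t0 : 0 ≤ chiS (R3 x / P.l) := smoothTransition.nonneg _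
  have t1 : 0 ≤ 1 - chiS (R3 x / P.l) := sub_nonneg.2 (smoothTransition.le_one _)
  rw [GT, add_mulVec, smul_mulVec, smul_mulVec, dotProduct_add, dotProduct_smul, dotProduct_smul,
    smul_eq_mul, smul_eq_mul]
  have d1 := mul_le_mul_of_nonneg_left (a1 (P.B * chiT (R3 x / P.ϱ))) t0
  have d2 := mul_le_mul_of_nonneg_left a2 t1
  linarith

end Par

end Pool.Agent.Lib.MP_94aef8_gt
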