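import Pool.Agent.Lib.MP_94aef8_gt.J.AHar3
import Pool.Agent.Lib.MP_94aef8_gt.J.ABox
import Pool.Agent.Lib.MP_94aef8_gt.J.AF3b

/-! The Hardy inequality on the box. -/

open scoped Manifold ContDiff Topology
open Matrix Filter Set MeasureTheory Real

namespace Pool.Agent.Lib.MP_94aef8_gt

namespace Par

variable {P : Par}

theorem Ok.Box_sub (hP : P.Ok) : P.Box ⊆ P.UT := by
  rintro x ⟨h1, h2, h3, -, -, h6⟩
  have := hP.l_pos
  have := hP.ϱ0
  exact ⟨by linarith, abs_lt.2 ⟨by linarith, by linarith⟩, by linarith⟩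

theorem measurableSet_Box (P : Par) : MeasurableSet P.Box := by
  have h1 : Continuous u01 := by unfold u01; fun_prop
  have h2 : Continuous fun x : E4 => x 2 := by fun_prop
  have h3 : Continuous fun x : E4 => x 3 := by fun_prop
  exact (isOpen_lt h1 continuous_const).measurableSet.inter
    ((isClosed_le continuous_const h2).measurableSet.inter
    ((isOpen_lt h2 continuous_const).measurableSet.inter
    ((isClosed_le continuous_const h3).measurableSet.inter
    ((isOpen_lt h3 continuous_const).measurableSet.inter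
      (isOpen_lt continuous_const continuous_R3).measurableSet))))

/-- `Box` lies in the compact set `u ≤ 2`, `|x2| ≤ l / 2`, `0 ≤ x3 ≤ 4 π ϱ`, `2 ϱ ≤ R` in `UT`. -/
theorem Ok.integrableOn_Box (hP : P.Ok) {F : E4 → ℝ} (hF : ContinuousOn F P.UT) :
    IntegrableOn F P.Box := by
  have h1 : Continuous u01 := by unfold u01; fun_prop
  have h2 : Continuous fun x : E4 => x 2 := by fun_prop
  have h3 : Continuous fun x : E4 => x 3 := by fun_prop
  have hl := hP.l_pos
  have hr := hP.ϱ0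
  have hK : IsCompact {x : E4 | u01 x ≤ 2 ∧ |x 2| ≤ P.l / 2 ∧ |x 3| ≤ 4 * π * P.ϱ ∧
      2 * P.ϱ ≤ R3 x} := by
    refine Metric.isCompact_of_isClosed_isBounded ((isClosed_le h1 continuous_const).inter
      ((isClosed_le h2.abs continuous_const).inter ((isClosed_le h3.abs continuous_const).inter
        (isClosed_le continuous_const continuous_R3)))) ?_
    refine (Metric.isBounded_closedBall (x := (0 : E4))
      (r := √(2 + (P.l / 2) ^ 2 + (4 * π * P.ϱ) ^ 2))).subset ?_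
    rintro x ⟨a1, a2, a3, -⟩
    rw [mem_closedBall_zero_iff, EuclideanSpace.norm_eq, Fin.sum_univ_four]
    refine Real.sqrt_le_sqrt ?_
    have b2 := pow_le_pow_left₀ (abs_nonneg _) a2 2
    have b3 := pow_le_pow_left₀ (abs_nonneg _) a3 2
    simp only [Real.norm_eq_abs, sq_abs, u01] at *
    linarith
  refine ((hF.mono ?_).integrableOn_compact hK).mono_set ?_
  · rintro x ⟨a1, a2, -, a4⟩
    exact ⟨by linarith, by linarith, by linarith⟩
  · rintro x ⟨a1, a2, a3, a4, a5, a6⟩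
    exact ⟨a1.le, abs_le.2 ⟨a2, a3.le⟩, abs_le.2 ⟨by linarith, a5.le⟩, a6.le⟩

theorem ahint_young {a z f D t : ℝ} (hz : 0 ≤ z) (hf : 0 ≤ f) (hD : 0 ≤ D) (ht : 0 < t)
    (h : a ^ 2 ≤ 36 * z * f * D) : -(t * z * f + 9 / t * D) ≤ a := by
  have h0 : 0 ≤ t * z * f + 9 / t * D := by positivity
  have e : 36 * z * f * D = 4 * (t * z * f) * (9 / t * D) := by
    field_simp
    ring
  refine (abs_le.1 (abs_le_of_sq_le_sq' ?_ h0 |> abs_le.2)).1
  nlinarith [sq_nonneg (t * z * f - 9 / t * D)]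

theorem ahint_pd_mul {f g : Fn} {p : E4} (hf : DifferentiableAt ℝ f p)
    (hg : DifferentiableAt ℝ g p) (i : Fin 4) :
    pd i (fun x => f x * g x) p = g p * pd i f p + f p * pd i g p := by
  simp only [pd, fderiv_fun_mul hf hg, _root_.add_apply, _root_.smul_apply, smul_eq_mul]
  ring

theorem ahint_cont_pd {f : Fn} {p : E4} (hf : ContDiffAt ℝ ∞ f p) (i : Fin 4) :
    ContinuousAt (pd i f) p :=
  ((hf.fderiv_right (m := 0) (by simp)).clm_apply contDiffAt_const).continuousAt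

/-- `ji_kato`, `GT_quad`, `Z2_sq`, `Z3_sq`: with `f = |h| ^ 2`, `D = |∇ h| ^ 2`,
`|Z ⬝ ∇ f| ≤ 6 |Z| √f √D ≤ t |Z| ^ 2 f + 9 D / t`, `t = 1 / 80` for `Z2`, `t = 1 / 2` for `Z3`. -/
theorem Ok.Z_kato (hP : P.Ok) {G h : Tn} (hG : Good G P.UT) (e : ∀ x ∈ P.UT, G x = P.GT x)
    (hh : SmT h P.UT) {x : E4} (hx : x ∈ P.Box) :
    -((P.c2 x * P.ph x / 40 + P.c3 x * P.mw (R3 x) / 2) * ipT G h h x + 738 * ipD G h h x) ≤
      ∑ i, (P.Z2 x i + P.Z3 x i) * pd i (ipT G h h) x := by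
  have hU := hP.Box_sub hx
  have hf : 0 ≤ ipT G h h x := ji_ipM_nonneg (hG.pos x hU) _
  have hD : 0 ≤ ipD G h h x := ji_ipD_nonneg hG hU
  have key : ∀ Z : Fin 4 → ℝ, Z 3 = 0 → l01 x ⬝ᵥ Z = 0 → (∑ i, Z i * pd i (ipT G h h) x) ^ 2 ≤
      36 * (Z ⬝ᵥ Z) * ipT G h h x * ipD G h h x := by
    intro Z h3 h4
    have h1 := ji_kato hG hh hU Z
    have h2 := hP.GT_quad hx.1 hx.2.2.2.2.2.le h3 h4
    rw [← e x hU] at h2
    refine h1.trans (mul_le_mul_of_nonneg_right (mul_le_mul_of_nonneg_right ?_ hf) hD)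
    linarith
  have k2 := ahint_young (dotProduct_self_star_nonneg (P.Z2 x)) hf hD (t := 1 / 80) (by norm_num)
    (key (P.Z2 x) (by simp [Z2]) (by simp [Z2, l01, dotProduct, Fin.sum_univ_four]; ring))
  have k3 := ahint_young (dotProduct_self_star_nonneg (P.Z3 x)) hf hD (t := 1 / 2) (by norm_num)
    (key (P.Z3 x) (by simp [Z3]) (by simp [Z3, l01, dotProduct, Fin.sum_univ_four]; ring))
  have m2 := mul_le_mul_of_nonneg_right (hP.Z2_sq x) hf
  have m3 := mul_le_mul_of_nonneg_right (hP.Z3_sq x) hf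
  simp only [star_trivial] at k2 k3
  simp only [add_mul, Finset.sum_add_distrib]
  linarith

/-- `box_div` for `V = f • (Z2 + Z3)` on `[-2, 2) × [-2, 2) × [-l/2, l/2) × [0, 4 π ϱ)`: at a point
of the closed box either `x ∈ UT` or `V = 0` near `x` (`Z_zero`); the divergence vanishes on the
half open box outside `Box`. On `Box`, `div V = f div Z + Z ⬝ ∇ f ≥ wH f - 738 D`. -/
theorem hardy_box : ∃ C, 0 ≤ C ∧ ∃ l0, 0 < l0 ∧ ∀ P : Par, P.Ok → P.l ≤ l0 → ∀ G h : Tn,
    Good G P.UT → (∀ x ∈ P.UT, G x = P.GT x) → SmT h P.UT →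
      IntegrableOn (fun x => P.wH C x * ipT G h h x) P.Box ∧ IntegrableOn (ipD G h h) P.Box ∧
      ∫ x in P.Box, P.wH C x * ipT G h h x ≤ 738 * ∫ x in P.Box, ipD G h h x := by
  obtain ⟨C, hC, l0, hl0, hdiv⟩ := Z_div
  refine ⟨C, hC, l0, hl0, fun P hP hl G h hG e hh => ?_⟩
  have hlp := hP.l_pos
  have hr := hP.ϱ0
  have sf := ji_sm_ipT hG hh
  have sZ : ∀ i, ContDiff ℝ ∞ fun y => P.Z2 y i + P.Z3 y i := fun i =>
    (hP.Z2_smooth i).add (hP.Z3_smooth i)
  have af : ∀ x ∈ P.UT, ContDiffAt ℝ ∞ (ipT G h h) x := fun x hx =>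
    sf.contDiffAt (hG.isOpen.mem_nhds hx)
  have iD := hP.integrableOn_Box (ji_sm_ipD hG hh).continuousOn
  have iF := hP.integrableOn_Box sf.continuousOn
  obtain ⟨B, hB⟩ := hP.wH_bdd C
  have iW : IntegrableOn (fun x => P.wH C x * ipT G h h x) P.Box :=
    Integrable.bdd_mul (c := B) iF (hP.measurable_wH C).aestronglyMeasurable
      ((ae_restrict_iff' P.measurableSet_Box).2 (Eventually.of_forall hB))
  refine ⟨iW, iD, ?_⟩
  have zero : ∀ x : E4, R3 x < 5 / 2 * P.ϱ ∨ 3 / 2 < u01 x → ∀ i,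
      (fun y => ipT G h h y * (P.Z2 y i + P.Z3 y i)) =ᶠ[𝓝 x] fun _ => 0 := fun x hx i =>
    (hP.Z_zero hx).mono fun y hy => by
      have h1 : P.Z2 y i + P.Z3 y i = 0 := congrFun hy i
      simp only [h1, mul_zero]
  have hbox := box_div (a := ![-2, -2, -(P.l / 2), 0]) (b := ![2, 2, P.l / 2, 4 * π * P.ϱ])
    (V := fun y i => ipT G h h y * (P.Z2 y i + P.Z3 y i)) (fun i => by
      have := pi_pos
      fin_cases i <;> simp <;> positivity) (fun x hx i => by
      by_cases hU : x ∈ P.UT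
      · exact ((af x hU).mul (sZ i).contDiffAt).of_le (by simp)
      · refine contDiffAt_const.congr_of_eventuallyEq (zero x ?_ i)
        have h2 : -(P.l / 2) ≤ x 2 ∧ x 2 ≤ P.l / 2 := hx 2
        by_contra hc
        rw [not_or, not_lt, not_lt] at hc
        exact hU ⟨by linarith [hc.2], abs_lt.2 ⟨by linarith [h2.1], by linarith [h2.2]⟩,
          by linarith [hc.1]⟩) (fun x hx i hi => by
      fin_cases i
      · have h1 : x 0 = -2 ∨ x 0 = 2 := hi
        refine (zero x (Or.inr ?_) _).eq_of_nhds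
        rcases h1 with h1 | h1 <;> rw [u01, h1] <;> nlinarith [sq_nonneg (x 1)]
      · have h1 : x 1 = -2 ∨ x 1 = 2 := hi
        refine (zero x (Or.inr ?_) _).eq_of_nhds
        rcases h1 with h1 | h1 <;> rw [u01, h1] <;> nlinarith [sq_nonneg (x 0)]
      · have h1 : x 2 = -(P.l / 2) ∨ x 2 = P.l / 2 := hi
        have h2 : P.Z2 x 2 + P.Z3 x 2 = 0 := hP.Z_face (by
          rcases h1 with h1 | h1 <;> rw [h1] <;> simp [abs_of_pos (half_pos hlp)])
        change ipT G h h x * (P.Z2 x 2 + P.Z3 x 2) = 0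
        rw [h2, mul_zero]
      · change ipT G h h x * (P.Z2 x 3 + P.Z3 x 3) = 0
        simp [Z2, Z3])
  have hsub : P.Box ⊆ {x : E4 | ∀ j, ![-2, -2, -(P.l / 2), 0] j ≤ x j ∧
      x j < ![2, 2, P.l / 2, 4 * π * P.ϱ] j} := by
    rintro x ⟨a1, a2, a3, a4, a5, -⟩ j
    rw [u01] at a1
    fin_cases j
    · exact ⟨show -2 ≤ x 0 by nlinarith [sq_nonneg (x 1)],
        show x 0 < 2 by nlinarith [sq_nonneg (x 1)]⟩
    · exact ⟨show -2 ≤ x 1 by nlinarith [sq_nonneg (x 0)],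
        show x 1 < 2 by nlinarith [sq_nonneg (x 0)]⟩
    · exact ⟨a2, a3⟩
    · exact ⟨a4, a5⟩
  have hm : MeasurableSet {x : E4 | ∀ j, ![-2, -2, -(P.l / 2), 0] j ≤ x j ∧
      x j < ![2, 2, P.l / 2, 4 * π * P.ϱ] j} := by
    rw [ofPred_forall]
    refine MeasurableSet.iInter fun j => ?_
    have cj : Continuous fun x : E4 => x j := by fun_prop
    exact (isClosed_le continuous_const cj).measurableSet.inter
      (isOpen_lt cj continuous_const).measurableSet
  rw [setIntegral_eq_of_subset_of_forall_sdiff_eq_zero hm hsub (fun x hx => by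
    have h2 : -(P.l / 2) ≤ x 2 ∧ x 2 < P.l / 2 := hx.1 2
    have h3 : 0 ≤ x 3 ∧ x 3 < 4 * π * P.ϱ := hx.1 3
    have h4 : R3 x < 5 / 2 * P.ϱ ∨ 3 / 2 < u01 x := by
      by_contra hc
      rw [not_or, not_lt, not_lt] at hc
      exact hx.2 ⟨by linarith [hc.2], h2.1, h2.2, h3.1, h3.2, by linarith [hc.1]⟩
    refine Finset.sum_eq_zero fun i _ => ?_
    rw [pd, (zero x h4 i).fderiv_eq]
    simp)] at hbox
  have ex : ∀ x ∈ P.UT, ∑ i, pd i (fun y => ipT G h h y * (P.Z2 y i + P.Z3 y i)) x =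
      ∑ i, (P.Z2 x i + P.Z3 x i) * pd i (ipT G h h) x +
        ipT G h h x * ∑ i, pd i (fun y => P.Z2 y i + P.Z3 y i) x := by
    intro x hx
    rw [Finset.mul_sum, ← Finset.sum_add_distrib]
    exact Finset.sum_congr rfl fun i _ => ahint_pd_mul ((af x hx).differentiableAt (by simp))
      ((sZ i).differentiable (by simp) x) i
  have iV : IntegrableOn (fun x => ∑ i, pd i (fun y => ipT G h h y * (P.Z2 y i + P.Z3 y i)) x)
      P.Box := hP.integrableOn_Box (continuousOn_finsetSum _ fun i _ x hx =>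
        (ahint_cont_pd ((af x hx).mul (sZ i).contDiffAt) i).continuousWithinAt)
  have hle := setIntegral_mono_on (iW.sub (iD.const_mul 738)) iV P.measurableSet_Box fun x hx => by
    have hU := hP.Box_sub hx
    have hf : 0 ≤ ipT G h h x := ji_ipM_nonneg (hG.pos x hU) _
    have h1 := hP.Z_kato hG e hh hx
    have h2 := mul_le_mul_of_nonneg_left (hdiv P hP hl x) hf
    rw [ex x hU]
    simp only [Pi.sub_apply]
    linarith
  rw [hbox] at hle
  have h5 := integral_sub iW (iD.const_mul 738)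
  rw [integral_const_mul] at h5
  have h6 : ∫ x in P.Box, (P.wH C x * ipT G h h x - 738 * ipD G h h x) ≤ 0 := hle
  linarith

end Par

end Pool.Agent.Lib.MP_94aef8_gt
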