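import Pool.Agent.Lib.MP_94aef8_gt.J.ACo3
import Pool.Agent.Lib.MP_94aef8_gt.J.AHInt

/-! The coercivity estimate. -/

open scoped Manifold ContDiff Topology
open Matrix Filter Set MeasureTheory Real

namespace Pool.Agent.Lib.MP_94aef8_gt

variable {P : Par} {A : Arith P.K} {D : MD P A}

theorem aco4_int (a : AP D) {F : D.M → ℝ} (hF : Continuous F) : Integrable F (volT a.g) := by
  have := ji_fin a.good
  exact hF.integrable_of_hasCompactSupport (HasCompactSupport.of_compactSpace _)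

theorem aco4_n0 (a : AP D) (h : D.M → Mat) (m : D.M) : 0 ≤ n0 a.g h m :=
  ji_ipM_nonneg (a.good.pos m) _

theorem aco4_meas (a : AP D) (t : ℝ) : MeasurableSet {m | a.s m < t} :=
  (isOpen_lt a.scont continuous_const).measurableSet

theorem aco4_ind (a : AP D) (h : D.M → Mat) (t u : ℝ) :
    (fun m => (if a.s m < t then u else 0) * n0 a.g h m) =
      {m | a.s m < t}.indicator fun m => u * n0 a.g h m := by
  funext m
  by_cases hm : a.s m < t
  · rw [if_pos hm, indicator_of_mem (show m ∈ {m | a.s m < t} from hm)]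
  · rw [if_neg hm, indicator_of_notMem (show m ∉ {m | a.s m < t} from hm), zero_mul]

/-- A bounded measurable function (`om2_le`, `rho_le_s`, `measurable_om2`) times a continuous
function on a compact space of finite measure (`ji_fin`, `ji_cont_n0`). -/
theorem AP.integrable_om2 (a : AP D) (hP : P.Geom) {h : D.M → Mat} (hh : SmG h) :
    Integrable (fun m => P.om2 (a.s m) * n0 a.g h m) (volT a.g) := by
  refine (aco4_int a (ji_cont_n0 a.good hh)).bdd_mul (c := 2 * (P.ϱ ^ 2)⁻¹)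
    (P.measurable_om2.comp a.scont.measurable).aestronglyMeasurable (ae_of_all _ fun m => ?_)
  obtain ⟨h0, h1⟩ := hP.toOk.om2_le (a.rho_le_s hP m).1
  rwa [Real.norm_of_nonneg h0]

theorem aco4_FF (a : AP D) (h : D.M → Mat) (θ c B C : ℝ) : a.FF h θ c B C = fun m =>
    (1 - θ) * GKoi a.g h m + θ * GPot a.g h m +
      {m | a.s m < B * P.ϱ}.indicator (fun m => C * (P.ϱ ^ 2)⁻¹ * n0 a.g h m) m -
        c * (P.om2 (a.s m) * n0 a.g h m) := by
  funext m
  rw [← aco4_ind, AP.FF, mul_assoc c]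

theorem AP.integrable_FF (a : AP D) (hP : P.Geom) {h : D.M → Mat} (hh : SmG h) (θ c B C : ℝ) :
    Integrable (a.FF h θ c B C) (volT a.g) := by
  rw [aco4_FF]
  exact ((((aco4_int a (ji_cont_GKoi a.good hh)).const_mul _).add
    ((aco4_int a (ji_cont_GPot a.good hh)).const_mul _)).add
    (((aco4_int a (ji_cont_n0 a.good hh)).const_mul _).indicator (aco4_meas a _))).sub
    ((a.integrable_om2 hP hh).const_mul _)

/-- A finite disjoint family of measurable sets with nonnegative integrals, and a nonnegative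
integrand on the rest (`integral_add_compl`, `integral_iUnion_fintype` or
`integral_biUnion_finset`). -/
theorem integral_nonneg_of_pieces {M : Type} [MeasurableSpace M] {μ : Measure M} {ι : Type}
    [Finite ι] {S : ι → Set M} (hS : ∀ i, MeasurableSet (S i))
    (hd : Pairwise fun i j => Disjoint (S i) (S j)) {F : M → ℝ} (hF : Integrable F μ)
    (h1 : ∀ i, 0 ≤ ∫ x in S i, F x ∂μ) (h2 : ∀ x, (∀ i, x ∉ S i) → 0 ≤ F x) : 0 ≤ ∫ x, F x ∂μ := by
  have := Fintype.ofFinite ι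
  have hU : MeasurableSet (⋃ i, S i) := MeasurableSet.iUnion hS
  rw [← integral_add_compl hU hF, integral_iUnion_fintype hS hd fun _ => hF.integrableOn]
  refine add_nonneg (Finset.sum_nonneg fun i _ => h1 i) (setIntegral_nonneg hU.compl fun x hx => ?_)
  exact h2 x fun i hi => hx (mem_iUnion.2 ⟨i, hi⟩)

/-- One box: `ji_int` for the patch `pT e j` (`MD.ptT`, injective on `Box` by `ji_box_inj`), with
`G = gpull (pT e j) g = GT` on `UT` (`gT`), `ρ = rho G ∈ [J⁻¹, J]`. On the box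
`(FF + θ GD) ρ ≥ θ / J * ipD - θ / (738 J) * (wH * ipT)` (`ji_GD`, `ji_ipM`, `ji_ipD_nonneg`). -/
theorem AP.co_box (a : AP D) (hP : P.Geom) {h : D.M → Mat} (hh : SmG h) {θ c B C J H : ℝ}
    (hθ : 0 ≤ θ) (hJ : 1 ≤ J) (hρ : ∀ x ∈ P.UT, J⁻¹ ≤ rho P.GT x ∧ rho P.GT x ≤ J)
    (hH : ∀ G k : Tn, Good G P.UT → (∀ x ∈ P.UT, G x = P.GT x) → SmT k P.UT →
      IntegrableOn (fun x => P.wH H x * ipT G k k x) P.Box ∧ IntegrableOn (ipD G k k) P.Box ∧
      ∫ x in P.Box, P.wH H x * ipT G k k x ≤ 738 * ∫ x in P.Box, ipD G k k x)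
    (e : A.C) (j : Fin (P.K / 2))
    (hF : ∀ x ∈ P.Box, ∀ r, J⁻¹ ≤ r → r ≤ J → 0 ≤ a.FF h θ c B C (D.pT e (j : ℕ) x) * r +
      θ / (738 * J) * (P.wH H x * n0 a.g h (D.pT e (j : ℕ) x))) :
    0 ≤ ∫ m in D.pT e (j : ℕ) '' P.Box, (a.FF h θ c B C m + θ * GD a.g h h m) ∂volT a.g := by
  have hpt := D.ptT hP.toOk e (j : ℕ)
  have hsub := hP.toOk.Box_sub
  have hG := ji_good hpt a.good
  have eG : ∀ x ∈ P.UT, gpull (D.pT e (j : ℕ)) a.g x = P.GT x := a.gT e (j : ℕ)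
  obtain ⟨i1, i2, i3⟩ := hH _ _ hG eG (ji_smT hpt hh)
  have hI : Integrable (fun m => a.FF h θ c B C m + θ * GD a.g h h m) (volT a.g) :=
    (a.integrable_FF hP hh θ c B C).add ((aco4_int a (ji_cont_GD a.good hh)).const_mul _)
  obtain ⟨i4, i5⟩ := ji_int hpt a.good P.measurableSet_Box hsub
    (fun x hx x' hx' h' => (ji_box_inj D hP hx hx' h').2.2) hI
  have J0 : 0 < J := lt_of_lt_of_le one_pos hJ
  rw [i5]
  refine le_trans ?_ (setIntegral_mono_on
    ((i2.const_mul (θ / J)).sub (i1.const_mul (θ / (738 * J)))) i4 P.measurableSet_Box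
    fun x hx => ?_)
  · simp only [Pi.sub_apply]
    rw [integral_sub (i2.const_mul _) (i1.const_mul _), integral_const_mul, integral_const_mul]
    have := mul_le_mul_of_nonneg_left i3 (show 0 ≤ θ / (738 * J) by positivity)
    have e1 : θ / (738 * J) * 738 = θ / J := by field_simp
    rw [← mul_assoc, e1] at this
    linarith
  · have hx' := hsub hx
    obtain ⟨r1, r2⟩ := hρ x hx'
    have er : rho (gpull (D.pT e (j : ℕ)) a.g) x = rho P.GT x := by
      unfold rho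
      rw [eG x hx']
    have h1 := hF x hx _ r1 r2
    have h2 : n0 a.g h (D.pT e (j : ℕ) x) =
        ipT (gpull (D.pT e (j : ℕ)) a.g) (gpull (D.pT e (j : ℕ)) h) (gpull (D.pT e (j : ℕ)) h) x :=
      ji_ipM hpt hx'
    have h3 := ji_GD hpt a.good hh hx'
    have h4 := ji_ipD_nonneg (h := gpull (D.pT e (j : ℕ)) h) hG hx'
    have h5 := mul_le_mul_of_nonneg_left r1 (mul_nonneg hθ h4)
    simp only [Pi.sub_apply]
    rw [er, h3, ← h2, div_eq_mul_inv θ J]
    nlinarith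

/-- `0 ≤ ∫ (FF + θ GD)` by `integral_nonneg_of_pieces` over `A.C × Fin (K / 2)` (`A.fin`,
`ji_meas_image`, `ji_box_inj`); expand the integral, `ji_koiso`, `ji_green`. This gives
`c L ≤ q + C1 ϱ⁻² I` with `0 ≤ L`, `0 ≤ I`; for `C ≥ max c⁻¹ C1` one has
`L ≤ C (c L) ≤ C (q + C ϱ⁻² I)`. -/
theorem co_all : ∃ C0 B : ℝ, 0 ≤ C0 ∧ 3 ≤ B ∧ ∀ K : ℕ, ∃ l0, 0 < l0 ∧ ∀ P : Par, P.Geom → P.K = K →
    P.l ≤ l0 → ∀ (A : Arith P.K) (D : MD P A) (a : AP D) (h : D.M → Mat), SmG h →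
      (∀ x, (h x).IsSymm) → ∀ C, C0 ≤ C → ∫ m, P.om2 (a.s m) * n0 a.g h m ∂volT a.g ≤
        C * ∫ m, ipg a.g (GP a.g h) h m ∂volT a.g +
          C ^ 2 * (P.ϱ ^ 2)⁻¹ * ∫ m in {m | a.s m < B * P.ϱ}, n0 a.g h m ∂volT a.g := by
  obtain ⟨H, hH0, l1, hl1, hH⟩ := Par.hardy_box
  obtain ⟨J, hJ, hρ⟩ := rho_GT
  obtain ⟨θ, c, B, C1, θ0, θ1, c0, hB, C0, hK⟩ := co_pt hJ hH0
  refine ⟨c⁻¹ + C1, B, by positivity, hB, fun K => ?_⟩
  obtain ⟨l2, hl2, hK⟩ := hK K
  refine ⟨min l1 l2, lt_min hl1 hl2, fun P hP hPK hl A D a h hh hs C hC => ?_⟩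
  obtain ⟨p1, p2⟩ := hK P hP hPK (hl.trans (min_le_right _ _)) A D a h hs
  have := A.fin
  have iK := aco4_int a (ji_cont_GKoi a.good hh)
  have iP := aco4_int a (ji_cont_GPot a.good hh)
  have iD := aco4_int a (ji_cont_GD a.good hh)
  have iN := aco4_int a (ji_cont_n0 a.good hh)
  have iO := a.integrable_om2 hP hh
  have iI := (iN.const_mul (C1 * (P.ϱ ^ 2)⁻¹)).indicator (aco4_meas a (B * P.ϱ))
  have key : 0 ≤ ∫ m, (a.FF h θ c B C1 m + θ * GD a.g h h m) ∂volT a.g := by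
    refine integral_nonneg_of_pieces (ι := A.C × Fin (P.K / 2))
      (S := fun i => D.pT i.1 (i.2 : ℕ) '' P.Box) (fun i => ?_) (fun i i' hi => ?_)
      ((a.integrable_FF hP hh θ c B C1).add (iD.const_mul _)) (fun i => ?_) fun m hm => ?_
    · exact ji_meas_image (D.ptT hP.toOk i.1 (i.2 : ℕ)) P.measurableSet_Box hP.toOk.Box_sub
        fun x hx x' hx' h' => (ji_box_inj D hP hx hx' h').2.2
    · refine disjoint_left.2 ?_
      rintro m ⟨x, hx, rfl⟩ ⟨x', hx', h'⟩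
      obtain ⟨e1, e2, -⟩ := ji_box_inj D hP hx' hx h'
      exact hi (Prod.ext e1.symm e2.symm)
    · exact a.co_box hP hh θ0.le hJ (hρ P hP)
        (hH P hP.toOk (hl.trans (min_le_left _ _))) i.1 i.2 (p1 i.1 (i.2 : ℕ))
    · exact add_nonneg (p2 m fun e j => hm (e, j)) (mul_nonneg θ0.le (ji_GD_nonneg a.good m))
  have k1 := ji_koiso a.good hh hs
  have k2 := ji_green a.good hh hs
  rw [integral_add iD iP] at k2
  have j1 : Integrable (fun m => (1 - θ) * GKoi a.g h m + θ * GPot a.g h m) (volT a.g) :=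
    (iK.const_mul _).add (iP.const_mul _)
  have j2 : Integrable (fun m => (1 - θ) * GKoi a.g h m + θ * GPot a.g h m +
      {m | a.s m < B * P.ϱ}.indicator (fun m => C1 * (P.ϱ ^ 2)⁻¹ * n0 a.g h m) m) (volT a.g) :=
    j1.add iI
  rw [integral_add (a.integrable_FF hP hh θ c B C1) (iD.const_mul _), aco4_FF,
    integral_sub j2 (iO.const_mul _), integral_add j1 iI,
    integral_add (iK.const_mul _) (iP.const_mul _), integral_indicator (aco4_meas a _)] at key
  simp only [integral_const_mul] at key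
  have L0 : 0 ≤ ∫ m, P.om2 (a.s m) * n0 a.g h m ∂volT a.g :=
    integral_nonneg fun m => mul_nonneg (hP.toOk.om2_le (a.rho_le_s hP m).1).1 (aco4_n0 a h m)
  have I0 : 0 ≤ ∫ m in {m | a.s m < B * P.ϱ}, n0 a.g h m ∂volT a.g :=
    integral_nonneg fun m => aco4_n0 a h m
  unfold ipg
  generalize ∫ m, P.om2 (a.s m) * n0 a.g h m ∂volT a.g = L at *
  generalize ∫ m in {m | a.s m < B * P.ϱ}, n0 a.g h m ∂volT a.g = I at *
  generalize ∫ m, ipM (a.g m) (GP a.g h m) (h m) ∂volT a.g = q at *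
  have ci : 0 < c⁻¹ := inv_pos.2 c0
  have k3 := mul_le_mul_of_nonneg_left k1 (sub_nonneg.2 θ1)
  have k4 : c * L ≤ q + C1 * ((P.ϱ ^ 2)⁻¹ * I) := by
    rw [← k2] at k3 ⊢
    nlinarith
  have w0 : 0 ≤ (P.ϱ ^ 2)⁻¹ * I := by positivity
  have k5 : c * L ≤ q + C * ((P.ϱ ^ 2)⁻¹ * I) := by
    have := mul_le_mul_of_nonneg_right (show C1 ≤ C by linarith) w0
    linarith
  have k6 := mul_le_mul_of_nonneg_left k5 (show 0 ≤ C by linarith)
  have k7 : 1 ≤ C * c := by
    have := mul_le_mul_of_nonneg_right (show c⁻¹ ≤ C by linarith) c0.le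
    rwa [inv_mul_cancel₀ c0.ne'] at this
  have k8 := mul_le_mul_of_nonneg_right k7 L0
  nlinarith

end Pool.Agent.Lib.MP_94aef8_gt
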