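import Pool.Agent.Lib.MP_94aef8_gt.J.ADiag

/-! Ricci tensor and potentials for a diagonal curvature operator. -/

open scoped Manifold ContDiff Topology
open Matrix Filter Set MeasureTheory Real

namespace Pool.Agent.Lib.MP_94aef8_gt

variable {G : Tn} {p : E4} {a : Fin 4 → ℝ} {K : Fin 4 → Fin 4 → ℝ}

theorem DC.ric (h : DC G p a K) :
    ric G p = diagonal fun i => a i * ∑ j ∈ Finset.univ.erase i, K i j := by
  ext j k
  rw [ji_ric_rm, diagonal_apply, Finset.sum_erase_eq_sub (Finset.mem_univ j)]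
  simp only [h.rm_eq, true_and, mul_sub, Finset.sum_sub_distrib, h.symm _ j]
  by_cases e : j = k
  · subst e
    simp [Finset.mul_sum, mul_comm, eq_comm]
  · have e' : ∀ i, ¬(i = j ∧ k = i) := fun i hi => e (hi.2.trans hi.1).symm
    simp [e, e', Ne.symm e]

theorem adalg_inv (ha : ∀ i, a i ≠ 0) : (diagonal a : Mat)⁻¹ = diagonal fun i => (a i)⁻¹ := by
  refine Matrix.inv_eq_right_inv ?_
  rw [diagonal_mul_diagonal, ← diagonal_one]
  exact congrArg diagonal (funext fun i => mul_inv_cancel₀ (ha i))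

theorem DC.scal (h : DC G p a K) (ha : ∀ i, a i ≠ 0) :
    scal G p = ∑ i, ∑ j ∈ Finset.univ.erase i, K i j := by
  rw [MP_94aef8_gt.scal, trG, h.ric, h.eq, adalg_inv ha, diagonal_mul_diagonal, trace_diagonal]
  exact Finset.sum_congr rfl fun i _ => inv_mul_cancel_left₀ (ha i) _

theorem ipM_diag (ha : ∀ i, a i ≠ 0) (k k' : Mat) :
    ipM (diagonal a) k k' = ∑ i, ∑ j, k i j * k' i j / (a i * a j) := by
  rw [ipM, adalg_inv ha, trace]
  refine Finset.sum_congr rfl fun i _ => ?_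
  rw [diag_apply, mul_apply]
  refine Finset.sum_congr rfl fun j _ => ?_
  rw [mul_diagonal, diagonal_mul, transpose_apply, div_eq_mul_inv, mul_inv]
  ring

theorem adalg_rring (h : DC G p a K) (ha : ∀ i, a i ≠ 0) (k : Mat) (i j : Fin 4) :
    rring G (fun _ => k) p i j =
      (if j = i then a i * ∑ e, K i e * (k e e / a e) else 0) - K i j * k j i := by
  have e1 : ∀ e, ((G p)⁻¹ * k * rm G e i p) e j =
      (if j = i then a i * (K i e * (k e e / a e)) else 0) - if j = e then K i e * k e i else 0 := by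
    intro e
    rw [h.eq, adalg_inv ha, mul_apply]
    simp only [h.rm_eq, diagonal_mul, mul_sub, Finset.sum_sub_distrib, h.symm e i, ite_and, mul_ite,
      mul_zero, Finset.sum_ite_eq', Finset.mem_univ, if_true]
    have := ha e
    congr 1 <;> split_ifs <;> first | rfl | field_simp
  rw [ji_rring, of_apply]
  simp only [e1, Finset.sum_sub_distrib, Finset.sum_ite_eq, Finset.mem_univ, if_true]
  split_ifs <;> simp [Finset.mul_sum]

/-- `(R° k) i j = δ_ij a_i ∑_e K e i k e e / a e - K i j k j i` (`ji_rring`). -/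
theorem DC.rring (h : DC G p a K) (ha : ∀ i, a i ≠ 0) {k : Mat} (hk : k.IsSymm) :
    ipM (G p) (rring G (fun _ => k) p) k = ∑ i, ∑ j ∈ Finset.univ.erase i,
      K i j * (k i i / a i * (k j j / a j) - k i j ^ 2 / (a i * a j)) := by
  rw [h.eq, ipM_diag ha]
  refine Finset.sum_congr rfl fun i _ => ?_
  have := ha i
  rw [Finset.sum_erase _ (by field_simp; ring)]
  simp only [adalg_rring h ha, sub_mul, sub_div, mul_sub, Finset.sum_sub_distrib, ite_mul, ite_div,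
    zero_mul, zero_div, Finset.sum_ite_eq', Finset.mem_univ, if_true, Finset.mul_sum,
    Finset.sum_mul, Finset.sum_div]
  congr 1 <;> refine Finset.sum_congr rfl fun j _ => ?_
  · field_simp
  · rw [hk.apply i j]
    ring

theorem DC.ricq (h : DC G p a K) (ha : ∀ i, a i ≠ 0) (k : Mat) :
    ipM (G p) (MP_94aef8_gt.ric G p * (G p)⁻¹ * k) k =
      ∑ i, ∑ j, (∑ e ∈ Finset.univ.erase i, K i e) * (k i j ^ 2 / (a i * a j)) := by
  rw [h.ric, h.eq, ipM_diag ha, adalg_inv ha, diagonal_mul_diagonal]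
  refine Finset.sum_congr rfl fun i _ => Finset.sum_congr rfl fun j _ => ?_
  have := ha i
  rw [diagonal_mul]
  field_simp

/-- The pattern of the black hole. -/
noncomputable def mB (i j : Fin 4) : ℝ := if i.val + j.val = 3 then 1 else -1 / 2

theorem adalg_split {o : Fin 4 → Fin 4 → ℝ} {d : Fin 4 → ℝ} (hd : ∀ i, o i i = d i ^ 2) :
    ∑ i, ∑ j, o i j = ∑ i, d i ^ 2 + ∑ i, ∑ j ∈ Finset.univ.erase i, o i j := by
  simp only [Finset.sum_erase_eq_sub (Finset.mem_univ _), hd, Finset.sum_sub_distrib]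
  ring

theorem adalg_row {K o : Fin 4 → Fin 4 → ℝ} (ho : ∀ i j, 0 ≤ o i j) {c : ℝ}
    (hc : ∀ i, c ≤ ∑ e ∈ Finset.univ.erase i, K i e) :
    c * ∑ i, ∑ j, o i j ≤ ∑ i, ∑ j, (∑ e ∈ Finset.univ.erase i, K i e) * o i j := by
  simp only [Finset.mul_sum (a := c)]
  exact Finset.sum_le_sum fun i _ => Finset.sum_le_sum fun j _ =>
    mul_le_mul_of_nonneg_right (hc i) (ho i j)

theorem adalg_err {e ε u v o : ℝ} (he : |e| ≤ ε) (ho : 0 ≤ o) :
    e * (u * v - o) ≤ ε * ((u ^ 2 + v ^ 2) / 2 + o) := by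
  have h1 := abs_le.1 he
  nlinarith [mul_nonneg (sub_nonneg.2 h1.2) (sq_nonneg (u + v)),
    mul_nonneg (sub_nonneg.2 h1.1) (sq_nonneg (u - v)), mul_nonneg (sub_nonneg.2 h1.1) ho]

theorem adalg_sq (d : Fin 4 → ℝ) :
    ∑ i, ∑ j ∈ Finset.univ.erase i, (d i ^ 2 + d j ^ 2) / 2 = 3 * ∑ i, d i ^ 2 := by
  simp only [Finset.sum_erase_eq_sub (Finset.mem_univ _), Fin.sum_univ_four]
  ring

theorem adalg_off {o : Fin 4 → Fin 4 → ℝ} (ho : ∀ i j, 0 ≤ o i j) :
    0 ≤ ∑ i, ∑ j ∈ Finset.univ.erase i, o i j :=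
  Finset.sum_nonneg fun i _ => Finset.sum_nonneg fun j _ => ho i j

theorem adalg_mB (d : Fin 4 → ℝ) {x : ℝ} (hx : 0 ≤ x) :
    ∑ i, ∑ j ∈ Finset.univ.erase i, (-1 + x * mB i j) * (d i * d j) ≤
      (1 + 2 * x) * ∑ i, d i ^ 2 := by
  simp only [Finset.sum_erase_eq_sub (Finset.mem_univ _), Fin.sum_univ_four]
  norm_num [mB]
  nlinarith [sq_nonneg (d 0 + d 1 + d 2 + d 3), mul_nonneg hx (sq_nonneg (d 0 + d 1 + d 2 + d 3)),
    mul_nonneg hx (sq_nonneg (d 0 - d 3)), mul_nonneg hx (sq_nonneg (d 1 - d 2))]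

theorem adalg_koi {K o : Fin 4 → Fin 4 → ℝ} {d : Fin 4 → ℝ} (ho : ∀ i j, 0 ≤ o i j)
    (hd : ∀ i, o i i = d i ^ 2) {x ε : ℝ} (hx : 0 ≤ x) (hε : 0 ≤ ε)
    (hK : ∀ i j, i ≠ j → |K i j - (-1 + x * mB i j)| ≤ ε) :
    (2 * (1 - x) - 10 * ε) * ∑ i, ∑ j, o i j ≤
      -∑ i, ∑ j ∈ Finset.univ.erase i, K i j * (d i * d j - o i j) +
        ∑ i, ∑ j, (∑ e ∈ Finset.univ.erase i, K i e) * o i j + 6 * ∑ i, ∑ j, o i j := by
  have h1 := adalg_row (K := K) ho (c := -3 - 3 * ε) fun i => by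
    refine le_trans (le_of_eq ?_) (Finset.sum_le_sum (f := fun e => -1 + x * mB i e - ε)
      fun e he => by linarith [(abs_le.1 (hK i e (Finset.ne_of_mem_erase he).symm)).1])
    rw [Finset.sum_erase_eq_sub (Finset.mem_univ _), Fin.sum_univ_four]
    fin_cases i <;> norm_num [mB] <;> ring
  have h2 : ∑ i, ∑ j ∈ Finset.univ.erase i, K i j * (d i * d j - o i j) ≤
      ∑ i, ∑ j ∈ Finset.univ.erase i, ((-1 + x * mB i j) * (d i * d j) +
        ε * ((d i ^ 2 + d j ^ 2) / 2) + (1 + x / 2 + ε) * o i j) :=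
    Finset.sum_le_sum fun i _ => Finset.sum_le_sum fun j hj => by
      have h3 := adalg_err (u := d i) (v := d j) (hK i j (Finset.ne_of_mem_erase hj).symm) (ho i j)
      have h4 : 0 ≤ mB i j + 1 / 2 := by
        unfold mB
        split_ifs <;> norm_num
      nlinarith [mul_nonneg (mul_nonneg hx h4) (ho i j)]
  simp only [Finset.sum_add_distrib, ← Finset.mul_sum, adalg_sq] at h2
  have h5 := adalg_mB d hx
  have h6 := adalg_off ho
  have h7 : 0 ≤ ∑ i, d i ^ 2 := Finset.sum_nonneg fun i _ => sq_nonneg _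
  rw [adalg_split hd] at h1 ⊢
  nlinarith [mul_nonneg hx h6, mul_nonneg hε h6, mul_nonneg hε h7]

theorem adalg_pot {K o : Fin 4 → Fin 4 → ℝ} {d : Fin 4 → ℝ} (ho : ∀ i j, 0 ≤ o i j)
    (hd : ∀ i, o i i = d i ^ 2) (hK : ∀ i j, i ≠ j → |K i j| ≤ 2) :
    -20 * ∑ i, ∑ j, o i j ≤
      -2 * ∑ i, ∑ j ∈ Finset.univ.erase i, K i j * (d i * d j - o i j) +
        2 * ∑ i, ∑ j, (∑ e ∈ Finset.univ.erase i, K i e) * o i j + 6 * ∑ i, ∑ j, o i j := by
  have h1 := adalg_row (K := K) ho (c := -6) fun i => by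
    refine le_trans (le_of_eq ?_) (Finset.sum_le_sum (f := fun _ => (-2 : ℝ))
      fun e he => (abs_le.1 (hK i e (Finset.ne_of_mem_erase he).symm)).1)
    rw [Finset.sum_erase_eq_sub (Finset.mem_univ _), Fin.sum_univ_four]
    norm_num
  have h2 : ∑ i, ∑ j ∈ Finset.univ.erase i, K i j * (d i * d j - o i j) ≤
      ∑ i, ∑ j ∈ Finset.univ.erase i, 2 * ((d i ^ 2 + d j ^ 2) / 2 + o i j) :=
    Finset.sum_le_sum fun i _ => Finset.sum_le_sum fun j hj =>
      adalg_err (hK i j (Finset.ne_of_mem_erase hj).symm) (ho i j)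
  simp only [Finset.sum_add_distrib, ← Finset.mul_sum, adalg_sq] at h2
  have h6 := adalg_off ho
  have h7 : 0 ≤ ∑ i, d i ^ 2 := Finset.sum_nonneg fun i _ => sq_nonneg _
  rw [adalg_split hd] at h1 ⊢
  linarith

theorem adalg_ip (h : DC G p a K) (ha : ∀ i, a i ≠ 0) (k : Mat) :
    ipM (G p) k k = ∑ i, ∑ j, k i j ^ 2 / (a i * a j) := by
  simp only [h.eq, ipM_diag ha, sq]

/-- Put `d i = k i i / a i`, `o i j = k i j ^ 2 / (a i a j) ≥ 0`, `o i i = d i ^ 2`. For `ε = 0`: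
`Ric = -3`, on the off diagonal part `3 + K i j ≥ 2 - x / 2`, on the diagonal part
`3 ∑ d² - ∑_{i ≠ j} K d_i d_j = 4 ∑ d² ... `: `∑_{i ≠ j} -d_i d_j = ∑ d² - (∑ d)²` and
`∑_{i ≠ j} mB d_i d_j ≤ 2 ∑ d²`. The error terms are at most `3 ε + 3 ε` times the norm. -/
theorem DC.koi_ge (h : DC G p a K) (ha : ∀ i, 0 < a i) {x ε : ℝ} (hx : 0 ≤ x) (hε : 0 ≤ ε)
    (hK : ∀ i j, i ≠ j → |K i j - (-1 + x * mB i j)| ≤ ε) {k : Mat} (hk : k.IsSymm) :
    (2 * (1 - x) - 10 * ε) * ipM (G p) k k ≤ koi G p k := by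
  have ha' := fun i => (ha i).ne'
  rw [koi, h.rring ha' hk, h.ricq ha', adalg_ip h ha']
  exact adalg_koi (o := fun i j => k i j ^ 2 / (a i * a j)) (d := fun i => k i i / a i)
    (fun i j => div_nonneg (sq_nonneg _) (mul_pos (ha i) (ha j)).le)
    (fun i => by rw [div_pow, sq (a i)]) hx hε hK

theorem DC.pot_ge (h : DC G p a K) (ha : ∀ i, 0 < a i) (hK : ∀ i j, i ≠ j → |K i j| ≤ 2)
    {k : Mat} (hk : k.IsSymm) : -20 * ipM (G p) k k ≤ pot G p k := by
  have ha' := fun i => (ha i).ne'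
  rw [pot, h.rring ha' hk, h.ricq ha', adalg_ip h ha']
  exact adalg_pot (o := fun i j => k i j ^ 2 / (a i * a j)) (d := fun i => k i i / a i)
    (fun i j => div_nonneg (sq_nonneg _) (mul_pos (ha i) (ha j)).le)
    (fun i => by rw [div_pow, sq (a i)]) hK

end Pool.Agent.Lib.MP_94aef8_gt
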