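import Pool.Agent.Lib.MP_94aef8_gt.J.ANum

/-! Curvature of a diagonal metric that depends on the last coordinate only. -/

open scoped Manifold ContDiff Topology
open Matrix Filter Set MeasureTheory Real

namespace Pool.Agent.Lib.MP_94aef8_gt

/-- A diagonal metric that depends on the last coordinate only. -/
noncomputable def Gd (a : Fin 4 → ℝ → ℝ) (p : E4) : Mat := diagonal fun i => a i (p 3)

/-- The sectional curvature of the plane `(i, 3)` from the values and two derivatives. -/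
noncomputable def Kr (a a1 a2 : Fin 4 → ℝ) (i : Fin 4) : ℝ :=
  -(a2 i / (2 * a i) - a1 i ^ 2 / (4 * a i ^ 2) - a1 i * a1 3 / (4 * a i * a 3)) / a 3

/-- The sectional curvatures of the coordinate planes. -/
noncomputable def Kd (a a1 a2 : Fin 4 → ℝ) (i j : Fin 4) : ℝ :=
  if i = 3 then Kr a a1 a2 j else if j = 3 then Kr a a1 a2 i
  else -(a1 i * a1 j) / (4 * a i * a j * a 3)

/-- At `p` the metric is diagonal and so is its curvature operator. -/
structure DC (G : Tn) (p : E4) (a : Fin 4 → ℝ) (K : Fin 4 → Fin 4 → ℝ) : Prop where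
  eq : G p = diagonal a
  symm : ∀ i j, K i j = K j i
  rm_eq : ∀ i j k l, rm G i j p k l =
    K i j * ((if k = i ∧ l = j then a j else 0) - if k = j ∧ l = i then a i else 0)

theorem adiag_pd {f : ℝ → ℝ} {f' : ℝ} {x : E4} (h : HasDerivAt f f' (x 3)) (l : Fin 4) :
    pd l (fun x : E4 => f (x 3)) x = if l = 3 then f' else 0 := by
  have h3 : HasFDerivAt (fun x : E4 => x 3) (EuclideanSpace.proj (𝕜 := ℝ) (3 : Fin 4)) x :=
    (EuclideanSpace.proj (𝕜 := ℝ) (3 : Fin 4)).hasFDerivAt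
  have h4 := h.comp_hasFDerivAt x h3
  have h5 : fderiv ℝ (fun x : E4 => f (x 3)) x = f' • EuclideanSpace.proj (𝕜 := ℝ) (3 : Fin 4) :=
    h4.fderiv
  rw [pd, h5]
  by_cases hl : l = 3
  · simp [hl, bas]
  · have : (3 : Fin 4) ≠ l := fun e => hl e.symm
    simp [hl, bas, this]

/-- The numerators of the Christoffel symbols. -/
noncomputable def adiag_N (c : Fin 4 → ℝ) (b k j : Fin 4) : ℝ :=
  (if b = 3 ∧ j = k then c k else 0) + (if j = 3 ∧ b = k then c k else 0) -
    if k = 3 ∧ b = j then c b else 0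

theorem adiag_G {a : Fin 4 → ℝ → ℝ} {c : Fin 4 → ℝ} {x : E4}
    (h : ∀ i, HasDerivAt (a i) (c i) (x 3)) (l j k : Fin 4) :
    pd l (fun y => Gd a y j k) x = if l = 3 ∧ j = k then c j else 0 := by
  by_cases e : j = k
  · subst e
    have : (fun y : E4 => Gd a y j j) = fun y : E4 => a j (y 3) := by
      funext y; simp [Gd]
    rw [this, adiag_pd (h j)]
    simp
  · have : (fun y : E4 => Gd a y j k) = fun _ : E4 => (0 : ℝ) := by
      funext y; simp [Gd, e]
    rw [this]
    simp [pd, e]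

theorem adiag_inv {c : Fin 4 → ℝ} (h : ∀ i, c i ≠ 0) :
    (diagonal c : Mat)⁻¹ = diagonal fun i => (c i)⁻¹ := by
  apply Matrix.inv_eq_right_inv
  rw [diagonal_mul_diagonal]
  ext i j
  by_cases e : i = j
  · subst e; simp [h i]
  · simp [e]

theorem adiag_w {a : Fin 4 → ℝ → ℝ} {c : Fin 4 → ℝ} {x : E4}
    (h : ∀ i, HasDerivAt (a i) (c i) (x 3)) (h0 : ∀ i, a i (x 3) ≠ 0) (b k j : Fin 4) :
    (geo (Gd a)).w b k j x = adiag_N c b k j / (2 * a k (x 3)) := by
  have e1 : (geo (Gd a)).w b k j x = 1 / 2 * ∑ l, (Gd a x)⁻¹ k l *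
      (pd b (fun y => Gd a y j l) x + pd j (fun y => Gd a y b l) x -
        pd l (fun y => Gd a y b j) x) := by
    simp only [Geo.w, geo, Matrix.of_apply, Pi.mul_apply, Finset.sum_apply, Pi.add_apply,
      Pi.sub_apply, mf, inv]
  have e2 : (Gd a x)⁻¹ = diagonal fun i => (a i (x 3))⁻¹ := adiag_inv h0
  rw [e1, e2, Finset.sum_eq_single k]
  · rw [adiag_G h, adiag_G h, adiag_G h, diagonal_apply_eq, adiag_N]
    have e3 : (if b = 3 ∧ j = k then c j else 0) = if b = 3 ∧ j = k then c k else 0 := by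
      split_ifs with q
      · rw [q.2]
      · rfl
    have e4 : (if j = 3 ∧ b = k then c b else 0) = if j = 3 ∧ b = k then c k else 0 := by
      split_ifs with q
      · rw [q.2]
      · rfl
    rw [e3, e4]
    have := h0 k
    field_simp
  · intro l _ hl
    rw [diagonal_apply_ne _ (Ne.symm hl), zero_mul]
  · intro q
    exact absurd (Finset.mem_univ k) q

theorem adiag_dN {a1 : Fin 4 → ℝ → ℝ} {a2 : Fin 4 → ℝ} {y : ℝ}
    (h2 : ∀ i, HasDerivAt (a1 i) (a2 i) y) (b k j : Fin 4) :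
    HasDerivAt (fun y => adiag_N (fun i => a1 i y) b k j) (adiag_N a2 b k j) y := by
  have q : ∀ (P : Prop) [Decidable P] (i : Fin 4),
      HasDerivAt (fun y => if P then a1 i y else 0) (if P then a2 i else 0) y := by
    intro P _ i
    by_cases hP : P
    · simpa [hP] using h2 i
    · simpa [hP] using hasDerivAt_const y (0 : ℝ)
  exact ((q _ k).add (q _ k)).sub (q _ b)

/-- The derivative of a Christoffel symbol. -/
noncomputable def adiag_dW (a a1 a2 : Fin 4 → ℝ) (b k j : Fin 4) : ℝ :=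
  (adiag_N a2 b k j * (2 * a k) - adiag_N a1 b k j * (2 * a1 k)) / (2 * a k) ^ 2

theorem adiag_alg {a a1 a2 : Fin 4 → ℝ} (h0 : ∀ i, a i ≠ 0) (i j k l : Fin 4) :
    (if i = 3 then adiag_dW a a1 a2 j k l else 0) - (if j = 3 then adiag_dW a a1 a2 i k l else 0) +
      ∑ m, adiag_N a1 i k m / (2 * a k) * (adiag_N a1 j m l / (2 * a m)) -
      ∑ m, adiag_N a1 j k m / (2 * a k) * (adiag_N a1 i m l / (2 * a m)) =
    Kd a a1 a2 i j * ((if k = i ∧ l = j then a j else 0) - if k = j ∧ l = i then a i else 0) := by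
  have q0 := h0 0
  have q1 := h0 1
  have q2 := h0 2
  have q3 := h0 3
  have c4 : ∀ m : Fin 4, m = 0 ∨ m = 1 ∨ m = 2 ∨ m = 3 := by decide
  simp only [Fin.sum_univ_four, adiag_N, adiag_dW, Kd, Kr]
  rcases c4 i with rfl | rfl | rfl | rfl <;> rcases c4 j with rfl | rfl | rfl | rfl <;>
    simp only [Fin.reduceEq, and_true, and_false, false_and, true_and, ↓reduceIte,
      add_zero, zero_add, sub_zero, zero_sub, sub_self, zero_div, mul_zero, zero_mul] <;>
    rcases c4 k with rfl | rfl | rfl | rfl <;> rcases c4 l with rfl | rfl | rfl | rfl <;>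
    simp only [Fin.reduceEq, and_self, and_true, and_false, ↓reduceIte, add_zero, zero_add,
      sub_zero, zero_sub, sub_self, zero_div, mul_zero, zero_mul, neg_zero, add_sub_cancel_right] <;>
    field_simp <;> ring

/-- Sketch. `pd l (fun x => f (x 3)) x = if l = 3 then f' else 0`. Near `p` the connection matrices
`(geo (Gd a)).w b k j` are functions of `x 3`: with `u i = a1 i / (2 a i)`, `z i = a1 i / (2 a 3)`,
`w 3 = diagonal u` and for `b ≠ 3` the only nonzero entries of `w b` are `(b, 3) = u b` and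
`(3, b) = - z b` (`Matrix.inv_diagonal` or `inv_eq_right_inv`). Write one formula
`W b k j y` with `if`s, show `w b k j =ᶠ fun x => W b k j (x 3)`, differentiate, then check the
256 cases (`fin_cases` / `simp` / `field_simp` / `ring`; use `rm_anti`-like symmetry or split by
`i`, `j` into helper lemmas if slow). -/
theorem dc_Gd {a a1 : Fin 4 → ℝ → ℝ} {a2 : Fin 4 → ℝ} {p : E4}
    (h1 : ∀ i, ∀ᶠ y in 𝓝 (p 3), HasDerivAt (a i) (a1 i y) y)
    (h2 : ∀ i, HasDerivAt (a1 i) (a2 i) (p 3)) (h0 : ∀ i, a i (p 3) ≠ 0) :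
    DC (Gd a) p (fun i => a i (p 3)) (Kd (fun i => a i (p 3)) (fun i => a1 i (p 3)) a2) := by
  refine ⟨rfl, fun i j => ?_, fun i j k l => ?_⟩
  · unfold Kd
    by_cases hi : i = 3 <;> by_cases hj : j = 3 <;> simp [hi, hj]
    ring
  have hc : Tendsto (fun x : E4 => x 3) (𝓝 p) (𝓝 (p 3)) :=
    (EuclideanSpace.proj (𝕜 := ℝ) (3 : Fin 4)).continuous.tendsto p
  have g1 : ∀ i, HasDerivAt (a i) (a1 i (p 3)) (p 3) := fun i => (h1 i).self_of_nhds
  have g2 : ∀ᶠ y in 𝓝 (p 3), ∀ i, HasDerivAt (a i) (a1 i y) y := eventually_all.2 h1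
  have g3 : ∀ᶠ y in 𝓝 (p 3), ∀ i, a i y ≠ 0 :=
    eventually_all.2 fun i => (g1 i).continuousAt.eventually_ne (h0 i)
  have hw : ∀ b k j, (geo (Gd a)).w b k j =ᶠ[𝓝 p]
      fun x : E4 => (fun y => adiag_N (fun i => a1 i y) b k j / (2 * a k y)) (x 3) := by
    intro b k j
    filter_upwards [hc.eventually g2, hc.eventually g3] with x u v
    exact adiag_w u v b k j
  have hd : ∀ e b k j, pd e ((geo (Gd a)).w b k j) p = if e = 3 then
      adiag_dW (fun i => a i (p 3)) (fun i => a1 i (p 3)) a2 b k j else 0 := by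
    intro e b k j
    have u := (adiag_dN h2 b k j).div ((g1 k).const_mul 2) (mul_ne_zero two_ne_zero (h0 k))
    have v := adiag_pd u e
    rw [pd, (hw b k j).fderiv_eq]
    exact v
  have e1 : rm (Gd a) i j p k l = pd i ((geo (Gd a)).w j k l) p - pd j ((geo (Gd a)).w i k l) p +
      ∑ m, (geo (Gd a)).w i k m p * (geo (Gd a)).w j m l p -
      ∑ m, (geo (Gd a)).w j k m p * (geo (Gd a)).w i m l p := by
    simp only [rm, fm, Geo.rm, Geo.dm, Matrix.of_apply, Matrix.sub_apply, Matrix.add_apply,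
      Matrix.mul_apply, Matrix.map_apply, Pi.sub_apply, Pi.add_apply, Finset.sum_apply,
      Pi.mul_apply]
    rfl
  rw [e1, hd, hd]
  simp only [adiag_w g1 h0]
  exact adiag_alg h0 i j k l

end Pool.Agent.Lib.MP_94aef8_gt
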