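import Pool.Agent.Lib.MP_94aef8_gt.J.ADAlg

/-! The metrics of the slab in diagonal form. -/

open scoped Manifold ContDiff Topology
open Matrix Filter Set MeasureTheory Real

namespace Pool.Agent.Lib.MP_94aef8_gt

theorem adiag2_c3 : ContDiff ℝ ∞ (fun p : E4 => p 3) :=
  (EuclideanSpace.proj (3 : Fin 4) : E4 →L[ℝ] ℝ).contDiff

theorem good_Gd {a : Fin 4 → ℝ → ℝ} {I : Set ℝ} (hI : IsOpen I) (hs : ∀ i, ContDiffOn ℝ ∞ (a i) I)
    (hp : ∀ i, ∀ y ∈ I, 0 < a i y) : Good (Gd a) {p | p 3 ∈ I} := by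
  refine ⟨hI.preimage adiag2_c3.continuous, fun i j => ?_, fun p hp' => ?_⟩
  · by_cases h : i = j
    · subst h
      simp only [Gd, diagonal_apply_eq]
      exact (hs i).comp adiag2_c3.contDiffOn fun p hp' => hp'
    · simp only [Gd, diagonal_apply_ne _ h]
      exact contDiffOn_const
  · exact Matrix.posDef_diagonal_iff.2 fun i => hp i _ hp'

/-- The metric `Y⁻² (v dx0² + dx1² + dx2² + dy² / v)`, `Y = y + s`. -/
noncomputable def aG (v : ℝ → ℝ) (s : ℝ) : Fin 4 → ℝ → ℝ :=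
  ![fun y => v y / (y + s) ^ 2, fun y => 1 / (y + s) ^ 2, fun y => 1 / (y + s) ^ 2,
    fun y => 1 / (v y * (y + s) ^ 2)]

/-- Its sectional curvatures. -/
noncomputable def KG (Y v v1 v2 : ℝ) (i j : Fin 4) : ℝ :=
  if (i = 0 ∧ j = 3) ∨ (i = 3 ∧ j = 0) then -(Y ^ 2 * v2 / 2 - Y * v1 + v)
  else if (i = 1 ∧ j = 2) ∨ (i = 2 ∧ j = 1) then -v else Y * v1 / 2 - v

theorem adiag2_congr {G : Tn} {p : E4} {a : Fin 4 → ℝ} {K K' : Fin 4 → Fin 4 → ℝ} (h : DC G p a K)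
    (hs : ∀ i j, K' i j = K' j i) (e : ∀ i j, i ≠ j → K i j = K' i j) : DC G p a K' := by
  refine ⟨h.eq, hs, fun i j k l => ?_⟩
  rw [h.rm_eq]
  by_cases hij : i = j
  · subst hij
    simp
  · rw [e i j hij]

/-- First derivatives of the coefficients. -/
noncomputable def adiag2_a1 (v v1 : ℝ → ℝ) (s : ℝ) : Fin 4 → ℝ → ℝ :=
  ![fun y => v1 y / (y + s) ^ 2 - 2 * v y / (y + s) ^ 3, fun y => -2 / (y + s) ^ 3,
    fun y => -2 / (y + s) ^ 3, fun y => -(v1 y / (v y ^ 2 * (y + s) ^ 2)) - 2 / (v y * (y + s) ^ 3)]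

theorem adiag2_pow (s y : ℝ) (n : ℕ) :
    HasDerivAt (fun y => (y + s) ^ (n + 1)) ((n + 1 : ℝ) * (y + s) ^ n) y := by
  have := ((hasDerivAt_id y).add_const s).fun_pow (n + 1)
  simpa using this

theorem adiag2_d1 {v v1 : ℝ → ℝ} {s y : ℝ} (h : HasDerivAt v (v1 y) y) (hv : v y ≠ 0)
    (hs : y + s ≠ 0) (i : Fin 4) : HasDerivAt (aG v s i) (adiag2_a1 v v1 s i y) y := by
  have h2 := adiag2_pow s y 1
  have hc : HasDerivAt (fun y => 1 / (y + s) ^ 2) (-2 / (y + s) ^ 3) y := by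
    refine ((hasDerivAt_const y (1 : ℝ)).fun_div h2 (pow_ne_zero _ hs)).congr_deriv ?_
    field_simp
    ring
  fin_cases i
  · refine (h.fun_div h2 (pow_ne_zero _ hs)).congr_deriv ?_
    simp only [adiag2_a1]
    simp
    field_simp
    ring
  · exact hc
  · exact hc
  · refine ((hasDerivAt_const y (1 : ℝ)).fun_div (h.fun_mul h2)
      (mul_ne_zero hv (pow_ne_zero _ hs))).congr_deriv ?_
    simp only [adiag2_a1]
    simp
    field_simp
    ring

theorem adiag2_d2 {v v1 : ℝ → ℝ} {v2 s y : ℝ} (h : HasDerivAt v (v1 y) y) (h' : HasDerivAt v1 v2 y)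
    (hv : v y ≠ 0) (hs : y + s ≠ 0) (i : Fin 4) :
    HasDerivAt (adiag2_a1 v v1 s i)
      (![v2 / (y + s) ^ 2 - 4 * v1 y / (y + s) ^ 3 + 6 * v y / (y + s) ^ 4, 6 / (y + s) ^ 4,
        6 / (y + s) ^ 4, deriv (adiag2_a1 v v1 s 3) y] i) y := by
  have h2 := adiag2_pow s y 1
  have h3 := adiag2_pow s y 2
  have hc : HasDerivAt (fun y => -2 / (y + s) ^ 3) (6 / (y + s) ^ 4) y := by
    refine ((hasDerivAt_const y (-2 : ℝ)).fun_div h3 (pow_ne_zero _ hs)).congr_deriv ?_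
    field_simp
    ring
  fin_cases i
  · refine ((h'.fun_div h2 (pow_ne_zero _ hs)).fun_sub
      ((h.const_mul 2).fun_div h3 (pow_ne_zero _ hs))).congr_deriv ?_
    simp
    field_simp
    ring
  · exact hc
  · exact hc
  · refine DifferentiableAt.hasDerivAt ?_
    exact (((h'.fun_div ((h.fun_pow 2).fun_mul h2)
      (mul_ne_zero (pow_ne_zero _ hv) (pow_ne_zero _ hs))).fun_neg).fun_sub
      ((hasDerivAt_const y (2 : ℝ)).fun_div (h.fun_mul h3)
        (mul_ne_zero hv (pow_ne_zero _ hs)))).differentiableAt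

theorem adiag2_symm (Y v v1 v2 : ℝ) (i j : Fin 4) : KG Y v v1 v2 i j = KG Y v v1 v2 j i := by
  fin_cases i <;> fin_cases j <;> simp [KG]

/-- From `dc_Gd`; `Kd` and `KG` agree for `i ≠ j`, and for `i = j` the bracket vanishes. -/
theorem dc_aG {v v1 : ℝ → ℝ} {v2 s : ℝ} {p : E4} (h1 : ∀ᶠ y in 𝓝 (p 3), HasDerivAt v (v1 y) y)
    (h2 : HasDerivAt v1 v2 (p 3)) (hv : v (p 3) ≠ 0) (hs : p 3 + s ≠ 0) :
    DC (Gd (aG v s)) p (fun i => aG v s i (p 3)) (KG (p 3 + s) (v (p 3)) (v1 (p 3)) v2) := by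
  have h0 := h1.self_of_nhds
  have ev : ∀ᶠ y in 𝓝 (p 3), v y ≠ 0 := h0.continuousAt.eventually_ne hv
  have es : ∀ᶠ y in 𝓝 (p 3), y + s ≠ 0 :=
    (continuous_id.add continuous_const).continuousAt.eventually_ne hs
  have ha : ∀ i, aG v s i (p 3) ≠ 0 := by
    intro i
    fin_cases i <;> simp [aG, hv, hs]
  have H := dc_Gd (a := aG v s) (a1 := adiag2_a1 v v1 s) (p := p)
    (fun i => by
      filter_upwards [h1, ev, es] with y a b c using adiag2_d1 a b c i)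
    (fun i => adiag2_d2 h0 h2 hv hs i) ha
  refine adiag2_congr H (adiag2_symm _ _ _ _) fun i j hij => ?_
  generalize p 3 = y at hv hs ⊢
  fin_cases i <;> fin_cases j <;> first
    | exact absurd rfl hij
    | (simp [Kd, Kr, KG, aG, adiag2_a1]; field_simp; ring)

/-- The black hole `v = 1 - e (y + s) ^ 3` is Einstein (`dc_aG`, `DC.ric`). -/
theorem err_aG {v : ℝ → ℝ} {e s : ℝ} {p : E4} (h : ∀ᶠ y in 𝓝 (p 3), v y = 1 - e * (y + s) ^ 3)
    (hv : v (p 3) ≠ 0) (hs : p 3 + s ≠ 0) : Err (Gd (aG v s)) p = 0 := by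
  have h1 : ∀ᶠ y in 𝓝 (p 3), HasDerivAt v ((fun y => -(e * (3 * (y + s) ^ 2))) y) y := by
    filter_upwards [h.eventually_nhds] with y hy
    have := ((adiag2_pow s y 2).const_mul e).const_sub 1
    refine (this.congr_of_eventuallyEq hy).congr_deriv ?_
    norm_num
  have h2 : HasDerivAt (fun y => -(e * (3 * (y + s) ^ 2))) (-(e * (6 * (p 3 + s)))) (p 3) := by
    refine ((((adiag2_pow s (p 3) 1).const_mul 3).const_mul e).fun_neg).congr_deriv ?_
    ring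
  have H := dc_aG h1 h2 hv hs
  have h0 := h.self_of_nhds
  have hK : ∀ i, ∑ j ∈ Finset.univ.erase i,
      KG (p 3 + s) (v (p 3)) (-(e * (3 * (p 3 + s) ^ 2))) (-(e * (6 * (p 3 + s)))) i j = -3 := by
    intro i
    rw [Finset.sum_erase_eq_sub (Finset.mem_univ i), Fin.sum_univ_four, h0]
    fin_cases i <;> simp [KG] <;> ring
  unfold Err
  rw [H.ric, H.eq]
  ext i j
  by_cases hij : i = j
  · subst hij
    simp only [Matrix.add_apply, Matrix.smul_apply, diagonal_apply_eq, hK, smul_eq_mul,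
      Matrix.zero_apply]
    ring
  · simp [diagonal_apply_ne _ hij]

end Pool.Agent.Lib.MP_94aef8_gt
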