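import Pool.Agent.Lib.MP_94aef8_gt.J.AGen

/-! Transfer of local estimates to the manifold. -/

open scoped Manifold ContDiff Topology
open Matrix Filter Set MeasureTheory Real

namespace Pool.Agent.Lib.MP_94aef8_gt

variable {M : Type} [TopologicalSpace M] [ChartedSpace E4 M] [IsManifold (𝓡 4) ∞ M]
  {θ : E4 → M} {U : Set E4} {g h : M → Mat} {G : Tn} {y : E4} {σ : ℝ}

/-- In the patch `θ` on `U` the metric `g` is `σ ^ 2 G`. -/
structure FP (g : M → Mat) (θ : E4 → M) (U : Set E4) (σ : ℝ) (G : Tn) : Prop where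
  pt : Pt θ U
  pos : 0 < σ
  eq : ∀ y ∈ U, gpull θ g y = σ ^ 2 • G y

/-- `ji_pt_comp`, `ji_gpull_comp`. -/
theorem FP.of_comp {V : Set E4} {τ : E4 → E4} {G' : Tn} {c : ℝ} (hθ : Pt θ V)
    (e : ∀ x ∈ V, gpull θ g x = c • G' x) (hτ : LDif τ U V) (hσ : 0 < σ)
    (e' : ∀ y ∈ U, c • pull τ G' y = σ ^ 2 • G y) : FP g (θ ∘ τ) U σ G := by
  refine ⟨ji_pt_comp hθ hτ, hσ, fun y hy => ?_⟩
  rw [ji_gpull_comp hθ hτ g hy, ← e' y hy, pull, pull, e _ (hτ.maps hy), Matrix.mul_smul,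
    Matrix.smul_mul]

omit [IsManifold (𝓡 4) ∞ M] in
theorem atr_ev (H : FP g θ U σ G) (hy : y ∈ U) : gpull θ g =ᶠ[𝓝 y] fun y => σ ^ 2 • G y :=
  eventually_of_mem (H.pt.isOpen.mem_nhds hy) H.eq

omit [IsManifold (𝓡 4) ∞ M] in
theorem atr_ev1 (H : FP g θ U 1 G) (hy : y ∈ U) : gpull θ g =ᶠ[𝓝 y] G := by
  simpa only [one_pow, one_smul] using atr_ev H hy

omit [IsManifold (𝓡 4) ∞ M] in
theorem atr_inv (H : FP g θ U σ G) (hy : y ∈ U) : (σ ^ 2)⁻¹ • gpull θ g y = G y := by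
  rw [H.eq y hy, inv_smul_smul₀ (pow_pos H.pos 2).ne']

theorem atr_good {G' : Tn} (hG : Good G U) (e : ∀ y ∈ U, G' y = G y) : Good G' U :=
  ⟨hG.isOpen, fun i j => (hG.smooth i j).congr fun y hy => by rw [e y hy],
    fun y hy => e y hy ▸ hG.pos y hy⟩

theorem atr_pdw {f f' : E4 → ℝ} (e : f =ᶠ[𝓝 y] f') (w : List (Fin 4)) :
    pdw w f =ᶠ[𝓝 y] pdw w f' := by
  induction w with
  | nil => exact e
  | cons i w ih => exact (ih.fderiv (𝕜 := ℝ)).mono fun x hx => congrArg (· (bas i)) hx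

theorem atr_succ (G : Tn) (m : ℝ) (i : ℕ) (y : E4) :
    EI G m (i + 1) y = lich G (EI G m i) y + (2 * (3 * m)) • EI G m i y := by
  rw [EI, Function.iterate_succ_apply']
  rfl

theorem atr_sm (hG : Good G U) (m : ℝ) (i : ℕ) : SmT (EI G m i) U := by
  induction i with
  | zero => exact fun a b => (ji_sm_ric hG a b).add (contDiffOn_const.mul (hG.smooth a b))
  | succ i ih =>
    intro a b
    simp only [atr_succ]
    exact (ji_sm_lich hG ih a b).add (contDiffOn_const.mul (ih a b))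

theorem atr_smG (hg : GoodT g) (i : ℕ) : SmG ((GP g)^[i] (GE g)) := by
  induction i with
  | zero => exact ji_sm_GE hg
  | succ i ih =>
    rw [Function.iterate_succ_apply']
    exact ji_sm_GP hg ih

theorem FP.good (H : FP g θ U σ G) (hg : GoodT g) : Good G U := by
  have h1 := ji_good H.pt hg
  exact atr_good (G := fun y => (σ ^ 2)⁻¹ • gpull θ g y) ⟨h1.isOpen,
    fun i j => contDiffOn_const.mul (h1.smooth i j), fun y hy =>
      (h1.pos y hy).smul (inv_pos.2 (pow_pos H.pos 2))⟩ fun y hy => (atr_inv H hy).symm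

/-- A bound `GoodB` depends only on the values on the open cube. -/
theorem FP.goodB (H : FP g θ (Q 3) σ G) {C : ℝ} (hC : GoodB C G) :
    GoodB C fun y => (σ ^ 2)⁻¹ • gpull θ g y := by
  refine ⟨atr_good hC.good fun y hy => atr_inv H hy, fun y hy v => ?_, fun a b w hw y hy => ?_⟩
  · rw [atr_inv H hy]
    exact hC.ell y hy v
  · have e : (fun y => ((σ ^ 2)⁻¹ • gpull θ g y) a b) =ᶠ[𝓝 y] fun y => G y a b :=
      eventually_of_mem (H.pt.isOpen.mem_nhds hy) fun x hx => by simp only [atr_inv H hx]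
    rw [(atr_pdw e w).eq_of_nhds]
    exact hC.bdd a b w hw y hy

/-- Induction: `ji_GE`, `ji_GP`, `ji_ric_congr`, `ji_ric_smul`, `ji_lich_congr`, `ji_lich_smul`;
`EI G m i` is smooth on `U` (`ji_sm_ric`, `ji_sm_lich`), the iterates on `M` are `SmG`. -/
theorem FP.iter (H : FP g θ U σ G) (hg : GoodT g) (i : ℕ) :
    ∀ y ∈ U, gpull θ ((GP g)^[i] (GE g)) y = (σ ^ (2 * i))⁻¹ • EI G (σ ^ 2) i y := by
  have hG := H.good hg
  have h2 := pow_pos H.pos 2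
  induction i with
  | zero =>
    intro y hy
    rw [Function.iterate_zero_apply, ji_GE H.pt hg hy, Err, (ji_ric_congr (atr_ev H hy)).eq_of_nhds,
      ji_ric_smul hG hy h2, H.eq y hy, smul_smul, mul_zero, pow_zero, inv_one, one_smul]
    rfl
  | succ i ih =>
    intro y hy
    have e : gpull θ ((GP g)^[i] (GE g)) =ᶠ[𝓝 y] fun y => (σ ^ (2 * i))⁻¹ • EI G (σ ^ 2) i y :=
      eventually_of_mem (H.pt.isOpen.mem_nhds hy) ih
    rw [Function.iterate_succ_apply', ji_GP H.pt hg (atr_smG hg i) hy, PP,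
      (ji_lich_congr (atr_ev H hy) e).eq_of_nhds, ji_lich_smul hG (atr_sm hG _ i) hy h2, ih y hy,
      atr_succ, smul_add, smul_smul, smul_smul]
    have h3 := H.pos.ne'
    have e1 : (σ ^ (2 * i))⁻¹ / σ ^ 2 = (σ ^ (2 * (i + 1)))⁻¹ := by
      field_simp
      ring
    have e2 : 6 * (σ ^ (2 * i))⁻¹ = (σ ^ (2 * (i + 1)))⁻¹ * (2 * (3 * σ ^ 2)) := by
      field_simp
      ring
    rw [e1, e2]

theorem FP.n0_iter (H : FP g θ U σ G) (hg : GoodT g) (i : ℕ) (hy : y ∈ U) :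
    σ ^ (4 * i + 4) * n0 g ((GP g)^[i] (GE g)) (θ y) =
      ipM (G y) (EI G (σ ^ 2) i y) (EI G (σ ^ 2) i y) := by
  have h3 := H.pos.ne'
  rw [n0, ji_ipM H.pt hy, H.iter hg i y hy, H.eq y hy, ipM_smul _ _ _ (pow_ne_zero 2 h3)]
  field_simp
  ring

/-- Where the metric is Einstein all iterates vanish. -/
theorem FP.n0_zero (H : FP g θ U 1 G) (hg : GoodT g) (e : ∀ y ∈ U, Err G y = 0) (i : ℕ)
    (hy : y ∈ U) : n0 g ((GP g)^[i] (GE g)) (θ y) = 0 := by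
  have h1 : ∀ i, ∀ y ∈ U, EI G (1 ^ 2) i y = 0 := fun i => by
    induction i with
    | zero =>
      intro y hy
      rw [← e y hy, Err, one_pow, EI, Function.iterate_zero_apply, mul_one]
    | succ i ih =>
      intro y hy
      have e1 : EI G (1 ^ 2) i =ᶠ[𝓝 y] 0 := eventually_of_mem (H.pt.isOpen.mem_nhds hy) ih
      rw [atr_succ, (ji_lich_congr EventuallyEq.rfl e1).eq_of_nhds, ji_lich_zero, ih y hy,
        smul_zero, add_zero]
      rfl
  have h2 := H.n0_iter hg i hy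
  rw [h1 i y hy, one_pow, one_mul] at h2
  rw [h2, ipM, Matrix.transpose_zero, Matrix.mul_zero, Matrix.trace_zero]

theorem FP.koi_ge (H : FP g θ U 1 G) (hg : GoodT g) (hy : y ∈ U) (hs : (h (θ y)).IsSymm) {c : ℝ}
    (e : ∀ k : Mat, k.IsSymm → c * ipM (G y) k k ≤ koi G y k) :
    c * n0 g h (θ y) ≤ GKoi g h (θ y) := by
  rw [n0, ji_ipM H.pt hy, ji_GKoi H.pt hg hy, ji_koi_congr (atr_ev1 H hy),
    (atr_ev1 H hy).eq_of_nhds]
  exact e _ (ji_symm θ hs)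

theorem FP.pot_ge (H : FP g θ U 1 G) (hg : GoodT g) (hy : y ∈ U) (hs : (h (θ y)).IsSymm) {c : ℝ}
    (e : ∀ k : Mat, k.IsSymm → c * ipM (G y) k k ≤ pot G y k) :
    c * n0 g h (θ y) ≤ GPot g h (θ y) := by
  rw [n0, ji_ipM H.pt hy, ji_GPot H.pt hg hy, ji_pot_congr (atr_ev1 H hy),
    (atr_ev1 H hy).eq_of_nhds]
  exact e _ (ji_symm θ hs)

/-- `koi_ge_cvq`, `pot_ge_cvq`, `cvq_smul`, `ipM_smul`. -/
theorem FP.cvq_ge (H : FP g θ U σ G) (hg : GoodT g) (hy : y ∈ U) {c : ℝ} (hc : 0 ≤ c)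
    (e : ∀ k : Mat, cvq G y k ≤ c * ipM (G y) k k) :
    -(2 * c / σ ^ 2) * n0 g h (θ y) ≤ GKoi g h (θ y) ∧
      -(2 * c / σ ^ 2) * n0 g h (θ y) ≤ GPot g h (θ y) := by
  have hG := H.good hg
  have h0 := H.pos
  have h2 := pow_pos h0 2
  rw [n0, ji_ipM H.pt hy, ji_GKoi H.pt hg hy, ji_GPot H.pt hg hy, ji_koi_congr (atr_ev H hy),
    ji_pot_congr (atr_ev H hy), H.eq y hy]
  generalize gpull θ h y = k
  have e1 := ipM_smul (G y) k k h2.ne' 1 1
  have e2 := cvq_smul hG hy h2 k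
  have e3 := koi_ge_cvq (G := fun y => σ ^ 2 • G y) ((hG.pos y hy).smul h2) k
  have e4 := pot_ge_cvq (G := fun y => σ ^ 2 • G y) ((hG.pos y hy).smul h2) k
  have e5 := mul_le_mul_of_nonneg_left (e k) (inv_pos.2 (pow_pos h2 3)).le
  have e6 : 0 ≤ ((σ ^ 2) ^ 3)⁻¹ * (c * ipM (G y) k k) :=
    mul_nonneg (by positivity) (mul_nonneg hc (ji_ipM_nonneg (hG.pos y hy) k))
  rw [one_smul] at e1
  have e7 : -(2 * c / σ ^ 2) * ipM (σ ^ 2 • G y) k k =
      -(2 * (((σ ^ 2) ^ 3)⁻¹ * (c * ipM (G y) k k))) := by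
    rw [e1]
    field_simp
  rw [e7]
  constructor <;> linarith

theorem FP.scal (H : FP g θ U 1 G) (hg : GoodT g) (hy : y ∈ U) :
    trg g (GRic g) (θ y) = scal G y := by
  have e1 := ji_GE H.pt hg hy
  have e2 : gpull θ (GE g) y = gpull θ (GRic g) y + (3 : ℝ) • gpull θ g y := by
    simp only [gpull, GE, Matrix.mul_add, Matrix.add_mul, Matrix.mul_smul, Matrix.smul_mul]
  rw [e2, Err, add_left_inj] at e1
  rw [ji_trg H.pt hy, trG, e1, (ji_ric_congr (atr_ev1 H hy)).eq_of_nhds, (atr_ev1 H hy).eq_of_nhds]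
  rfl

end Pool.Agent.Lib.MP_94aef8_gt
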