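import Pool.Agent.Lib.MP_94aef8_gt.J.AOm
import Pool.Agent.Lib.MP_94aef8_gt.J.ATr

/-! Curvature of the slab. -/

open scoped Manifold ContDiff Topology
open Matrix Filter Set MeasureTheory Real

namespace Pool.Agent.Lib.MP_94aef8_gt

/-- The profile of the correction. -/
noncomputable def aom2_phi (y : ℝ) : ℝ := smoothTransition (y - 3) * y ^ 3

theorem aom2_phi_sm : ContDiff ℝ ∞ aom2_phi :=
  (smoothTransition.contDiff.comp (contDiff_id.sub contDiff_const)).mul (contDiff_id.pow 3)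

theorem aom2_vO (P : Par) : P.vO = fun y => 1 - P.δ ^ 3 * aom2_phi y := by
  funext y
  unfold Par.vO aom2_phi
  ring

theorem aom2_d1 (P : Par) : deriv P.vO = fun y => -(P.δ ^ 3 * deriv aom2_phi y) := by
  funext y
  rw [aom2_vO]
  exact ((((contDiff_infty_iff_deriv.1 aom2_phi_sm).1 y).hasDerivAt.const_mul _).const_sub 1).deriv

theorem aom2_d2 (P : Par) :
    deriv (deriv P.vO) = fun y => -(P.δ ^ 3 * deriv (deriv aom2_phi) y) := by
  funext y
  rw [aom2_d1]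
  exact ((((contDiff_infty_iff_deriv.1 (contDiff_infty_iff_deriv.1 aom2_phi_sm).2).1
    y).hasDerivAt.const_mul _).fun_neg).deriv

theorem aom2_h1 (P : Par) (y : ℝ) : HasDerivAt P.vO (deriv P.vO y) y :=
  ((contDiff_infty_iff_deriv.1 P.vO_smooth).1 y).hasDerivAt

theorem aom2_h2 (P : Par) (y : ℝ) : HasDerivAt (deriv P.vO) (deriv (deriv P.vO) y) y :=
  ((contDiff_infty_iff_deriv.1 (contDiff_infty_iff_deriv.1 P.vO_smooth).2).1 y).hasDerivAt

theorem aom2_far (P : Par) {y : ℝ} (h : 4 < y) :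
    ∀ᶠ t in 𝓝 y, P.vO t = 1 - P.δ ^ 3 * (t + 0) ^ 3 := by
  filter_upwards [lt_mem_nhds h] with t ht
  unfold Par.vO
  rw [smoothTransition.one_of_one_le (by linarith)]
  ring

theorem aom2_far1 (P : Par) {y : ℝ} (h : 4 < y) : deriv P.vO y = -(P.δ ^ 3 * (3 * y ^ 2)) := by
  have e : P.vO =ᶠ[𝓝 y] fun t => 1 - P.δ ^ 3 * t ^ 3 := by
    filter_upwards [aom2_far P h] with t ht
    rw [ht, add_zero]
  rw [e.deriv_eq]
  simp

theorem aom2_far2 (P : Par) {y : ℝ} (h : 4 < y) :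
    deriv (deriv P.vO) y = -(P.δ ^ 3 * (6 * y)) := by
  have e : deriv P.vO =ᶠ[𝓝 y] fun t => -(P.δ ^ 3 * (3 * t ^ 2)) := by
    filter_upwards [lt_mem_nhds h] with t ht using aom2_far1 P ht
  rw [e.deriv_eq]
  refine ((((hasDerivAt_pow 2 y).const_mul 3).const_mul (P.δ ^ 3)).fun_neg.deriv).trans ?_
  norm_num
  left
  ring

theorem aom2_pos {P : Par} (hP : P.Ok) {y : ℝ} (h0 : 0 < y) (h1 : P.δ * y < 1) (i : Fin 4) :
    0 < aG P.vO 0 i y := by
  have hv := hP.vO_pos h0 h1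
  fin_cases i <;> simp only [aG, add_zero] <;> simp <;> positivity

theorem aom2_err_congr {G G' : Tn} {p : E4} (e : G =ᶠ[𝓝 p] G') : Err G p = Err G' p := by
  unfold Err
  rw [(ji_ric_congr e).self_of_nhds, e.self_of_nhds]

theorem aom2_err_pull {G : Tn} {τ : E4 → E4} {U V : Set E4} {p : E4} (hτ : LDif τ U V)
    (hG : Good G V) (hp : p ∈ U) (h : Err (pull τ G) p = 0) : Err G (τ p) = 0 := by
  have e : Err (pull τ G) p = (jac τ p)ᵀ * Err G (τ p) * jac τ p := by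
    unfold Err
    rw [ji_ric_pull hτ hG hp]
    simp only [pull, Matrix.mul_add, Matrix.add_mul, Matrix.mul_smul, Matrix.smul_mul]
  have u : IsUnit (jac τ p).det := (hτ.det p hp).isUnit
  have u' : IsUnit (jac τ p)ᵀ.det := by rwa [Matrix.det_transpose]
  have e2 : Err G (τ p) = ((jac τ p)ᵀ)⁻¹ * ((jac τ p)ᵀ * Err G (τ p) * jac τ p * (jac τ p)⁻¹) := by
    rw [Matrix.mul_nonsing_inv_cancel_right _ _ u, Matrix.nonsing_inv_mul_cancel_left _ _ u']
  rw [e2, ← e, h, Matrix.zero_mul, Matrix.mul_zero]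

/-- For `0 < y ≤ 4` all three quantities are `δ ^ 3` times a continuous function of `y` on
`[0, 4]`: `P.vO = fun y => 1 - δ ^ 3 * φ y` with `φ y = smoothTransition (y - 3) * y ^ 3`. -/
theorem vO_bdd : ∃ C, 0 ≤ C ∧ ∀ P : Par, 0 ≤ P.δ → ∀ y ∈ Icc (0 : ℝ) 4,
    |P.vO y - 1| ≤ C * P.δ ^ 3 ∧ |y * deriv P.vO y| ≤ C * P.δ ^ 3 ∧
      |y ^ 2 * deriv (deriv P.vO) y| ≤ C * P.δ ^ 3 := by
  have c0 := aom2_phi_sm.continuous
  have c1 := (contDiff_infty_iff_deriv.1 aom2_phi_sm).2.continuous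
  have c2 := (contDiff_infty_iff_deriv.1 (contDiff_infty_iff_deriv.1 aom2_phi_sm).2).2.continuous
  have cF : Continuous fun y : ℝ =>
      |aom2_phi y| + |y * deriv aom2_phi y| + |y ^ 2 * deriv (deriv aom2_phi) y| :=
    (c0.abs.add (continuous_id.mul c1).abs).add ((continuous_pow 2).mul c2).abs
  obtain ⟨C, hC⟩ := (isCompact_Icc (a := (0 : ℝ)) (b := 4)).exists_bound_of_continuousOn
    cF.continuousOn
  refine ⟨max C 0, le_max_right _ _, fun P hδ y hy => ?_⟩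
  have h := (le_abs_self _).trans ((hC y hy).trans (le_max_left C 0))
  have h3 : 0 ≤ P.δ ^ 3 := pow_nonneg hδ 3
  have key : ∀ u z : ℝ, u = -(z * P.δ ^ 3) → |z| ≤ max C 0 → |u| ≤ max C 0 * P.δ ^ 3 := by
    intro u z e hz
    rw [e, abs_neg, abs_mul, abs_of_nonneg h3]
    exact mul_le_mul_of_nonneg_right hz h3
  have a0 := abs_nonneg (aom2_phi y)
  have a1 := abs_nonneg (y * deriv aom2_phi y)
  have a2 := abs_nonneg (y ^ 2 * deriv (deriv aom2_phi) y)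
  refine ⟨key _ (aom2_phi y) ?_ (by linarith), key _ (y * deriv aom2_phi y) ?_ (by linarith),
    key _ (y ^ 2 * deriv (deriv aom2_phi) y) ?_ (by linarith)⟩
  · rw [aom2_vO]
    ring
  · rw [aom2_d1]
    ring
  · rw [aom2_d2]
    ring

theorem Par.Ok.dc_slab {P : Par} (hP : P.Ok) {p : E4} (hp : p ∈ P.UO) :
    DC (Gd (aG P.vO 0)) p (fun i => aG P.vO 0 i (p 3))
      (KG (p 3) (P.vO (p 3)) (deriv P.vO (p 3)) (deriv (deriv P.vO) (p 3))) := by
  obtain ⟨h0, h1⟩ := hP.UO_lt hp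
  have := dc_aG (v := P.vO) (v1 := deriv P.vO) (s := 0) (p := p)
    (Eventually.of_forall (aom2_h1 P)) (aom2_h2 P _) (hP.vO_pos h0 h1).ne' (by simpa using h0.ne')
  rwa [add_zero] at this

/-- For `y ≤ 4` use `DC.koi_ge` with `x = 0`, `ε = 3 C δ ^ 3 ≤ 1 / 10`; for `4 < y` the function
`vO` is `1 - δ ^ 3 y ^ 3` near `y`, use `x = (δ y) ^ 3`, `ε = 0`. -/
theorem slab_pot : ∃ δ0, 0 < δ0 ∧ ∀ P : Par, P.Ok → P.δ ≤ δ0 → ∀ p ∈ P.UO, ∀ k : Mat, k.IsSymm →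
    min 1 (2 * (1 - (P.δ * p 3) ^ 3)) * ipM (Gd (aG P.vO 0) p) k k ≤ koi (Gd (aG P.vO 0)) p k ∧
      -20 * ipM (Gd (aG P.vO 0) p) k k ≤ pot (Gd (aG P.vO 0)) p k := by
  obtain ⟨C, hC0, hC⟩ := vO_bdd
  refine ⟨1 / (30 * (C + 1)), by positivity, fun P hP hδ p hp k hk => ?_⟩
  obtain ⟨h0, h1⟩ := hP.UO_lt hp
  have H := hP.dc_slab hp
  have ha := aom2_pos hP h0 h1
  have hn : 0 ≤ ipM (Gd (aG P.vO 0) p) k k :=
    ji_ipM_nonneg (Matrix.posDef_diagonal_iff.2 ha) k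
  have hδ0 := hP.δ0
  rcases le_or_gt (p 3) 4 with h4 | h4
  · obtain ⟨b0, b1, b2⟩ := hC P hδ0.le (p 3) ⟨h0.le, h4⟩
    have hs : C * P.δ ^ 3 ≤ 1 / 30 := by
      have e1 : P.δ ^ 3 ≤ P.δ := by
        have := hP.δ1
        exact pow_le_of_le_one hδ0.le (by linarith) (by norm_num)
      have e2 : P.δ * (30 * (C + 1)) ≤ 1 := (le_div_iff₀ (by positivity)).1 hδ
      have e3 := mul_le_mul_of_nonneg_left e1 hC0
      nlinarith
    rw [abs_le] at b0 b1 b2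
    have hK : ∀ i j : Fin 4, i ≠ j → |KG (p 3) (P.vO (p 3)) (deriv P.vO (p 3))
        (deriv (deriv P.vO) (p 3)) i j - (-1 + 0 * mB i j)| ≤ 1 / 10 := by
      intro i j _
      unfold KG
      rw [abs_le]
      split_ifs <;> constructor <;> linarith [b0.1, b0.2, b1.1, b1.2, b2.1, b2.2]
    refine ⟨le_trans ?_ (H.koi_ge ha le_rfl (by norm_num) hK hk), H.pot_ge ha (fun i j hij => ?_) hk⟩
    · exact mul_le_mul_of_nonneg_right ((min_le_left _ _).trans (by norm_num)) hn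
    · have := abs_le.1 (hK i j hij)
      rw [abs_le]
      constructor <;> linarith [this.1, this.2]
  · have x0 : 0 ≤ (P.δ * p 3) ^ 3 := by positivity
    have x1 : (P.δ * p 3) ^ 3 ≤ 1 := pow_le_one₀ (by positivity) h1.le
    have hK : ∀ i j : Fin 4, i ≠ j → KG (p 3) (P.vO (p 3)) (deriv P.vO (p 3))
        (deriv (deriv P.vO) (p 3)) i j = -1 + (P.δ * p 3) ^ 3 * mB i j := by
      intro i j hij
      rw [aom2_far2 P h4, aom2_far1 P h4, (aom2_far P h4).self_of_nhds]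
      fin_cases i <;> fin_cases j <;> first
        | exact absurd rfl hij
        | (simp [KG, mB]; ring)
    refine ⟨le_trans ?_ (H.koi_ge ha x0 le_rfl (fun i j hij => ?_) hk),
      H.pot_ge ha (fun i j hij => ?_) hk⟩
    · exact mul_le_mul_of_nonneg_right ((min_le_right _ _).trans (by norm_num)) hn
    · rw [hK i j hij, sub_self, abs_zero]
    · rw [hK i j hij, abs_le]
      unfold mB
      split_ifs <;> constructor <;> linarith

variable {P : Par} {A : Arith P.K} {D : MD P A}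

/-- `FP.of_comp` with `gO`, `ld_T0`, `pull_T0`. -/
theorem AP.fp_slab (a : AP D) (c : A.C) (q : E4) :
    FP a.g (D.pO c ∘ P.T0 q) P.UO 1 (Gd (aG P.vO 0)) :=
  FP.of_comp (c := 1) (G' := P.GO) (D.ptO c) (fun x hx => by rw [a.gO c x hx, one_smul])
    (P.ld_T0 q) one_pos fun y _ => by rw [P.pull_T0, one_pow]

theorem slab_potM : ∃ δ0, 0 < δ0 ∧ ∀ P : Par, P.Ok → P.δ ≤ δ0 → ∀ (A : Arith P.K) (D : MD P A)
    (a : AP D) (h : D.M → Mat), (∀ x, (h x).IsSymm) → ∀ c, ∀ p ∈ P.UO,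
      min 1 (2 * (1 - (P.δ * p 3) ^ 3)) * n0 a.g h (D.pO c p) ≤ GKoi a.g h (D.pO c p) ∧
        -20 * n0 a.g h (D.pO c p) ≤ GPot a.g h (D.pO c p) := by
  obtain ⟨δ0, h0, H⟩ := slab_pot
  refine ⟨δ0, h0, fun P hP hδ A D a h hs c p hp => ?_⟩
  have hy : mk4 0 0 0 (p 3) ∈ P.UO := hp
  have F := a.fp_slab c p
  have e : (D.pO c ∘ P.T0 p) (mk4 0 0 0 (p 3)) = D.pO c p := congrArg (D.pO c) (P.T0_base p)
  rw [← e]
  exact ⟨F.koi_ge a.good hy (hs _) fun k hk => (H P hP hδ _ hy k hk).1,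
    F.pot_ge a.good hy (hs _) fun k hk => (H P hP hδ _ hy k hk).2⟩

/-- `FP.n0_zero` on the open set `UO ∩ {4 < y}`, `err_aG`. -/
theorem AP.slab_zero (a : AP D) (hP : P.Ok) (c : A.C) {p : E4} (hp : p ∈ P.UO) (h4 : 4 < p 3)
    (i : ℕ) : n0 a.g ((GP a.g)^[i] (GE a.g)) (D.pO c p) = 0 := by
  have F := a.fp_slab c p
  have hU : IsOpen (P.UO ∩ {y : E4 | 4 < y 3}) :=
    P.isOpen_UO.inter (isOpen_lt continuous_const
      (EuclideanSpace.proj (3 : Fin 4) : E4 →L[ℝ] ℝ).continuous)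
  have F' : FP a.g (D.pO c ∘ P.T0 p) (P.UO ∩ {y : E4 | 4 < y 3}) 1 (Gd (aG P.vO 0)) :=
    ⟨⟨hU, F.pt.smooth.mono inter_subset_left, fun y hy => F.pt.unit y hy.1⟩, one_pos,
      fun y hy => F.eq y hy.1⟩
  have e : (D.pO c ∘ P.T0 p) (mk4 0 0 0 (p 3)) = D.pO c p := congrArg (D.pO c) (P.T0_base p)
  rw [← e]
  refine F'.n0_zero a.good (fun y hy => ?_) i ⟨hp, h4⟩
  obtain ⟨h0, h1⟩ := hP.UO_lt hy.1
  exact err_aG (aom2_far P hy.2) (hP.vO_pos h0 h1).ne' (by simpa using h0.ne')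

/-- `FP.scal`, `DC.scal`. -/
theorem AP.scal_slab (a : AP D) (hP : P.Ok) (c : A.C) {p : E4} (hp : p ∈ P.UO) :
    trg a.g (GRic a.g) (D.pO c p) = -(p 3 ^ 2 * deriv (deriv P.vO) (p 3)) +
      6 * p 3 * deriv P.vO (p 3) - 12 * P.vO (p 3) := by
  have hy : mk4 0 0 0 (p 3) ∈ P.UO := hp
  obtain ⟨h0, h1⟩ := hP.UO_lt hp
  have e : (D.pO c ∘ P.T0 p) (mk4 0 0 0 (p 3)) = D.pO c p := congrArg (D.pO c) (P.T0_base p)
  rw [← e, (a.fp_slab c p).scal a.good hy,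
    (hP.dc_slab hy).scal fun i => (aom2_pos hP h0 h1 i).ne']
  simp only [Finset.sum_erase_eq_sub (Finset.mem_univ _), Fin.sum_univ_four, mk4_3]
  simp [KG]
  ring

theorem Par.hasDerivAt_scal (P : Par) {y : ℝ} (hy : y ≠ 0) :
    HasDerivAt (fun t => -deriv P.vO t / t ^ 2 + (4 * P.vO t - 2) / t ^ 3)
      ((-(y ^ 2 * deriv (deriv P.vO) y) + 6 * y * deriv P.vO y - 12 * P.vO y + 6) * (y ^ 4)⁻¹) y := by
  refine (((aom2_h2 P y).fun_neg.fun_div (hasDerivAt_pow 2 y) (pow_ne_zero _ hy)).fun_add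
    ((((aom2_h1 P y).const_mul 4).sub_const 2).fun_div (hasDerivAt_pow 3 y)
      (pow_ne_zero _ hy))).congr_deriv ?_
  norm_num
  field_simp
  ring

theorem aom2_err_pos (hP : P.Geom) (hG : Good (GBH P.B) univ) {x : E4} (h0 : 0 < u01 x)
    (hx : u01 x < 8 / 3) : Err (GBH P.B) x = 0 := by
  obtain ⟨p, hp3, rfl⟩ := hP.toOk.P1_onto x h0
  have hδ0 := hP.δ0
  have hδ1 := hP.δ1
  have hp : p ∈ {p : E4 | 4 < p 3 ∧ P.δ * p 3 < 1} := by
    have e : p 3 * (P.δ * (1 + 3 / 4 * u01 (P.P1 p))) = 1 := by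
      rw [hp3, Par.yw, Real.sq_sqrt h0.le]
      field_simp
    have e0 : 0 < p 3 := by
      rw [hp3, Par.yw]
      positivity
    have e1 : 0 < P.δ * p 3 := mul_pos hδ0 e0
    have e2 : 1 / 3 < P.δ * p 3 := by nlinarith
    constructor
    · nlinarith
    · nlinarith
  have L1 := ji_P1_ld hP
  have G1 := ji_good_pull L1 hG
  have L0 : LDif (P.T0 p) {p : E4 | 4 < p 3 ∧ P.δ * p 3 < 1} {p : E4 | 4 < p 3 ∧ P.δ * p 3 < 1} :=
    P.ld_fr (Y := fun t => t) p one_ne_zero one_ne_zero isOpen_univ contDiffOn_id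
      (fun t _ => by simp) L1.isOpen (fun _ _ => mem_univ _) fun _ hy => hy
  have hy : mk4 0 0 0 (p 3) ∈ {p : E4 | 4 < p 3 ∧ P.δ * p 3 < 1} := hp
  refine aom2_err_pull L1 hG hp ?_
  rw [← P.T0_base p]
  refine aom2_err_pull L0 G1 hy ?_
  have e : pull (P.T0 p) (pull P.P1 (GBH P.B)) =ᶠ[𝓝 (mk4 0 0 0 (p 3))] Gd (aG P.vO 0) := by
    filter_upwards [L1.isOpen.mem_nhds hy] with y hy'
    rw [← P.pull_T0 p y]
    have := ji_P1_pull (p := P.T0 p y) hP hy'.1 hy'.2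
    exact congrArg (fun m => (jac (P.T0 p) y)ᵀ * m * jac (P.T0 p) y) this
  rw [aom2_err_congr e]
  have h4 : 0 < p 3 := lt_trans (by norm_num) hp.1
  exact err_aG (aom2_far P hp.1) (hP.toOk.vO_pos h4 hp.2).ne' (by simpa using h4.ne')

/-- The black hole is Einstein. At a point with `0 < u01 x` write `x = P1 p` (`P1_onto` gives
`4 < p 3` if `u01 x < 8 / 3`); on the open set `W = {4 < y, δ y < 1}` one has
`pull P1 (GBH B) = GO` (`ji_P1_pull`) and `pull (T0 q) GO = Gd (aG vO 0)` with `Err = 0`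
(`err_aG`); `ji_ric_pull` twice (`T0 q` is an `LDif` of `W` into `W` by `ld_fr`; `ji_good_pull`),
and cancel the invertible Jacobians. Points with `u01 x = 0` by continuity (`ji_sm_ric`). -/
theorem Par.Geom.err_GBH (hP : P.Geom) (hG : Good (GBH P.B) univ) {x : E4} (hx : u01 x < 8 / 3) :
    Err (GBH P.B) x = 0 := by
  have hu : 0 ≤ u01 x := add_nonneg (sq_nonneg _) (sq_nonneg _)
  rcases hu.lt_or_eq with h0 | h0
  · exact aom2_err_pos hP hG h0 hx
  have x0 : x 0 = 0 := by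
    unfold u01 at h0
    nlinarith [sq_nonneg (x 0), sq_nonneg (x 1)]
  have x1 : x 1 = 0 := by
    unfold u01 at h0
    nlinarith [sq_nonneg (x 0), sq_nonneg (x 1)]
  ext i j
  have c : Continuous fun y => Err (GBH P.B) y i j :=
    (continuousOn_univ.1 (ji_sm_ric hG i j).continuousOn).add
      (continuous_const.mul (continuousOn_univ.1 (hG.smooth i j).continuousOn))
  have c' : Continuous fun t : ℝ => Err (GBH P.B) (x + t • bas 0) i j :=
    c.comp (continuous_const.add (continuous_id.smul continuous_const))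
  have t1 : Tendsto (fun t : ℝ => Err (GBH P.B) (x + t • bas 0) i j) (𝓝[>] 0)
      (𝓝 (Err (GBH P.B) x i j)) := by
    have := (c'.tendsto 0).mono_left (nhdsWithin_le_nhds (s := Ioi 0))
    simpa using this
  refine tendsto_nhds_unique t1 (tendsto_const_nhds.congr' ?_)
  filter_upwards [Ioo_mem_nhdsGT (zero_lt_one' ℝ)] with t ht
  have e : u01 (x + t • bas 0) = t ^ 2 := by simp [u01, bas, x0, x1]
  rw [aom2_err_pos hP hG (by rw [e]; exact pow_pos ht.1 2) (by rw [e]; nlinarith [ht.1, ht.2])]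

end Pool.Agent.Lib.MP_94aef8_gt
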