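import Pool.Agent.Lib.MP_94aef8_gt.J.AF3b

/-! The twisted Schwarzschild and flat metrics, volume densities. -/

open scoped Manifold ContDiff Topology
open Matrix Filter Set MeasureTheory Real

namespace Pool.Agent.Lib.MP_94aef8_gt

/-- The twist. -/
noncomputable def twi (b : ℝ) (x : E4) : E4 := rot (b * x 3) x

theorem asw_co (x : E4) (i : Fin 4) :
    HasFDerivAt (fun y : E4 => y i) (EuclideanSpace.proj i : E4 →L[ℝ] ℝ) x :=
  (EuclideanSpace.proj i : E4 →L[ℝ] ℝ).hasFDerivAt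

theorem asw_t0 (b : ℝ) (x : E4) : twi b x 0 = cos (b * x 3) * x 0 - sin (b * x 3) * x 1 := rfl

theorem asw_t1 (b : ℝ) (x : E4) : twi b x 1 = sin (b * x 3) * x 0 + cos (b * x 3) * x 1 := rfl

theorem asw_t2 (b : ℝ) (x : E4) : twi b x 2 = x 2 := rfl

theorem asw_t3 (b : ℝ) (x : E4) : twi b x 3 = x 3 := rfl

theorem asw_det4 (a b c d e f g h i j k l m n o p : ℝ) :
    (!![a, b, c, d; e, f, g, h; i, j, k, l; m, n, o, p] : Mat).det =
      a * (f * (k * p - l * o) - g * (j * p - l * n) + h * (j * o - k * n)) -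
      b * (e * (k * p - l * o) - g * (i * p - l * m) + h * (i * o - k * m)) +
      c * (e * (j * p - l * n) - f * (i * p - l * m) + h * (i * n - j * m)) -
      d * (e * (j * o - k * n) - f * (i * o - k * m) + g * (i * n - j * m)) := by
  simp [Matrix.det_succ_row_zero, Fin.sum_univ_succ, Fin.succAbove, Matrix.submatrix]
  ring

theorem jac_twi (b : ℝ) (x : E4) : jac (twi b) x =
    !![cos (b * x 3), -sin (b * x 3), 0, -(b * twi b x 1);
      sin (b * x 3), cos (b * x 3), 0, b * twi b x 0; 0, 0, 1, 0; 0, 0, 0, 1] := by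
  have hc := ((asw_co x 3).const_mul b).cos
  have hs := ((asw_co x 3).const_mul b).sin
  have h0 : HasFDerivAt (fun y => twi b y 0) _ x :=
    (hc.mul (asw_co x 0)).sub (hs.mul (asw_co x 1))
  have h1 : HasFDerivAt (fun y => twi b y 1) _ x :=
    (hs.mul (asw_co x 0)).add (hc.mul (asw_co x 1))
  have h2 : HasFDerivAt (fun y => twi b y 2) _ x := asw_co x 2
  have h3 : HasFDerivAt (fun y => twi b y 3) _ x := asw_co x 3
  ext i a
  fin_cases i
  · show fderiv ℝ (fun y => twi b y 0) x (bas a) = _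
    rw [h0.fderiv]
    fin_cases a <;> simp [bas, asw_t1]
    ring
  · show fderiv ℝ (fun y => twi b y 1) x (bas a) = _
    rw [h1.fderiv]
    fin_cases a <;> simp [bas, asw_t0]
    ring
  · show fderiv ℝ (fun y => twi b y 2) x (bas a) = _
    rw [h2.fderiv]
    fin_cases a <;> simp [bas]
  · show fderiv ℝ (fun y => twi b y 3) x (bas a) = _
    rw [h3.fderiv]
    fin_cases a <;> simp [bas]

theorem asw_u01 (b : ℝ) (x : E4) : u01 (twi b x) = u01 x := by
  simp only [u01, asw_t0, asw_t1]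
  linear_combination (x 0 ^ 2 + x 1 ^ 2) * cos_sq_add_sin_sq (b * x 3)

theorem R3_twi (b : ℝ) (x : E4) : R3 (twi b x) = R3 x := by
  simp only [R3, asw_u01, asw_t2]

theorem det_jac_twi (b : ℝ) (x : E4) : (jac (twi b) x).det = 1 := by
  rw [jac_twi, asw_det4]
  linear_combination cos_sq_add_sin_sq (b * x 3)

theorem ld_twi (b : ℝ) {U V : Set E4} (hU : IsOpen U) (h : ∀ x ∈ U, twi b x ∈ V) :
    LDif (twi b) U V := by
  refine ⟨hU, ContDiff.contDiffOn ?_, h, fun p _ => by rw [det_jac_twi]; exact one_ne_zero⟩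
  rw [contDiff_euclidean]
  intro i
  fin_cases i
  · show ContDiff ℝ ∞ fun x : E4 => cos (b * x 3) * x 0 - sin (b * x 3) * x 1
    fun_prop
  · show ContDiff ℝ ∞ fun x : E4 => sin (b * x 3) * x 0 + cos (b * x 3) * x 1
    fun_prop
  · show ContDiff ℝ ∞ fun x : E4 => x 2
    fun_prop
  · show ContDiff ℝ ∞ fun x : E4 => x 3
    fun_prop

theorem asw_sq1 (a : Fin 4 → ℝ) (i j : Fin 4) : sq1 a i j = a i * a j := rfl

theorem asw_sym2 (a b : Fin 4 → ℝ) (i j : Fin 4) : sym2 a b i j = a i * b j + b i * a j := rfl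

theorem asw_mat (k w b z : ℝ) (x : E4) :
    sq1 (ee 0) + sq1 (ee 1) + sq1 (ee 2) + k • sq1 ![x 0, x 1, z, 0] + w • sq1 (ee 3) +
      b • sym2 (l01 x) (ee 3) =
    !![1 + k * x 0 ^ 2, k * (x 0 * x 1), k * (x 0 * z), -(b * x 1);
      k * (x 0 * x 1), 1 + k * x 1 ^ 2, k * (x 1 * z), b * x 0;
      k * (x 0 * z), k * (x 1 * z), 1 + k * z ^ 2, 0; -(b * x 1), b * x 0, 0, w] := by
  ext i j
  simp only [Matrix.add_apply, Matrix.smul_apply, asw_sq1, asw_sym2, smul_eq_mul]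
  fin_cases i <;> fin_cases j <;> simp [ee, l01, -mul_eq_mul_left_iff, -add_right_inj] <;> ring

theorem asw_alg {c s : ℝ} (h : c ^ 2 + s ^ 2 = 1) (k w b p q z : ℝ) :
    (!![c, -s, 0, -(b * (s * p + c * q)); s, c, 0, b * (c * p - s * q); 0, 0, 1, 0; 0, 0, 0, 1] :
      Mat)ᵀ * !![1 + k * (c * p - s * q) ^ 2, k * ((c * p - s * q) * (s * p + c * q)),
        k * ((c * p - s * q) * z), -(0 * (s * p + c * q));
      k * ((c * p - s * q) * (s * p + c * q)), 1 + k * (s * p + c * q) ^ 2,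
        k * ((s * p + c * q) * z), 0 * (c * p - s * q);
      k * ((c * p - s * q) * z), k * ((s * p + c * q) * z), 1 + k * z ^ 2, 0;
      -(0 * (s * p + c * q)), 0 * (c * p - s * q), 0, w + 0 ^ 2 * (p ^ 2 + q ^ 2)] *
    !![c, -s, 0, -(b * (s * p + c * q)); s, c, 0, b * (c * p - s * q); 0, 0, 1, 0; 0, 0, 0, 1] =
    !![1 + k * p ^ 2, k * (p * q), k * (p * z), -(b * q);
      k * (p * q), 1 + k * q ^ 2, k * (q * z), b * p;
      k * (p * z), k * (q * z), 1 + k * z ^ 2, 0;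
      -(b * q), b * p, 0, w + b ^ 2 * (p ^ 2 + q ^ 2)] := by
  ext i j
  fin_cases i <;> fin_cases j <;> simp [Matrix.mul_apply, Fin.sum_univ_four] <;> grind

/-- `Jᵀ * sq1 c * J = sq1 (c ᵥ* J)`, `cos ^ 2 + sin ^ 2 = 1`. -/
theorem pull_twi (a b : ℝ) (x : E4) : pull (twi b) (SWf a 0) x = SWf a b x := by
  simp only [pull, SWf, GSW, asw_mat]
  simp only [jac_twi, R3_twi, asw_u01, asw_t0, asw_t1, asw_t2]
  exact asw_alg (cos_sq_add_sin_sq _) _ _ _ _ _ _

theorem SWf_zero : SWf 0 0 = fun _ => 1 := by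
  funext x
  simp only [SWf, GSW, asw_mat]
  ext i j
  fin_cases i <;> fin_cases j <;> simp

theorem GB_eq (b : ℝ) (x : E4) : GB b x = SWf 1 (b * chiT (R3 x)) x := rfl

/-- For `b = 0` the determinant is `(1 + a / (R - a)) (1 - a / R)`; then `pull_twi`. -/
theorem det_SWf {a : ℝ} (b : ℝ) {x : E4} (h0 : R3 x ≠ 0) (h1 : R3 x ≠ a) : (SWf a b x).det = 1 := by
  have h2 : R3 x - a ≠ 0 := sub_ne_zero.2 h1
  have h3 : (SWf a b x).det = (1 + a / ((R3 x - a) * R3 x ^ 2) * (u01 x + x 2 ^ 2)) *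
      (1 - a / R3 x) := by
    simp only [SWf, GSW, asw_mat, asw_det4, u01]
    ring
  rw [h3, ← R3_sq]
  field_simp
  ring

theorem rho_GB (b : ℝ) {x : E4} (hx : 1 < R3 x) : rho (GB b) x = 1 := by
  rw [rho, GB_eq, det_SWf _ (by linarith) hx.ne', Real.sqrt_one]

theorem asw_good_one : Good (fun _ => (1 : Mat)) univ :=
  ⟨isOpen_univ, fun _ _ => contDiffOn_const, fun _ _ => PosDef.one⟩

theorem asw_pull (a b : ℝ) : SWf a b = pull (twi b) (SWf a 0) := funext fun x => (pull_twi a b x).symm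

theorem asw_good_zero (b : ℝ) : Good (SWf 0 b) univ := by
  rw [asw_pull, SWf_zero]
  exact ji_good_pull (ld_twi b isOpen_univ fun _ _ => mem_univ _) asw_good_one

theorem asw_ric_zero {G : Tn} {x : E4} (h : ∀ i j, rm G i j x = 0) : ric G x = 0 := by
  ext j k
  simp [ji_ric_rm, h]

theorem asw_ric_pull {τ : E4 → E4} {U V : Set E4} {G : Tn} {x : E4} (hτ : LDif τ U V)
    (hG : Good G V) (hx : x ∈ U) (h : ric G (τ x) = 0) : ric (pull τ G) x = 0 := by
  rw [ji_ric_pull hτ hG hx, pull, h, Matrix.mul_zero, Matrix.zero_mul]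

theorem asw_ric {a : ℝ} (ha : 0 < a) {x : E4} (hx : a < R3 x) : ric (SWf a 0) x = 0 := by
  have hi : 0 < a⁻¹ := inv_pos.2 ha
  have e1 : GB 0 = SWf 1 0 := funext fun y => by rw [GB_eq, zero_mul]
  have e2 : SWf a 0 = fun y => a ^ 2 • pull (fun y => (0 : E4) + a⁻¹ • y) (SWf 1 0) y := by
    funext y
    have := SWf_scale hi a 0 y
    rw [inv_mul_cancel₀ ha.ne', mul_zero] at this
    rw [pull_aff, zero_add, this, smul_smul, ← mul_pow, mul_inv_cancel₀ ha.ne', one_pow, one_smul]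
  have hm : ∀ y ∈ {y | a < R3 y}, (0 : E4) + a⁻¹ • y ∈ {y | 1 < R3 y} := fun y hy => by
    show 1 < R3 (0 + a⁻¹ • y)
    rw [zero_add, R3_smul hi.le, ← div_eq_inv_mul, one_lt_div ha]
    exact hy
  have hl := ld_aff 0 hi.ne' (good_SWf 0 ha.le).isOpen hm
  have hg := good_SWf 0 zero_le_one
  rw [e2, ji_ric_smul (ji_good_pull hl hg) hx (pow_pos ha 2)]
  refine asw_ric_pull hl hg hx ?_
  rw [← e1]
  exact ji_ric_SW (hm x hx)

/-- `ji_rm_pull_zero`, `ji_rm_const`. -/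
theorem rm_SWf_zero (b : ℝ) (x : E4) (i j : Fin 4) : rm (SWf 0 b) i j x = 0 := by
  rw [asw_pull, SWf_zero]
  exact ji_rm_pull_zero (ld_twi b isOpen_univ fun _ _ => mem_univ _) asw_good_one (mem_univ x)
    (fun a c => ji_rm_const 1 a c) i j

/-- For `a = 0` by `rm_SWf_zero`. For `0 < a`: `SWf a 0 = a ^ 2 • pull (fun y => 0 + a⁻¹ • y) (GB 0)`
(`pull_aff`, `SWf_scale`), `ji_ric_smul`, `ji_ric_pull`, `ji_ric_SW`; then `pull_twi`. -/
theorem ric_SWf {a : ℝ} (b : ℝ) (ha : 0 ≤ a) {x : E4} (hx : a < R3 x) : ric (SWf a b) x = 0 := by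
  rcases ha.eq_or_lt with rfl | h
  · exact asw_ric_zero (rm_SWf_zero b x)
  · have hg := good_SWf 0 ha
    have hm : ∀ y ∈ {y | a < R3 y}, twi b y ∈ {y | a < R3 y} := fun y hy => by
      show a < R3 (twi b y)
      rw [R3_twi]
      exact hy
    rw [asw_pull]
    exact asw_ric_pull (ld_twi b hg.isOpen hm) hg hx (asw_ric h (hm x hx))

theorem asw_detB (A c w b : ℝ) (x : E4) :
    (A • (sq1 (ee 0) + sq1 (ee 1) + b • sym2 (l01 x) (ee 3) + (b ^ 2 * u01 x) • sq1 (ee 3)) +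
      c • sq1 (l01 x + (b * u01 x) • ee 3) + w • (sq1 (ee 2) + sq1 (ee 3))).det =
    A * (A + c * u01 x) * w ^ 2 := by
  have e : A • (sq1 (ee 0) + sq1 (ee 1) + b • sym2 (l01 x) (ee 3) + (b ^ 2 * u01 x) • sq1 (ee 3)) +
      c • sq1 (l01 x + (b * u01 x) • ee 3) + w • (sq1 (ee 2) + sq1 (ee 3)) =
      !![A + c * x 1 ^ 2, -(c * (x 0 * x 1)), 0, -((A + c * u01 x) * b * x 1);
        -(c * (x 0 * x 1)), A + c * x 0 ^ 2, 0, (A + c * u01 x) * b * x 0;
        0, 0, w, 0;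
        -((A + c * u01 x) * b * x 1), (A + c * u01 x) * b * x 0, 0,
          (A + c * u01 x) * b ^ 2 * u01 x + w] := by
    ext i j
    simp only [Matrix.add_apply, Matrix.smul_apply, asw_sq1, asw_sym2, smul_eq_mul, Pi.add_apply,
      Pi.smul_apply]
    fin_cases i <;> fin_cases j <;> simp [ee, l01, -mul_eq_mul_left_iff, -add_right_inj] <;> ring
  rw [e, asw_det4, u01]
  ring

theorem asw_u01_nonneg (x : E4) : 0 ≤ u01 x := add_nonneg (sq_nonneg _) (sq_nonneg _)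

theorem asw_rB (x : E4) : 1 ≤ rB x := by
  have := asw_u01_nonneg x
  rw [rB]
  linarith

/-- `GBH b x = Lᵀ * GBH 0 x * L` with `L = 1 + b (- x1, x0, 0, 0)ᵀ e3` unipotent; the upper block
of `GBH 0 x` is `A • 1 + c • sq1 (l01 x)` with determinant `A (A + c u) = 1`, because
`u = 4 (r - 1) / 3` and `9 r ^ 2 + (r - 1) ^ 2 (r ^ 2 + 4 r + 1) = (r ^ 2 + r + 1) ^ 2`. -/
theorem det_GBH (b : ℝ) (x : E4) : (GBH b x).det = rB x ^ 4 := by
  have h1 := asw_rB x
  have h2 : u01 x = 4 * (rB x - 1) / 3 := by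
    rw [rB]
    ring
  have h3 : rB x ≠ 0 := by linarith
  have h4 : rB x ^ 2 + rB x + 1 ≠ 0 := by positivity
  rw [GBH, asw_detB]
  generalize rB x = r at *
  rw [h2]
  field_simp
  ring

theorem asw_cc : 0 < cc := by norm_num [cc]

/-- The flat partner: `G3 (o, 0, il, b, 0) = pull (fun y => o + cc • y) (SWf 0 b)`. -/
theorem rm_G3 (o : E4) (il b : ℝ) (y : E4) (i j : Fin 4) : rm (G3 (o, 0, il, b, 0)) i j y = 0 := by
  have e : G3 (o, 0, il, b, 0) = pull (fun y => o + cc • y) (SWf 0 b) := by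
    funext y
    rw [pull_aff]
    simp only [G3, GTm, GBHm_zero, ← add_smul, add_sub_cancel, one_smul]
  rw [e]
  exact ji_rm_pull_zero (ld_aff o asw_cc.ne' isOpen_univ fun _ _ => mem_univ _) (asw_good_zero b)
    (mem_univ y) (rm_SWf_zero b _) i j

theorem ein_G3_flat (o : E4) (il b : ℝ) :
    ∀ y ∈ Q 1, ric (G3 (o, 0, il, b, 0)) y + (3 * 0 : ℝ) • G3 (o, 0, il, b, 0) y = 0 := by
  intro y _
  rw [asw_ric_zero (rm_G3 o il b y), mul_zero, zero_smul, add_zero]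

/-- On `Q 3` the cut-off is `1`, so `G3 z = pull (fun y => o + cc • y) (SWf a b)` there. -/
theorem ein_G3_in {z : E4 × ℝ × ℝ × ℝ × ℝ} (hz : z ∈ K3) (h : z.2.2.1 ≤ 1 / 40) :
    ∀ y ∈ Q 1, ric (G3 z) y + (3 * 0 : ℝ) • G3 z y = 0 := by
  obtain ⟨o, a, il, b, μ⟩ := z
  obtain ⟨⟨ho, -⟩, ⟨ha0, ha1⟩, ⟨hi, -⟩, -⟩ := hz
  simp only at ho ha0 ha1 hi h
  have hR : ∀ y ∈ Q 3, 94 / 100 ≤ R3 (o + cc • y) ∧ R3 (o + cc • y) ≤ 106 / 100 := fun y hy => by
    have := abs_le.1 (R3_add (Q_sub_CQ hy) o asw_cc.le)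
    rw [ho] at this
    have hc : cc = 1 / 100 := rfl
    constructor <;> linarith [this.1, this.2]
  have hm : ∀ y ∈ Q 3, o + cc • y ∈ {y | a < R3 y} := fun y hy => by
    show a < R3 (o + cc • y)
    linarith [(hR y hy).1]
  intro y hy
  have hy3 : y ∈ Q 3 := fun i => (hy i).trans (by norm_num)
  have e : G3 (o, a, il, b, μ) =ᶠ[𝓝 y] pull (fun y => o + cc • y) (SWf a b) := by
    filter_upwards [(ja_isOpen_Q 3).mem_nhds hy3] with w hw
    have h1 : chiS (il * R3 (o + cc • w)) = 1 := by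
      refine smoothTransition.one_of_one_le ?_
      nlinarith [(hR w hw).1, (hR w hw).2]
    rw [pull_aff]
    simp only [G3, GTm, h1, sub_self, zero_smul, one_smul, add_zero]
  rw [(ji_ric_congr e).eq_of_nhds, mul_zero, zero_smul, add_zero]
  exact asw_ric_pull (ld_aff o asw_cc.ne' (ja_isOpen_Q 3) hm) (good_SWf b ha0) hy3
    (ric_SWf b ha0 (hm y hy3))

/-- For `R ≤ l / 20` the density is `1`, for `l / 10 ≤ R` it is `r ^ 2 ∈ [1, 9]`; in between
`x ∈ A3` and `G3 (z3 x) 0 = cc ^ 2 • GT x` (from `pull_T3` at `0` and `pull_aff`),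
`FamOK.rho_bdd`. -/
theorem rho_GT : ∃ C, 1 ≤ C ∧ ∀ P : Par, P.Geom → ∀ x ∈ P.UT,
    C⁻¹ ≤ rho P.GT x ∧ rho P.GT x ≤ C := by
  obtain ⟨C, hC, h⟩ := famOK_G3.rho_bdd
  have hC1 : (9 + 10 ^ 8 * C)⁻¹ ≤ 1 := inv_le_one_of_one_le₀ (by nlinarith)
  refine ⟨9 + 10 ^ 8 * C, by nlinarith, fun P hP x hx => ?_⟩
  have hO := hP.toOk
  have hl := hO.l_pos
  have hρ := hO.ϱ0
  have hρ1 := hO.rho_le
  obtain ⟨hx1, -, hx3⟩ := hx
  by_cases h1 : R3 x ≤ P.l / 20
  · rw [rho, hO.GT_near h1, det_SWf _ (by linarith) hx3.ne', Real.sqrt_one]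
    exact ⟨hC1, by nlinarith⟩
  by_cases h2 : P.l / 10 ≤ R3 x
  · have h3 := asw_rB x
    have h4 : rB x ≤ 3 := by
      rw [rB]
      linarith
    rw [rho, hO.GT_far h2, det_GBH, show rB x ^ 4 = (rB x ^ 2) ^ 2 by ring,
      Real.sqrt_sq (sq_nonneg _)]
    exact ⟨hC1.trans (by nlinarith), by nlinarith⟩
  rw [not_le] at h1 h2
  have h0 : 0 < R3 x := by linarith
  have hs := R3_sq x
  have hu := asw_u01_nonneg x
  have hA : x ∈ P.A3 := by
    refine ⟨by nlinarith [sq_nonneg (x 2)], ?_, by linarith⟩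
    exact abs_le_of_sq_le_sq' (by nlinarith) (by linarith) |> abs_le.2
  have e1 := hO.pull_T3 hA 0 (zero_mem_Q (by norm_num))
  have e2 : pull (T3 x) P.GT 0 = (cc * R3 x) ^ 2 • P.GT x := by
    have := pull_aff x (cc * R3 x) P.GT 0
    rw [smul_zero, add_zero] at this
    exact this
  have e3 : P.GT x = (10 ^ 4 : ℝ) • G3 (P.z3 x) 0 := by
    have h5 : (cc * R3 x) ^ 2 ≠ 0 := pow_ne_zero _ (mul_pos asw_cc h0).ne'
    refine smul_right_injective Mat h5 ?_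
    simp only [← e2, e1, smul_smul]
    congr 1
    rw [cc]
    ring
  have e4 : rho P.GT x = 10 ^ 8 * rho (G3 (P.z3 x)) 0 := by
    rw [rho, rho, e3, Matrix.det_smul, Fintype.card_fin, Real.sqrt_mul (by positivity),
      show ((10 : ℝ) ^ 4) ^ 4 = (10 ^ 8) ^ 2 by norm_num, Real.sqrt_sq (by positivity)]
  obtain ⟨h6, h7⟩ := h _ (hP.mem_K3 hA)
  have h8 : (9 + 10 ^ 8 * C)⁻¹ ≤ C⁻¹ := inv_anti₀ hC (by nlinarith)
  have h9 : 0 < C⁻¹ := inv_pos.2 hC
  rw [e4]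
  constructor <;> nlinarith

end Pool.Agent.Lib.MP_94aef8_gt
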