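import Pool.Agent.Lib.MP_94aef8_gt.J.APat
import Pool.Agent.Lib.MP_94aef8_gt.J.ASW
import Pool.Agent.Lib.MP_94aef8_gt.J.AOm2

/-! The size of the error term. -/

open scoped Manifold ContDiff Topology
open Matrix Filter Set MeasureTheory Real

namespace Pool.Agent.Lib.MP_94aef8_gt

variable {P : Par} {A : Arith P.K} {D : MD P A}

theorem Par.Geom.eta_nonneg (hP : P.Geom) (s : ℝ) : 0 ≤ P.eta s := by
  have h1 := hP.δ0
  have h2 := hP.ϱ0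
  have h3 := hP.toOk.l_pos
  have h4 := hP.B_nonneg
  unfold Par.eta
  positivity

theorem aerr_eta (hP : P.Geom) (s : ℝ) : (1 / 2 ≤ s → P.δ ^ 3 ≤ P.eta s) ∧
    (P.l / 40 ≤ s → s ≤ P.l / 5 → P.ϱ / P.l + P.l ≤ P.eta s) ∧ (s ≤ P.l / 40 → s ^ 2 ≤ P.eta s) ∧
    (s ≤ P.l / 40 → s ≤ 3 * P.ϱ → s ^ 2 + P.B * P.ϱ ≤ P.eta s) := by
  have h1 := (pow_pos hP.δ0 3).le
  have h2 := (add_pos (div_pos hP.ϱ0 hP.toOk.l_pos) hP.toOk.l_pos).le
  have h3 := mul_nonneg hP.B_nonneg hP.ϱ0.le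
  have h4 := sq_nonneg s
  unfold Par.eta
  refine ⟨fun a => ?_, fun a b => ?_, fun a => ?_, fun a b => ?_⟩
  · rw [if_pos a]
    split_ifs <;> linarith
  · rw [if_pos (And.intro a b)]
    split_ifs <;> linarith
  · rw [if_pos a]
    split_ifs <;> linarith
  · rw [if_pos a, if_pos b]
    split_ifs <;> linarith

theorem aerr_fin {C a b k e : ℝ} (hC : 0 ≤ C) {Λ : Type} [NormedAddCommGroup Λ] {v : Λ}
    (h : ‖v‖ + |a - b| ≤ k * e) : C * (‖v‖ + |a - b|) ^ 2 ≤ C * k ^ 2 * e ^ 2 := by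
  rw [mul_assoc, ← mul_pow]
  exact mul_le_mul_of_nonneg_left (pow_le_pow_left₀ (by positivity) h 2) hC

/-- For `4 < y` by `slab_zero`. Otherwise `fp1` with centre `p`, `FamOK.err` with the partner
`(y, 0)`, `m = m' = 1` (`ein_G1`), distance `(δ y) ^ 3 ≤ 64 δ ^ 3`; `s = 1`. -/
theorem err_O : ∃ C, 0 ≤ C ∧ ∀ P : Par, P.Geom → ∀ (A : Arith P.K) (D : MD P A) (a : AP D) (c : A.C)
    (p : E4), 3 / 8 ≤ p 3 → P.δ * p 3 ≤ 47 / 100 → ∀ i ≤ 4,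
      a.s (D.pO c p) ^ (4 * i + 4) * n0 a.g ((GP a.g)^[i] (GE a.g)) (D.pO c p) ≤
        C * P.eta (a.s (D.pO c p)) ^ 2 := by
  obtain ⟨C, h0, hC⟩ := famOK_G1.err
  refine ⟨C * 64 ^ 2, by positivity, fun P hP A D a c p h1 h2 i hi => ?_⟩
  have hO := hP.toOk
  have h3 := hP.δ0
  have h4 : (P.l / 10) ^ 2 ≤ 1 ^ 2 :=
    pow_le_pow_left₀ (by linarith [hO.l_pos]) (by linarith [hO.l_le]) 2
  have h5 : 0 ≤ P.δ * p 3 := mul_nonneg h3.le (by linarith)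
  have hp : p ∈ P.UO := ⟨by linarith, by nlinarith⟩
  by_cases h6 : 4 < p 3
  · rw [a.slab_zero hO c hp h6, mul_zero]
    positivity
  have hq : p ∈ P.A1 := ⟨by linarith, by linarith⟩
  have hK := hO.mem_K1 hq
  have h7 := (a.fp1 hO c hq).n0_iter a.good i (zero_mem_Q (by norm_num))
  rw [Function.comp_apply, P.T1_zero] at h7
  rw [a.sO c p hp ((le_div_iff₀ (by positivity)).2 (by linarith)), h7]
  refine (hC _ hK (min (p 3) 5, 0) ⟨hK.1, le_rfl, by norm_num⟩ _ (by norm_num) 1 (by norm_num)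
    (ein_G1 _) i hi).trans (aerr_fin h0 ?_)
  have h8 := (aerr_eta hP 1).1 (by norm_num)
  have h9 : (P.δ * p 3) ^ 3 ≤ (P.δ * 4) ^ 3 :=
    pow_le_pow_left₀ h5 (mul_le_mul_of_nonneg_left (not_lt.1 h6) h3.le) 3
  simp only [Prod.mk_sub_mk, sub_self, sub_zero, Prod.norm_mk, norm_zero, one_pow, abs_zero,
    add_zero, Real.norm_of_nonneg (pow_nonneg h5 3), max_eq_right (pow_nonneg h5 3)]
  linarith

/-- `s = R = R3 x` (`s_T`), `fp3` with centre `x`, `FP.n0_iter`, `m = R ^ 2`, `z = z3 x`.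
For `R ≤ l / 40` the partner is `z`, `m' = 0` (`ein_G3_in`). For `l / 40 ≤ R ≤ l / 5` the partner is
`(z.1, 0, z.2.2.1, z.2.2.2.1, 0)`, `m' = 0` (`ein_G3_flat`), distance at most
`40 ϱ / l + l / 5 + l`. For `l / 5 ≤ R` use `FP.n0_zero` for the patch `pT c j` on
`UT ∩ {l / 10 < R}` with the metric `GBH B` (`GT_far`, `err_GBH`, `good_GBH`). -/
theorem err_T : ∃ C, 0 ≤ C ∧ ∀ P : Par, P.Geom → ∀ (A : Arith P.K) (D : MD P A) (a : AP D) (c : A.C)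
    (j : ℤ) (x : E4), u01 x ≤ P.l ^ 2 → |x 2| ≤ P.l / 2 → 3 * P.ϱ ≤ R3 x → ∀ i ≤ 4,
      a.s (D.pT c j x) ^ (4 * i + 4) * n0 a.g ((GP a.g)^[i] (GE a.g)) (D.pT c j x) ≤
        C * P.eta (a.s (D.pT c j x)) ^ 2 := by
  obtain ⟨C, h0, hC⟩ := famOK_G3.err
  refine ⟨C * 40 ^ 2, by positivity, fun P hP A D a c j x h1 h2 h3 i hi => ?_⟩
  have hO := hP.toOk
  have h4 := hP.ϱ0
  have h5 := hO.l_pos
  have h6 := hO.l_le
  have hx : x ∈ P.UT := ⟨by nlinarith, by linarith, by linarith⟩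
  have hq : x ∈ P.A3 := ⟨by nlinarith, by linarith, by linarith⟩
  obtain ⟨r0, r1⟩ := hO.R3_A3 hq
  by_cases h7 : P.l / 5 < R3 x
  · have ho : IsOpen (P.UT ∩ {y | P.l / 10 < R3 y}) :=
      P.isOpen_UT.inter (isOpen_lt continuous_const continuous_R3)
    have H : FP a.g (D.pT c j) (P.UT ∩ {y | P.l / 10 < R3 y}) 1 (GBH P.B) :=
      ⟨⟨ho, (D.ptT hO c j).smooth.mono inter_subset_left, fun y hy => (D.ptT hO c j).unit y hy.1⟩,
        one_pos, fun y hy => by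
          rw [one_pow, one_smul, ← hO.GT_far (le_of_lt hy.2)]
          exact a.gT c j y hy.1⟩
    rw [H.n0_zero a.good (fun y hy => hP.err_GBH (good_GBH _) hy.1.1) i
      ⟨hx, show P.l / 10 < R3 x by linarith⟩, mul_zero]
    positivity
  have hK := hP.mem_K3 hq
  have h8 := (a.fp3 hO c j hq).n0_iter a.good i (zero_mem_Q (by norm_num))
  have hm : R3 x ^ 2 ∈ Icc (0 : ℝ) 1 := ⟨sq_nonneg _, pow_le_one₀ r0.le (by linarith)⟩
  have he := hP.eta_nonneg (R3 x)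
  rw [Function.comp_apply, T3_zero] at h8
  rw [a.s_T hO c j hx h2, min_eq_right (by linarith), h8]
  rcases le_total (R3 x) (P.l / 40) with h9 | h9
  · refine (hC _ hK _ hK _ hm 0 (by norm_num)
      (ein_G3_in hK ((div_le_iff₀ h5).2 (by linarith))) i hi).trans (aerr_fin h0 ?_)
    have := (aerr_eta hP _).2.2.1 h9
    rw [sub_self, norm_zero, zero_add, sub_zero, abs_sq]
    linarith
  · refine (hC _ hK ((P.z3 x).1, 0, (P.z3 x).2.2.1, (P.z3 x).2.2.2.1, 0)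
      ⟨hK.1, ⟨le_rfl, by norm_num⟩, hK.2.2.1, hK.2.2.2.1, le_rfl, zero_le_one⟩ _ hm 0 (by norm_num)
      (ein_G3_flat _ _ _) i hi).trans (aerr_fin h0 ?_)
    have e1 := (aerr_eta hP _).2.1 h9 (not_lt.1 h7)
    have e2 : P.ϱ / R3 x ≤ 40 * (P.ϱ / P.l) :=
      (div_le_div_of_nonneg_left h4.le (by positivity) h9).trans_eq (by field_simp)
    have e3 : ‖P.z3 x - ((P.z3 x).1, 0, (P.z3 x).2.2.1, (P.z3 x).2.2.2.1, 0)‖ ≤
        P.ϱ / R3 x + R3 x := by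
      have e4 : 0 ≤ P.ϱ / R3 x := by positivity
      simp only [Par.z3, Prod.mk_sub_mk, sub_self, sub_zero, Prod.norm_mk, norm_zero,
        Real.norm_of_nonneg e4, Real.norm_of_nonneg r0.le, max_le_iff]
      refine ⟨?_, ?_, ?_, ?_, ?_⟩ <;> linarith
    rw [sub_zero, abs_sq]
    nlinarith

/-- `ϱ ≤ s ≤ 3 ϱ ≤ l / 40`, `fp4` with centre `z`, partner `(z, 0)`, `m = ϱ ^ 2`, `m' = 0`. -/
theorem err_N : ∃ C, 0 ≤ C ∧ ∀ P : Par, P.Geom → ∀ (A : Arith P.K) (D : MD P A) (a : AP D) (c : A.C)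
    (j : ℤ) (e : ℤˣ) (z : E4), u01 z ≤ 2 → u23 z ≤ 1 → ∀ i ≤ 4,
      a.s (D.pN c j e z) ^ (4 * i + 4) * n0 a.g ((GP a.g)^[i] (GE a.g)) (D.pN c j e z) ≤
        C * P.eta (a.s (D.pN c j e z)) ^ 2 := by
  obtain ⟨C, h0, hC⟩ := famOK_G4.err
  refine ⟨3 ^ 20 * (C * 1 ^ 2), by positivity, fun P hP A D a c j e z h1 h2 i hi => ?_⟩
  have hO := hP.toOk
  have h3 := hP.ϱ0
  have h4 := hO.rho_le
  have h5 := hO.l_le
  have h6 := Par.anum2_u_nonneg z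
  have hb := hP.beta_mem
  have hq : z ∈ A4 := ⟨by linarith, by linarith⟩
  have h7 := (a.fp4 hO c j e hq).n0_iter a.good i (zero_mem_Q (by norm_num))
  rw [Function.comp_apply, T4_zero] at h7
  rw [a.sN c j e z (show u01 z < 3 by linarith)]
  have s1 : P.ϱ ≤ P.ϱ * (1 + u01 z) := by nlinarith
  have s2 : P.ϱ * (1 + u01 z) ≤ 3 * P.ϱ := by nlinarith
  generalize P.ϱ * (1 + u01 z) = s at s1 s2
  have s3 : s ^ (4 * i + 4) ≤ 3 ^ 20 * P.ϱ ^ (4 * i + 4) :=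
    (pow_le_pow_left₀ (by linarith) s2 _).trans ((mul_pow _ _ _).trans_le
      (mul_le_mul_of_nonneg_right (pow_le_pow_right₀ (by norm_num) (by omega)) (by positivity)))
  refine (mul_le_mul_of_nonneg_right s3 (ji_ipM_nonneg (a.good.pos _) _)).trans ?_
  rw [mul_assoc, mul_assoc]
  refine mul_le_mul_of_nonneg_left (h7.trans_le ((hC _ ⟨hq, hb⟩ (z, 0) ⟨hq, le_rfl, zero_le_one⟩ _
    ⟨sq_nonneg _, pow_le_one₀ h3.le (by linarith)⟩ 0 (by norm_num) (ein_G4 _) i hi).trans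
      (aerr_fin h0 ?_))) (by norm_num)
  have h8 := (aerr_eta hP s).2.2.2 (by linarith) s2
  have h9 := pow_le_pow_left₀ h3.le s1 2
  simp only [Prod.mk_sub_mk, sub_self, sub_zero, Prod.norm_mk, norm_zero, abs_sq,
    Real.norm_of_nonneg hb.1, max_eq_right hb.1]
  linarith

/-- `ji_cov`; the inner slab by `slab_zero` (`yw_mem`). -/
theorem err_all : ∃ C, 0 ≤ C ∧ ∀ P : Par, P.Geom → ∀ (A : Arith P.K) (D : MD P A) (a : AP D)
    (m : D.M), ∀ i ≤ 4,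
      a.s m ^ (4 * i + 4) * n0 a.g ((GP a.g)^[i] (GE a.g)) m ≤ C * P.eta (a.s m) ^ 2 := by
  obtain ⟨C1, a1, h1⟩ := err_O
  obtain ⟨C2, a2, h2⟩ := err_T
  obtain ⟨C3, a3, h3⟩ := err_N
  refine ⟨C1 + C2 + C3, by positivity, fun P hP A D a m i hi => ?_⟩
  have key : ∀ {x C : ℝ}, x ≤ C * P.eta (a.s m) ^ 2 → C ≤ C1 + C2 + C3 →
      x ≤ (C1 + C2 + C3) * P.eta (a.s m) ^ 2 := fun h h' =>
    h.trans (mul_le_mul_of_nonneg_right h' (sq_nonneg _))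
  rcases ji_cov D hP m with ⟨c, p, b1, b2, rfl⟩ | ⟨c, p, w, b1, b2, b3, rfl⟩ |
    ⟨c, j, x, b1, b2, b3, rfl⟩ | ⟨c, j, e, z, b1, b2, rfl⟩
  · exact key (h1 P hP A D a c p b1 b2 i hi) (by linarith)
  · have hl := hP.toOk.l_pos
    obtain ⟨c1, -, c2, -⟩ := hP.toOk.yw_mem b3 (by linarith) (by nlinarith)
    rw [a.slab_zero hP.toOk c c1 c2, mul_zero]
    positivity
  · exact key (h2 P hP A D a c j x b1 b2 b3 i hi) (by linarith)
  · exact key (h3 P hP A D a c j e z b1 b2 i hi) (by linarith)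

/-- `ji_tr_sq`, `err_all` with `i = 0`, `rho_le_s`. -/
theorem trg_all : ∃ C, 0 ≤ C ∧ ∀ P : Par, P.Geom → ∀ (A : Arith P.K) (D : MD P A) (a : AP D)
    (m : D.M), |trg a.g (GE a.g) m| ≤ C * P.eta (a.s m) / a.s m ^ 2 := by
  obtain ⟨C, h0, hC⟩ := err_all
  refine ⟨2 * √C, by positivity, fun P hP A D a m => ?_⟩
  have h1 := hP.ϱ0.trans_le (a.rho_le_s hP m).1
  have h2 := hP.eta_nonneg (a.s m)
  have h3 : a.s m ^ 4 * n0 a.g (GE a.g) m ≤ _ := hC P hP A D a m 0 (by norm_num)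
  have h4 : trg a.g (GE a.g) m ^ 2 ≤ 4 * n0 a.g (GE a.g) m := ji_tr_sq (a.good.pos m) _
  refine abs_le_of_sq_le_sq (h4.trans ?_) (by positivity)
  rw [div_pow, le_div_iff₀ (by positivity), mul_pow, mul_pow, sq_sqrt h0]
  linarith

end Pool.Agent.Lib.MP_94aef8_gt
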