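import Pool.Agent.Lib.MP_94aef8_gt.J.AIp

/-! Uniform estimates for compact families of metrics on the cube. -/

open scoped Manifold ContDiff Topology
open Matrix Filter Set MeasureTheory Real

namespace Pool.Agent.Lib.MP_94aef8_gt

variable {Λ : Type} [NormedAddCommGroup Λ] [NormedSpace ℝ Λ]

/-- A compact family of metrics, jointly smooth near the closed cube. -/
structure FamOK (K : Set Λ) (G : Λ → Tn) : Prop where
  cpt : IsCompact K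
  sm : ∀ a ∈ K, ∀ y ∈ CQ, SmM G (a, y)
  pos : ∀ a ∈ K, ∀ y ∈ CQ, (G a y).PosDef

/-- The error term and its images under the powers of `P`, in a patch of scale `√m`. -/
noncomputable def EI (G : Tn) (m : ℝ) (i : ℕ) : Tn :=
  (Pop (3 * m) G)^[i] fun y => ric G y + (3 * m) • G y

variable {K : Set Λ} {G : Λ → Tn}

theorem FamOK.good (h : FamOK K G) {a : Λ} (ha : a ∈ K) : Good (G a) (Q 3) :=
  ⟨ja_isOpen_Q 3, fun i j p hp => (h.sm a ha p (Q_sub_CQ hp) i j).slice.contDiffWithinAt,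
    fun p hp => h.pos a ha p (Q_sub_CQ hp)⟩

theorem agen_zero : (0 : E4) ∈ CQ := Q_sub_CQ (zero_mem_Q (by norm_num))

theorem agen_cpt (h : FamOK K G) : IsCompact (K ×ˢ CQ) := h.cpt.prod isCompact_CQ

theorem agen_sm (h : FamOK K G) : ∀ q ∈ K ×ˢ CQ, SmM G q := fun q hq => h.sm q.1 hq.1 q.2 hq.2

theorem agen_det (h : FamOK K G) : ∀ q ∈ K ×ˢ CQ, (G q.1 q.2).det ≠ 0 :=
  fun q hq => (h.pos q.1 hq.1 q.2 hq.2).det_pos.ne'

/-- One bound for the entries of the metric and of its inverse at the origin. -/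
theorem agen_bdd (h : FamOK K G) : ∃ B, 0 ≤ B ∧ ∀ a ∈ K,
    (∀ i j, |G a 0 i j| ≤ B) ∧ ∀ i j, |(G a 0)⁻¹ i j| ≤ B := by
  obtain ⟨B1, h1, hB1⟩ := fam_bddM (agen_cpt h) (agen_sm h)
  obtain ⟨B2, -, hB2⟩ := fam_bddM (G := fun a y => (G a y)⁻¹) (agen_cpt h)
    fun q hq => (agen_sm h q hq).inv (agen_det h q hq)
  exact ⟨max B1 B2, h1.trans (le_max_left _ _), fun a ha =>
    ⟨fun i j => (hB1 (a, 0) ⟨ha, agen_zero⟩ i j).trans (le_max_left _ _),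
      fun i j => (hB2 (a, 0) ⟨ha, agen_zero⟩ i j).trans (le_max_right _ _)⟩⟩

/-- `fam_ell`, `fam_bddW` on `K ×ˢ CQ`. -/
theorem FamOK.goodB (h : FamOK K G) : ∃ C, ∀ a ∈ K, ∀ C', C ≤ C' → GoodB C' (G a) := by
  obtain ⟨c, hc, hell⟩ := fam_ell (agen_cpt h) (agen_sm h) fun q hq => h.pos q.1 hq.1 q.2 hq.2
  obtain ⟨B, -, hB⟩ := fam_bddW (agen_cpt h) (agen_sm h) 12
  refine ⟨max c⁻¹ B, fun a ha C' hC => ⟨h.good ha, fun y hy v => ?_, fun i j w hw y hy => ?_⟩⟩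
  · have h1 : c * (v ⬝ᵥ v) ≤ v ⬝ᵥ (G a y *ᵥ v) := hell (a, y) ⟨ha, Q_sub_CQ hy⟩ v
    have h2 : 0 ≤ v ⬝ᵥ v := Finset.sum_nonneg fun i _ => mul_self_nonneg _
    have h3 : 0 ≤ v ⬝ᵥ (G a y *ᵥ v) := (mul_nonneg hc.le h2).trans h1
    have h4 : v ⬝ᵥ v ≤ c⁻¹ * (v ⬝ᵥ (G a y *ᵥ v)) := (le_inv_mul_iff₀ hc).2 h1
    exact h4.trans (mul_le_mul_of_nonneg_right ((le_max_left _ _).trans hC) h3)
  · exact (hB (a, y) ⟨ha, Q_sub_CQ hy⟩ w hw i j).trans ((le_max_right _ _).trans hC)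

/-- `fam_bdd` for the determinant and for its inverse. -/
theorem FamOK.rho_bdd (h : FamOK K G) :
    ∃ C, 0 < C ∧ ∀ a ∈ K, C⁻¹ ≤ rho (G a) 0 ∧ rho (G a) 0 ≤ C := by
  obtain ⟨B1, -, hB1⟩ := fam_bdd (Φ := fun a y => (G a y).det) (agen_cpt h)
    fun q hq => (agen_sm h q hq).det
  obtain ⟨B2, -, hB2⟩ := fam_bdd (Φ := fun a y => ((G a y).det)⁻¹) (agen_cpt h)
    fun q hq => (agen_sm h q hq).det.inv (agen_det h q hq)
  have h1 : (1 : ℝ) ≤ max 1 (max B1 B2) := le_max_left _ _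
  have h2 : B1 ≤ max 1 (max B1 B2) := (le_max_left _ _).trans (le_max_right _ _)
  have h3 : B2 ≤ max 1 (max B1 B2) := (le_max_right _ _).trans (le_max_right _ _)
  generalize max 1 (max B1 B2) = C at h1 h2 h3
  have h0 : 0 < C := one_pos.trans_le h1
  refine ⟨C, h0, fun a ha => ?_⟩
  have hd : 0 < (G a 0).det := (h.pos a ha 0 agen_zero).det_pos
  have e1 : (G a 0).det ≤ C := ((le_abs_self _).trans (hB1 (a, 0) ⟨ha, agen_zero⟩)).trans h2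
  have e2 : ((G a 0).det)⁻¹ ≤ C := ((le_abs_self _).trans (hB2 (a, 0) ⟨ha, agen_zero⟩)).trans h3
  have e3 : C⁻¹ ≤ (G a 0).det := inv_le_of_inv_le₀ hd e2
  have e4 : C⁻¹ ≤ 1 := inv_le_one_of_one_le₀ h1
  have e5 : 0 < C⁻¹ := inv_pos.2 h0
  exact ⟨Real.le_sqrt_of_sq_le (by nlinarith), Real.sqrt_le_iff.2 ⟨h0.le, by nlinarith⟩⟩

theorem agen_succ (G : Tn) (m : ℝ) (i : ℕ) :
    EI G m (i + 1) = fun p => lich G (EI G m i) p + (2 * (3 * m)) • EI G m i p :=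
  Function.iterate_succ_apply' _ _ _

theorem agen_EI_sm {z : (Λ × ℝ) × E4} (h : SmM G (z.1.1, z.2)) (h0 : (G z.1.1 z.2).det ≠ 0)
    (i : ℕ) : SmM (fun u : Λ × ℝ => EI (G u.1) u.2 i) z := by
  have h1 : SmM (fun u : Λ × ℝ => G u.1) z := fun j k =>
    ContDiffAt.comp (g := fun w : Λ × E4 => G w.1 w.2 j k)
      (f := fun w : (Λ × ℝ) × E4 => (w.1.1, w.2)) z (h j k) (by fun_prop)
  have h2 : ∀ c : ℝ, SmA (fun (u : Λ × ℝ) (_ : E4) => c * u.2) z := fun c => by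
    unfold SmA
    fun_prop
  induction i with
  | zero => exact (h1.ric h0).add (SmM.smul (h2 3) h1)
  | succ i ih =>
    simp only [agen_succ]
    exact (h1.lich h0 ih).add (SmM.smul ((SmA.const 2).mul (h2 3)) ih)

theorem agen_EI_zero {G : Tn} {m : ℝ} (h : ∀ y ∈ Q 1, ric G y + (3 * m) • G y = 0) (i : ℕ) :
    EI G m i =ᶠ[𝓝 0] 0 := by
  induction i with
  | zero =>
    filter_upwards [(ja_isOpen_Q 1).mem_nhds (zero_mem_Q one_pos)] with y hy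
    exact h y hy
  | succ i ih =>
    have h1 := ji_lich_congr (G := G) (G' := G) EventuallyEq.rfl ih
    rw [ji_lich_zero] at h1
    rw [agen_succ]
    filter_upwards [h1, ih] with y e1 e2
    simp [e1, e2]

/-- The family `(a, m) ↦ EI (G a) m i` over `Λ × ℝ` is `SmM` on `(K ×ˢ Icc 0 1) ×ˢ CQ` (induction,
`SmM.lich`, `SmM.ric`; if needed prove it at all points `((a, m), y)` with `SmM G (a, y)` and
nonzero determinant). At `(a', m')` it vanishes on `Q 1` (induction, `ji_lich_congr`,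
`ji_lich_zero`). Then `fam_lipM`, `fam_bddM` for the inverse, `ipM_le`, `fam_fin` over `Fin 5`. -/
theorem FamOK.err (h : FamOK K G) : ∃ C, 0 ≤ C ∧ ∀ a ∈ K, ∀ a' ∈ K, ∀ m ∈ Icc (0 : ℝ) 1,
    ∀ m' ∈ Icc (0 : ℝ) 1, (∀ y ∈ Q 1, ric (G a') y + (3 * m') • G a' y = 0) → ∀ i ≤ 4,
      ipM (G a 0) (EI (G a) m i 0) (EI (G a) m i 0) ≤ C * (‖a - a'‖ + |m - m'|) ^ 2 := by
  have hK : IsCompact ((K ×ˢ Icc (0 : ℝ) 1) ×ˢ CQ) := (h.cpt.prod isCompact_Icc).prod isCompact_CQ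
  obtain ⟨L, hL0, hL⟩ := fam_fin (ι := Fin 5) (R := fun i C => ∀ u u' : Λ × ℝ, ∀ y,
    (u, y) ∈ (K ×ˢ Icc (0 : ℝ) 1) ×ˢ CQ → (u', y) ∈ (K ×ˢ Icc (0 : ℝ) 1) ×ˢ CQ → ∀ j k,
      |EI (G u.1) u.2 i y j k - EI (G u'.1) u'.2 i y j k| ≤ C * ‖u - u'‖)
    (fun i => fam_lipM (G := fun u : Λ × ℝ => EI (G u.1) u.2 i) hK fun z hz =>
      agen_EI_sm (h.sm _ hz.1.1 _ hz.2) (h.pos _ hz.1.1 _ hz.2).det_pos.ne' i)
    fun i C C' hc h u u' y hu hu' j k =>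
      (h u u' y hu hu' j k).trans (mul_le_mul_of_nonneg_right hc (norm_nonneg _))
  obtain ⟨B, -, hB⟩ := agen_bdd h
  refine ⟨256 * B ^ 2 * L ^ 2, by positivity, fun a ha a' ha' m hm m' hm' h0 i hi => ?_⟩
  have h1 : EI (G a') m' i 0 = 0 := (agen_EI_zero h0 i).eq_of_nhds
  have h2 : ‖(a, m) - (a', m')‖ ≤ ‖a - a'‖ + |m - m'| := by
    rw [Prod.mk_sub_mk, Prod.norm_mk, Real.norm_eq_abs]
    exact max_le (le_add_of_nonneg_right (abs_nonneg _)) (le_add_of_nonneg_left (norm_nonneg _))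
  have h3 : ∀ j k, |EI (G a) m i 0 j k| ≤ L * (‖a - a'‖ + |m - m'|) := fun j k => by
    have h4 := hL ⟨i, by omega⟩ (a, m) (a', m') 0 ⟨⟨ha, hm⟩, agen_zero⟩ ⟨⟨ha', hm'⟩, agen_zero⟩ j k
    simp only [h1, Matrix.zero_apply, sub_zero] at h4
    exact h4.trans (mul_le_mul_of_nonneg_left h2 hL0)
  refine ((le_abs_self _).trans (ipM_le (hB a ha).2 h3 h3)).trans_eq ?_
  ring

/-- `fam_lipM` for `rm`, then `cvq_le`. -/
theorem FamOK.curv (h : FamOK K G) : ∃ C, 0 ≤ C ∧ ∀ a ∈ K, ∀ a' ∈ K,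
    (∀ i j, rm (G a') i j 0 = 0) → ∀ k, cvq (G a) 0 k ≤ C * ‖a - a'‖ * ipM (G a 0) k k := by
  obtain ⟨L, hL0, hL⟩ := fam_fin (ι := Fin 4 × Fin 4) (R := fun i C => ∀ u u' : Λ, ∀ y,
    (u, y) ∈ K ×ˢ CQ → (u', y) ∈ K ×ˢ CQ → ∀ j k,
      |rm (G u) i.1 i.2 y j k - rm (G u') i.1 i.2 y j k| ≤ C * ‖u - u'‖)
    (fun i => fam_lipM (G := fun u => rm (G u) i.1 i.2) (agen_cpt h) fun z hz =>
      (agen_sm h z hz).rm (agen_det h z hz) i.1 i.2)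
    fun i C C' hc h u u' y hu hu' j k =>
      (h u u' y hu hu' j k).trans (mul_le_mul_of_nonneg_right hc (norm_nonneg _))
  obtain ⟨B, hB0, hB⟩ := agen_bdd h
  refine ⟨2 ^ 19 * B ^ 5 * L, by positivity, fun a ha a' ha' h0 k => ?_⟩
  have h3 : ∀ b c i j, |rm (G a) b c 0 i j| ≤ L * ‖a - a'‖ := fun b c i j => by
    have h4 := hL (b, c) a a' 0 ⟨ha, agen_zero⟩ ⟨ha', agen_zero⟩ i j
    simpa only [h0, Matrix.zero_apply, sub_zero] using h4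
  refine (cvq_le (h.pos a ha 0 agen_zero) (hB a ha).1 (hB a ha).2 h3 k).trans_eq ?_
  ring

/-- `fam_bddM` for `rm`, then `cvq_le`. -/
theorem FamOK.curv0 (h : FamOK K G) :
    ∃ C, 0 ≤ C ∧ ∀ a ∈ K, ∀ k, cvq (G a) 0 k ≤ C * ipM (G a 0) k k := by
  obtain ⟨L, hL0, hL⟩ := fam_fin (ι := Fin 4 × Fin 4) (R := fun i C => ∀ q ∈ K ×ˢ CQ, ∀ j k,
      |rm (G q.1) i.1 i.2 q.2 j k| ≤ C)
    (fun i => fam_bddM (G := fun u => rm (G u) i.1 i.2) (agen_cpt h) fun z hz =>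
      (agen_sm h z hz).rm (agen_det h z hz) i.1 i.2)
    fun i C C' hc h q hq j k => (h q hq j k).trans hc
  obtain ⟨B, hB0, hB⟩ := agen_bdd h
  exact ⟨2 ^ 19 * B ^ 5 * L, by positivity, fun a ha k =>
    cvq_le (h.pos a ha 0 agen_zero) (hB a ha).1 (hB a ha).2
      (fun b c i j => hL (b, c) (a, 0) ⟨ha, agen_zero⟩ i j) k⟩

end Pool.Agent.Lib.MP_94aef8_gt
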