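import Pool.Agent.Lib.MP_94aef8_gt.J.AOm
import Pool.Agent.Lib.MP_94aef8_gt.J.AGen

/-! The families of the slab. -/

open scoped Manifold ContDiff Topology
open Matrix Filter Set MeasureTheory Real

namespace Pool.Agent.Lib.MP_94aef8_gt

/-- The profile of the first family. -/
noncomputable def v1 (μ ε t : ℝ) : ℝ :=
  1 - smoothTransition (μ * (1 + cc * t) - 3) * (ε * (1 + cc * t) ^ 3)

/-- The metrics of the first family. -/
noncomputable def G1 (a : ℝ × ℝ) : Tn := Gd (aG (v1 a.1 a.2) 100)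

/-- The parameters of the first family. -/
def K1 : Set (ℝ × ℝ) := Icc 0 5 ×ˢ Icc 0 (1 / 8)

/-- `1 + 3 / 4 (μ (1 + cc t)) ^ 2`. -/
noncomputable def r2 (μ t : ℝ) : ℝ := 1 + 3 / 4 * (μ * (1 + cc * t)) ^ 2

/-- The metrics of the second family. -/
noncomputable def G2 (μ : ℝ) : Tn :=
  Gd ![fun t => 4 * cc ^ 2 * ((1 + cc * t) ^ 2 * (r2 μ t ^ 2 + r2 μ t + 1) / (3 * r2 μ t)),
    fun t => 4 * cc ^ 2 * r2 μ t ^ 2, fun t => 4 * cc ^ 2 * r2 μ t ^ 2,
    fun t => 4 * cc ^ 2 * (3 * r2 μ t / (r2 μ t ^ 2 + r2 μ t + 1))]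

theorem af12_fam {Λ : Type} [NormedAddCommGroup Λ] [NormedSpace ℝ Λ] {K : Set Λ} (hK : IsCompact K)
    {a : Λ → Fin 4 → ℝ → ℝ}
    (hs : ∀ z ∈ K, ∀ t, |t| ≤ 3 → ∀ i, ContDiffAt ℝ ∞ (fun w : Λ × ℝ => a w.1 i w.2) (z, t))
    (hp : ∀ z ∈ K, ∀ t, |t| ≤ 3 → ∀ i, 0 < a z i t) : FamOK K fun z => Gd (a z) := by
  refine ⟨hK, fun z hz y hy i j => ?_, fun z hz y hy => ?_⟩
  · by_cases e : i = j
    · subst e
      simp only [Gd, diagonal_apply_eq]
      exact ContDiffAt.comp (g := fun w : Λ × ℝ => a w.1 i w.2)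
        (f := fun w : Λ × E4 => (w.1, w.2 3)) (z, y) (hs z hz _ (hy 3) i) (by fun_prop)
    · simp only [Gd, diagonal_apply_ne _ e]
      exact SmA.const 0
  · exact Matrix.posDef_diagonal_iff.2 fun i => hp z hz _ (hy 3) i

theorem af12_cc {t : ℝ} (ht : |t| ≤ 3) : 97 / 100 ≤ 1 + cc * t ∧ 1 + cc * t ≤ 103 / 100 := by
  obtain ⟨h1, h2⟩ := abs_le.1 ht
  unfold cc
  constructor <;> linarith

theorem af12_cc_pos : 0 < cc := by
  unfold cc
  norm_num

theorem af12_v1_pos {a : ℝ × ℝ} (ha : a ∈ K1) {t : ℝ} (ht : |t| ≤ 3) : 0 < v1 a.1 a.2 t := by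
  obtain ⟨h1, h2⟩ := af12_cc ht
  have h3 : (1 + cc * t) ^ 3 ≤ (103 / 100) ^ 3 := pow_le_pow_left₀ (by linarith) h2 3
  have h4 : 0 ≤ (1 + cc * t) ^ 3 := pow_nonneg (by linarith) 3
  have h5 : a.2 * (1 + cc * t) ^ 3 ≤ 1 / 8 * (103 / 100) ^ 3 :=
    mul_le_mul ha.2.2 h3 h4 (by norm_num)
  have h6 := mul_le_of_le_one_left (mul_nonneg ha.2.1 h4)
    (smoothTransition.le_one (a.1 * (1 + cc * t) - 3))
  unfold v1
  linarith

theorem af12_v1_sm : ContDiff ℝ ∞ fun w : (ℝ × ℝ) × ℝ => v1 w.1.1 w.1.2 w.2 := by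
  unfold v1
  exact contDiff_const.sub ((smoothTransition.contDiff.comp (by fun_prop)).mul (by fun_prop))

/-- `0 < v1` since `ε (1 + cc t) ^ 3 ≤ 1 / 8 * (103 / 100) ^ 3`. -/
theorem famOK_G1 : FamOK K1 G1 := by
  refine af12_fam (a := fun a : ℝ × ℝ => aG (v1 a.1 a.2) 100) (isCompact_Icc.prod isCompact_Icc)
    (fun z hz t ht i => ?_) fun z hz t ht i => ?_
  · have h0 := af12_v1_pos hz ht
    have h1 : 0 < t + 100 := by linarith [(abs_le.1 ht).1]
    have h2 : ContDiffAt ℝ ∞ (fun w : (ℝ × ℝ) × ℝ => (w.2 + 100) ^ 2) (z, t) := by fun_prop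
    fin_cases i
    · exact af12_v1_sm.contDiffAt.div h2 (by positivity)
    · exact contDiffAt_const.div h2 (by positivity)
    · exact contDiffAt_const.div h2 (by positivity)
    · exact contDiffAt_const.div (af12_v1_sm.contDiffAt.mul h2) (by positivity)
  · have h0 := af12_v1_pos hz ht
    have h1 : 0 < t + 100 := by linarith [(abs_le.1 ht).1]
    fin_cases i <;> simp [aG] <;> positivity

theorem af12_r2_pos (μ t : ℝ) : 0 < r2 μ t := by
  unfold r2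
  positivity

theorem famOK_G2 : FamOK (Icc 0 (5 / 4)) G2 := by
  refine af12_fam (a := fun μ : ℝ => ![fun t => 4 * cc ^ 2 * ((1 + cc * t) ^ 2 *
    (r2 μ t ^ 2 + r2 μ t + 1) / (3 * r2 μ t)), fun t => 4 * cc ^ 2 * r2 μ t ^ 2,
    fun t => 4 * cc ^ 2 * r2 μ t ^ 2,
    fun t => 4 * cc ^ 2 * (3 * r2 μ t / (r2 μ t ^ 2 + r2 μ t + 1))]) isCompact_Icc
    (fun z _ t _ i => ?_) fun z _ t ht i => ?_
  · have h0 := af12_r2_pos z t
    have h2 : ContDiffAt ℝ ∞ (fun w : ℝ × ℝ => r2 w.1 w.2) (z, t) := by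
      unfold r2
      fun_prop
    have h3 : ContDiffAt ℝ ∞ (fun w : ℝ × ℝ => (1 + cc * w.2) ^ 2) (z, t) := by fun_prop
    have h4 := ((h2.pow 2).add h2).add (contDiffAt_const (c := (1 : ℝ)))
    fin_cases i
    · exact contDiffAt_const.mul ((h3.mul h4).div (contDiffAt_const.mul h2) (by positivity))
    · exact contDiffAt_const.mul (h2.pow 2)
    · exact contDiffAt_const.mul (h2.pow 2)
    · exact contDiffAt_const.mul ((contDiffAt_const.mul h2).div h4 (by positivity))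
  · have h0 := af12_r2_pos z t
    have h1 : 0 < 1 + cc * t := by linarith [(af12_cc ht).1]
    have h2 := af12_cc_pos
    fin_cases i <;> simp only [Fin.zero_eta, Fin.mk_one, Fin.reduceFinMk, Matrix.cons_val] <;>
      positivity

/-- The hyperbolic metric (`err_aG` with `e = 0`). -/
theorem ein_G1 (μ : ℝ) : ∀ y ∈ Q 1, ric (G1 (μ, 0)) y + (3 * 1 : ℝ) • G1 (μ, 0) y = 0 := by
  intro y hy
  have h1 : y 3 + 100 ≠ 0 := by linarith [(abs_lt.1 (hy 3)).1, le_refl (y 3 + 100)] |> ne_of_gt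
  rw [mul_one]
  exact err_aG (v := v1 μ 0) (e := 0) (s := 100) (Eventually.of_forall fun t => by simp [v1])
    (by simp [v1]) h1

theorem af12_d1 (c t : ℝ) : HasDerivAt (fun t => c * (1 + cc * t)) (c * cc) t := by
  simpa using (((hasDerivAt_id t).const_mul cc).const_add 1).const_mul c

namespace Par

variable {P : Par} {q : E4}

theorem Ok.ld_T1 (hP : P.Ok) (hq : q ∈ P.A1) :
    LDif (P.T1 q) (Q 3) P.UO ∧ ∀ y ∈ Q 3, P.T1 q y 3 ≤ 1 / (2 * P.δ) := by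
  obtain ⟨hq1, hq2⟩ := hq
  have h0 : 0 < q 3 := by linarith
  have hc := af12_cc_pos
  have hδ := hP.δ0
  have h1 : ∀ y ∈ Q 3, P.δ * (q 3 * (1 + cc * y 3)) ≤ 1 / 2 := fun y hy => by
    obtain ⟨e1, e2⟩ := af12_cc (hy 3).le
    have e3 := mul_le_mul hq2 e2 (by linarith) (by norm_num)
    linarith
  refine ⟨ld_fr P q (Y := fun t => q 3 * (1 + cc * t)) (by positivity) (by positivity)
    isOpen_univ (by fun_prop) (fun t _ => ?_) (ja_isOpen_Q 3) (fun _ _ => mem_univ _)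
    fun y hy => ⟨?_, ?_⟩, fun y hy => ?_⟩
  · rw [(af12_d1 (q 3) t).deriv]
    positivity
  · obtain ⟨e1, -⟩ := af12_cc (hy 3).le
    have e3 := mul_le_mul hq1 e1 (by norm_num) h0.le
    change 1 / 3 < q 3 * (1 + cc * y 3)
    linarith
  · have e1 := h1 y hy
    have e2 : (P.l / 10) ^ 2 ≤ 1 := pow_le_one₀ (by linarith [hP.l_pos]) (by linarith [hP.l_le])
    have e3 := mul_le_mul e1 (show 1 + 3 / 4 * (P.l / 10) ^ 2 ≤ 7 / 4 by linarith) (by positivity)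
      (by norm_num)
    change P.δ * (q 3 * (1 + cc * y 3)) * (1 + 3 / 4 * (P.l / 10) ^ 2) < 1
    linarith
  · change q 3 * (1 + cc * y 3) ≤ 1 / (2 * P.δ)
    rw [le_div_iff₀ (by positivity)]
    linarith [h1 y hy]

theorem T1_zero (P : Par) (q : E4) : P.T1 q 0 = q := by
  ext i
  fin_cases i <;> simp [T1, fr]

theorem Ok.mem_K1 (hP : P.Ok) (hq : q ∈ P.A1) : (min (q 3) 5, (P.δ * q 3) ^ 3) ∈ K1 := by
  obtain ⟨hq1, hq2⟩ := hq
  have h0 : 0 < q 3 := by linarith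
  have hδ := hP.δ0
  have h1 : (P.δ * q 3) ^ 3 ≤ (1 / 2) ^ 3 := pow_le_pow_left₀ (by positivity) (by linarith) 3
  exact ⟨⟨le_min h0.le (by norm_num), min_le_right _ _⟩, by positivity, h1.trans (by norm_num)⟩

/-- `pull_fr`; `cc y0 / (y0 (1 + cc t)) = 1 / (t + 100)`; for `5 ≤ y0` both cut-offs are `1`. -/
theorem Ok.pull_T1 (hP : P.Ok) (hq : q ∈ P.A1) :
    ∀ y ∈ Q 3, pull (P.T1 q) P.GO y = G1 (min (q 3) 5, (P.δ * q 3) ^ 3) y := by
  intro y hy
  have hv := af12_v1_pos (hP.mem_K1 hq) (hy 3).le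
  obtain ⟨hq1, hq2⟩ := hq
  have h0 : 0 < q 3 := by linarith
  obtain ⟨e1, -⟩ := af12_cc (hy 3).le
  have h1 : P.vO (q 3 * (1 + cc * y 3)) = v1 (min (q 3) 5) ((P.δ * q 3) ^ 3) (y 3) := by
    have h2 : smoothTransition (q 3 * (1 + cc * y 3) - 3) =
        smoothTransition (min (q 3) 5 * (1 + cc * y 3) - 3) := by
      rcases le_total (q 3) 5 with h | h
      · rw [min_eq_left h]
      · have e3 := mul_le_mul h e1 (by norm_num) h0.le
        rw [min_eq_right h, smoothTransition.one_of_one_le (by linarith),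
          smoothTransition.one_of_one_le (by linarith)]
    unfold vO v1
    rw [h2]
    ring
  have h3 : 1 + cc * y 3 = cc * (y 3 + 100) := by
    unfold cc
    ring
  have h4 : 0 < y 3 + 100 := by linarith [(abs_lt.1 (hy 3)).1]
  have hc := af12_cc_pos
  refine (pull_fr P (Y := fun t => q 3 * (1 + cc * t)) (af12_d1 (q 3) (y 3))).trans ?_
  simp only [h1, G1, Gd]
  generalize v1 (min (q 3) 5) ((P.δ * q 3) ^ 3) = v at hv ⊢
  rw [h3]
  refine congrArg diagonal (funext fun i => ?_)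
  fin_cases i <;> simp only [aG, Fin.zero_eta, Fin.mk_one, Fin.reduceFinMk, Matrix.cons_val] <;>
    field_simp

theorem af12_d2 (hP : P.Ok) (c t : ℝ) : HasDerivAt (fun t => P.yw (c * (1 + cc * t)))
    (-(3 / 2 * (c * (1 + cc * t)) * (c * cc)) / (P.δ * r2 c t ^ 2)) t := by
  have hδ := hP.δ0
  have hr := af12_r2_pos c t
  have h1 := (((((af12_d1 c t).fun_pow 2).const_mul (3 / 4)).const_add 1).const_mul P.δ).fun_inv
    (mul_pos hδ hr).ne'
  simp only [yw, one_div]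
  refine h1.congr_deriv ?_
  change _ / (P.δ * r2 c t) ^ 2 = _
  field_simp
  ring

theorem af12_w (hP : P.Ok) (hq : q ∈ P.A2) {y : E4} (hy : y ∈ Q 3) :
    P.l / 10 < q 3 * (1 + cc * y 3) ∧ (q 3 * (1 + cc * y 3)) ^ 2 < 8 / 3 := by
  obtain ⟨hq1, hq2⟩ := hq
  obtain ⟨e1, e2⟩ := af12_cc (hy 3).le
  have hl := hP.l_pos
  have e3 := mul_le_mul hq1 e1 (by norm_num) (by linarith)
  have e4 := mul_le_mul hq2 e2 (by linarith) (by norm_num)
  have e5 := pow_le_pow_left₀ (by linarith) e4 2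
  exact ⟨by linarith, e5.trans_lt (by norm_num)⟩

theorem Ok.ld_T2 (hP : P.Ok) (hq : q ∈ P.A2) : LDif (P.T2 q) (Q 3) P.UO := by
  have h0 : 0 < q 3 := by linarith [hq.1, hP.l_pos]
  have hc := af12_cc_pos
  have hδ := hP.δ0
  refine ld_fr P q (Y := fun t => P.yw (q 3 * (1 + cc * t))) (I := Ioi (-3)) (by positivity)
    (by positivity) isOpen_Ioi ?_ (fun t ht => ?_) (ja_isOpen_Q 3)
    (fun y hy => (abs_lt.1 (hy 3)).1) fun y hy =>
      (hP.yw_mem (p := P.T2 q y) rfl (af12_w hP hq hy).1 (af12_w hP hq hy).2).1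
  · unfold yw
    exact contDiffOn_const.div (by fun_prop) fun t _ => by positivity
  · have h1 : 0 < 1 + cc * t := by
      have h2 : -3 < t := ht
      unfold cc
      linarith
    have hr := af12_r2_pos (q 3) t
    rw [(af12_d2 hP (q 3) t).deriv, neg_div, neg_ne_zero]
    positivity

theorem T2_three (P : Par) (q y : E4) : P.T2 q y 3 = P.yw (q 3 * (1 + cc * y 3)) := rfl

theorem T2_zero (P : Par) (q : E4) : P.T2 q 0 = mk4 (q 0) (q 1) (q 2) (P.yw (q 3)) := by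
  simp [T2, fr]

/-- `pull_fr` with `Y = 1 / (δ r)`, `v = 1 - 1 / r ^ 3` (`4 < Y` by `yw_mem`),
`r - 1 = 3 / 4 w ^ 2`, `w = q 3 (1 + cc t)`, `Y' = - (3 / 2) w (q 3) cc / (δ r ^ 2)`. -/
theorem Ok.pull_T2 (hP : P.Ok) (hq : q ∈ P.A2) :
    ∀ y ∈ Q 3, pull (P.T2 q) P.GO y = (q 3 / 2) ^ 2 • G2 (q 3) y := by
  intro y hy
  have h0 : 0 < q 3 := by linarith [hq.1, hP.l_pos]
  have hc := af12_cc_pos
  have hδ := hP.δ0
  have hr := af12_r2_pos (q 3) (y 3)
  have h1 : 0 < 1 + cc * y 3 := by linarith [(af12_cc (hy 3).le).1]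
  have h4 : 4 < P.yw (q 3 * (1 + cc * y 3)) :=
    (hP.yw_mem (p := P.T2 q y) rfl (af12_w hP hq hy).1 (af12_w hP hq hy).2).2.2.1
  have h5 : P.yw (q 3 * (1 + cc * y 3)) = 1 / (P.δ * r2 (q 3) (y 3)) := rfl
  have h6 : r2 (q 3) (y 3) = 1 + 3 / 4 * (q 3 * (1 + cc * y 3)) ^ 2 := rfl
  have h7 : P.vO (P.yw (q 3 * (1 + cc * y 3))) = 3 / 4 * (q 3 * (1 + cc * y 3)) ^ 2 *
      (r2 (q 3) (y 3) ^ 2 + r2 (q 3) (y 3) + 1) / r2 (q 3) (y 3) ^ 3 := by
    unfold vO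
    rw [smoothTransition.one_of_one_le (by linarith), h5,
      show 3 / 4 * (q 3 * (1 + cc * y 3)) ^ 2 = r2 (q 3) (y 3) - 1 by rw [h6]; ring]
    field_simp
    ring
  refine (pull_fr P (Y := fun t => P.yw (q 3 * (1 + cc * t))) (af12_d2 hP (q 3) (y 3))).trans ?_
  simp only [h7, G2, Gd]
  rw [h5, ← diagonal_smul]
  refine congrArg diagonal (funext fun i => ?_)
  fin_cases i <;> simp only [Pi.smul_apply, smul_eq_mul, Fin.zero_eta, Fin.mk_one,
    Fin.reduceFinMk, Matrix.cons_val] <;> generalize r2 (q 3) (y 3) = r at hr ⊢ <;>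
    field_simp <;> ring

end Par

end Pool.Agent.Lib.MP_94aef8_gt
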