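import Pool.Agent.Lib.MP_94aef8_gt.J.ANum

/-! The domains of the patches and the scale function. -/

open scoped Manifold ContDiff Topology
open Matrix Filter Set MeasureTheory Real

namespace Pool.Agent.Lib.MP_94aef8_gt

namespace Par

variable {P : Par}

theorem anum2_u_nonneg (x : E4) : 0 ≤ u01 x := by unfold u01; positivity

theorem anum2_far {l : ℝ} (hl : 0 < l) (t : ℝ) {k : ℤ} (hk : k ≠ 0) : l - |t| ≤ |t + k * l| := by
  have h1 : (1 : ℝ) ≤ |(k : ℝ)| := by exact_mod_cast Int.one_le_abs hk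
  have h2 : |(k : ℝ) * l| ≤ |t + k * l| + |t| := by
    simpa using abs_sub (t + k * l) t
  rw [abs_mul, abs_of_pos hl] at h2
  nlinarith

theorem anum2_round {l : ℝ} (hl : 0 < l) (t : ℝ) (j : ℤ) :
    |t - j * l| = l * |t / l - j| := by
  rw [← abs_of_pos hl, ← abs_mul, abs_of_pos hl]
  congr 1
  field_simp

theorem anum2_u_sh (P : Par) (j : ℤ) (x : E4) : u01 (P.sh j x) = u01 x := by simp [u01, sh]

theorem anum2_Rj_sh (P : Par) (j j' : ℤ) (x : E4) :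
    P.Rj j' (P.sh j x) = √(u01 x + (x 2 + ((j - j' : ℤ) : ℝ) * P.l) ^ 2) := by
  rw [Rj, anum2_u_sh]
  congr 3
  simp only [zj, sh, mk4_2]
  push_cast
  ring

theorem anum2_Rn_sq (P : Par) (x : E4) : P.Rn x ^ 2 = u01 x + P.zj (P.jn x) x ^ 2 :=
  Real.sq_sqrt (add_nonneg (anum2_u_nonneg x) (sq_nonneg _))

theorem anum2_Rn_nonneg (P : Par) (x : E4) : 0 ≤ P.Rn x := Real.sqrt_nonneg _

theorem anum2_yw (hP : P.Ok) {p : E4} {w : ℝ} (h : p 3 = P.yw w) :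
    4 / 3 * (1 / (P.δ * p 3) - 1) = w ^ 2 := by
  have := hP.δ0
  rw [h, yw]
  field_simp
  ring

theorem isOpen_UT (P : Par) : IsOpen P.UT := by
  have h1 : Continuous u01 := by unfold u01; fun_prop
  have h2 : Continuous fun x : E4 => |x 2| := by fun_prop
  exact (isOpen_lt h1 continuous_const).inter
    ((isOpen_lt h2 continuous_const).inter (isOpen_lt continuous_const continuous_R3))

theorem Ok.sh_mem (hP : P.Ok) (j : ℤ) {x : E4} (hx : x ∈ P.UT) : P.sh j x ∈ P.UC := by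
  obtain ⟨h1, h2, h3⟩ := hx
  refine ⟨by rwa [anum2_u_sh], fun j' => ?_⟩
  rw [anum2_Rj_sh]
  by_cases hj : j - j' = 0
  · simpa [hj, R3] using h3
  · have h4 := anum2_far hP.l_pos (x 2) hj
    have h5 := hP.rho_le
    have h6 := hP.l_pos
    have h7 := hP.ϱ0
    have h8 := anum2_u_nonneg x
    refine Real.lt_sqrt_of_sq_lt ?_
    have h9 : P.ϱ < |x 2 + ((j - j' : ℤ) : ℝ) * P.l| := by linarith
    have h10 := sq_lt_sq' (by linarith [abs_nonneg (x 2 + ((j - j' : ℤ) : ℝ) * P.l)]) h9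
    rw [sq_abs] at h10
    linarith

theorem Ok.ld_sh (hP : P.Ok) (j : ℤ) : LDif (P.sh j) P.UT P.UC := by
  have e : P.sh j = fun y => mk4 0 0 (j * P.l) 0 + (1 : ℝ) • y := by
    funext y
    ext i
    fin_cases i <;> simp [sh, add_comm]
  have h := ld_aff (mk4 0 0 (j * P.l) 0) one_ne_zero P.isOpen_UT (V := P.UC) fun y hy => by
    have := hP.sh_mem j hy
    rwa [e] at this
  rwa [e]

theorem Ok.Rn_le (hP : P.Ok) (j : ℤ) (x : E4) : P.Rn x ≤ P.Rj j x := by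
  refine Real.sqrt_le_sqrt (add_le_add_right ?_ _)
  rw [sq_le_sq, zj, zj, anum2_round hP.l_pos, anum2_round hP.l_pos]
  exact mul_le_mul_of_nonneg_left (round_le _ j) hP.l_pos.le

theorem Ok.Rn_sh (hP : P.Ok) (j : ℤ) {x : E4} (hx : |x 2| ≤ P.l / 2) : P.Rn (P.sh j x) = R3 x :=
  by
    rw [Rn, anum2_Rj_sh]
    have h0 := hP.Rn_le j (P.sh j x)
    rw [Rn, anum2_Rj_sh, anum2_Rj_sh] at h0
    refine le_antisymm (by simpa [R3] using h0) (Real.sqrt_le_sqrt (add_le_add_right ?_ _))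
    by_cases hj : j - P.jn (P.sh j x) = 0
    · simp [hj]
    · have h4 := anum2_far hP.l_pos (x 2) hj
      rw [sq_le_sq]
      linarith

theorem Ok.Rn_sh_le (hP : P.Ok) (j : ℤ) (x : E4) : P.Rn (P.sh j x) ≤ R3 x := by
  have h0 := hP.Rn_le j (P.sh j x)
  rw [anum2_Rj_sh] at h0
  simpa [R3] using h0

theorem Ok.Rn_sh_ge (hP : P.Ok) (j : ℤ) {x : E4} (hx : |x 2| ≤ 7 / 10 * P.l) :
    R3 x ≤ 3 * P.Rn (P.sh j x) := by
  have h8 := anum2_u_nonneg x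
  rw [Rn, anum2_Rj_sh, R3]
  refine Real.sqrt_le_iff.2 ⟨by positivity, ?_⟩
  rw [mul_pow, Real.sq_sqrt (by positivity)]
  by_cases hj : j - P.jn (P.sh j x) = 0
  · simp only [hj, Int.cast_zero, zero_mul, add_zero]
    nlinarith [sq_nonneg (x 2)]
  · have h4 := anum2_far hP.l_pos (x 2) hj
    have h6 := hP.l_pos
    have h5 : |x 2| ≤ |3 * (x 2 + ((j - P.jn (P.sh j x) : ℤ) : ℝ) * P.l)| := by
      rw [abs_mul, abs_of_pos (by norm_num : (0 : ℝ) < 3)]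
      linarith
    rw [← sq_le_sq] at h5
    nlinarith

theorem Ok.Rn_ge (hP : P.Ok) (x : E4) : u01 x ≤ P.Rn x ^ 2 := by
  rw [anum2_Rn_sq]
  have := hP.δ0
  nlinarith [sq_nonneg (P.zj (P.jn x) x)]

theorem Ok.Rn_sq_le (hP : P.Ok) (x : E4) : P.Rn x ^ 2 ≤ u01 x + (P.l / 2) ^ 2 := by
  rw [anum2_Rn_sq]
  refine add_le_add_right ?_ _
  have hl := hP.l_pos
  rw [sq_le_sq, zj, anum2_round hl, abs_of_pos (half_pos hl)]
  have := abs_sub_round (x 2 / P.l)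
  rw [jn]
  nlinarith

theorem Ok.yw_mem (hP : P.Ok) {p : E4} {w : ℝ} (h : p 3 = P.yw w) (h1 : P.l / 10 < w)
    (h2 : w ^ 2 < 8 / 3) : p ∈ P.UO ∧ 1 / (3 * P.δ) < p 3 ∧ 4 < p 3 ∧ P.P1 p ∈ P.UC ∧
      u01 (P.P1 p) = w ^ 2 := by
  have hδ := hP.δ0
  have hδ1 := hP.δ1
  have hl := hP.l_pos
  have hϱ := hP.ϱ0
  have hϱ1 := hP.rho_le
  have hw : 0 < w := by linarith
  have e1 : P.δ * p 3 = 1 / (1 + 3 / 4 * w ^ 2) := by
    rw [h, yw]
    field_simp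
  have a1 : 1 / (3 * P.δ) < p 3 := by
    rw [h, yw]
    exact one_div_lt_one_div_of_lt (by positivity) (by nlinarith)
  have a2 : 4 < p 3 := by
    refine lt_trans ?_ a1
    rw [lt_div_iff₀ (by positivity)]
    linarith
  have a3 : u01 (P.P1 p) = w ^ 2 := by
    simp only [u01, P1, mk4_0, mk4_1, anum2_yw hP h, Real.sqrt_sq hw.le]
    linear_combination w ^ 2 * Real.cos_sq_add_sin_sq (2 * π * p 0 / P.K)
  refine ⟨⟨by linarith, ?_⟩, a1, a2, ⟨by rwa [a3], fun j => ?_⟩, a3⟩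
  · rw [e1, one_div_mul_eq_div, div_lt_one (by positivity)]
    nlinarith
  · refine Real.lt_sqrt_of_sq_lt ?_
    rw [a3]
    nlinarith [sq_nonneg (P.zj j (P.P1 p))]

/-- Polar coordinates. -/
theorem Ok.P1_onto (hP : P.Ok) (x : E4) (h1 : 0 < u01 x) :
    ∃ p : E4, p 3 = P.yw √(u01 x) ∧ P.P1 p = x := by
  have hδ := hP.δ0
  have hϱ := hP.ϱ0
  have hK : (0 : ℝ) < P.K := by exact_mod_cast hP.K0
  have hπ := Real.pi_pos
  have hw : 0 < √(u01 x) := Real.sqrt_pos.2 h1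
  obtain ⟨θ, c1, c2⟩ : ∃ θ : ℝ, √(u01 x) * cos θ = x 0 ∧ √(u01 x) * sin θ = x 1 := by
    have hn : ‖(⟨x 0, x 1⟩ : ℂ)‖ = √(u01 x) := by
      rw [Complex.norm_eq_sqrt_sq_add_sq, u01]
    have hz : (⟨x 0, x 1⟩ : ℂ) ≠ 0 := by
      rw [← norm_pos_iff, hn]
      exact hw
    refine ⟨Complex.arg ⟨x 0, x 1⟩, ?_, ?_⟩
    · rw [Complex.cos_arg hz, hn]
      field_simp
    · rw [Complex.sin_arg, hn]
      field_simp
  refine ⟨mk4 (θ * P.K / (2 * π)) (2 * P.n * (θ * P.K / (2 * π)) + x 3 * P.K / (4 * π * P.ϱ))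
    (x 2 / P.δ) (P.yw √(u01 x)), rfl, ?_⟩
  have e0 := anum2_yw hP (p := mk4 (θ * P.K / (2 * π))
    (2 * P.n * (θ * P.K / (2 * π)) + x 3 * P.K / (4 * π * P.ϱ)) (x 2 / P.δ) (P.yw √(u01 x)))
    (w := √(u01 x)) rfl
  have e1 : 2 * π * (θ * P.K / (2 * π)) / P.K = θ := by field_simp
  rw [P1, e0, Real.sqrt_sq hw.le]
  simp only [mk4_0, mk4_1, mk4_2, e1, c1, c2]
  have e2 : P.δ * (x 2 / P.δ) = x 2 := by field_simp
  have e3 : 4 * π * P.ϱ * (2 * P.n * (θ * P.K / (2 * π)) + x 3 * P.K / (4 * π * P.ϱ) -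
      2 * P.n * (θ * P.K / (2 * π))) / P.K = x 3 := by
    field_simp
    ring
  rw [e2, e3]
  ext i
  fin_cases i <;> rfl

end Par

variable {P : Par} {A : Arith P.K} {D : MD P A}

theorem MD.ptT (D : MD P A) (hP : P.Ok) (c : A.C) (j : ℤ) : Pt (D.pT c j) P.UT :=
  ji_pt_comp (D.ptC c) (hP.ld_sh j)

theorem AP.s_T (a : AP D) (hP : P.Ok) (c : A.C) (j : ℤ) {x : E4} (hx : x ∈ P.UT)
    (h : |x 2| ≤ P.l / 2) : a.s (D.pT c j x) = min 1 (R3 x) := by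
  rw [← hP.Rn_sh j h]
  exact a.sC c _ (hP.sh_mem j hx)

theorem AP.s_yw (a : AP D) (hP : P.Ok) (c : A.C) {p : E4} {w : ℝ} (h : p 3 = P.yw w)
    (h1 : P.l / 2 ≤ w) (h2 : w ^ 2 < 8 / 3) :
    min 1 w ≤ a.s (D.pO c p) ∧ a.s (D.pO c p) ≤ 2 * w := by
  have hl := hP.l_pos
  obtain ⟨b1, b2, -, b4, b5⟩ := hP.yw_mem h (by linarith) h2
  rw [← D.trOC c p b1 b2, a.sC c _ b4]
  have c1 := hP.Rn_ge (P.P1 p)
  have c2 := hP.Rn_sq_le (P.P1 p)
  have c3 := P.anum2_Rn_nonneg (P.P1 p)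
  rw [b5] at c1 c2
  exact ⟨min_le_min le_rfl (by nlinarith), (min_le_right _ _).trans (by nlinarith)⟩

theorem AP.rho_le_s (a : AP D) (hP : P.Geom) (m : D.M) : P.ϱ ≤ a.s m ∧ a.s m ≤ 1 := by
  have hO := hP.toOk
  have hδ := hO.δ0
  have hδ1 := hO.δ1
  have hϱ := hO.ϱ0
  have hϱ1 := hO.ϱ1
  have hl := hO.l_pos
  have hC : ∀ c, ∀ x ∈ P.UC, P.ϱ ≤ a.s (D.pC c x) ∧ a.s (D.pC c x) ≤ 1 := fun c x hx => by
    rw [a.sC c x hx]
    exact ⟨le_min (by linarith) (hx.2 _).le, min_le_left _ _⟩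
  rcases D.cover m with ⟨c, p, hp, rfl⟩ | ⟨c, x, hx, rfl⟩ | ⟨c, j, e, z, hz, rfl⟩
  · by_cases h : p 3 ≤ 1 / (2 * P.δ)
    · rw [a.sO c p hp h]
      exact ⟨by linarith, le_rfl⟩
    · rw [not_le, div_lt_iff₀ (by positivity)] at h
      have h0 : 0 < P.δ * p 3 := by linarith
      have h1 : (P.l / 10) ^ 2 < 4 / 3 * (1 / (P.δ * p 3) - 1) := by
        have h2 : 1 + 3 / 4 * (P.l / 10) ^ 2 < 1 / (P.δ * p 3) := by
          rw [lt_div_iff₀ h0, mul_comm]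
          exact hp.2
        linarith
      have h3 : 1 / (P.δ * p 3) < 2 := by
        rw [div_lt_iff₀ h0]
        linarith
      have h4 : 0 ≤ 4 / 3 * (1 / (P.δ * p 3) - 1) := (sq_nonneg _).trans h1.le
      have h5 : p 3 = P.yw √(4 / 3 * (1 / (P.δ * p 3) - 1)) := by
        have h6 : p 3 ≠ 0 := by
          rintro h7
          simp [h7] at h0
        rw [Par.yw, Real.sq_sqrt h4]
        field_simp
        ring
      obtain ⟨b1, b2, -, b4, -⟩ := hO.yw_mem h5 (Real.lt_sqrt_of_sq_lt h1)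
        (by rw [Real.sq_sqrt h4]; linarith)
      rw [← D.trOC c p b1 b2]
      exact hC c _ b4
  · exact hC c x hx
  · rw [a.sN c j e z hz]
    have h1 := Par.anum2_u_nonneg z
    have h2 : u01 z < 3 := hz
    constructor <;> nlinarith

end Pool.Agent.Lib.MP_94aef8_gt
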