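import Pool.Agent.Lib.MP_94aef8_gt.J.AGen
import Pool.Agent.Lib.MP_94aef8_gt.J.ANum2

/-! The family of the tube. -/

open scoped Manifold ContDiff Topology
open Matrix Filter Set MeasureTheory Real

namespace Pool.Agent.Lib.MP_94aef8_gt

/-- The twisted Schwarzschild metric of radius `a`. -/
noncomputable def SWf (a b : ℝ) (x : E4) : Mat := GSW a b (x 2) (R3 x) x

/-- `1 + 3 / 4 μ ^ 2 u01 x`. -/
noncomputable def rM (μ : ℝ) (x : E4) : ℝ := 1 + 3 / 4 * (μ ^ 2 * u01 x)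

/-- The black hole metric at scale `μ`. -/
noncomputable def GBHm (μ b : ℝ) (x : E4) : Mat :=
  (3 * rM μ x / (rM μ x ^ 2 + rM μ x + 1)) • (sq1 (ee 0) + sq1 (ee 1) + b • sym2 (l01 x) (ee 3) +
      (b ^ 2 * u01 x) • sq1 (ee 3)) +
    (3 / 16 * (μ ^ 4 * u01 x) * (rM μ x ^ 2 + 4 * rM μ x + 1) /
      (rM μ x * (rM μ x ^ 2 + rM μ x + 1))) • sq1 (l01 x + (b * u01 x) • ee 3) +
    rM μ x ^ 2 • (sq1 (ee 2) + sq1 (ee 3))

/-- The glued metric at scale `μ`; `il` is the inverse of the distance of the centres. -/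
noncomputable def GTm (a il b μ : ℝ) (x : E4) : Mat :=
  chiS (il * R3 x) • SWf a b x + (1 - chiS (il * R3 x)) • GBHm μ b x

/-- The metrics of the third family, parameters `(o, a, il, b, μ)`. -/
noncomputable def G3 (z : E4 × ℝ × ℝ × ℝ × ℝ) (y : E4) : Mat :=
  cc ^ 2 • GTm z.2.1 z.2.2.1 z.2.2.2.1 z.2.2.2.2 (z.1 + cc • y)

/-- The parameters of the third family. -/
def K3 : Set (E4 × ℝ × ℝ × ℝ × ℝ) :=
  {o | R3 o = 1 ∧ o 3 = 0} ×ˢ Icc 0 (2 / 5) ×ˢ Icc 0 2 ×ˢ Icc 0 10 ×ˢ Icc 0 1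

theorem af3_qsq (a Z : Fin 4 → ℝ) : Z ⬝ᵥ sq1 a *ᵥ Z = (a ⬝ᵥ Z) ^ 2 := by
  simp only [sq1, dotProduct, mulVec, vecMulVec_apply, Fin.sum_univ_four]
  ring

theorem af3_qsym (a b Z : Fin 4 → ℝ) : Z ⬝ᵥ sym2 a b *ᵥ Z = 2 * (a ⬝ᵥ Z) * (b ⬝ᵥ Z) := by
  simp only [sym2, dotProduct, mulVec, vecMulVec_apply, Fin.sum_univ_four, Matrix.add_apply]
  ring

theorem af3_ee (i : Fin 4) (Z : Fin 4 → ℝ) : ee i ⬝ᵥ Z = Z i := by simp [ee]

theorem af3_l01 (x : E4) (Z : Fin 4 → ℝ) : l01 x ⬝ᵥ Z = x 0 * Z 1 - x 1 * Z 0 := by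
  simp [l01, dotProduct, Fin.sum_univ_four]
  ring

theorem af3_tsq (a : Fin 4 → ℝ) : (sq1 a)ᵀ = sq1 a := transpose_vecMulVec a a

theorem af3_tsym (a b : Fin 4 → ℝ) : (sym2 a b)ᵀ = sym2 a b := by
  rw [sym2, transpose_add, transpose_vecMulVec, transpose_vecMulVec, add_comm]

theorem af3_pos {M : Mat} (hs : Mᵀ = M) {p r s : ℝ} (hp : 0 < p) (hr : 0 < r) (hs' : 0 < s)
    (t u : ℝ) (h : ∀ v : Fin 4 → ℝ, p * ((v 0 - t * v 3) ^ 2 + (v 1 + u * v 3) ^ 2) +
      r * v 2 ^ 2 + s * v 3 ^ 2 ≤ v ⬝ᵥ M *ᵥ v) : M.PosDef := by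
  refine PosDef.of_dotProduct_mulVec_pos hs fun v hv => lt_of_lt_of_le ?_ (h v)
  by_cases h3 : v 3 = 0
  · by_cases h2 : v 2 = 0
    · by_cases h1 : v 1 = 0
      · have h0 : v 0 ≠ 0 := fun h0 => hv (by
          ext i
          fin_cases i
          exacts [h0, h1, h2, h3])
        rw [h3, mul_zero, sub_zero]
        positivity
      · rw [h3, mul_zero u, add_zero (v 1)]
        positivity
    · positivity
  · positivity

theorem af3_u01 (x : E4) : 0 ≤ u01 x := by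
  rw [u01]
  positivity

theorem af3_rM (μ : ℝ) (x : E4) : 0 < rM μ x := by
  have := af3_u01 x
  rw [rM]
  positivity

theorem GBHm_one (b : ℝ) : GBHm 1 b = GBH b := by
  funext x
  simp only [GBHm, GBH, rM, rB, one_pow, one_mul]

theorem GBHm_zero (b : ℝ) : GBHm 0 b = SWf 0 b := by
  funext x
  have e : rM 0 x = 1 := by simp [rM]
  simp only [GBHm, SWf, GSW, e]
  norm_num
  module

/-- The quadratic form is `(v0 - b x1 v3) ^ 2 + (v1 + b x0 v3) ^ 2 + v2 ^ 2 + c (x ⬝ v) ^ 2 +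
(1 - a / R) v3 ^ 2` with `0 ≤ c`. -/
theorem posDef_SWf {a : ℝ} (b : ℝ) {x : E4} (ha : 0 ≤ a) (hx : a < R3 x) : (SWf a b x).PosDef := by
  have hR : 0 < R3 x := ha.trans_lt hx
  have h1 : 0 < R3 x - a := sub_pos.2 hx
  refine af3_pos (by simp only [SWf, GSW, transpose_add, transpose_smul, af3_tsq, af3_tsym])
    one_pos one_pos (sub_pos.2 ((div_lt_one hR).2 hx)) (b * x 1) (b * x 0) fun v => ?_
  simp only [SWf, GSW, add_mulVec, smul_mulVec, dotProduct_add, dotProduct_smul, af3_qsq, af3_qsym,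
    af3_ee, af3_l01, smul_eq_mul, u01]
  have h2 : 0 ≤ a / ((R3 x - a) * R3 x ^ 2) * (![x 0, x 1, x 2, 0] ⬝ᵥ v) ^ 2 := by positivity
  linarith

theorem posDef_GBHm (μ b : ℝ) (x : E4) : (GBHm μ b x).PosDef := by
  have hr := af3_rM μ x
  have hu := af3_u01 x
  refine af3_pos (p := 3 * rM μ x / (rM μ x ^ 2 + rM μ x + 1))
    (by simp only [GBHm, transpose_add, transpose_smul, af3_tsq, af3_tsym])
    (by positivity) (pow_pos hr 2) (pow_pos hr 2) (b * x 1) (b * x 0) fun v => ?_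
  simp only [GBHm, add_mulVec, smul_mulVec, dotProduct_add, dotProduct_smul, af3_qsq, af3_qsym,
    af3_ee, af3_l01, smul_eq_mul]
  have h2 : 0 ≤ 3 / 16 * (μ ^ 4 * u01 x) * (rM μ x ^ 2 + 4 * rM μ x + 1) /
      (rM μ x * (rM μ x ^ 2 + rM μ x + 1)) * ((l01 x + (b * u01 x) • ee 3) ⬝ᵥ v) ^ 2 := by
    positivity
  generalize 3 * rM μ x / (rM μ x ^ 2 + rM μ x + 1) = A
  have e : b ^ 2 * u01 x = b ^ 2 * (x 0 ^ 2 + x 1 ^ 2) := rfl
  rw [e]
  linarith

theorem posDef_GTm {a : ℝ} (il b μ : ℝ) {x : E4} (ha : 0 ≤ a) (hx : a < R3 x) :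
    (GTm a il b μ x).PosDef := by
  have t0 : 0 ≤ chiS (il * R3 x) := smoothTransition.nonneg _
  have t1 : 0 ≤ 1 - chiS (il * R3 x) := sub_nonneg.2 (smoothTransition.le_one _)
  rcases t0.eq_or_lt with h | h
  · rw [GTm, ← h, zero_smul, zero_add, sub_zero, one_smul]
    exact posDef_GBHm μ b x
  · exact ((posDef_SWf b ha hx).smul h).add_posSemidef ((posDef_GBHm μ b x).posSemidef.smul t1)

section Sm

variable {P : Type} [NormedAddCommGroup P] [NormedSpace ℝ P] {q : P × E4} {X : P → E4 → E4}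
  {V W : P → E4 → Fin 4 → ℝ} {a il b μ : P → E4 → ℝ}

theorem af3_mconst (M : Mat) : SmM (fun _ _ => M) q := fun _ _ => SmA.const _

theorem af3_msq (h : ∀ i, SmA (fun c y => V c y i) q) : SmM (fun c y => sq1 (V c y)) q :=
  fun i j => (h i).mul (h j)

theorem af3_msym (h : ∀ i, SmA (fun c y => V c y i) q) (h' : ∀ i, SmA (fun c y => W c y i) q) :
    SmM (fun c y => sym2 (V c y) (W c y)) q :=
  fun i j => ((h i).mul (h' j)).add ((h' i).mul (h j))

theorem af3_pow (h : SmA a q) (n : ℕ) : SmA (fun c y => a c y ^ n) q := ContDiffAt.pow h n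

theorem af3_div (h : SmA a q) (h' : SmA b q) (h0 : b q.1 q.2 ≠ 0) :
    SmA (fun c y => a c y / b c y) q := ContDiffAt.div h h' h0

variable (hX : ContDiffAt ℝ ∞ (fun z : P × E4 => X z.1 z.2) q)

include hX

theorem af3_co (i : Fin 4) : SmA (fun c y => X c y i) q := contDiffAt_euclidean.1 hX i

theorem af3_su : SmA (fun c y => u01 (X c y)) q :=
  (af3_pow (af3_co hX 0) 2).add (af3_pow (af3_co hX 1) 2)

theorem af3_sR (h0 : 0 < R3 (X q.1 q.2)) : SmA (fun c y => R3 (X c y)) q :=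
  ContDiffAt.comp (g := R3) q (contDiffAt_R3 h0) hX

theorem af3_sl (i : Fin 4) : SmA (fun c y => l01 (X c y) i) q := by
  fin_cases i
  exacts [(af3_co hX 1).neg, af3_co hX 0, SmA.const 0, SmA.const 0]

theorem af3_sSW (ha : SmA a q) (hb : SmA b q) (h0 : 0 < R3 (X q.1 q.2))
    (h1 : a q.1 q.2 < R3 (X q.1 q.2)) : SmM (fun c y => SWf (a c y) (b c y) (X c y)) q := by
  have hR := af3_sR hX h0
  have hv : ∀ i, SmA (fun c y => (![X c y 0, X c y 1, X c y 2, 0] : Fin 4 → ℝ) i) q := fun i => by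
    fin_cases i
    exacts [af3_co hX 0, af3_co hX 1, af3_co hX 2, SmA.const 0]
  exact (((af3_mconst _).add (SmM.smul (af3_div ha ((hR.sub ha).mul (af3_pow hR 2))
    (mul_ne_zero (sub_pos.2 h1).ne' (pow_pos h0 2).ne')) (af3_msq hv))).add
    (SmM.smul (((SmA.const 1).sub (af3_div ha hR h0.ne')).add ((af3_pow hb 2).mul (af3_su hX)))
      (af3_mconst _))).add (SmM.smul hb (af3_msym (af3_sl hX) fun _ => SmA.const _))

theorem af3_sBH (hμ : SmA μ q) (hb : SmA b q) :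
    SmM (fun c y => GBHm (μ c y) (b c y) (X c y)) q := by
  have hu := af3_su hX
  have hr : SmA (fun c y => rM (μ c y) (X c y)) q :=
    (SmA.const 1).add ((SmA.const _).mul ((af3_pow hμ 2).mul hu))
  have hd := ((af3_pow hr 2).add hr).add (SmA.const 1)
  have h0 := af3_rM (μ q.1 q.2) (X q.1 q.2)
  have hv : ∀ i, SmA (fun c y => (l01 (X c y) + (b c y * u01 (X c y)) • ee 3) i) q := fun i =>
    (af3_sl hX i).add ((hb.mul hu).mul (SmA.const _))
  have d1 : rM (μ q.1 q.2) (X q.1 q.2) ^ 2 + rM (μ q.1 q.2) (X q.1 q.2) + 1 ≠ 0 := by positivity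
  have a1 := af3_div ((SmA.const 3).mul hr) hd d1
  have a2 := ((af3_mconst (sq1 (ee 0) + sq1 (ee 1))).add
    (SmM.smul hb (af3_msym (af3_sl hX) fun i => SmA.const (ee 3 i)))).add
      (SmM.smul ((af3_pow hb 2).mul hu) (af3_mconst (sq1 (ee 3))))
  have a3 := af3_div (((SmA.const (3 / 16)).mul ((af3_pow hμ 4).mul hu)).mul
      (((af3_pow hr 2).add ((SmA.const 4).mul hr)).add (SmA.const 1))) (hr.mul hd)
      (mul_ne_zero h0.ne' d1)
  exact ((SmM.smul a1 a2).add (SmM.smul a3 (af3_msq hv))).add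
    (SmM.smul (af3_pow hr 2) (af3_mconst (sq1 (ee 2) + sq1 (ee 3))))

theorem af3_sGT (ha : SmA a q) (hil : SmA il q) (hb : SmA b q) (hμ : SmA μ q)
    (h0 : 0 < R3 (X q.1 q.2)) (h1 : a q.1 q.2 < R3 (X q.1 q.2)) :
    SmM (fun c y => GTm (a c y) (il c y) (b c y) (μ c y) (X c y)) q := by
  have hc : SmA (fun c y => chiS (il c y * R3 (X c y))) q :=
    ContDiffAt.comp (g := smoothTransition) q smoothTransition.contDiffAt
      ((SmA.const 2).sub ((SmA.const 20).mul (hil.mul (af3_sR hX h0))))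
  exact (SmM.smul hc (af3_sSW hX ha hb h0 h1)).add
    (SmM.smul ((SmA.const 1).sub hc) (af3_sBH hX hμ hb))

end Sm

theorem good_SWf {a : ℝ} (b : ℝ) (ha : 0 ≤ a) : Good (SWf a b) {x | a < R3 x} :=
  ⟨isOpen_lt continuous_const continuous_R3, fun i j x hx =>
    (af3_sSW (q := ((0 : ℝ), x)) (X := fun _ y => y) contDiffAt_snd (SmA.const a) (SmA.const b)
      (ha.trans_lt hx) hx i j).slice.contDiffWithinAt, fun _ hx => posDef_SWf b ha hx⟩

theorem good_GBH (b : ℝ) : Good (GBH b) univ := by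
  rw [← GBHm_one]
  exact ⟨isOpen_univ, fun i j x _ =>
    (af3_sBH (q := ((0 : ℝ), x)) (X := fun _ y => y) contDiffAt_snd (SmA.const 1) (SmA.const b)
      i j).slice.contDiffWithinAt, fun x _ => posDef_GBHm 1 b x⟩

/-- `R3 (o + cc y) ≥ 94 / 100` (`R3_add`). For the joint smoothness prove first that the scalar
building blocks (coordinates of `z.1 + cc • y`, `R3`, `u01`, the coefficients) are `SmA`, that
`sq1`, `sym2` of `SmA` vectors are `SmM`, then `SmM.add`, `SmM.smul`. -/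
theorem famOK_G3 : FamOK K3 G3 := by
  have key : ∀ z ∈ K3, ∀ y ∈ CQ, 2 / 5 < R3 (z.1 + cc • y) := fun z hz y hy => by
    have h := (abs_le.1 (R3_add hy z.1 (c := cc) (by norm_num [cc]))).1
    have e : cc = 1 / 100 := rfl
    linarith [hz.1.1]
  refine ⟨IsCompact.prod ?_ (isCompact_Icc.prod (isCompact_Icc.prod
    (isCompact_Icc.prod isCompact_Icc))), fun z hz y hy => ?_, fun z hz y hy => ?_⟩
  · refine isCompact_CQ.of_isClosed_subset ((isClosed_eq continuous_R3 continuous_const).inter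
      (isClosed_eq (by fun_prop) continuous_const)) fun o ho i => ?_
    have h := R3_sq o
    rw [ho.1, u01] at h
    refine abs_le_of_sq_le_sq ?_ (by norm_num)
    have h3 := ho.2
    fin_cases i <;> simp only [Fin.zero_eta, Fin.mk_one, Fin.reduceFinMk, Fin.isValue] <;>
      nlinarith [sq_nonneg (o 0), sq_nonneg (o 1), sq_nonneg (o 2)]
  · have h := key z hz y hy
    exact SmM.smul (SmA.const _) (af3_sGT (q := (z, y)) (X := fun z y => z.1 + cc • y)
      (by fun_prop) (by unfold SmA; fun_prop) (by unfold SmA; fun_prop) (by unfold SmA; fun_prop)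
      (by unfold SmA; fun_prop) (by linarith) (hz.2.1.2.trans_lt h))
  · exact (posDef_GTm _ _ _ hz.2.1.1 (hz.2.1.2.trans_lt (key z hz y hy))).smul
      (by norm_num [cc])

end Pool.Agent.Lib.MP_94aef8_gt
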