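import Pool.Agent.Lib.MP_94aef8_gt.J.AGen

/-! The family of the bolt. -/

open scoped Manifold ContDiff Topology
open Matrix Filter Set MeasureTheory Real

namespace Pool.Agent.Lib.MP_94aef8_gt

/-- The metrics of the fourth family. -/
noncomputable def G4 (z : E4 × ℝ) (y : E4) : Mat := cc ^ 2 • GN z.2 (z.1 + cc • y)

/-- `chiT (1 + u)` vanishes for `u ≤ 1 / 2`. -/
theorem chiT_div_smooth : ContDiff ℝ ∞ fun u : ℝ => chiT (1 + u) / u := by
  refine contDiff_iff_contDiffAt.2 fun u => ?_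
  by_cases hu : u = 0
  · refine (contDiffAt_const (c := (0 : ℝ))).congr_of_eventuallyEq ?_
    filter_upwards [Iio_mem_nhds (show u < 1 / 2 by rw [hu]; norm_num)] with v hv
    rw [chiT, smoothTransition.zero_of_nonpos (by linarith [mem_Iio.1 hv]), zero_div]
  · exact (smoothTransition.contDiffAt.comp u (by fun_prop)).div contDiffAt_id hu

theorem af4_u (z : E4) : 0 < 1 + u01 z := by
  unfold u01
  positivity

theorem af4_v (z : E4) : 0 < 1 + u23 z := by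
  unfold u23
  positivity

/-- The shape of the matrix. -/
def af4_M (r t s c : ℝ) (z : E4) : Mat :=
  !![r - t * z 1 ^ 2 + s * c ^ 2 * u23 z * z 1 ^ 2, t * z 0 * z 1 - s * c ^ 2 * u23 z * z 0 * z 1,
      s * c * z 1 * z 3, -(s * c * z 1 * z 2);
    t * z 0 * z 1 - s * c ^ 2 * u23 z * z 0 * z 1, r - t * z 0 ^ 2 + s * c ^ 2 * u23 z * z 0 ^ 2,
      -(s * c * z 0 * z 3), s * c * z 0 * z 2;
    s * c * z 1 * z 3, -(s * c * z 0 * z 3), s, 0;
    -(s * c * z 1 * z 2), s * c * z 0 * z 2, 0, s]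

theorem af4_eq (b : ℝ) (z : E4) : GN b z = af4_M (4 * (1 + u01 z)) (4 * (2 + u01 z) / (1 + u01 z))
    (4 * (1 + u01 z) ^ 2 / (1 + u23 z) ^ 2) (2 * b * (chiT (1 + u01 z) / u01 z)) z := by
  rw [GN, mul_div_assoc (2 * b)]
  generalize 4 * (1 + u01 z) = r
  generalize 4 * (2 + u01 z) / (1 + u01 z) = t
  generalize 4 * (1 + u01 z) ^ 2 / (1 + u23 z) ^ 2 = s
  generalize 2 * b * (chiT (1 + u01 z) / u01 z) = c
  ext i j
  fin_cases i <;> fin_cases j <;> simp [af4_M, sq1, sym2, ee, l01, l23, vecMulVec_apply] <;> ring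

theorem af4_form (r t s c : ℝ) (z : E4) (v : Fin 4 → ℝ) : v ⬝ᵥ af4_M r t s c z *ᵥ v =
    r * (v 0 ^ 2 + v 1 ^ 2) - t * (z 0 * v 1 - z 1 * v 0) ^ 2 +
      s * ((v 2 - c * z 3 * (z 0 * v 1 - z 1 * v 0)) ^ 2 +
        (v 3 + c * z 2 * (z 0 * v 1 - z 1 * v 0)) ^ 2) := by
  simp [af4_M, dotProduct, mulVec, Fin.sum_univ_four, u23]
  ring

theorem af4_det (r t s c : ℝ) (z : E4) : (af4_M r t s c z).det = s ^ 2 * (r * (r - t * u01 z)) := by
  simp [af4_M, det_succ_row_zero, Fin.sum_univ_succ, Fin.succAbove, u01, u23]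
  ring

/-- With `u = u01 z`, `λ = l01 z ⬝ v`: `(1 + u) ^ 2 (v0 ^ 2 + v1 ^ 2) - (2 + u) λ ^ 2 ≥
((1 + u) ^ 2 - (2 + u) u) (v0 ^ 2 + v1 ^ 2) = v0 ^ 2 + v1 ^ 2`; the last bracket is
`(v2 - c z3 λ) ^ 2 + (v3 + c z2 λ) ^ 2`. -/
theorem posDef_GN (b : ℝ) (z : E4) : (GN b z).PosDef := by
  rw [af4_eq]
  generalize 2 * b * (chiT (1 + u01 z) / u01 z) = c
  refine PosDef.of_dotProduct_mulVec_pos ?_ fun v hv => ?_
  · ext i j
    fin_cases i <;> fin_cases j <;> simp [af4_M]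
  rw [star_trivial, af4_form]
  have hu := af4_u z
  have hs : 0 < 4 * (1 + u01 z) ^ 2 / (1 + u23 z) ^ 2 := by
    have := af4_v z
    positivity
  generalize 4 * (1 + u01 z) ^ 2 / (1 + u23 z) ^ 2 = s at hs
  have h1 : 4 * (1 + u01 z) * (v 0 ^ 2 + v 1 ^ 2) -
      4 * (2 + u01 z) / (1 + u01 z) * (z 0 * v 1 - z 1 * v 0) ^ 2 =
      4 / (1 + u01 z) * (v 0 ^ 2 + v 1 ^ 2 + (2 + u01 z) * (z 0 * v 0 + z 1 * v 1) ^ 2) := by
    field_simp
    unfold u01
    ring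
  have h2 : 0 < 2 + u01 z := by linarith
  rw [h1]
  by_cases h3 : v 0 = 0 ∧ v 1 = 0
  · have h4 : v 2 ≠ 0 ∨ v 3 ≠ 0 := by
      by_contra h5
      rw [not_or, not_not, not_not] at h5
      exact hv (funext fun i => by fin_cases i; exacts [h3.1, h3.2, h5.1, h5.2])
    simp only [h3.1, h3.2, mul_zero, sub_zero, add_zero]
    rcases h4 with h4 | h4 <;> positivity
  · rcases not_and_or.1 h3 with h4 | h4 <;> positivity

theorem af4_sm (i j : Fin 4) : ContDiff ℝ ∞ fun w : ℝ × E4 => GN w.1 w.2 i j := by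
  have hu : ContDiff ℝ ∞ fun w : ℝ × E4 => u01 w.2 := by
    unfold u01
    fun_prop
  have hv : ContDiff ℝ ∞ fun w : ℝ × E4 => u23 w.2 := by
    unfold u23
    fun_prop
  have hM : ContDiff ℝ ∞ fun a : (ℝ × ℝ × ℝ × ℝ) × E4 =>
      af4_M a.1.1 a.1.2.1 a.1.2.2.1 a.1.2.2.2 a.2 i j := by
    fin_cases i <;> fin_cases j <;> simp [af4_M, u23] <;> fun_prop
  simp only [af4_eq]
  exact hM.comp (f := fun w : ℝ × E4 => ((_, _, _, _), w.2)) (ContDiff.prodMk
    ((contDiff_const.mul (contDiff_const.add hu)).prodMk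
      (((contDiff_const.mul (contDiff_const.add hu)).div (contDiff_const.add hu)
        fun w => (af4_u w.2).ne').prodMk
      (((contDiff_const.mul ((contDiff_const.add hu).pow 2)).div ((contDiff_const.add hv).pow 2)
        fun w => pow_ne_zero 2 (af4_v w.2).ne').prodMk
      ((contDiff_const.mul contDiff_fst).mul (chiT_div_smooth.comp hu))))) contDiff_snd)

theorem good_GN (b : ℝ) : Good (GN b) univ :=
  ⟨isOpen_univ, fun i j => ((af4_sm i j).comp (f := fun z : E4 => (b, z)) (by fun_prop)).contDiffOn,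
    fun z _ => posDef_GN b z⟩

theorem af4_cpt : IsCompact A4 := by
  refine Metric.isCompact_of_isClosed_isBounded ?_
    ((Metric.isBounded_closedBall (x := 0) (r := 2)).subset fun z hz => ?_)
  · exact (isClosed_le (f := u01) (by unfold u01; fun_prop) continuous_const).inter
      (isClosed_le (f := u23) (by unfold u23; fun_prop) continuous_const)
  · rw [mem_closedBall_zero_iff, EuclideanSpace.norm_eq, sqrt_le_iff]
    have h1 := hz.1
    have h2 := hz.2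
    simp only [u01, u23, Fin.sum_univ_four, Real.norm_eq_abs, sq_abs] at h1 h2 ⊢
    exact ⟨by norm_num, by linarith⟩

theorem famOK_G4 : FamOK (A4 ×ˢ Icc 0 1) G4 :=
  ⟨af4_cpt.prod isCompact_Icc, fun _ _ _ _ i j => (contDiff_const.mul ((af4_sm i j).comp
    (f := fun w : (E4 × ℝ) × E4 => (w.1.2, w.1.1 + cc • w.2)) (by fun_prop))).contDiffAt,
    fun _ _ _ _ => (posDef_GN _ _).smul (by norm_num [cc])⟩

theorem T4_zero (q : E4) : T4 q 0 = q := by simp [T4]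

theorem ld_T4 {q : E4} (hq : q ∈ A4) : LDif (T4 q) (Q 3) UN := by
  refine ld_aff q (by norm_num [cc]) (ja_isOpen_Q 3) fun y hy => ?_
  have h0 := abs_lt.1 (hy 0)
  have h1 := abs_lt.1 (hy 1)
  have h2 := hq.1
  change (q 0 + cc * y 0) ^ 2 + (q 1 + cc * y 1) ^ 2 < 3
  unfold u01 at h2
  unfold cc
  nlinarith [sq_nonneg (q 0 - y 0 / 10), sq_nonneg (q 1 - y 1 / 10)]

theorem pull_T4 (q : E4) (b : ℝ) (y : E4) : pull (T4 q) (GN b) y = G4 (q, b) y :=
  pull_aff q cc (GN b) y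

/-- `GN b z = Lᵀ * GN 0 z * L` with `L` unipotent (rows 2, 3 get multiples of `l01 z`), and
`GN 0 z` is block diagonal with determinants `16` and `(4 (1 + u) ^ 2 / (1 + v) ^ 2) ^ 2`. -/
theorem rho_GN (b : ℝ) (z : E4) : rho (GN b) z = 16 * (1 + u01 z) ^ 2 / (1 + u23 z) ^ 2 := by
  have hu := af4_u z
  have hv := af4_v z
  rw [rho, af4_eq, af4_det, sqrt_eq_iff_mul_self_eq_of_pos (by positivity)]
  field_simp
  ring

/-- A right inverse: `R = 1 + u01 z`, `x3 = 2 arg (z0 + i z1)`,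
`(x0, x1, x2) = R (2 z2, 2 z3, 1 - v) / (1 + v)`, `v = u23 z`. -/
theorem P2u_onto {z : E4} (hz : 0 < u01 z) :
    ∃ x : E4, 1 < R3 x ∧ 0 < R3 x + (((1 : ℤˣ) : ℤ) : ℝ) * x 2 ∧ P2u 1 x = z := by
  have hu := af4_u z
  have hv := af4_v z
  obtain ⟨x, h0, h1, h2, h3⟩ : ∃ x : E4, x 0 = (1 + u01 z) * (2 * z 2) / (1 + u23 z) ∧
      x 1 = (1 + u01 z) * (2 * z 3) / (1 + u23 z) ∧ x 2 = (1 + u01 z) * (1 - u23 z) / (1 + u23 z) ∧
      x 3 = 2 * Complex.arg ⟨z 0, z 1⟩ := ⟨mk4 _ _ _ _, rfl, rfl, rfl, rfl⟩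
  have hR : R3 x = 1 + u01 z := by
    rw [R3, sqrt_eq_iff_mul_self_eq_of_pos hu, u01.eq_1 x, h0, h1, h2]
    field_simp
    unfold u23
    ring
  have hS : R3 x + (((1 : ℤˣ) : ℤ) : ℝ) * x 2 = 2 * (1 + u01 z) / (1 + u23 z) := by
    rw [hR, h2, Units.val_one, Int.cast_one]
    field_simp
    ring
  have hn : √(R3 x - 1) = ‖(⟨z 0, z 1⟩ : ℂ)‖ := by
    rw [hR, add_sub_cancel_left, Complex.norm_eq_sqrt_sq_add_sq, u01]
  refine ⟨x, by linarith, by rw [hS]; positivity, ?_⟩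
  rw [P2u, hS, hn, h3, mul_div_cancel_left₀ _ two_ne_zero, Complex.norm_mul_cos_arg,
    Complex.norm_mul_sin_arg, h0, h1]
  ext i
  fin_cases i <;> simp <;> field_simp

theorem af4_ric {z : E4} (hz : 0 < u01 z) : ric (GN 0) z = 0 := by
  obtain ⟨x, h1, h2, rfl⟩ := P2u_onto hz
  have hτ := ji_P2u_ld 1
  have e : pull (P2u 1) (GN 0) =ᶠ[𝓝 x] GB 0 := by
    filter_upwards [hτ.isOpen.mem_nhds ⟨h1, h2⟩] with y hy using ji_P2u_pull 1 0 hy.1 hy.2
  have h3 := ji_ric_pull hτ (good_GN 0) (p := x) ⟨h1, h2⟩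
  rw [(ji_ric_congr e).eq_of_nhds, ji_ric_SW h1, pull] at h3
  have hd := (hτ.det x ⟨h1, h2⟩).isUnit
  have h4 := congrArg (fun M => ((jac (P2u 1) x)ᵀ)⁻¹ * (M * (jac (P2u 1) x)⁻¹)) h3
  simp only [Matrix.zero_mul, Matrix.mul_zero] at h4
  rw [mul_nonsing_inv_cancel_right _ _ hd,
    nonsing_inv_mul_cancel_left _ _ (by rwa [det_transpose])] at h4
  exact h4.symm

/-- `ji_P2u_ld`, `ji_P2u_pull`, `ji_ric_pull`, `ji_ric_congr`, `ji_ric_SW`; cancel the Jacobian;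
the points with `u01 z = 0` by continuity (`ji_sm_ric`). -/
theorem ric_GN (z : E4) : ric (GN 0) z = 0 := by
  ext i j
  have h1 : Continuous fun t : ℝ => ric (GN 0) (mk4 t (z 1) (z 2) (z 3)) i j :=
    (continuousOn_univ.1 (ji_sm_ric (good_GN 0) i j).continuousOn).comp (by unfold mk4; fun_prop)
  have h2 := Continuous.ext_on (dense_compl_singleton (0 : ℝ)) h1 (continuous_const (y := 0))
    fun t ht => by
      have : t ≠ 0 := ht
      rw [af4_ric (by simp only [u01, mk4_0, mk4_1]; positivity)]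
      rfl
  have e : mk4 (z 0) (z 1) (z 2) (z 3) = z := by
    ext k
    fin_cases k <;> rfl
  have h3 := congrFun h2 (z 0)
  rwa [e] at h3

/-- `G4 (q, 0) = pull (T4 q) (GN 0)`, `ld_aff`. -/
theorem ein_G4 (q : E4) : ∀ y ∈ Q 1, ric (G4 (q, 0)) y + (3 * 0 : ℝ) • G4 (q, 0) y = 0 := by
  intro y _
  have hτ : LDif (T4 q) univ univ := ld_aff q (by norm_num [cc]) isOpen_univ fun _ _ => mem_univ _
  rw [mul_zero, zero_smul, add_zero, ← funext (pull_T4 q 0),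
    ji_ric_pull hτ (good_GN 0) (mem_univ y), pull, ric_GN, Matrix.mul_zero, Matrix.zero_mul]

end Pool.Agent.Lib.MP_94aef8_gt
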