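import Pool.Agent.Lib.MP_94aef8_gt.J.ANum2

/-! The first vector field of the Hardy inequality. -/

open scoped Manifold ContDiff Topology
open Matrix Filter Set MeasureTheory Real

namespace Pool.Agent.Lib.MP_94aef8_gt

/-- `0` below `5 / 2`, `1` above `3`, increasing. -/
noncomputable def chI (u : ℝ) : ℝ := smoothTransition (2 * u - 5)

/-- `1` below `1 / 5`, `0` above `2 / 5`. -/
noncomputable def chA (u : ℝ) : ℝ := smoothTransition (2 - 5 * u)

/-- `1` below `1`, `0` above `3 / 2`. -/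
noncomputable def chC (u : ℝ) : ℝ := smoothTransition (3 - 2 * u)

theorem ahar2_pd_mul {f g : E4 → ℝ} {x : E4} (hf : DifferentiableAt ℝ f x)
    (hg : DifferentiableAt ℝ g x) (i : Fin 4) :
    pd i (fun y => f y * g y) x = pd i f x * g x + f x * pd i g x := by
  have h : HasFDerivAt (fun y => f y * g y) _ x := hf.hasFDerivAt.mul hg.hasFDerivAt
  rw [pd, h.fderiv]
  simp only [pd, _root_.add_apply, _root_.smul_apply, smul_eq_mul]
  ring

theorem ahar2_pd_comp {φ : ℝ → ℝ} {d : ℝ} {f : E4 → ℝ} {x : E4} (hφ : HasDerivAt φ d (f x))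
    (hf : DifferentiableAt ℝ f x) (i : Fin 4) : pd i (fun y => φ (f y)) x = d * pd i f x := by
  have h : HasFDerivAt (fun y => φ (f y)) _ x := hφ.comp_hasFDerivAt x hf.hasFDerivAt
  rw [pd, h.fderiv]
  simp only [pd, _root_.smul_apply, smul_eq_mul]

theorem ahar2_pd_coord (i : Fin 4) (x : E4) : pd i (fun y : E4 => y i) x = 1 := by
  rw [pd, (anum_proj i x).fderiv]
  simp [bas]

theorem ahar2_sm_u : ContDiff ℝ ∞ u01 := by
  unfold u01
  fun_prop

theorem ahar2_pd_u (x : E4) : pd 0 u01 x = 2 * x 0 ∧ pd 1 u01 x = 2 * x 1 := by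
  have h : HasFDerivAt u01 _ x := ((anum_proj 0 x).pow 2).add ((anum_proj 1 x).pow 2)
  constructor <;> rw [pd, h.fderiv] <;> simp [bas]

theorem ahar2_st (s : ℝ) : HasDerivAt smoothTransition (deriv smoothTransition s) s :=
  ((smoothTransition.contDiff (n := 1)).differentiable one_ne_zero s).hasDerivAt

/-- The derivative of the smooth transition is bounded and vanishes outside `[0, 1]`. -/
theorem ahar2_deriv : ∃ M, 0 ≤ M ∧ (∀ s, deriv smoothTransition s ≤ M) ∧
    (∀ s, s < 0 → deriv smoothTransition s = 0) ∧ ∀ s, 1 < s → deriv smoothTransition s = 0 := by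
  have h0 : ∀ s, s < 0 → deriv smoothTransition s = 0 := fun s hs => by
    have e : smoothTransition =ᶠ[𝓝 s] fun _ => 0 :=
      (gt_mem_nhds hs).mono fun y hy => smoothTransition.zero_of_nonpos hy.le
    rw [e.deriv_eq, deriv_const]
  have h1 : ∀ s, 1 < s → deriv smoothTransition s = 0 := fun s hs => by
    have e : smoothTransition =ᶠ[𝓝 s] fun _ => 1 :=
      (lt_mem_nhds hs).mono fun y hy => smoothTransition.one_of_one_le hy.le
    rw [e.deriv_eq, deriv_const]
  have hc : Continuous (deriv smoothTransition) :=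
    (smoothTransition.contDiff (n := 1)).continuous_deriv le_rfl
  obtain ⟨M, hM⟩ := (isCompact_Icc (a := (0 : ℝ)) (b := 1)).bddAbove_image hc.continuousOn
  refine ⟨max M 0, le_max_right _ _, fun s => ?_, h0, h1⟩
  rcases lt_or_ge s 0 with h | h
  · rw [h0 s h]; exact le_max_right _ _
  rcases lt_or_ge 1 s with h' | h'
  · rw [h1 s h']; exact le_max_right _ _
  exact (hM ⟨s, ⟨h, h'⟩, rfl⟩).trans (le_max_left _ _)

namespace Par

variable (P : Par)

/-- The weight round the axis. -/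
noncomputable def ph (x : E4) : ℝ := (u01 x + P.l ^ 2) ^ (-(39 / 40) : ℝ)

/-- The weight round the centre. -/
noncomputable def mw (R : ℝ) : ℝ := 1 / (R ^ 2 * (1 + R / P.s0) ^ 2)

/-- The cut-off of the first field. -/
noncomputable def c2 (x : E4) : ℝ := chI (R3 x / P.ϱ) * chC (u01 x)

/-- The cut-off of the second field. -/
noncomputable def c3 (x : E4) : ℝ := chI (R3 x / P.ϱ) * chA (R3 x / P.l)

/-- The first field. -/
noncomputable def Z2 (x : E4) : Fin 4 → ℝ := (P.c2 x * P.ph x) • ![x 0, x 1, 0, 0]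

/-- The second field. -/
noncomputable def Z3 (x : E4) : Fin 4 → ℝ :=
  (P.c3 x / (R3 x ^ 2 * (1 + R3 x / P.s0))) • ![x 0, x 1, x 2, 0]

/-- The weight of the Hardy inequality. -/
noncomputable def wH (C : ℝ) (x : E4) : ℝ :=
  P.c2 x * P.ph x / 80 + P.c3 x * P.mw (R3 x) / 2 - if 1 ≤ u01 x then C else 0

variable {P}

theorem Ok.ka_pos (hP : P.Ok) : 0 < P.ka ∧ P.ka ≤ 1 :=
  ⟨Real.rpow_pos_of_pos hP.l_pos _,
    Real.rpow_le_one hP.l_pos.le (by linarith [hP.l_le]) (by norm_num)⟩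

theorem Ok.s0_pos (hP : P.Ok) : 0 < P.s0 := mul_pos hP.l_pos hP.ka_pos.1

theorem ahar2_t (hP : P.Ok) (x : E4) : 0 < u01 x + P.l ^ 2 :=
  add_pos_of_nonneg_of_pos (anum2_u_nonneg x) (pow_pos hP.l_pos 2)

theorem Ok.ph_pos (hP : P.Ok) (x : E4) : 0 < P.ph x := Real.rpow_pos_of_pos (ahar2_t hP x) _

theorem c2_mem (P : Par) (x : E4) : 0 ≤ P.c2 x ∧ P.c2 x ≤ 1 :=
  ⟨mul_nonneg (smoothTransition.nonneg _) (smoothTransition.nonneg _),
    mul_le_one₀ (smoothTransition.le_one _) (smoothTransition.nonneg _) (smoothTransition.le_one _)⟩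

theorem c3_mem (P : Par) (x : E4) : 0 ≤ P.c3 x ∧ P.c3 x ≤ 1 :=
  ⟨mul_nonneg (smoothTransition.nonneg _) (smoothTransition.nonneg _),
    mul_le_one₀ (smoothTransition.le_one _) (smoothTransition.nonneg _) (smoothTransition.le_one _)⟩

theorem ahar2_zero (hP : P.Ok) {x : E4} (hx : R3 x < P.ϱ) :
    (fun y : E4 => chI (R3 y / P.ϱ)) =ᶠ[𝓝 x] fun _ => 0 := by
  filter_upwards [(isOpen_lt continuous_R3 continuous_const).mem_nhds hx] with y hy
  have : R3 y / P.ϱ < 1 := (div_lt_one hP.ϱ0).2 hy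
  exact smoothTransition.zero_of_nonpos (by linarith)

/-- It vanishes on the open set `R < 5 / 2 ϱ`, and `R3` is smooth where it is positive. -/
theorem Ok.chI_smooth (hP : P.Ok) : ContDiff ℝ ∞ fun x : E4 => chI (R3 x / P.ϱ) := by
  refine contDiff_iff_contDiffAt.2 fun x => ?_
  rcases lt_or_ge (R3 x) P.ϱ with h | h
  · exact contDiffAt_const.congr_of_eventuallyEq (ahar2_zero hP h)
  · exact smoothTransition.contDiffAt.comp x ((contDiffAt_const.mul
      ((contDiffAt_R3 (hP.ϱ0.trans_le h)).div_const _)).sub contDiffAt_const)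

/-- The radial derivative of the inner cut-off is nonnegative (`smoothTransition.monotone`,
`pd_R3`). -/
theorem Ok.chI_rad (hP : P.Ok) (x : E4) (i : Fin 4) :
    0 ≤ ![x 0, x 1, x 2, 0] i * pd i (fun y : E4 => chI (R3 y / P.ϱ)) x := by
  rcases lt_or_ge (R3 x) P.ϱ with h | h
  · rw [pd, (ahar2_zero hP h).fderiv_eq]
    simp
  · have h0 := hP.ϱ0
    have hR := h0.trans_le h
    have h1 : HasDerivAt (fun R : ℝ => chI (R / P.ϱ)) _ (R3 x) :=
      (ahar2_st _).comp (R3 x) ((((hasDerivAt_id' (R3 x)).div_const P.ϱ).const_mul 2).sub_const 5)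
    rw [ahar2_pd_comp h1 ((contDiffAt_R3 hR).differentiableAt (by simp)), pd_R3 hR]
    have h2 := smoothTransition.monotone.deriv_nonneg (x := 2 * (R3 x / P.ϱ) - 5)
    generalize ![x 0, x 1, x 2, 0] i = v
    calc 0 ≤ deriv smoothTransition (2 * (R3 x / P.ϱ) - 5) * (2 * (1 / P.ϱ)) * (v ^ 2 / R3 x) := by
          positivity
      _ = _ := by ring

theorem ahar2_sm (hP : P.Ok) : ContDiff ℝ ∞ fun x : E4 => chC (u01 x) * P.ph x :=
  (smoothTransition.contDiff.comp (contDiff_const.sub (contDiff_const.mul ahar2_sm_u))).mul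
    ((ahar2_sm_u.add contDiff_const).rpow_const_of_ne fun x => (ahar2_t hP x).ne')

theorem ahar2_Z2 (P : Par) (i : Fin 4) : (fun x => P.Z2 x i) =
    fun x : E4 => chI (R3 x / P.ϱ) * (chC (u01 x) * P.ph x) * ![x 0, x 1, 0, 0] i := by
  funext x
  simp only [Z2, c2, Pi.smul_apply, smul_eq_mul, mul_assoc]

theorem Ok.Z2_smooth (hP : P.Ok) (i : Fin 4) : ContDiff ℝ ∞ fun x => P.Z2 x i := by
  rw [ahar2_Z2]
  refine (hP.chI_smooth.mul (ahar2_sm hP)).mul ?_
  fin_cases i <;> simp <;> fun_prop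

/-- With `a = 39 / 40`, `t = u + l ^ 2`: `div (t ^ (-a) (x0, x1)) = 2 t ^ (-a) - 2 a u t ^ (-a - 1)
≥ t ^ (-a) / 20`; the derivative of `chI` has the good sign; the derivative of `chC` gives
`chI * ph * 2 u * chC' u`, which vanishes unless `1 ≤ u ≤ 3 / 2`, where `ph ≤ 1`. -/
theorem Z2_div : ∃ C, 0 ≤ C ∧ ∀ P : Par, P.Ok → ∀ x : E4,
    P.c2 x * P.ph x / 20 - (if 1 ≤ u01 x then C else 0) ≤ ∑ i, pd i (fun y => P.Z2 y i) x := by
  obtain ⟨M, hM0, hM, hM1, hM2⟩ := ahar2_deriv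
  refine ⟨6 * M, by positivity, fun P hP x => ?_⟩
  have ht := ahar2_t hP x
  have hu := anum2_u_nonneg x
  have hf := hP.chI_smooth.differentiable (by simp) x
  have hg := (ahar2_sm hP).differentiable (by simp) x
  have hc : ∀ i : Fin 4, DifferentiableAt ℝ (fun y : E4 => y i) x := fun i =>
    (anum_proj i x).differentiableAt
  have h1 : HasDerivAt (fun u : ℝ => chC u * (u + P.l ^ 2) ^ (-(39 / 40) : ℝ))
      (deriv smoothTransition (3 - 2 * u01 x) * -(2 * 1) * P.ph x + chC (u01 x) *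
        (1 * -(39 / 40) * (u01 x + P.l ^ 2) ^ (-(39 / 40) - 1 : ℝ))) (u01 x) :=
    ((ahar2_st _).comp (u01 x) (((hasDerivAt_id' (u01 x)).const_mul 2).const_sub 3)).mul
      (((hasDerivAt_id' (u01 x)).add_const (P.l ^ 2)).rpow_const (Or.inl ht.ne'))
  have h2 : ∀ i, pd i (fun y => chC (u01 y) * P.ph y) x = _ :=
    ahar2_pd_comp h1 (ahar2_sm_u.differentiable (by simp) x)
  have r0 := hP.chI_rad x 0
  have r1 := hP.chI_rad x 1
  have hp := hP.ph_pos x
  have e : (u01 x + P.l ^ 2) ^ (-(39 / 40) - 1 : ℝ) = P.ph x / (u01 x + P.l ^ 2) :=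
    Real.rpow_sub_one ht.ne' _
  have hq : u01 x / (u01 x + P.l ^ 2) ≤ 1 := (div_le_one ht).2 (by nlinarith [sq_nonneg P.l])
  have hd : chI (R3 x / P.ϱ) * (4 * u01 x * deriv smoothTransition (3 - 2 * u01 x) * P.ph x) ≤
      if 1 ≤ u01 x then 6 * M else 0 := by
    split_ifs with h
    · rcases lt_or_ge (3 / 2) (u01 x) with h' | h'
      · rw [hM1 _ (by linarith)]
        simpa using hM0
      · have a1 : P.ph x ≤ 1 :=
          Real.rpow_le_one_of_one_le_of_nonpos (by nlinarith [sq_nonneg P.l]) (by norm_num)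
        have a2 := smoothTransition.monotone.deriv_nonneg (x := 3 - 2 * u01 x)
        calc _ ≤ 1 * (4 * (3 / 2) * M * 1) := by
              gcongr
              · exact smoothTransition.le_one _
              · exact hM _
          _ = _ := by ring
    · rw [hM2 _ (by linarith [not_le.1 h])]
      simp
  simp only [Fin.sum_univ_four, ahar2_Z2, cons_val_zero, cons_val_one, cons_val, mul_zero] at r0 r1 ⊢
  have hz : ∀ i, pd i (fun _ => (0 : ℝ)) x = 0 := fun i => by simp [pd]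
  rw [ahar2_pd_mul (hf.fun_mul hg) (hc 0), ahar2_pd_mul (hf.fun_mul hg) (hc 1), ahar2_pd_mul hf hg,
    ahar2_pd_mul hf hg, ahar2_pd_coord, ahar2_pd_coord, h2, h2, (ahar2_pd_u x).1, (ahar2_pd_u x).2,
    e, hz, hz, c2]
  have a3 : 0 ≤ chC (u01 x) * P.ph x := mul_nonneg (smoothTransition.nonneg _) hp.le
  have a4 : 0 ≤ chI (R3 x / P.ϱ) * (chC (u01 x) * P.ph x) :=
    mul_nonneg (smoothTransition.nonneg _) a3
  have a5 := mul_le_mul_of_nonneg_left hq a4
  have a6 := mul_nonneg r0 a3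
  have a7 := mul_nonneg r1 a3
  have a8 : x 0 ^ 2 + x 1 ^ 2 = u01 x := rfl
  generalize chI (R3 x / P.ϱ) = F at *
  generalize chC (u01 x) = c at *
  generalize P.ph x = p at *
  generalize deriv smoothTransition (3 - 2 * u01 x) = d at *
  rw [div_eq_mul_inv] at a5
  rw [div_eq_mul_inv p]
  generalize (u01 x + P.l ^ 2)⁻¹ = s at *
  linear_combination hd + 39 / 20 * a5 + a6 + a7 +
    (4 * F * d * p + 39 / 20 * F * c * p * s) * a8

/-- `u * ph ≤ t ^ (1 / 40) ≤ 2` for `u ≤ 3 / 2`. -/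
theorem Ok.Z2_sq (hP : P.Ok) (x : E4) : P.Z2 x ⬝ᵥ P.Z2 x ≤ 2 * (P.c2 x * P.ph x) := by
  have e : P.Z2 x ⬝ᵥ P.Z2 x = P.c2 x * P.ph x * (P.c2 x * (P.ph x * u01 x)) := by
    simp [Z2, dotProduct, Fin.sum_univ_four, u01]
    ring
  have hp := hP.ph_pos x
  have hc := P.c2_mem x
  have ht := ahar2_t hP x
  have hu := anum2_u_nonneg x
  rw [e, mul_comm 2]
  refine mul_le_mul_of_nonneg_left ?_ (mul_nonneg hc.1 hp.le)
  rcases le_or_gt (3 / 2) (u01 x) with h | h
  · have : P.c2 x = 0 := by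
      rw [c2, chC, smoothTransition.zero_of_nonpos (by linarith), mul_zero]
    rw [this]
    norm_num
  · have h1 : P.ph x * (u01 x + P.l ^ 2) = (u01 x + P.l ^ 2) ^ (1 / 40 : ℝ) := by
      rw [ph, ← Real.rpow_add_one ht.ne']
      norm_num
    have h2 : (u01 x + P.l ^ 2) ^ (1 / 40 : ℝ) ≤ (2 : ℝ) ^ (1 : ℝ) :=
      (Real.rpow_le_rpow ht.le (by nlinarith [hP.l_pos, hP.l_le]) (by norm_num)).trans
        (Real.rpow_le_rpow_of_exponent_le one_le_two (by norm_num))
    rw [Real.rpow_one] at h2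
    have h3 : P.ph x * u01 x ≤ 2 := by nlinarith [sq_nonneg P.l]
    calc _ ≤ 1 * 2 := mul_le_mul hc.2 h3 (by positivity) zero_le_one
      _ = 2 := one_mul 2

end Par

end Pool.Agent.Lib.MP_94aef8_gt
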