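import Pool.Agent.Lib.MP_94aef8_gt.J.AHar2

/-! The second vector field of the Hardy inequality. -/

open scoped Manifold ContDiff Topology
open Matrix Filter Set MeasureTheory Real

namespace Pool.Agent.Lib.MP_94aef8_gt

namespace Par

variable {P : Par}

theorem ahar3_chI0 {u : ℝ} (h : u ≤ 5 / 2) : chI u = 0 :=
  smoothTransition.zero_of_nonpos (by linarith)

theorem ahar3_chI1 {u : ℝ} (h : 3 ≤ u) : chI u = 1 :=
  smoothTransition.one_of_one_le (by linarith)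

theorem ahar3_chA0 {u : ℝ} (h : 2 / 5 ≤ u) : chA u = 0 :=
  smoothTransition.zero_of_nonpos (by linarith)

theorem ahar3_chA1 {u : ℝ} (h : u ≤ 1 / 5) : chA u = 1 :=
  smoothTransition.one_of_one_le (by linarith)

theorem ahar3_chC0 {u : ℝ} (h : 3 / 2 ≤ u) : chC u = 0 :=
  smoothTransition.zero_of_nonpos (by linarith)

theorem ahar3_chC1 {u : ℝ} (h : u ≤ 1) : chC u = 1 :=
  smoothTransition.one_of_one_le (by linarith)

theorem ahar3_smI : ContDiff ℝ ∞ chI := smoothTransition.contDiff.comp (by fun_prop)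

theorem ahar3_smA : ContDiff ℝ ∞ chA := smoothTransition.contDiff.comp (by fun_prop)

theorem ahar3_smC : ContDiff ℝ ∞ chC := smoothTransition.contDiff.comp (by fun_prop)

theorem ahar3_dI (u : ℝ) : 0 ≤ deriv chI u := by
  have h : Monotone chI := fun a b hab => smoothTransition.monotone (by linarith)
  exact h.deriv_nonneg

theorem ahar3_dA0 {u : ℝ} (h : ¬(1 / 5 ≤ u ∧ u ≤ 2 / 5)) : deriv chA u = 0 := by
  rcases not_and_or.1 h with h | h
  · have e : chA =ᶠ[𝓝 u] fun _ => 1 :=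
      (eventually_lt_nhds (not_le.1 h)).mono fun v hv => ahar3_chA1 hv.le
    rw [e.deriv_eq, deriv_const]
  · have e : chA =ᶠ[𝓝 u] fun _ => 0 :=
      (eventually_gt_nhds (not_le.1 h)).mono fun v hv => ahar3_chA0 hv.le
    rw [e.deriv_eq, deriv_const]

theorem ahar3_dA : ∃ M, 0 ≤ M ∧ ∀ u, 1 / 5 ≤ u → u ≤ 2 / 5 → -M ≤ deriv chA u := by
  obtain ⟨M, hM⟩ := (isCompact_Icc (a := (1 / 5 : ℝ)) (b := 2 / 5)).exists_bound_of_continuousOn
    (ahar3_smA.continuous_deriv (by simp)).continuousOn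
  refine ⟨|M|, abs_nonneg _, fun u h1 h2 => ?_⟩
  have h := hM u ⟨h1, h2⟩
  rw [Real.norm_eq_abs] at h
  linarith [neg_abs_le (deriv chA u), le_abs_self M]

theorem ahar3_R0 (x : E4) : 0 ≤ R3 x := Real.sqrt_nonneg _

theorem ahar3_cu : Continuous u01 := by
  unfold u01
  fun_prop

theorem ahar3_I0 (hP : P.Ok) {x : E4} (h : R3 x < 5 / 2 * P.ϱ) : chI (R3 x / P.ϱ) = 0 :=
  ahar3_chI0 ((div_le_iff₀ hP.ϱ0).2 h.le)

theorem ahar3_A0 (hP : P.Ok) {x : E4} (h : 2 / 5 * P.l ≤ R3 x) : chA (R3 x / P.l) = 0 :=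
  ahar3_chA0 ((le_div_iff₀ hP.l_pos).2 h)

theorem ahar3_near (hP : P.Ok) {x : E4} (h : R3 x < 5 / 2 * P.ϱ) (i : Fin 4) :
    (fun y => P.Z3 y i) =ᶠ[𝓝 x] fun _ => 0 :=
  (continuous_R3.continuousAt.eventually_lt continuousAt_const h).mono fun y hy => by
    simp [Z3, c3, ahar3_I0 hP hy]

/-- The divergence of a radial field. -/
theorem ahar3_rad {g : ℝ → ℝ} {g' : ℝ} {x : E4} (hx : 0 < R3 x) (hg : HasDerivAt g g' (R3 x)) :
    ∑ i, pd i (fun y => (g (R3 y) • ![y 0, y 1, y 2, 0]) i) x = 3 * g (R3 x) + R3 x * g' := by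
  have hR : HasFDerivAt R3 (fderiv ℝ R3 x) x :=
    ((contDiffAt_R3 hx).differentiableAt (by simp)).hasFDerivAt
  have h1 : HasFDerivAt (fun y => g (R3 y)) (g' • fderiv ℝ R3 x) x := hg.comp_hasFDerivAt x hR
  have h2 : ∀ i : Fin 4, pd i (fun y => g (R3 y) * y i) x =
      g (R3 x) + x i * (g' * (![x 0, x 1, x 2, 0] i / R3 x)) := fun i => by
    rw [← pd_R3 hx i, pd, (h1.fun_mul (anum_proj i x)).fderiv]
    simp [bas, pd]
  have h3 : pd 3 (fun _ : E4 => (0 : ℝ)) x = 0 := by simp [pd]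
  have h4 := R3_sq x
  rw [u01] at h4
  simp only [Fin.sum_univ_four, Pi.smul_apply, smul_eq_mul, Matrix.cons_val_zero,
    Matrix.cons_val_one, Matrix.cons_val, mul_zero, h2, h3]
  field_simp
  linear_combination (-g') * h4

theorem Ok.Z3_smooth (hP : P.Ok) (i : Fin 4) : ContDiff ℝ ∞ fun x => P.Z3 x i := by
  refine contDiff_iff_contDiffAt.2 fun x => ?_
  by_cases h : R3 x < 5 / 2 * P.ϱ
  · exact contDiffAt_const.congr_of_eventuallyEq (ahar3_near hP h i)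
  have h0 : 0 < R3 x := by linarith [hP.ϱ0, not_lt.1 h]
  have h1 := contDiffAt_R3 h0
  have h2 := hP.s0_pos
  have h3 : ContDiffAt ℝ ∞ (fun y => P.c3 y / (R3 y ^ 2 * (1 + R3 y / P.s0))) x :=
    ((ahar3_smI.contDiffAt.comp x (h1.div_const _)).mul
      (ahar3_smA.contDiffAt.comp x (h1.div_const _))).div
      ((h1.pow 2).mul (contDiffAt_const.add (h1.div_const _))) (by positivity)
  have h4 : ContDiffAt ℝ ∞ (fun y : E4 => ![y 0, y 1, y 2, 0] i) x := by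
    fin_cases i <;> simp <;> fun_prop
  exact h3.mul h4

/-- For `φ(R) (x0, x1, x2, 0)` the divergence is `3 φ + R φ'`; for
`φ = 1 / (R ^ 2 (1 + R / s0))` this is `mw R`. The derivative of `chI` has the good sign
(`chI_rad`); the derivative of `chA` gives `chI * φ * R * chA' (R / l) / l`, which vanishes unless
`l / 5 ≤ R ≤ 2 l / 5`, where `φ R ≤ s0 / R ^ 2 ≤ 25 s0 / l ^ 2`. Near `R < 5 / 2 ϱ` all is `0`. -/
theorem Z3_div : ∃ C, 0 ≤ C ∧ ∀ P : Par, P.Ok → ∀ x : E4,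
    P.c3 x * P.mw (R3 x) -
      (if P.l / 5 ≤ R3 x ∧ R3 x ≤ 2 / 5 * P.l then C * (P.s0 / P.l ^ 3) else 0) ≤
      ∑ i, pd i (fun y => P.Z3 y i) x := by
  obtain ⟨M, hM0, hM⟩ := ahar3_dA
  refine ⟨25 * M, by positivity, fun P hP x => ?_⟩
  have hl := hP.l_pos
  have hs := hP.s0_pos
  have hr := hP.ϱ0
  by_cases h : R3 x < 5 / 2 * P.ϱ
  · have h1 : ∀ i, pd i (fun y => P.Z3 y i) x = 0 := fun i => by
      rw [pd, (ahar3_near hP h i).fderiv_eq]
      simp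
    have h2 : 0 ≤ 25 * M * (P.s0 / P.l ^ 3) := by positivity
    simp only [h1, c3, ahar3_I0 hP h, zero_mul, Finset.sum_const_zero]
    split_ifs <;> linarith
  have h0 : 0 < R3 x := by linarith [not_lt.1 h]
  have hI : HasDerivAt (fun R => chI (R / P.ϱ)) (deriv chI (R3 x / P.ϱ) * (1 / P.ϱ)) (R3 x) :=
    (ahar3_smI.differentiable (by simp) _).hasDerivAt.comp (R3 x) ((hasDerivAt_id' _).div_const _)
  have hA : HasDerivAt (fun R => chA (R / P.l)) (deriv chA (R3 x / P.l) * (1 / P.l)) (R3 x) :=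
    (ahar3_smA.differentiable (by simp) _).hasDerivAt.comp (R3 x) ((hasDerivAt_id' _).div_const _)
  have hD : HasDerivAt (fun R : ℝ => R ^ 2 * (1 + R / P.s0))
      (2 * R3 x * (1 + R3 x / P.s0) + R3 x ^ 2 * (1 / P.s0)) (R3 x) := by
    simpa using ((hasDerivAt_id' (R3 x)).fun_pow 2).fun_mul
      (((hasDerivAt_id' (R3 x)).div_const P.s0).const_add 1)
  have e := ahar3_rad h0 ((hI.fun_mul hA).fun_div hD (by positivity))
  have e' : ∑ i, pd i (fun y => P.Z3 y i) x = P.c3 x * P.mw (R3 x) +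
      deriv chI (R3 x / P.ϱ) * chA (R3 x / P.l) * (1 / (P.ϱ * (R3 x * (1 + R3 x / P.s0)))) +
      chI (R3 x / P.ϱ) * deriv chA (R3 x / P.l) * (1 / (P.l * (R3 x * (1 + R3 x / P.s0)))) := by
    refine e.trans ?_
    rw [c3, mw]
    field_simp
    ring
  have h5 : 0 ≤ deriv chI (R3 x / P.ϱ) * chA (R3 x / P.l) *
      (1 / (P.ϱ * (R3 x * (1 + R3 x / P.s0)))) :=
    mul_nonneg (mul_nonneg (ahar3_dI _) (smoothTransition.nonneg _)) (by positivity)
  rw [e']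
  split_ifs with hc
  · have h6 := hM (R3 x / P.l) ((le_div_iff₀ hl).2 (by linarith [hc.1])) ((div_le_iff₀ hl).2 hc.2)
    have h7 : 0 ≤ chI (R3 x / P.ϱ) := smoothTransition.nonneg _
    have h8 : chI (R3 x / P.ϱ) ≤ 1 := smoothTransition.le_one _
    have h9 : -M ≤ chI (R3 x / P.ϱ) * deriv chA (R3 x / P.l) := by nlinarith
    have h10 : 1 / (P.l * (R3 x * (1 + R3 x / P.s0))) ≤ 25 * (P.s0 / P.l ^ 3) := by
      have h11 : P.l ^ 2 ≤ 25 * R3 x ^ 2 := by nlinarith [hc.1]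
      rw [div_le_iff₀ (by positivity)]
      have h12 : 25 * (P.s0 / P.l ^ 3) * (P.l * (R3 x * (1 + R3 x / P.s0))) =
          (25 * R3 x ^ 2 + 25 * (R3 x * P.s0)) / P.l ^ 2 := by
        field_simp
        ring
      rw [h12, le_div_iff₀ (by positivity)]
      linarith [mul_pos h0 hs]
    have h13 := mul_le_mul_of_nonneg_right h9
      (show 0 ≤ 1 / (P.l * (R3 x * (1 + R3 x / P.s0))) by positivity)
    have h14 := mul_le_mul_of_nonneg_left h10 hM0
    linarith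
  · have h6 : deriv chA (R3 x / P.l) = 0 := ahar3_dA0 fun h7 =>
      hc ⟨by linarith [(le_div_iff₀ hl).1 h7.1], (div_le_iff₀ hl).1 h7.2⟩
    rw [h6]
    linarith

theorem Ok.Z3_sq (hP : P.Ok) (x : E4) : P.Z3 x ⬝ᵥ P.Z3 x ≤ P.c3 x * P.mw (R3 x) := by
  have hs := hP.s0_pos
  have h0 := ahar3_R0 x
  have h4 := R3_sq x
  rw [u01] at h4
  have e : P.Z3 x ⬝ᵥ P.Z3 x = (P.c3 x / (R3 x ^ 2 * (1 + R3 x / P.s0))) ^ 2 * R3 x ^ 2 := by
    rw [Z3, smul_dotProduct, dotProduct_smul, smul_eq_mul, smul_eq_mul]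
    generalize P.c3 x / (R3 x ^ 2 * (1 + R3 x / P.s0)) = t
    simp only [dotProduct, Fin.sum_univ_four, Matrix.cons_val_zero, Matrix.cons_val_one,
      Matrix.cons_val]
    rw [h4]
    ring
  have e' : (P.c3 x / (R3 x ^ 2 * (1 + R3 x / P.s0))) ^ 2 * R3 x ^ 2 =
      P.c3 x * (P.c3 x * P.mw (R3 x)) := by
    rcases h0.eq_or_lt with h | h
    · simp [mw, ← h]
    · rw [mw]
      field_simp
  have h5 : 0 ≤ P.c3 x * P.mw (R3 x) := mul_nonneg (c3_mem P x).1 (by unfold mw; positivity)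
  rw [e, e']
  exact mul_le_of_le_one_left h5 (c3_mem P x).2

/-- Put `λ = l ^ (1 / 20)`; `s0 / l ^ 3 = λ ^ (-38)`, `ph ≥ (2 l ^ 2) ^ (-39 / 40) ≥ λ ^ (-39) / 2`,
`c2 = 1` there. -/
theorem shell_le (C : ℝ) : ∃ l0, 0 < l0 ∧ ∀ P : Par, P.Ok → P.l ≤ l0 → ∀ x : E4,
    P.l / 5 ≤ R3 x → R3 x ≤ 2 / 5 * P.l → C * (P.s0 / P.l ^ 3) ≤ P.c2 x * P.ph x / 80 := by
  refine ⟨(1 / (160 * (|C| + 1))) ^ 20, by positivity, fun P hP hl0 x h1 h2 => ?_⟩
  have hl := hP.l_pos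
  have h0 := ahar3_R0 x
  have hu : u01 x ≤ P.l ^ 2 := by nlinarith [R3_sq x, sq_nonneg (x 2)]
  have hc : P.c2 x = 1 := by
    rw [c2, ahar3_chI1 ((le_div_iff₀ hP.ϱ0).2 (by linarith [hP.rho_le])),
      ahar3_chC1 (by nlinarith [hP.l_le]), mul_one]
  obtain ⟨t, ht, e⟩ : ∃ t : ℝ, 0 < t ∧ P.l = t ^ 20 :=
    ⟨P.l ^ ((20 : ℕ) : ℝ)⁻¹, by positivity, (Real.rpow_inv_natCast_pow hl.le (by norm_num)).symm⟩
  have ht1 : t ≤ 1 / (160 * (|C| + 1)) :=
    le_of_pow_le_pow_left₀ (n := 20) (by norm_num) (by positivity) (e ▸ hl0)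
  have e1 : P.s0 / P.l ^ 3 = 1 / t ^ 38 := by
    rw [s0, ka, e, ← Real.rpow_natCast t 20, ← Real.rpow_mul ht.le]
    norm_num
    field_simp
  have e2 : 1 / (2 * t ^ 39) ≤ P.ph x := by
    have h3 : (2 * P.l ^ 2) ^ (-(39 / 40) : ℝ) ≤ P.ph x :=
      Real.rpow_le_rpow_of_nonpos (by linarith [anum2_u_nonneg x, pow_pos hl 2]) (by linarith)
        (by norm_num)
    refine le_trans ?_ h3
    have h4 : (P.l ^ 2) ^ (39 / 40 : ℝ) = t ^ 39 := by
      rw [e, ← pow_mul, ← Real.rpow_natCast t, ← Real.rpow_mul ht.le]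
      norm_num
    have h5 : (2 : ℝ) ^ (39 / 40 : ℝ) ≤ 2 := by
      simpa using Real.rpow_le_rpow_of_exponent_le (x := 2) (y := 39 / 40) (z := 1) (by norm_num)
        (by norm_num)
    rw [Real.rpow_neg (by positivity), Real.mul_rpow (by norm_num) (by positivity), h4, one_div]
    exact inv_anti₀ (by positivity) (mul_le_mul_of_nonneg_right h5 (by positivity))
  have h6 : C * (160 * t) ≤ 1 := by
    rw [le_div_iff₀ (by positivity)] at ht1
    nlinarith [le_abs_self C]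
  have h7 : C * (1 / t ^ 38) = C * (160 * t) * (1 / (2 * t ^ 39) / 80) := by
    field_simp
    ring
  rw [e1, hc, one_mul, h7]
  exact (mul_le_of_le_one_left (by positivity) h6).trans (by linarith)

/-- Sum of `Z2_div`, `Z3_div`, `shell_le`. -/
theorem Z_div : ∃ C, 0 ≤ C ∧ ∃ l0, 0 < l0 ∧ ∀ P : Par, P.Ok → P.l ≤ l0 → ∀ x : E4,
    P.wH C x + P.c2 x * P.ph x / 40 + P.c3 x * P.mw (R3 x) / 2 ≤
      ∑ i, pd i (fun y => P.Z2 y i + P.Z3 y i) x := by
  obtain ⟨C, hC, h2⟩ := Z2_div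
  obtain ⟨C', -, h3⟩ := Z3_div
  obtain ⟨l0, hl0, h4⟩ := shell_le C'
  refine ⟨C, hC, l0, hl0, fun P hP hl x => ?_⟩
  have e : ∀ i, pd i (fun y => P.Z2 y i + P.Z3 y i) x =
      pd i (fun y => P.Z2 y i) x + pd i (fun y => P.Z3 y i) x := fun i => by
    rw [pd, fderiv_fun_add ((hP.Z2_smooth i).differentiable (by simp) x)
      ((hP.Z3_smooth i).differentiable (by simp) x)]
    rfl
  have h5 := h2 P hP x
  have h6 := h3 P hP x
  have h7 : (if P.l / 5 ≤ R3 x ∧ R3 x ≤ 2 / 5 * P.l then C' * (P.s0 / P.l ^ 3) else 0) ≤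
      P.c2 x * P.ph x / 80 := by
    split_ifs with hc
    · exact h4 P hP hl x hc.1 hc.2
    · exact div_nonneg (mul_nonneg (c2_mem P x).1 (hP.ph_pos x).le) (by norm_num)
  simp only [e, Finset.sum_add_distrib, wH]
  linarith

/-- Both fields vanish near every point outside the compact set `5 / 2 ϱ ≤ R`, `u ≤ 3 / 2`. -/
theorem Ok.Z_zero (hP : P.Ok) {x : E4} (h : R3 x < 5 / 2 * P.ϱ ∨ 3 / 2 < u01 x) :
    ∀ᶠ y in 𝓝 x, P.Z2 y + P.Z3 y = 0 := by
  rcases h with h | h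
  · exact (continuous_R3.continuousAt.eventually_lt continuousAt_const h).mono fun y hy => by
      simp [Z2, Z3, c2, c3, ahar3_I0 hP hy]
  · refine (continuousAt_const.eventually_lt ahar3_cu.continuousAt h).mono fun y hy => ?_
    have h1 : 2 / 5 * P.l ≤ R3 y := by
      by_contra h2
      nlinarith [R3_sq y, sq_nonneg (y 2), ahar3_R0 y, hP.l_le, not_le.1 h2]
    simp [Z2, Z3, c2, c3, ahar3_A0 hP h1, ahar3_chC0 hy.le]

theorem Ok.Z_face (hP : P.Ok) {x : E4} (h : |x 2| = P.l / 2) : (P.Z2 x + P.Z3 x) 2 = 0 := by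
  have h1 : |x 2| ≤ R3 x := Real.abs_le_sqrt (by linarith [anum2_u_nonneg x])
  have h2 : 2 / 5 * P.l ≤ R3 x := by linarith [hP.l_pos]
  simp [Z2, Z3, c3, ahar3_A0 hP h2]

theorem Ok.measurable_wH (hP : P.Ok) (C : ℝ) : Measurable (P.wH C) := by
  have h1 := continuous_R3.measurable
  have h2 := ahar3_cu.measurable
  have h3 := hP.chI_smooth.continuous.measurable
  have h4 : Measurable P.c2 := h3.mul (ahar3_smC.continuous.measurable.comp h2)
  have h5 : Measurable P.c3 := h3.mul (ahar3_smA.continuous.measurable.comp (h1.div_const _))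
  have h6 : Measurable P.ph := (h2.add_const _).pow_const _
  have h7 : Measurable fun x => P.mw (R3 x) :=
    ((h1.pow_const 2).mul (((h1.div_const _).const_add 1).pow_const 2)).const_div 1
  exact (((h4.mul h6).div_const _).add ((h5.mul h7).div_const _)).sub
    (Measurable.ite (measurableSet_le measurable_const h2) measurable_const measurable_const)

theorem Ok.wH_bdd (hP : P.Ok) (C : ℝ) : ∃ B, ∀ x ∈ P.Box, |P.wH C x| ≤ B := by
  refine ⟨(P.l ^ 2) ^ (-(39 / 40) : ℝ) + 1 / P.ϱ ^ 2 + |C|, fun x hx => ?_⟩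
  have hl := hP.l_pos
  have hr := hP.ϱ0
  have hs := hP.s0_pos
  have h0 : 2 * P.ϱ < R3 x := hx.2.2.2.2.2
  have h1 : P.ph x ≤ (P.l ^ 2) ^ (-(39 / 40) : ℝ) :=
    Real.rpow_le_rpow_of_nonpos (by positivity) (by linarith [anum2_u_nonneg x]) (by norm_num)
  have h2 : 0 ≤ P.mw (R3 x) := by
    unfold mw
    positivity
  have h3 : P.mw (R3 x) ≤ 1 / P.ϱ ^ 2 := by
    have h4 : 0 ≤ R3 x / P.s0 := div_nonneg (ahar3_R0 x) hs.le
    refine one_div_le_one_div_of_le (by positivity) ?_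
    exact (show P.ϱ ^ 2 ≤ R3 x ^ 2 by nlinarith).trans
      (le_mul_of_one_le_right (sq_nonneg _) (by nlinarith))
  have h4 := mul_nonneg (c2_mem P x).1 (hP.ph_pos x).le
  have h5 := mul_le_of_le_one_left (hP.ph_pos x).le (c2_mem P x).2
  have h6 := mul_nonneg (c3_mem P x).1 h2
  have h7 := mul_le_of_le_one_left h2 (c3_mem P x).2
  have h8 := abs_nonneg C
  rw [wH, abs_le]
  split_ifs <;> constructor <;> linarith [le_abs_self C, neg_abs_le C]

end Par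

end Pool.Agent.Lib.MP_94aef8_gt
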