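import Pool.Agent.Lib.MP_94aef8_gt.Sys
import Pool.Agent.Lib.MP_94aef8_gt.H.Loc5
import Pool.Agent.Lib.MP_94aef8_gt.K.Ric

/-! Facts on the model metrics from the blocks H and K. -/

open scoped Manifold ContDiff Topology
open Matrix Filter Set MeasureTheory Real

namespace Pool.Agent.Lib.MP_94aef8_gt

variable {p : E4}

/-- Schwarzschild is Ricci flat (block K). -/
theorem ji_ric_SW {x : E4} (hx : 1 < R3 x) : ric (GB 0) x = 0 := ric_SW hx

/-- The bolt chart (block H). -/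
theorem ji_P2u_ld (e : ℤˣ) : LDif (P2u e) {x | 1 < R3 x ∧ 0 < R3 x + ((e : ℤ) : ℝ) * x 2} univ :=
  Hb.ldif_P2u e

theorem ji_P2u_pull (e : ℤˣ) (b : ℝ) {x : E4} (h1 : 1 < R3 x) (h2 : 0 < R3 x + ((e : ℤ) : ℝ) * x 2) :
    pull (P2u e) (GN b) x = GB b x := Hb.pull_P2u e b h1 h2

/-- The polar coordinates of the core (block H). -/
theorem ji_P1_ld {P : Par} (hP : P.Geom) : LDif P.P1 {p | 4 < p 3 ∧ P.δ * p 3 < 1} univ := 
  Hb.ldif_P1 hP

theorem ji_P1_pull {P : Par} (hP : P.Geom) (h1 : 4 < p 3) (h2 : P.δ * p 3 < 1) :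
    pull P.P1 (GBH P.B) p = P.GO p := Hb.pull_P1_GO hP h1.le h2

end Pool.Agent.Lib.MP_94aef8_gt
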