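import Pool.Agent.Lib.MP_94aef8_gt.Ops

/-! Families of functions that are jointly smooth in a parameter and in the point. -/

open scoped ContDiff Topology NNReal
open Filter Matrix

namespace Pool.Agent.Lib.MP_94aef8_gt

variable {P : Type} [NormedAddCommGroup P] [NormedSpace ℝ P]

/-- Jointly smooth near `q`. -/
def SmA (Φ : P → E4 → ℝ) (q : P × E4) : Prop :=
  ContDiffAt ℝ ∞ (fun z : P × E4 => Φ z.1 z.2) q

/-- A matrix family with jointly smooth entries. -/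
def SmM (G : P → E4 → Mat) (q : P × E4) : Prop := ∀ i j, SmA (fun a y => G a y i j) q

variable {Φ Ψ : P → E4 → ℝ} {G H : P → E4 → Mat} {q : P × E4} {K : Set (P × E4)}

theorem SmA.const (c : ℝ) : SmA (fun _ _ => c) q := contDiffAt_const

theorem SmA.add (h : SmA Φ q) (h' : SmA Ψ q) : SmA (fun a y => Φ a y + Ψ a y) q :=
  ContDiffAt.add h h'

theorem SmA.sub (h : SmA Φ q) (h' : SmA Ψ q) : SmA (fun a y => Φ a y - Ψ a y) q :=
  ContDiffAt.sub h h'

theorem SmA.neg (h : SmA Φ q) : SmA (fun a y => -Φ a y) q := ContDiffAt.neg h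

theorem SmA.mul (h : SmA Φ q) (h' : SmA Ψ q) : SmA (fun a y => Φ a y * Ψ a y) q :=
  ContDiffAt.mul h h'

theorem SmA.inv (h : SmA Φ q) (h0 : Φ q.1 q.2 ≠ 0) : SmA (fun a y => (Φ a y)⁻¹) q :=
  ContDiffAt.inv h h0

theorem SmA.sum {ι : Type} (s : Finset ι) {F : ι → P → E4 → ℝ} (h : ∀ i ∈ s, SmA (F i) q) :
    SmA (fun a y => ∑ i ∈ s, F i a y) q := ContDiffAt.sum h

theorem SmA.prod {ι : Type} (s : Finset ι) {F : ι → P → E4 → ℝ} (h : ∀ i ∈ s, SmA (F i) q) :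
    SmA (fun a y => ∏ i ∈ s, F i a y) q := contDiffAt_prod h

theorem SmA.congr (h : SmA Φ q) (e : ∀ᶠ z in 𝓝 q, Ψ z.1 z.2 = Φ z.1 z.2) : SmA Ψ q :=
  ContDiffAt.congr_of_eventuallyEq h e

theorem SmA.pd (h : SmA Φ q) (i : Fin 4) : SmA (fun a => pd i (Φ a)) q := by
  have h1 : ContDiffAt ℝ ∞ (Function.uncurry fun (z : P × E4) (y : E4) => Φ z.1 y) (q, q.2) :=
    ContDiffAt.comp (g := fun z : P × E4 => Φ z.1 z.2) (f := fun u : (P × E4) × E4 => (u.1.1, u.2))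
      (q, q.2) h (by fun_prop)
  exact (ContDiffAt.fderiv (m := ∞) h1 contDiffAt_snd (by simp)).clm_apply contDiffAt_const

theorem SmA.pdw (h : SmA Φ q) (w : List (Fin 4)) : SmA (fun a => pdw w (Φ a)) q := by
  induction w with
  | nil => exact h
  | cons i w ih => exact ih.pd i

theorem SmA.slice (h : SmA Φ q) : ContDiffAt ℝ ∞ (Φ q.1) q.2 :=
  ContDiffAt.comp (g := fun z : P × E4 => Φ z.1 z.2) (f := fun y : E4 => (q.1, y)) q.2 h
    (by fun_prop)

theorem SmM.det (h : SmM G q) : SmA (fun a y => (G a y).det) q := by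
  simp only [Matrix.det_apply']
  exact SmA.sum _ fun σ _ => (SmA.const _).mul (SmA.prod _ fun i _ => h _ _)

theorem SmM.inv (h : SmM G q) (h0 : (G q.1 q.2).det ≠ 0) : SmM (fun a y => (G a y)⁻¹) q := by
  intro i j
  simp only [Matrix.inv_def, Matrix.smul_apply, smul_eq_mul, Ring.inverse_eq_inv',
    Matrix.adjugate_apply]
  refine (h.det.inv h0).mul (SmM.det fun k l => ?_)
  by_cases e : k = j
  · subst e
    simp only [Matrix.updateRow_self]
    exact SmA.const _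
  · simp only [Matrix.updateRow_ne e]
    exact h k l

theorem SmM.add (h : SmM G q) (h' : SmM H q) : SmM (fun a y => G a y + H a y) q :=
  fun i j => (h i j).add (h' i j)

theorem SmM.smul (h : SmA Φ q) (h' : SmM H q) : SmM (fun a y => Φ a y • H a y) q :=
  fun i j => h.mul (h' i j)

theorem SmM.mul (h : SmM G q) (h' : SmM H q) : SmM (fun a y => G a y * H a y) q :=
  fun i j => SmA.sum Finset.univ fun k _ => (h i k).mul (h' k j)

theorem SmM.chr (h : SmM G q) (h0 : (G q.1 q.2).det ≠ 0) (k i j : Fin 4) :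
    SmA (fun a => chr (G a) k i j) q :=
  (SmA.const _).mul (SmA.sum _ fun l _ => (h.inv h0 k l).mul
    ((((h j l).pd i).add ((h i l).pd j)).sub ((h i j).pd l)))

theorem SmM.ric (h : SmM G q) (h0 : (G q.1 q.2).det ≠ 0) : SmM (fun a => ric (G a)) q :=
  fun j k => SmA.sum Finset.univ fun i _ =>
    (((h.chr h0 i j k).pd i).sub ((h.chr h0 i i k).pd j)).add (SmA.sum Finset.univ fun m _ => ((h.chr h0 i i m).mul (h.chr h0 m j k)).sub
      ((h.chr h0 i j m).mul (h.chr h0 m i k)))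

/-- A family of matrices of functions with jointly smooth entries. -/
def SmR (M : P → MA Fn) (q : P × E4) : Prop := ∀ i j, SmA (fun a => M a i j) q

section Ring

variable {M N : P → MA Fn}

theorem SmA.sum' {ι : Type} (s : Finset ι) {F : ι → P → Fn} (h : ∀ i ∈ s, SmA (F i) q) :
    SmA (fun a => ∑ i ∈ s, F i a) q := by
  have e : (fun a => ∑ i ∈ s, F i a) = fun a y => ∑ i ∈ s, F i a y := by
    ext a y
    simp
  rw [e]
  exact SmA.sum s h

theorem SmR.add (h : SmR M q) (h' : SmR N q) : SmR (fun a => M a + N a) q :=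
  fun i j => (h i j).add (h' i j)

theorem SmR.sub (h : SmR M q) (h' : SmR N q) : SmR (fun a => M a - N a) q :=
  fun i j => (h i j).sub (h' i j)

theorem SmR.neg (h : SmR M q) : SmR (fun a => -M a) q := fun i j => (h i j).neg

theorem SmR.tr (h : SmR M q) : SmR (fun a => (M a)ᵀ) q := fun i j => h j i

theorem SmR.mul (h : SmR M q) (h' : SmR N q) : SmR (fun a => M a * N a) q :=
  fun i j => SmA.sum' Finset.univ fun k _ => (h i k).mul (h' k j)

theorem SmR.smul (h : SmA Φ q) (h' : SmR N q) : SmR (fun a => (Φ a : Fn) • N a) q :=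
  fun i j => h.mul (h' i j)

theorem SmR.sum {F : Fin 4 → P → MA Fn} (h : ∀ i, SmR (F i) q) : SmR (fun a => ∑ i, F i a) q := by
  intro i j
  simp only [Matrix.sum_apply]
  exact SmA.sum' _ fun k _ => h k i j

theorem SmR.dm (h : SmR M q) (i : Fin 4) : SmR (fun a => (geo (G a)).dm i (M a)) q :=
  fun k l => (h k l).pd i

theorem SmM.gH (h : SmM G q) (h0 : (G q.1 q.2).det ≠ 0) : SmR (fun a => (geo (G a)).H) q :=
  h.inv h0

theorem SmM.gw (h : SmM G q) (h0 : (G q.1 q.2).det ≠ 0) (i : Fin 4) :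
    SmR (fun a => (geo (G a)).w i) q := fun k j =>
  (SmA.const _).mul (SmA.sum' Finset.univ fun l _ => (h.inv h0 k l).mul
    ((((h j l).pd i).add ((h i l).pd j)).sub ((h i j).pd l)))

theorem SmM.grm (h : SmM G q) (h0 : (G q.1 q.2).det ≠ 0) (i j : Fin 4) :
    SmR (fun a => (geo (G a)).rm i j) q :=
  ((((h.gw h0 j).dm i).sub ((h.gw h0 i).dm j)).add ((h.gw h0 i).mul (h.gw h0 j))).sub
    ((h.gw h0 j).mul (h.gw h0 i))

theorem SmM.gric (h : SmM G q) (h0 : (G q.1 q.2).det ≠ 0) : SmR (fun a => (geo (G a)).ric) q :=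
  fun j k => SmA.sum' Finset.univ fun i _ =>
    (((h.gw h0 j i k).pd i).sub ((h.gw h0 i i k).pd j)).add (SmA.sum' Finset.univ fun m _ =>
      ((h.gw h0 i i m).mul (h.gw h0 j m k)).sub ((h.gw h0 j i m).mul (h.gw h0 i m k)))

theorem SmM.gnab (h : SmM G q) (h0 : (G q.1 q.2).det ≠ 0) (hM : SmR M q) (i : Fin 4) :
    SmR (fun a => (geo (G a)).nab i (M a)) q :=
  ((hM.dm i).sub ((h.gw h0 i).tr.mul hM)).sub (hM.mul (h.gw h0 i))

theorem SmM.glich (h : SmM G q) (h0 : (G q.1 q.2).det ≠ 0) (hM : SmR M q) :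
    SmR (fun a => (geo (G a)).lich (M a)) q := by
  have h1 : SmR (fun a => (geo (G a)).rough (M a)) q :=
    (SmR.sum fun i => SmR.sum fun j => SmR.smul (h.gH h0 i j)
      ((h.gnab h0 (h.gnab h0 hM j) i).sub
        (SmR.sum fun e => SmR.smul (h.gw h0 i e j) (h.gnab h0 hM e)))).neg
  have h2 : SmR (fun a => (geo (G a)).rring (M a)) q := fun i j =>
    SmA.sum' Finset.univ fun e _ => (((h.gH h0).mul hM).mul (h.grm h0 e i)) e j
  exact ((h1.sub (SmR.smul (SmA.const 2) h2)).add (((h.gric h0).mul (h.gH h0)).mul hM)).add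
    ((hM.mul (h.gH h0)).mul (h.gric h0))

end Ring

theorem SmM.rm (h : SmM G q) (h0 : (G q.1 q.2).det ≠ 0) (i j : Fin 4) :
    SmM (fun a => rm (G a) i j) q := h.grm h0 i j

theorem SmM.nab (h : SmM G q) (h0 : (G q.1 q.2).det ≠ 0) (h' : SmM H q) (i : Fin 4) :
    SmM (fun a => nab (G a) i (H a)) q := h.gnab h0 (M := fun a => mf (H a)) h' i

theorem SmM.lich (h : SmM G q) (h0 : (G q.1 q.2).det ≠ 0) (h' : SmM H q) :
    SmM (fun a => lich (G a) (H a)) q := h.glich h0 (M := fun a => mf (H a)) h'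

theorem fam_bdd (hK : IsCompact K) (h : ∀ q ∈ K, SmA Φ q) :
    ∃ C : ℝ, 0 ≤ C ∧ ∀ q ∈ K, |Φ q.1 q.2| ≤ C := by
  obtain ⟨C, hC⟩ := hK.exists_bound_of_continuousOn
    (f := fun z : P × E4 => Φ z.1 z.2) fun z hz => (h z hz).continuousAt.continuousWithinAt
  exact ⟨max C 0, le_max_right _ _, fun z hz => (hC z hz).trans (le_max_left _ _)⟩

theorem fam_lip (hK : IsCompact K) (h : ∀ q ∈ K, SmA Φ q) :
    ∃ C : ℝ, 0 ≤ C ∧ ∀ a a' y, (a, y) ∈ K → (a', y) ∈ K → |Φ a y - Φ a' y| ≤ C * ‖a - a'‖ := by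
  have h1 : LocallyLipschitzOn K fun z : P × E4 => Φ z.1 z.2 := fun z hz => by
    obtain ⟨L, t, ht, hL⟩ := ((h z hz).of_le (m := 1) (by simp)).exists_lipschitzOnWith
    exact ⟨L, t, mem_nhdsWithin_of_mem_nhds ht, hL⟩
  obtain ⟨L, hL⟩ := h1.exists_lipschitzOnWith_of_compact hK
  refine ⟨L, L.2, fun a a' y ha ha' => ?_⟩
  have h2 := hL.dist_le_mul _ ha _ ha'
  rwa [Real.dist_eq, Prod.dist_eq, dist_self, max_eq_left dist_nonneg, dist_eq_norm] at h2

/-- One constant for finitely many families. -/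
theorem fam_fin {ι : Type} [Finite ι] {R : ι → ℝ → Prop} (h : ∀ i, ∃ C, 0 ≤ C ∧ R i C)
    (hm : ∀ i C C', C ≤ C' → R i C → R i C') : ∃ C, 0 ≤ C ∧ ∀ i, R i C := by
  choose C h0 h1 using h
  obtain ⟨B, hB⟩ := (Set.finite_range C).bddAbove
  exact ⟨max B 0, le_max_right _ _, fun i =>
    hm i _ _ ((hB ⟨i, rfl⟩).trans (le_max_left _ _)) (h1 i)⟩

theorem fam_bddM (hK : IsCompact K) (h : ∀ q ∈ K, SmM G q) :
    ∃ C : ℝ, 0 ≤ C ∧ ∀ q ∈ K, ∀ i j, |G q.1 q.2 i j| ≤ C := by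
  obtain ⟨C, h0, hC⟩ := fam_fin (ι := Fin 4 × Fin 4) (R := fun i C => ∀ q ∈ K,
    |G q.1 q.2 i.1 i.2| ≤ C) (fun i => fam_bdd hK fun q hq => h q hq i.1 i.2)
    fun i C C' hc h q hq => (h q hq).trans hc
  exact ⟨C, h0, fun q hq i j => hC (i, j) q hq⟩

theorem fam_lipM (hK : IsCompact K) (h : ∀ q ∈ K, SmM G q) : ∃ C : ℝ, 0 ≤ C ∧
    ∀ a a' y, (a, y) ∈ K → (a', y) ∈ K → ∀ i j, |G a y i j - G a' y i j| ≤ C * ‖a - a'‖ := by
  obtain ⟨C, h0, hC⟩ := fam_fin (ι := Fin 4 × Fin 4) (R := fun i C => ∀ a a' y, (a, y) ∈ K →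
    (a', y) ∈ K → |G a y i.1 i.2 - G a' y i.1 i.2| ≤ C * ‖a - a'‖)
    (fun i => fam_lip hK fun q hq => h q hq i.1 i.2) fun i C C' hc h a a' y ha ha' =>
      (h a a' y ha ha').trans (mul_le_mul_of_nonneg_right hc (norm_nonneg _))
  exact ⟨C, h0, fun a a' y ha ha' i j => hC (i, j) a a' y ha ha'⟩

/-- All derivatives up to order `k` are bounded. -/
theorem fam_bddW (hK : IsCompact K) (h : ∀ q ∈ K, SmM G q) (k : ℕ) :
    ∃ C : ℝ, 0 ≤ C ∧ ∀ q ∈ K, ∀ w : List (Fin 4), w.length ≤ k → ∀ i j,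
      |pdw w (fun y => G q.1 y i j) q.2| ≤ C := by
  have : Finite {w : List (Fin 4) // w.length ≤ k} := (List.finite_length_le (Fin 4) k).to_subtype
  obtain ⟨C, h0, hC⟩ := fam_fin (ι := {w : List (Fin 4) // w.length ≤ k})
    (R := fun w C => ∀ q ∈ K, ∀ i j, |pdw w.1 (fun y => G q.1 y i j) q.2| ≤ C)
    (fun w => fam_bddM (G := fun a y => Matrix.of fun i j => pdw w.1 (fun y => G a y i j) y) hK
      fun q hq i j => (h q hq i j).pdw w.1)
    fun i C C' hc h q hq a b => (h q hq a b).trans hc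
  exact ⟨C, h0, fun q hq w hw => hC ⟨w, hw⟩ q hq⟩

/-- Uniform ellipticity. -/
theorem fam_ell (hK : IsCompact K) (h : ∀ q ∈ K, SmM G q) (hp : ∀ q ∈ K, (G q.1 q.2).PosDef) :
    ∃ c : ℝ, 0 < c ∧ ∀ q ∈ K, ∀ v : Fin 4 → ℝ, c * (v ⬝ᵥ v) ≤ v ⬝ᵥ (G q.1 q.2 *ᵥ v) := by
  have hS : IsCompact {v : Fin 4 → ℝ | v ⬝ᵥ v = 1} := by
    refine Metric.isCompact_of_isClosed_isBounded (isClosed_eq (by fun_prop) continuous_const)
      ((Metric.isBounded_closedBall (x := 0) (r := 1)).subset fun v hv => ?_)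
    rw [mem_closedBall_zero_iff, pi_norm_le_iff_of_nonneg zero_le_one]
    intro i
    have h1 : v i * v i ≤ v ⬝ᵥ v :=
      Finset.single_le_sum (f := fun j => v j * v j) (fun j _ => mul_self_nonneg _)
        (Finset.mem_univ i)
    rw [Real.norm_eq_abs, ← sq_le_one_iff_abs_le_one, sq]
    exact h1.trans_eq hv
  have hc : ContinuousOn (fun z : (P × E4) × (Fin 4 → ℝ) => z.2 ⬝ᵥ (G z.1.1 z.1.2 *ᵥ z.2))
      (K ×ˢ {v | v ⬝ᵥ v = 1}) := by
    simp only [dotProduct, Matrix.mulVec]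
    refine continuousOn_finsetSum _ fun i _ => ContinuousOn.mul (by fun_prop)
      (continuousOn_finsetSum _ fun j _ => ContinuousOn.mul (fun z hz => ?_) (by fun_prop))
    exact (ContinuousAt.comp (f := Prod.fst) (h z.1 hz.1 i j).continuousAt
      continuousAt_fst).continuousWithinAt
  obtain ⟨c, hc0, hcl⟩ := (hK.prod hS).exists_forall_le' hc (a := 0) fun z hz => by
    have hv : z.2 ≠ 0 := fun e => by simpa [e] using hz.2
    simpa using (hp z.1 hz.1).dotProduct_mulVec_pos hv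
  refine ⟨c, hc0, fun z hz v => ?_⟩
  by_cases hv : v = 0
  · simp [hv]
  have h1 : 0 < v ⬝ᵥ v := by simpa using dotProduct_self_star_pos_iff.2 hv
  have h2 : √(v ⬝ᵥ v) * √(v ⬝ᵥ v) = v ⬝ᵥ v := Real.mul_self_sqrt h1.le
  have h3 : 0 < √(v ⬝ᵥ v) := Real.sqrt_pos.2 h1
  have h4 := hcl (z, (√(v ⬝ᵥ v))⁻¹ • v) ⟨hz, by
    simp only [Set.mem_ofPred_eq, smul_dotProduct, dotProduct_smul, smul_eq_mul]
    field_simp
    linarith⟩
  simp only [Matrix.mulVec_smul, smul_dotProduct, dotProduct_smul, smul_eq_mul] at h4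
  rw [← mul_assoc, ← mul_inv, h2, ← div_eq_inv_mul, le_div_iff₀ h1] at h4
  exact h4

end Pool.Agent.Lib.MP_94aef8_gt
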