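import Pool.Agent.Lib.MP_94aef8_gt.Mod

/-! The four families of good patches, the error size and the weight of the coercivity estimate. -/

open scoped Manifold ContDiff Topology
open Matrix Filter Set MeasureTheory Real

namespace Pool.Agent.Lib.MP_94aef8_gt

/-- The relative size of the patches. -/
noncomputable def cc : ℝ := 1 / 100

/-- Patch maps of the third family (core, one centre at the origin). -/
noncomputable def T3 (q p : E4) : E4 := q + (cc * R3 q) • p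

/-- Patch maps of the fourth family (bolt). -/
noncomputable def T4 (q p : E4) : E4 := q + cc • p

/-- Centres of the fourth family. -/
def A4 : Set E4 := {q | u01 q ≤ 11 / 5 ∧ u23 q ≤ 3 / 2}

namespace Par

variable (P : Par)

/-- The point `q + α p0 u_s + β (p1 u_p + p2 e3)` at height `y`. -/
noncomputable def fr (q : E4) (α β y : ℝ) (p : E4) : E4 :=
  mk4 (q 0 + (α * p 0 - 2 * P.n * β * p 1) / P.nu) (q 1 + (2 * P.n * α * p 0 + β * p 1) / P.nu)
    (q 2 + β * p 2) y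

/-- The height at which `|X| = w`. -/
noncomputable def yw (w : ℝ) : ℝ := 1 / (P.δ * (1 + 3 / 4 * w ^ 2))

/-- Patch maps of the first family (outer slab), centre `q = (x, y)`. -/
noncomputable def T1 (q p : E4) : E4 := P.fr q (cc * q 3) (cc * q 3) (q 3 * (1 + cc * p 3)) p

/-- Patch maps of the second family (inner slab), centre `q = (x, w)`. -/
noncomputable def T2 (q p : E4) : E4 :=
  P.fr q (2 * cc / (3 * P.δ)) (cc * q 3 / P.δ) (P.yw (q 3 * (1 + cc * p 3))) p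

/-- Centres of the first family. -/
def A1 : Set E4 := {q | 7 / 20 ≤ q 3 ∧ P.δ * q 3 ≤ 12 / 25}

/-- Centres of the second family. -/
def A2 : Set E4 := {q | 9 / 10 * P.l ≤ q 3 ∧ q 3 ≤ 5 / 4}

/-- Centres of the third family. -/
def A3 : Set E4 := {q | u01 q ≤ (6 / 5 * P.l) ^ 2 ∧ |q 2| ≤ 3 / 5 * P.l ∧ 5 / 2 * P.ϱ ≤ R3 q}

/-- The loss in the coercivity estimate. -/
noncomputable def ka : ℝ := P.l ^ (1 / 10 : ℝ)

/-- The intermediate scale. -/
noncomputable def s0 : ℝ := P.l * P.ka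

/-- The weight of the coercivity estimate as a function of the scale. -/
noncomputable def om2 (s : ℝ) : ℝ :=
  P.ka ^ 2 / s ^ 2 + if s < P.l / 5 then 1 / (s ^ 2 * (1 + s / P.s0) ^ 2) else 0

/-- The size of the error as a function of the scale. -/
noncomputable def eta (s : ℝ) : ℝ :=
  (if 1 / 2 ≤ s then P.δ ^ 3 else 0) + (if P.l / 40 ≤ s ∧ s ≤ P.l / 5 then P.ϱ / P.l + P.l else 0) +
    (if s ≤ P.l / 40 then s ^ 2 else 0) + if s ≤ 3 * P.ϱ then P.B * P.ϱ else 0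

end Par

/-- The index set of the patches. -/
inductive Ix (P : Par) (C : Type) : Type
  | f1 (c : C) (q : P.A1)
  | f2 (c : C) (q : P.A2)
  | f3 (c : C) (j : ℤ) (q : P.A3)
  | f4 (c : C) (j : ℤ) (e : ℤˣ) (q : A4)

/-- The scales of the patches. -/
noncomputable def Ix.sig {P : Par} {C : Type} : Ix P C → ℝ
  | .f1 _ _ => 1
  | .f2 _ q => q.1 3 / 2
  | .f3 _ _ q => R3 q.1
  | .f4 _ _ _ _ => P.ϱ

namespace MD

variable {P : Par} {A : Arith P.K} (D : MD P A)

/-- The twisted chart round the centre `j`. -/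
noncomputable def pT (c : A.C) (j : ℤ) : E4 → D.M := D.pC c ∘ P.sh j

/-- The patches. -/
noncomputable def Th : Ix P A.C → E4 → D.M
  | .f1 c q => D.pO c ∘ P.T1 q.1
  | .f2 c q => D.pO c ∘ P.T2 q.1
  | .f3 c j q => D.pT c j ∘ T3 q.1
  | .f4 c j e q => D.pN c j e ∘ T4 q.1

/-- The sharp covering: outer slab, inner slab, tube, bolt. -/
def Cov (m : D.M) : Prop :=
  (∃ c, ∃ p : E4, 3 / 8 ≤ p 3 ∧ P.δ * p 3 ≤ 47 / 100 ∧ D.pO c p = m) ∨
  (∃ c, ∃ p : E4, ∃ w, P.l ≤ w ∧ w ≤ 31 / 25 ∧ p 3 = P.yw w ∧ D.pO c p = m) ∨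
  (∃ c j, ∃ x : E4, u01 x ≤ P.l ^ 2 ∧ |x 2| ≤ P.l / 2 ∧ 3 * P.ϱ ≤ R3 x ∧ D.pT c j x = m) ∨
  ∃ c j e, ∃ z : E4, u01 z ≤ 2 ∧ u23 z ≤ 1 ∧ D.pN c j e z = m

end MD

end Pool.Agent.Lib.MP_94aef8_gt
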