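import Pool.Agent.Lib.MP_94aef8_gt.B.Nat
import Pool.Agent.Lib.MP_94aef8_gt.B.Scale
import Pool.Agent.Lib.MP_94aef8_gt.B.Ineq
import Pool.Agent.Lib.MP_94aef8_gt.C.Div
import Pool.Agent.Lib.MP_94aef8_gt.J.AIH
import Pool.Agent.Lib.MP_94aef8_gt.J.JDefs
import Pool.Agent.Lib.MP_94aef8_gt.J.Fam

/-! Facts from the other blocks, in the form used by block J. -/

open scoped Manifold ContDiff Topology
open Matrix Filter Set MeasureTheory Real

namespace Pool.Agent.Lib.MP_94aef8_gt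

section Loc

variable {G G' h h' : Tn} {U V : Set E4} {τ : E4 → E4} {p : E4}

theorem ji_ric_rm (G : Tn) (p : E4) (j k : Fin 4) : ric G p j k = ∑ i, rm G i j p i k := by
  have e := congrFun (congrFun (congrFun (ric_eq G) j) k) p
  rw [Geo.ric_eq, Finset.sum_apply] at e
  exact e

theorem ji_rring (G : Tn) (p : E4) (k : Mat) :
    rring G (fun _ => k) p = Matrix.of fun i j => ∑ a, ((G p)⁻¹ * k * rm G a i p) a j := by
  ext i j
  exact rring_apply G (fun _ => k) p i j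

theorem ji_rm_congr (e : G =ᶠ[𝓝 p] G') (a b : Fin 4) : rm G a b =ᶠ[𝓝 p] rm G' a b := rm_cg (locF_nhds p) e a b

theorem ji_ric_congr (e : G =ᶠ[𝓝 p] G') : ric G =ᶠ[𝓝 p] ric G' := ric_cg (locF_nhds p) e

theorem ji_lich_congr (e : G =ᶠ[𝓝 p] G') (e' : h =ᶠ[𝓝 p] h') : lich G h =ᶠ[𝓝 p] lich G' h' := 
  lich_cg (locF_nhds p) e e'

theorem ji_ipD_congr (e : G =ᶠ[𝓝 p] G') (e' : h =ᶠ[𝓝 p] h') : ipD G h h p = ipD G' h' h' p := 
  (ipD_cg (locF_nhds p) e e' e').self_of_nhds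

theorem ji_koi_congr (e : G =ᶠ[𝓝 p] G') (k : Mat) : koi G p k = koi G' p k := 
  (koi_cg (locF_nhds p) e k).self_of_nhds

theorem ji_pot_congr (e : G =ᶠ[𝓝 p] G') (k : Mat) : pot G p k = pot G' p k := 
  (pot_cg (locF_nhds p) e k).self_of_nhds

theorem ji_lich_zero (G : Tn) : lich G 0 = 0 := by
  simpa using bs_lich_smul G 0 0

theorem ji_rm_const (A : Mat) (a b : Fin 4) : rm (fun _ => A) a b p = 0 := by
  have e : ∀ i, om (fun _ => A) i = 0 := fun i => by
    funext y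
    ext k j
    simp [om_apply, chr, pd_const]
  have e' : ∀ i, pdM i 0 p = 0 := fun i => by
    ext k j
    exact pd_const 0 p i
  simp [rm_apply, e, e']

theorem ji_good_pull (hτ : LDif τ U V) (hG : Good G V) : Good (pull τ G) U := hτ.good_pull hG

theorem ji_ric_pull (hτ : LDif τ U V) (hG : Good G V) (hp : p ∈ U) :
    ric (pull τ G) p = pull τ (ric G) p := hτ.ric_pull hG hp

theorem ji_rm_pull_zero (hτ : LDif τ U V) (hG : Good G V) (hp : p ∈ U)
    (h0 : ∀ a b, rm G a b (τ p) = 0) (a b : Fin 4) : rm (pull τ G) a b p = 0 := by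
  simp [hτ.rm_pull hG hp, pullE, h0]

theorem ji_scl (G : Tn) {c : ℝ} (hc : c ≠ 0) :
    Geo.Scl (geo G) (geo fun y => c • G y) (fun _ => c) fun _ => c⁻¹ where
  D := rfl
  hf := rfl
  G := rfl
  H := by
    ext i j y
    change (c • G y)⁻¹ i j = c⁻¹ * (G y)⁻¹ i j
    rw [lin_inv_smul _ hc]
    rfl
  inv := funext fun _ => mul_inv_cancel₀ hc
  dt i f := funext fun y => pd_const_mul c f y i
  ds i f := funext fun y => pd_const_mul c⁻¹ f y i

theorem ji_rm_smul (hG : Good G U) (hp : p ∈ U) {c : ℝ} (hc : 0 < c) (a b : Fin 4) :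
    rm (fun y => c • G y) a b p = rm G a b p := by
  have _ := hG.pos p hp
  rw [rm, rm, (ji_scl G hc.ne').rm]

theorem ji_ric_smul (hG : Good G U) (hp : p ∈ U) {c : ℝ} (hc : 0 < c) :
    ric (fun y => c • G y) p = ric G p := by
  have _ := hG.pos p hp
  exact congrFun (bs_ric_smul G hc.ne') p

theorem ji_lich_smul (hG : Good G U) (hh : SmT h U) (hp : p ∈ U) {c : ℝ} (hc : 0 < c) (d : ℝ) :
    lich (fun y => c • G y) (fun y => d • h y) p = (d / c) • lich G h p := by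
  have _ := hG.pos p hp
  have _ := hh 0 0
  have e : lich (fun y => c • G y) h p = c⁻¹ • lich G h p := by
    rw [lich, lich, (ji_scl G hc.ne').lich]
    rfl
  have e' := congrFun (bs_lich_smul (fun y => c • G y) h d) p
  rw [Pi.smul_apply, e, smul_smul] at e'
  exact e'

theorem ji_sm_ric (hG : Good G U) : SmT (ric G) U := hG.sm_ric

theorem ji_sm_lich (hG : Good G U) (hh : SmT h U) : SmT (lich G h) U := hG.sm_lich hh

theorem ji_sm_ipT (hG : Good G U) (hh : SmT h U) : ContDiffOn ℝ ∞ (ipT G h h) U := hG.sm_ipT hh hh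

theorem ji_sm_ipD (hG : Good G U) (hh : SmT h U) : ContDiffOn ℝ ∞ (ipD G h h) U := hG.sm_ipD hh hh

theorem ji_ipM_nonneg {A : Mat} (hA : A.PosDef) (k : Mat) : 0 ≤ ipM A k k := lin_ipM_nonneg hA k

theorem ji_ipD_nonneg (hG : Good G U) (hp : p ∈ U) : 0 ≤ ipD G h h p := bs_ipD_nonneg hG hp h

theorem ji_tr_sq {A : Mat} (hA : A.PosDef) (k : Mat) : (A⁻¹ * k).trace ^ 2 ≤ 4 * ipM A k k := 
  lin_tr_sq_le hA k

theorem ji_kato (hG : Good G U) (hh : SmT h U) (hp : p ∈ U) (X : Fin 4 → ℝ) :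
    (∑ i, X i * pd i (ipT G h h) p) ^ 2 ≤ 4 * (X ⬝ᵥ G p *ᵥ X) * ipT G h h p * ipD G h h p := by
  obtain ⟨s, hs, Z⟩ := hG.lift
  obtain ⟨N, r⟩ := hh.lift
  have hP := hG.pos p hp
  have e : ∀ i, pd i (ipT G h h) p = 2 * ipM (G p) (nab G i h p) (h p) := fun i => by
    have := (Z.D (Z.ipT r r) i).at ((Z.ipT (Z.nab i r) r).add (Z.ipT r (Z.nab i r)))
      (hs.d_ipT i N N) hp
    rw [this, ipT, ipT, lin_ipM_comm (lin_symm hP) (h p), two_mul]
  have h1 := dot_sq_le hP X fun a => ipM (G p) (nab G a h p) (h p)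
  have h2 := ipM_grad_le hP (fun a => nab G a h p) (h p)
  have h3 : ipD G h h p = ip3 (G p) fun a => nab G a h p := ipD_apply G h h p
  have h4 : 0 ≤ X ⬝ᵥ G p *ᵥ X := by simpa using hP.posSemidef.dotProduct_mulVec_nonneg X
  have h5 : ∑ i, X i * pd i (ipT G h h) p = 2 * (X ⬝ᵥ fun a => ipM (G p) (nab G a h p) (h p)) := by
    simp only [e, dotProduct, Finset.mul_sum]
    exact Finset.sum_congr rfl fun i _ => by ring
  rw [h5, h3, ipT]
  nlinarith [mul_le_mul_of_nonneg_left h2 h4]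

end Loc

section Glob

variable {M : Type} [TopologicalSpace M] [ChartedSpace E4 M] [IsManifold (𝓡 4) ∞ M]
  {θ : E4 → M} {U U' : Set E4} {τ : E4 → E4} {g h k : M → Mat} {y : E4}

theorem ji_pt_comp (hθ : Pt θ U) (hτ : LDif τ U' U) : Pt (θ ∘ τ) U' := hθ.comp_ldif hτ

theorem ji_gpull_comp (hθ : Pt θ U) (hτ : LDif τ U' U) (h : M → Mat) (hy : y ∈ U') :
    gpull (θ ∘ τ) h y = pull τ (gpull θ h) y := hθ.gpull_ldif hτ hy h

theorem ji_good (hθ : Pt θ U) (hg : GoodT g) : Good (gpull θ g) U := hg.patch hθ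

theorem ji_smT (hθ : Pt θ U) (hh : SmG h) : SmT (gpull θ h) U := hh.patch hθ

theorem ji_ipM (hθ : Pt θ U) (hy : y ∈ U) :
    ipM (g (θ y)) (h (θ y)) (k (θ y)) = ipM (gpull θ g y) (gpull θ h y) (gpull θ k y) := 
  hθ.ipg_eq hy g h k

theorem ji_trg (hθ : Pt θ U) (hy : y ∈ U) :
    trg g h (θ y) = trG (gpull θ g) (gpull θ h) y := hθ.trg_eq hy g h

theorem ji_symm (θ : E4 → M) (hs : (h (θ y)).IsSymm) : (gpull θ h y).IsSymm := gpull_symm hs

theorem ji_GP (hθ : Pt θ U) (hg : GoodT g) (hh : SmG h) (hy : y ∈ U) :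
    gpull θ (GP g h) y = PP (gpull θ g) (gpull θ h) y := hθ.GP_eq hy hg hh

theorem ji_GE (hθ : Pt θ U) (hg : GoodT g) (hy : y ∈ U) :
    gpull θ (GE g) y = Err (gpull θ g) y := hθ.GE_eq hy hg

theorem ji_sm_GP (hg : GoodT g) (hh : SmG h) : SmG (GP g h) := smG_GP hg hh

theorem ji_sm_GE (hg : GoodT g) : SmG (GE g) := smG_GE hg

theorem ji_nat {θ' : E4 → M} {V : Set E4} (hg : GoodT g) (T : Trs θ θ' U' τ V) (hy : y ∈ V) :
    ipM (gpull θ g y) (rring (gpull θ g) (fun _ => gpull θ h y) y) (gpull θ h y) =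
      ipM (gpull θ' g (τ y)) (rring (gpull θ' g) (fun _ => gpull θ' h (τ y)) (τ y))
        (gpull θ' h (τ y)) ∧
    ipM (gpull θ g y) (ric (gpull θ g) y * (gpull θ g y)⁻¹ * gpull θ h y) (gpull θ h y) =
      ipM (gpull θ' g (τ y)) (ric (gpull θ' g) (τ y) * (gpull θ' g (τ y))⁻¹ * gpull θ' h (τ y))
        (gpull θ' h (τ y)) ∧
    ipM (gpull θ g y) (gpull θ h y) (gpull θ h y) =
      ipM (gpull θ' g (τ y)) (gpull θ' h (τ y)) (gpull θ' h (τ y)) := by
  have hG := hg.patch T.pt'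
  have hJ : IsUnit (jac τ y).det := isUnit_iff_ne_zero.2 (T.ld.det y hy)
  have e := T.evT hy g
  have e1 : rring (gpull θ g) (fun _ => gpull θ h y) y =
      pull τ (rring (gpull θ' g) fun _ => gpull θ' h (τ y)) y := by
    rw [← T.ld.rring_pull hG hy (SmT.const _),
      (rring_cg (locF_nhds y) e EventuallyEq.rfl).self_of_nhds]
    exact rring_at _ (T.gpull hy h)
  have e2 : ric (gpull θ g) y = pull τ (ric (gpull θ' g)) y := by
    rw [← T.ld.ric_pull hG hy, (ric_cg (locF_nhds y) e).self_of_nhds]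
  rw [e1, e2, T.gpull hy g, T.gpull hy h]
  simp only [pull, lin_mulH_conj hJ, lin_ipM_conj hJ, and_self]

theorem ji_GKoi (hθ : Pt θ U) (hg : GoodT g) (hy : y ∈ U) :
    GKoi g h (θ y) = koi (gpull θ g) y (gpull θ h y) := 
  nat_F (L := fun θ y => koi (gpull θ g) y (gpull θ h y)) (fun x => by rw [GKoi, gpull_ch_c0])
    (fun T _ hy => by
      obtain ⟨e1, e2, e3⟩ := ji_nat (h := h) hg T hy
      simp only [koi, e1, e2, e3]) hθ hy

theorem ji_GPot (hθ : Pt θ U) (hg : GoodT g) (hy : y ∈ U) :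
    GPot g h (θ y) = pot (gpull θ g) y (gpull θ h y) := 
  nat_F (L := fun θ y => pot (gpull θ g) y (gpull θ h y)) (fun x => by rw [GPot, gpull_ch_c0])
    (fun T _ hy => by
      obtain ⟨e1, e2, e3⟩ := ji_nat (h := h) hg T hy
      simp only [pot, e1, e2, e3]) hθ hy

theorem ji_GD (hθ : Pt θ U) (hg : GoodT g) (hh : SmG h) (hy : y ∈ U) :
    GD g h h (θ y) = ipD (gpull θ g) (gpull θ h) (gpull θ h) y := hθ.GD_eq hy hg hh hh

theorem ji_GD_nonneg (hg : GoodT g) (x : M) : 0 ≤ GD g h h x := 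
  bs_ipD_nonneg (hg.patch (pt_ch x)) (c0_mem x) _

theorem ji_cont_n0 (hg : GoodT g) (hh : SmG h) : Continuous (n0 g h) := (sm_n0 hg hh).continuous

theorem ji_cont_GD (hg : GoodT g) (hh : SmG h) : Continuous (GD g h h) := (sm_GD hg hh hh).continuous

theorem ji_cont_GKoi (hg : GoodT g) (hh : SmG h) : Continuous (GKoi g h) := (sm_GKoi hg hh).continuous

theorem ji_cont_GPot (hg : GoodT g) (hh : SmG h) : Continuous (GPot g h) := (sm_GPot hg hh).continuous

variable [T2Space M] [CompactSpace M] [MeasurableSpace M] [BorelSpace M]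

theorem ji_fin (hg : GoodT g) : IsFiniteMeasure (volT g) := hg.finite

theorem ji_meas_image (hθ : Pt θ U) {S : Set E4} (hS : MeasurableSet S) (hU : S ⊆ U)
    (hi : InjOn θ S) : MeasurableSet (θ '' S) := by
  have _ := hi
  exact hθ.measurableSet_image hS hU

theorem ji_int (hθ : Pt θ U) (hg : GoodT g) {S : Set E4} (hS : MeasurableSet S) (hU : S ⊆ U)
    (hi : InjOn θ S) {F : M → ℝ} (hF : Integrable F (volT g)) :
    IntegrableOn (fun y => F (θ y) * rho (gpull θ g) y) S ∧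
      ∫ x in θ '' S, F x ∂volT g = ∫ y in S, F (θ y) * rho (gpull θ g) y := by
  have h1 := hθ.restrict_image hS hU hi g
  have hm : AEMeasurable (fun y => ENNReal.ofReal (rho (gpull θ g) y)) (volume.restrict S) :=
    (((hθ.continuousOn_rho hg).mono hU).aemeasurable hS).ennreal_ofReal
  have ha : AEMeasurable θ ((volume.restrict S).withDensity
      fun y => ENNReal.ofReal (rho (gpull θ g) y)) :=
    (hθ.aemeasurable hS hU).mono_ac (withDensity_absolutelyContinuous _ _)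
  have h2 : Integrable F ((volT g).restrict (θ '' S)) := hF.integrableOn
  rw [h1] at h2
  have ht : ∀ᵐ y ∂volume.restrict S, ENNReal.ofReal (rho (gpull θ g) y) < ⊤ :=
    Eventually.of_forall fun _ => ENNReal.ofReal_lt_top
  have e : ∀ y, (ENNReal.ofReal (rho (gpull θ g) y)).toReal = rho (gpull θ g) y :=
    fun y => ENNReal.toReal_ofReal (Real.sqrt_nonneg _)
  constructor
  · have h3 := (integrable_withDensity_iff_integrable_smul₀' hm ht).1
      ((integrable_map_measure h2.1 ha).1 h2)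
    simp only [e, smul_eq_mul, Function.comp] at h3
    simpa only [mul_comm, IntegrableOn] using h3
  · rw [h1, integral_map ha h2.1, integral_withDensity_eq_integral_toReal_smul₀ hm ht]
    simp only [e, smul_eq_mul, mul_comm]

theorem ji_koiso (hg : GoodT g) (hh : SmG h) (hs : ∀ x, (h x).IsSymm) :
    ∫ x, GKoi g h x ∂volT g ≤ ∫ x, ipM (g x) (GP g h x) (h x) ∂volT g := int_koiso hg hh hs

theorem ji_green (hg : GoodT g) (hh : SmG h) (hs : ∀ x, (h x).IsSymm) :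
    ∫ x, (GD g h h x + GPot g h x) ∂volT g = ∫ x, ipM (g x) (GP g h x) (h x) ∂volT g := 
  (int_energy hg hh hs).symm

end Glob

section Jb

/-- A fundamental domain of the part of the core round one centre. -/
def Par.Box (P : Par) : Set E4 := {x | u01 x < 2 ∧ -(P.l / 2) ≤ x 2 ∧ x 2 < P.l / 2 ∧ 0 ≤ x 3 ∧
  x 3 < 4 * π * P.ϱ ∧ 2 * P.ϱ < R3 x}

end Jb

end Pool.Agent.Lib.MP_94aef8_gt
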