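import Pool.Agent.Lib.MP_94aef8_gt.J.ANum

/-! Comparison of the scalar product of a metric with the entries. -/

open scoped Manifold ContDiff Topology
open Matrix Filter Set MeasureTheory Real

namespace Pool.Agent.Lib.MP_94aef8_gt

theorem aip_sum {f : Fin 4 → ℝ} {a : ℝ} (h : ∀ i, |f i| ≤ a) : |∑ i, f i| ≤ 4 * a :=
  (Finset.abs_sum_le_sum_abs _ _).trans
    ((Finset.sum_le_card_nsmul _ _ _ fun i _ => h i).trans_eq (by simp))

theorem aip_mul {M N : Mat} {a b : ℝ} (hM : ∀ i j, |M i j| ≤ a) (hN : ∀ i j, |N i j| ≤ b)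
    (i j : Fin 4) : |(M * N) i j| ≤ 4 * (a * b) :=
  aip_sum fun l => (abs_mul _ _).trans_le
    (mul_le_mul (hM i l) (hN l j) (abs_nonneg _) ((abs_nonneg _).trans (hM i l)))

theorem aip_inv (A : Mat) {c : ℝ} (hc : c ≠ 0) : (c • A)⁻¹ = c⁻¹ • A⁻¹ := by
  simp only [inv_def, det_smul, adjugate_smul, smul_smul, Ring.inverse_eq_inv', Fintype.card_fin,
    mul_inv]
  congr 1
  generalize A.det⁻¹ = x
  field_simp
  ring

/-- A sum of `256` terms. -/
theorem ipM_le {A h k : Mat} {B e f : ℝ} (hA : ∀ i j, |A⁻¹ i j| ≤ B) (hh : ∀ i j, |h i j| ≤ e)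
    (hk : ∀ i j, |k i j| ≤ f) : |ipM A h k| ≤ 256 * B ^ 2 * e * f :=
  (aip_sum fun i => aip_mul (aip_mul (aip_mul hA hh) hA) (N := kᵀ) (fun i j => hk j i) i i).trans_eq
    (by ring)

/-- `v ⬝ A v ≤ 4 B v ⬝ v`, hence `A⁻¹ - (4 B)⁻¹ • 1` is positive semidefinite (apply
`0 ≤ (w - t v) ⬝ A (w - t v)` with `w = A⁻¹ v`, `t = (4 B)⁻¹`). For positive semidefinite `X`, `Y`
one has `0 ≤ trace (X * Y)` (write `Y = Zᵀ * Z`). Use it twice:
`trace (A⁻¹ * (k * A⁻¹ * kᵀ)) ≥ t * trace (k * A⁻¹ * kᵀ) ≥ t ^ 2 * trace (k * kᵀ)`. -/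
theorem ipM_ge {A : Mat} (hA : A.PosDef) {B : ℝ} (hB : ∀ i j, |A i j| ≤ B) (k : Mat) (i j : Fin 4) :
    k i j ^ 2 ≤ 16 * B ^ 2 * ipM A k k := by
  have hs : Aᵀ = A := hA.isHermitian.eq
  have hu : IsUnit A.det := hA.det_pos.ne'.isUnit
  have h0 := ji_ipM_nonneg hA k
  have h1 : (A⁻¹ * (k * (single j i 1 * A))).trace = k i j := by
    rw [trace_mul_comm, ← Matrix.mul_assoc, mul_nonsing_inv_cancel_right _ _ hu, trace_mul_comm,
      trace_single_mul, one_smul]
  have h2 : (single i j 1 * (A * (single j i 1 * A))).trace = A i i * A j j := by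
    rw [trace_single_mul]
    simp [Matrix.mul_apply, single, ite_and, mul_comm]
  have h3 := discrim_le_zero (a := A i i * A j j) (b := 2 * k i j) (c := ipM A k k) fun t => by
    refine (ji_ipM_nonneg hA (k + t • (A * single i j 1 * A))).trans_eq ?_
    simp only [ipM, transpose_add, transpose_smul, transpose_mul, hs, Matrix.mul_add,
      Matrix.add_mul, Matrix.mul_smul, Matrix.smul_mul, trace_add, trace_smul, Matrix.mul_assoc,
      nonsing_inv_mul_cancel_left _ _ hu, mul_nonsing_inv_cancel_left _ _ hu, transpose_single,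
      h1, h2, smul_eq_mul]
    rw [trace_single_mul, one_smul, transpose_apply]
    ring
  have h4 : A i i * A j j ≤ B ^ 2 := (le_abs_self _).trans (by
    rw [abs_mul, sq]
    exact mul_le_mul (hB i i) (hB j j) (abs_nonneg _) ((abs_nonneg _).trans (hB i i)))
  rw [discrim] at h3
  nlinarith [mul_le_mul_of_nonneg_right h4 h0, mul_nonneg (sq_nonneg B) h0]

theorem ipM_smul (A h k : Mat) {c : ℝ} (hc : c ≠ 0) (d e : ℝ) :
    ipM (c • A) (d • h) (e • k) = d * e / c ^ 2 * ipM A h k := by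
  simp only [ipM, aip_inv A hc, transpose_smul, Matrix.mul_smul, Matrix.smul_mul, trace_smul,
    smul_eq_mul]
  field_simp

/-- The two curvature terms of the potentials. -/
noncomputable def cvq (G : Tn) (p : E4) (k : Mat) : ℝ :=
  |ipM (G p) (rring G (fun _ => k) p) k| + |ipM (G p) (ric G p * (G p)⁻¹ * k) k|

/-- Put `f = 4 B √(ipM k k)`, a bound for the entries of `k` (`ipM_ge`); the entries of `R° k`
(`ji_rring`) and of `Ric * G⁻¹ * k` (`ji_ric_rm`) are at most `64 B e f`; then `ipM_le`. -/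
theorem cvq_le {G : Tn} {p : E4} (hG : (G p).PosDef) {B e : ℝ} (h1 : ∀ i j, |G p i j| ≤ B)
    (h2 : ∀ i j, |(G p)⁻¹ i j| ≤ B) (h3 : ∀ a b i j, |rm G a b p i j| ≤ e) (k : Mat) :
    cvq G p k ≤ 2 ^ 19 * B ^ 5 * e * ipM (G p) k k := by
  have h0 := sq_sqrt (ji_ipM_nonneg hG k)
  have hk : ∀ i j, |k i j| ≤ 4 * B * √(ipM (G p) k k) := fun i j =>
    abs_le_of_sq_le_sq ((ipM_ge hG h1 k i j).trans_eq (by rw [mul_pow, h0]; ring))
      (by have := (abs_nonneg _).trans (h1 0 0); positivity)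
  have h4 := ipM_le h2 (h := rring G (fun _ => k) p) (fun i j => by
    rw [ji_rring]
    exact aip_sum fun a => aip_mul (aip_mul h2 hk) (h3 a i) a j) hk
  have h5 := ipM_le h2 (aip_mul (aip_mul (M := ric G p) (fun i j => by
    rw [ji_ric_rm]
    exact aip_sum fun a => h3 a i a j) h2) hk) hk
  refine (add_le_add h4 h5).trans_eq ?_
  linear_combination 2 ^ 19 * B ^ 5 * e * h0

theorem koi_ge_cvq {G : Tn} {p : E4} (hG : (G p).PosDef) (k : Mat) : -cvq G p k ≤ koi G p k := by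
  rw [cvq, koi]
  linarith [ji_ipM_nonneg hG k, le_abs_self (ipM (G p) (rring G (fun _ => k) p) k),
    neg_abs_le (ipM (G p) (ric G p * (G p)⁻¹ * k) k)]

theorem pot_ge_cvq {G : Tn} {p : E4} (hG : (G p).PosDef) (k : Mat) :
    -(2 * cvq G p k) ≤ pot G p k := by
  rw [cvq, pot]
  linarith [ji_ipM_nonneg hG k, le_abs_self (ipM (G p) (rring G (fun _ => k) p) k),
    neg_abs_le (ipM (G p) (ric G p * (G p)⁻¹ * k) k)]

/-- `ji_rring`, `ji_rm_smul`, `ji_ric_smul`, `ipM_smul`. -/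
theorem cvq_smul {G : Tn} {U : Set E4} {p : E4} (hG : Good G U) (hp : p ∈ U) {c : ℝ} (hc : 0 < c)
    (k : Mat) : cvq (fun y => c • G y) p k = (c ^ 3)⁻¹ * cvq G p k := by
  have h1 : rring (fun y => c • G y) (fun _ => k) p = c⁻¹ • rring G (fun _ => k) p := by
    ext i j
    simp only [ji_rring, ji_rm_smul hG hp hc, aip_inv _ hc.ne', Matrix.smul_mul, Matrix.of_apply,
      Matrix.smul_apply, Finset.smul_sum]
  have h2 : ∀ h, |ipM (c • G p) (c⁻¹ • h) k| = (c ^ 3)⁻¹ * |ipM (G p) h k| := fun h => by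
    have := ipM_smul (G p) h k hc.ne' c⁻¹ 1
    rw [one_smul] at this
    rw [this, abs_mul, abs_of_pos (by positivity)]
    field_simp
  simp only [cvq, h1, ji_ric_smul hG hp hc, aip_inv _ hc.ne', Matrix.smul_mul, Matrix.mul_smul, h2,
    mul_add]

end Pool.Agent.Lib.MP_94aef8_gt
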