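import Pool.Agent.Lib.MP_94aef8_gt.J.ANum2
import Pool.Agent.Lib.MP_94aef8_gt.J.AF4

/-! The sharp covering and the boxes round the centres. -/

open scoped Manifold ContDiff Topology
open Matrix Filter Set MeasureTheory Real

namespace Pool.Agent.Lib.MP_94aef8_gt

variable {P : Par} {A : Arith P.K} (D : MD P A)

theorem aj_ext {x y : E4} (h0 : x 0 = y 0) (h1 : x 1 = y 1) (h2 : x 2 = y 2) (h3 : x 3 = y 3) :
    x = y := by
  ext i
  fin_cases i
  exacts [h0, h1, h2, h3]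

theorem aj_u_P2u (e : ℤˣ) {x : E4} (hx : 1 ≤ R3 x) : u01 (P2u e x) = R3 x - 1 := by
  have h := Real.sq_sqrt (sub_nonneg.2 hx)
  have h2 := sin_sq_add_cos_sq (x 3 / 2)
  simp only [u01, P2u, mk4_0, mk4_1, mul_pow, h]
  linear_combination (R3 x - 1) * h2

theorem aj_round (hP : P.Ok) (x : E4) : -(P.l / 2) ≤ P.zj (P.jn x) x ∧ P.zj (P.jn x) x < P.l / 2 := by
  have hl := hP.l_pos
  have h1 := sub_half_lt_round (x 2 / P.l)
  have h2 := round_le_add_half (x 2 / P.l)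
  have e : x 2 = x 2 / P.l * P.l := by field_simp
  unfold Par.zj Par.jn
  constructor <;> nlinarith

theorem aj_onto (e : ℤˣ) {z : E4} (hz : 0 < u01 z) :
    ∃ x : E4, 1 < R3 x ∧ 0 < R3 x + ((e : ℤ) : ℝ) * x 2 ∧ P2u e x = z := by
  obtain ⟨x, h1, h2, h3⟩ := P2u_onto hz
  rcases Int.units_eq_one_or e with rfl | rfl
  · exact ⟨x, h1, h2, h3⟩
  · have e : R3 (mk4 (x 0) (x 1) (-x 2) (x 3)) = R3 x := by simp [R3, u01]
    refine ⟨mk4 (x 0) (x 1) (-x 2) (x 3), e ▸ h1, ?_, ?_⟩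
    · rw [e]
      simpa using h2
    · rw [← h3]
      simp [P2u, e]

theorem aj_covC (hP : P.Ok) (c : A.C) {x : E4} (hx : x ∈ P.UC) : D.Cov (D.pC c x) := by
  have hl := hP.l_pos
  have hδ := hP.δ0
  have hϱ := hP.ϱ0
  have hu := Par.anum2_u_nonneg x
  rcases le_or_gt (P.l ^ 2) (u01 x) with h | h
  · obtain ⟨p, h1, h2⟩ := hP.P1_onto x (by nlinarith)
    have h3 : P.l ≤ √(u01 x) := Real.le_sqrt_of_sq_le h
    have h4 := Real.sq_sqrt hu
    obtain ⟨a1, a2, a3, -, -⟩ := hP.yw_mem h1 (by linarith) (by rw [h4]; exact hx.1)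
    have e : D.pO c p = D.pC c x := by rw [← D.trOC c p a1 a2, h2]
    rcases le_or_gt √(u01 x) (31 / 25) with h5 | h5
    · exact Or.inr (Or.inl ⟨c, p, _, h3, h5, h1, e⟩)
    · refine Or.inl ⟨c, p, by linarith, ?_, e⟩
      rw [h1, Par.yw, mul_one_div, div_le_iff₀ (by positivity)]
      nlinarith [mul_pos hδ (show 0 < √(u01 x) ^ 2 - (31 / 25) ^ 2 by nlinarith)]
  · obtain ⟨r1, r2⟩ := aj_round hP x
    set j := P.jn x
    have eR : R3 (mk4 (x 0) (x 1) (P.zj j x) (x 3)) = P.Rj j x := by simp [R3, u01, Par.Rj]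
    rcases le_or_gt (3 * P.ϱ) (P.Rj j x) with h1 | h1
    · refine Or.inr (Or.inr (Or.inl ⟨c, j, mk4 (x 0) (x 1) (P.zj j x) (x 3), h.le,
        abs_le.2 ⟨r1, r2.le⟩, eR ▸ h1, ?_⟩))
      refine congrArg (D.pC c) (aj_ext rfl rfl ?_ rfl)
      simp [Par.sh, Par.zj]
    · have h2 := hx.2 j
      obtain ⟨e, he⟩ : ∃ e : ℤˣ, 0 ≤ ((e : ℤ) : ℝ) * P.zj j x := by
        rcases le_total 0 (P.zj j x) with h | h
        · exact ⟨1, by simpa using h⟩
        · exact ⟨-1, by simpa using h⟩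
      have h3 : R3 (P.usc j x) = P.Rj j x / P.ϱ := by
        have : P.usc j x = P.ϱ⁻¹ • mk4 (x 0) (x 1) (P.zj j x) (x 3) :=
          aj_ext (by simp [Par.usc, div_eq_inv_mul]) (by simp [Par.usc, div_eq_inv_mul])
            (by simp [Par.usc, div_eq_inv_mul]) (by simp [Par.usc, div_eq_inv_mul])
        rw [this, R3_smul (by positivity), eR, div_eq_inv_mul]
      have h4 : 1 < R3 (P.usc j x) := by rwa [h3, one_lt_div hϱ]
      refine Or.inr (Or.inr (Or.inr ⟨c, j, e, P2u e (P.usc j x), ?_, ?_,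
        D.trCN c j e x hx (by linarith) (by linarith)⟩))
      · rw [aj_u_P2u e h4.le, h3, sub_le_iff_le_add, div_le_iff₀ hϱ]
        linarith
      · have h5 : 0 ≤ ((e : ℤ) : ℝ) * P.usc j x 2 := by
          simp only [Par.usc, mk4_2, ← mul_div_assoc]
          positivity
        have h6 := R3_sq (P.usc j x)
        simp only [u23, P2u, mk4_2, mk4_3, div_pow, ← add_div]
        rw [div_le_one (by positivity)]
        unfold u01 at h6
        nlinarith [sq_nonneg (P.usc j x 2), sq_nonneg (((e : ℤ) : ℝ) * P.usc j x 2)]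

theorem aj_covN (hP : P.Ok) (c : A.C) (j : ℤ) (e : ℤˣ) {z : E4} (hz : z ∈ UN) :
    D.Cov (D.pN c j e z) := by
  have hl := hP.l_pos
  have hl1 := hP.l_le
  have hϱ := hP.ϱ0
  have hϱ1 := hP.rho_le
  have hz3 : u01 z < 3 := hz
  rcases le_or_gt (u01 z) 2 with h | h
  · rcases le_or_gt (u23 z) 1 with h1 | h1
    · exact Or.inr (Or.inr (Or.inr ⟨c, j, e, z, h, h1, rfl⟩))
    · refine Or.inr (Or.inr (Or.inr ⟨c, j, -e, P3 z, h, ?_, ((D.eqN c c j j e (-e) z hz (P3 z) hz).2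
        ⟨rfl, ⟨0, by simp⟩, Or.inr ⟨?_, by linarith, rfl⟩⟩).symm⟩))
      · have e1 : u23 (P3 z) = u23 z / u23 z ^ 2 := by
          simp only [u23, P3, mk4_2, mk4_3, div_pow, ← add_div]
        rw [e1, div_le_one (by positivity)]
        nlinarith
      · rcases Int.units_eq_one_or e with rfl | rfl <;> decide
  · obtain ⟨x, h1, h2, h3⟩ := aj_onto e (z := z) (by linarith)
    have h4 := aj_u_P2u e h1.le
    rw [h3] at h4
    have h5 : R3 (P.ϱ • x) = P.ϱ * R3 x := R3_smul hϱ.le x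
    have h6 := R3_sq (P.ϱ • x)
    have hu := Par.anum2_u_nonneg (P.ϱ • x)
    have h7 : 3 * P.ϱ ≤ R3 (P.ϱ • x) := by rw [h5]; nlinarith
    have h8 : R3 (P.ϱ • x) < 4 * P.ϱ := by rw [h5]; nlinarith
    have h9 : R3 (P.ϱ • x) ^ 2 ≤ (P.l / 2) ^ 2 := by nlinarith
    have h10 : |(P.ϱ • x) 2| ≤ P.l / 2 := abs_le_of_sq_le_sq (by nlinarith) (by positivity)
    have hT : P.ϱ • x ∈ P.UT := ⟨by nlinarith [sq_nonneg ((P.ϱ • x) 2)], by linarith, by linarith⟩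
    have eR : P.Rj j (P.sh j (P.ϱ • x)) = R3 (P.ϱ • x) := by simp [Par.anum2_Rj_sh, R3]
    have ez : P.zj j (P.sh j (P.ϱ • x)) = P.ϱ * x 2 := by simp [Par.zj, Par.sh]
    have eu : P.usc j (P.sh j (P.ϱ • x)) = x := by
      refine aj_ext ?_ ?_ ?_ ?_ <;> simp only [Par.usc, ez, mk4_0, mk4_1, mk4_2, mk4_3] <;>
        simp [Par.sh, hϱ.ne']
    refine Or.inr (Or.inr (Or.inl ⟨c, j, P.ϱ • x, by nlinarith [sq_nonneg ((P.ϱ • x) 2)], h10, h7,
      ?_⟩))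
    have := D.trCN c j e _ (hP.sh_mem j hT) (eR ▸ h8) (by rw [eR, ez, h5]; nlinarith)
    rw [eu, h3] at this
    exact this.symm

theorem ji_cov (hP : P.Geom) (m : D.M) : D.Cov m := by
  have hO := hP.toOk
  have hδ := hO.δ0
  have hδ1 := hO.δ1
  have hl := hO.l_pos
  have hl1 := hO.l_le
  rcases D.cover m with ⟨c, p, hp, rfl⟩ | ⟨c, x, hx, rfl⟩ | ⟨c, j, e, z, hz, rfl⟩
  · have hp1 : 1 / 3 < p 3 := hp.1
    rcases lt_or_ge (p 3) (3 / 8) with h | h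
    · have hH : p ∈ UH := show 0 < p 3 by linarith
      obtain ⟨c', τ, h1, h2⟩ := A.red c p hH
      have h3 : τ p 3 ≤ 3 := by
        by_contra h3
        obtain ⟨-, v, hv⟩ := A.high h1 p hH (by nlinarith)
        rw [hv p hH] at h2
        exact absurd h2 (not_le.2 h)
      have h4 : τ p ∈ P.UO := ⟨by linarith, by
        nlinarith [mul_le_mul hδ1 h3 (by linarith) (by norm_num),
          mul_pos hδ (show 0 < τ p 3 by linarith), show (P.l / 10) ^ 2 ≤ 1 by nlinarith]⟩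
      exact Or.inl ⟨c', τ p, h2, by nlinarith, ((D.eqO c c' p hp _ h4).2 ⟨τ, h1, rfl⟩).symm⟩
    · rcases le_or_gt (P.δ * p 3) (47 / 100) with h1 | h1
      · exact Or.inl ⟨c, p, h, h1, rfl⟩
      · have h2 : P.δ * p 3 * (1 + 3 / 4 * (P.l / 10) ^ 2) < 1 := hp.2
        have h3 : (P.l / 10) ^ 2 < 4 / 3 * (1 / (P.δ * p 3) - 1) := by
          have : 1 + 3 / 4 * (P.l / 10) ^ 2 < 1 / (P.δ * p 3) := by
            rw [lt_div_iff₀ (by linarith)]
            linarith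
          linarith
        have h4 := Real.sq_sqrt ((sq_nonneg _).trans h3.le)
        have h5 : p 3 = P.yw √(4 / 3 * (1 / (P.δ * p 3) - 1)) := by
          rw [Par.yw, h4]
          have : p 3 ≠ 0 := by linarith
          field_simp
          ring
        have h6 : 1 / (P.δ * p 3) < 3 := by
          rw [div_lt_iff₀ (by linarith)]
          linarith
        obtain ⟨-, a2, -, a4, -⟩ := hO.yw_mem h5 (Real.lt_sqrt_of_sq_lt h3) (by linarith)
        rw [← D.trOC c p hp a2]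
        exact aj_covC D hO c a4
  · exact aj_covC D hO c hx
  · exact aj_covN D hO c j e hz

theorem aj_box (hP : P.Ok) {x : E4} (hx : x ∈ P.Box) : x ∈ P.UT := by
  obtain ⟨h1, h2, h3, -, -, h6⟩ := hx
  have := hP.l_pos
  have := hP.ϱ0
  exact ⟨by linarith, abs_lt.2 ⟨by linarith, by linarith⟩, by linarith⟩

theorem aj_K (hP : P.Ok) : (P.K : ℝ) * P.δ = (P.K / 2 : ℕ) * P.l ∧ 0 < P.K / 2 := by
  obtain ⟨k, hk⟩ := hP.K4
  have h0 := hP.K0
  have e : P.K / 2 = 2 * k := by omega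
  refine ⟨?_, by omega⟩
  rw [e, hk, Par.l]
  push_cast
  ring

theorem aj_int {a : ℤ} {t : ℝ} (ht : 0 < t) (h1 : -t < a * t) (h2 : a * t < t) : a = 0 := by
  have a1 : (-1 : ℝ) < a := by nlinarith
  have a2 : (a : ℝ) < 1 := by nlinarith
  have b1 : (-1 : ℤ) < a := by exact_mod_cast a1
  have b2 : a < 1 := by exact_mod_cast a2
  omega

theorem ji_box_inj (hP : P.Geom) {c c' : A.C} {j j' : Fin (P.K / 2)} {x x' : E4} (hx : x ∈ P.Box)
    (hx' : x' ∈ P.Box) (e : D.pT c (j : ℕ) x = D.pT c' (j' : ℕ) x') : c = c' ∧ j = j' ∧ x = x' := by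
  have hO := hP.toOk
  obtain ⟨rfl, a, b, h⟩ := (D.eqC c c' _ (hO.sh_mem _ (aj_box hO hx)) _
    (hO.sh_mem _ (aj_box hO hx'))).1 e
  have e0 : x' 0 = x 0 := congrArg (· 0) h
  have e1 : x' 1 = x 1 := congrArg (· 1) h
  have e2 : x' 2 + ((j' : ℕ) : ℤ) * P.l = x 2 + ((j : ℕ) : ℤ) * P.l + a * (P.K * P.δ) :=
    congrArg (· 2) h
  have e3 : x' 3 = x 3 + b * (4 * π * P.ϱ) := congrArg (· 3) h
  obtain ⟨-, a2, a3, a4, a5, -⟩ := hx
  obtain ⟨-, b2, b3, b4, b5, -⟩ := hx'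
  have hb : b = 0 := aj_int (t := 4 * π * P.ϱ) (by linarith) (by linarith) (by linarith)
  rw [(aj_K hO).1] at e2
  have hk : ((j : ℕ) : ℤ) - (j' : ℕ) + a * (P.K / 2 : ℕ) = 0 :=
    aj_int hO.l_pos
      (by simp only [Int.cast_add, Int.cast_sub, Int.cast_mul, Int.cast_natCast] at e2 ⊢; linarith)
      (by simp only [Int.cast_add, Int.cast_sub, Int.cast_mul, Int.cast_natCast] at e2 ⊢; linarith)
  have j1 : ((j : ℕ) : ℤ) < (P.K / 2 : ℕ) := Int.ofNat_lt.2 j.2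
  have j2 : ((j' : ℕ) : ℤ) < (P.K / 2 : ℕ) := Int.ofNat_lt.2 j'.2
  have j3 := Int.natCast_nonneg (j : ℕ)
  have j4 := Int.natCast_nonneg (j' : ℕ)
  have ha : a = 0 := by
    generalize ((P.K / 2 : ℕ) : ℤ) = k at hk j1 j2
    rcases lt_trichotomy a 0 with h | h | h
    · nlinarith
    · exact h
    · nlinarith
  have hj : j = j' := Fin.ext (by rw [ha] at hk; omega)
  subst hj
  refine ⟨rfl, rfl, aj_ext e0.symm e1.symm ?_ ?_⟩
  · simpa [ha] using e2.symm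
  · simpa [hb] using e3.symm

theorem ji_box_onto (hP : P.Geom) (c : A.C) {x : E4} (hx : x ∈ P.UC) (h1 : u01 x < 2)
    (h2 : 2 * P.ϱ < P.Rn x) : ∃ j : Fin (P.K / 2), ∃ x' ∈ P.Box, D.pT c (j : ℕ) x' = D.pC c x := by
  have hO := hP.toOk
  obtain ⟨k1, k2⟩ := aj_K hO
  obtain ⟨r1, r2⟩ := aj_round hO x
  have hT : 0 < 4 * π * P.ϱ := by have := hO.ϱ0; positivity
  have k3 : (0 : ℤ) < (P.K / 2 : ℕ) := by exact_mod_cast k2
  have m1 := Int.emod_nonneg (P.jn x) k3.ne'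
  have m2 := Int.emod_lt_of_pos (P.jn x) k3
  have m3 := Int.emod_add_mul_ediv (P.jn x) (P.K / 2 : ℕ)
  have f1 := Int.floor_le (x 3 / (4 * π * P.ϱ))
  have f2 := Int.lt_floor_add_one (x 3 / (4 * π * P.ϱ))
  rw [le_div_iff₀ hT] at f1
  rw [div_lt_iff₀ hT] at f2
  have hB : mk4 (x 0) (x 1) (P.zj (P.jn x) x) (x 3 - ⌊x 3 / (4 * π * P.ϱ)⌋ * (4 * π * P.ϱ)) ∈ P.Box :=
    ⟨h1, r1, r2, by simpa using f1, by simp only [mk4_3]; linarith, h2⟩
  refine ⟨⟨(P.jn x % (P.K / 2 : ℕ)).toNat, by omega⟩, _, hB, ((D.eqC c c x hx _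
    (hO.sh_mem _ (aj_box hO hB))).2 ⟨rfl, -(P.jn x / (P.K / 2 : ℕ)), -⌊x 3 / (4 * π * P.ϱ)⌋,
      aj_ext rfl rfl ?_ ?_⟩).symm⟩
  · have m4 : ((P.jn x % (P.K / 2 : ℕ) : ℤ) : ℝ) + (P.K / 2 : ℕ) * ((P.jn x / (P.K / 2 : ℕ) : ℤ) : ℝ) =
        P.jn x := by
      simpa only [Int.cast_add, Int.cast_mul, Int.cast_natCast] using congrArg (Int.cast (R := ℝ)) m3
    simp only [Par.sh, Par.dk, Par.zj, mk4_2, Int.toNat_of_nonneg m1, k1, Int.cast_neg]
    linear_combination P.l * m4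
  · simp only [Par.sh, Par.dk, mk4_3, Int.cast_neg]
    ring

end Pool.Agent.Lib.MP_94aef8_gt
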