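import Pool.Agent.Lib.MP_94aef8_gt.J.AI

/-! Sizes of the parameters, elementary facts on the coordinates and on the scale function. -/

open scoped Manifold ContDiff Topology
open Matrix Filter Set MeasureTheory Real

namespace Pool.Agent.Lib.MP_94aef8_gt

@[simp] theorem mk4_0 (a b c d : ℝ) : mk4 a b c d 0 = a := rfl

@[simp] theorem mk4_1 (a b c d : ℝ) : mk4 a b c d 1 = b := rfl

@[simp] theorem mk4_2 (a b c d : ℝ) : mk4 a b c d 2 = c := rfl

@[simp] theorem mk4_3 (a b c d : ℝ) : mk4 a b c d 3 = d := rfl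

/-- The closed cube. -/
def CQ : Set E4 := {y | ∀ i, |y i| ≤ 3}

theorem anum_sq {y : E4} (hy : y ∈ CQ) (i : Fin 4) : y i ^ 2 ≤ 9 := by
  have h := abs_le.1 (hy i)
  nlinarith [h.1, h.2]

theorem anum_norm (x : E4) : R3 x = ‖mk4 (x 0) (x 1) (x 2) 0‖ := by
  rw [EuclideanSpace.norm_eq, Fin.sum_univ_four, R3, u01]
  simp

theorem anum_proj (i : Fin 4) (p : E4) :
    HasFDerivAt (fun y : E4 => y i) (EuclideanSpace.proj i : E4 →L[ℝ] ℝ) p :=
  (EuclideanSpace.proj i : E4 →L[ℝ] ℝ).hasFDerivAt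

theorem isCompact_CQ : IsCompact CQ := by
  refine Metric.isCompact_of_isClosed_isBounded ?_ ?_
  · rw [CQ, ofPred_forall]
    exact isClosed_iInter fun i => isClosed_le (by fun_prop) continuous_const
  · refine isBounded_iff_forall_norm_le.2 ⟨6, fun y hy => ?_⟩
    rw [EuclideanSpace.norm_eq, Real.sqrt_le_left (by norm_num), Fin.sum_univ_four]
    simp only [Real.norm_eq_abs, sq_abs]
    linarith [anum_sq hy 0, anum_sq hy 1, anum_sq hy 2, anum_sq hy 3]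

theorem Q_sub_CQ : Q 3 ⊆ CQ := fun _ h i => (h i).le

theorem zero_mem_Q {r : ℝ} (hr : 0 < r) : (0 : E4) ∈ Q r := fun i => by simpa using hr

theorem ja_isOpen_Q (r : ℝ) : IsOpen (Q r) := by
  rw [Q, ofPred_forall]
  exact isOpen_iInter_of_finite fun i => isOpen_lt (by fun_prop) continuous_const

theorem R3_sq (x : E4) : R3 x ^ 2 = u01 x + x 2 ^ 2 :=
  Real.sq_sqrt (by unfold u01; positivity)

theorem R3_smul {c : ℝ} (hc : 0 ≤ c) (x : E4) : R3 (c • x) = c * R3 x := by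
  rw [R3, R3, ← Real.sqrt_sq hc, ← Real.sqrt_mul (sq_nonneg c), Real.sqrt_sq hc]
  congr 1
  simp only [u01, PiLp.smul_apply, smul_eq_mul]
  ring

/-- The triangle inequality, with `3 √3 ≤ 6`. -/
theorem R3_add {y : E4} (hy : y ∈ CQ) (x : E4) {c : ℝ} (hc : 0 ≤ c) :
    |R3 (x + c • y) - R3 x| ≤ 6 * c := by
  have h1 : mk4 ((x + c • y) 0) ((x + c • y) 1) ((x + c • y) 2) 0 - mk4 (x 0) (x 1) (x 2) 0 =
      c • mk4 (y 0) (y 1) (y 2) 0 := by
    ext i
    fin_cases i <;> simp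
  have h2 : R3 y ≤ 6 := by
    rw [R3, Real.sqrt_le_left (by norm_num), u01]
    linarith [anum_sq hy 0, anum_sq hy 1, anum_sq hy 2]
  rw [anum_norm, anum_norm x]
  refine (abs_norm_sub_norm_le _ _).trans ?_
  rw [h1, norm_smul, ← anum_norm, Real.norm_of_nonneg hc, mul_comm]
  exact mul_le_mul_of_nonneg_right h2 hc

theorem continuous_R3 : Continuous R3 := by
  unfold R3 u01
  fun_prop

theorem contDiffAt_R3 {x : E4} (hx : 0 < R3 x) : ContDiffAt ℝ ∞ R3 x := by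
  have h : u01 x + x 2 ^ 2 ≠ 0 := by
    rw [← R3_sq]
    positivity
  refine ContDiffAt.sqrt (f := fun y : E4 => u01 y + y 2 ^ 2) ?_ h
  unfold u01
  fun_prop

theorem pd_R3 {x : E4} (hx : 0 < R3 x) (i : Fin 4) :
    pd i R3 x = ![x 0, x 1, x 2, 0] i / R3 x := by
  have h : x 0 ^ 2 + x 1 ^ 2 + x 2 ^ 2 ≠ 0 := by
    rw [← u01, ← R3_sq]
    positivity
  have h1 : HasFDerivAt R3 _ x :=
    ((((anum_proj 0 x).pow 2).add ((anum_proj 1 x).pow 2)).add ((anum_proj 2 x).pow 2)).sqrt h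
  have h2 : √(x 0 ^ 2 + x 1 ^ 2 + x 2 ^ 2) = R3 x := rfl
  rw [pd, h1.fderiv]
  fin_cases i <;> simp [bas, h2] <;> field_simp

/-- The Jacobian matrix of an affine map. -/
theorem jac_aff (q : E4) (c : ℝ) (p : E4) : jac (fun y => q + c • y) p = c • (1 : Mat) := by
  ext i a
  have h : HasFDerivAt (fun y : E4 => (q + c • y) i) _ p :=
    ((anum_proj i p).const_mul c).const_add (q i)
  rw [jac, Matrix.of_apply, pd, h.fderiv]
  simp [bas, Matrix.one_apply]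

theorem pull_aff (q : E4) (c : ℝ) (G : Tn) (p : E4) :
    pull (fun y => q + c • y) G p = c ^ 2 • G (q + c • p) := by
  simp only [pull, jac_aff, Matrix.transpose_smul, Matrix.transpose_one, Matrix.smul_mul,
    Matrix.mul_smul, Matrix.one_mul, Matrix.mul_one, smul_smul, sq]

theorem ld_aff (q : E4) {c : ℝ} (hc : c ≠ 0) {U V : Set E4} (hU : IsOpen U)
    (h : ∀ y ∈ U, q + c • y ∈ V) : LDif (fun y => q + c • y) U V := by
  refine ⟨hU, by fun_prop, h, fun p _ => ?_⟩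
  rw [jac_aff, Matrix.det_smul, Matrix.det_one, mul_one]
  exact pow_ne_zero _ hc

namespace Par

variable {P : Par}

theorem nu_sq (P : Par) : P.nu ^ 2 = 1 + 4 * (P.n : ℝ) ^ 2 := Real.sq_sqrt (by positivity)

theorem one_le_nu (P : Par) : 1 ≤ P.nu :=
  Real.one_le_sqrt.2 (le_add_of_nonneg_right (by positivity))

theorem anum_nu (P : Par) : 2 * (P.n : ℝ) ≤ P.nu :=
  Real.le_sqrt_of_sq_le (by linarith)

theorem anum_K (hP : P.Ok) : (4 : ℝ) ≤ P.K := by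
  exact_mod_cast Nat.le_of_dvd hP.K0 hP.K4

theorem Ok.l_pos (hP : P.Ok) : 0 < P.l := mul_pos two_pos hP.δ0

theorem Ok.l_le (hP : P.Ok) : P.l ≤ 1 / 50 := by
  rw [l]
  linarith [hP.δ1]

theorem Ok.rho_le (hP : P.Ok) : P.ϱ ≤ P.l / 200 := by
  rw [l]
  linarith [hP.ϱ1]

theorem Geom.B_nonneg (hP : P.Geom) : 0 ≤ P.B := by
  have h1 : (0 : ℝ) < P.n := by exact_mod_cast hP.n0
  have h2 := hP.δ0
  have h3 := P.one_le_nu
  unfold B
  positivity

/-- `B l = 8 π n / (K ν) ≤ 4 π / K ≤ π`. -/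
theorem Geom.B_l (hP : P.Geom) : P.B * P.l ≤ 4 := by
  have h1 : (0 : ℝ) < P.n := by exact_mod_cast hP.n0
  have h2 := hP.δ0
  have h3 := P.one_le_nu
  have h4 := anum_K hP.toOk
  have h5 := anum_nu P
  have h6 : P.B * P.l = 8 * π * P.n / (P.K * P.nu) := by
    unfold B l
    field_simp
    ring
  rw [h6, div_le_iff₀ (by positivity)]
  have h7 : π * P.n ≤ 4 * P.n := mul_le_mul_of_nonneg_right pi_le_four h1.le
  have h8 : 4 * P.nu ≤ P.K * P.nu := mul_le_mul_of_nonneg_right h4 (by positivity)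
  linarith

/-- `ϱ = 3 K ^ 2 l ^ 2 / (64 π ^ 2)`. -/
theorem Geom.rho_sq (hP : P.Geom) : P.ϱ ≤ (P.K : ℝ) ^ 2 * P.l ^ 2 := by
  have h2 := hP.δ0
  have h3 := P.one_le_nu
  have h4 := anum_K hP.toOk
  have h5 : P.δ * (3 * P.K * P.nu) = 4 * π := by
    rw [hP.hδ]
    field_simp
  have h6 : P.ϱ * (4 * π * P.nu) = P.δ * P.K := by
    rw [hP.hϱ]
    field_simp
  have h7 : P.ϱ * (16 * π ^ 2) = 3 * (P.K * P.δ) ^ 2 := by
    apply mul_right_cancel₀ (b := P.nu) (by positivity)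
    linear_combination 4 * π * h6 - P.δ * P.K * h5
  have h8 : P.ϱ * 9 ≤ P.ϱ * π ^ 2 :=
    mul_le_mul_of_nonneg_left (by nlinarith [pi_gt_three]) hP.ϱ0.le
  have h9 : (P.K : ℝ) ^ 2 * P.l ^ 2 = 4 * (P.K * P.δ) ^ 2 := by
    rw [l]
    ring
  rw [h9]
  linarith [hP.ϱ0, sq_nonneg (P.K * P.δ)]

/-- `l = 8 π / (3 K ν) ≤ 2 / n`. -/
theorem Geom.l_small {ε : ℝ} (hε : 0 < ε) : ∃ n0 : ℤ, ∀ P : Par, P.Geom → n0 ≤ P.n → P.l ≤ ε := by
  refine ⟨⌈2 / ε⌉, fun P hP hn => ?_⟩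
  have h1 : 2 ≤ P.n * ε := (div_le_iff₀ hε).1 (Int.ceil_le.1 hn)
  have h3 := P.one_le_nu
  have h4 := anum_K hP.toOk
  have h5 := anum_nu P
  have h6 : 4 * P.nu ≤ P.K * P.nu := mul_le_mul_of_nonneg_right h4 (by positivity)
  have h7 : 8 * P.n * ε ≤ P.K * P.nu * ε := mul_le_mul_of_nonneg_right (by linarith) hε.le
  rw [l, hP.hδ, ← mul_div_assoc, div_le_iff₀ (by positivity)]
  linarith [pi_le_four]

end Par

end Pool.Agent.Lib.MP_94aef8_gt
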