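import Pool.Agent.Lib.MP_94aef8_gt.J.ADiag2
import Pool.Agent.Lib.MP_94aef8_gt.J.ANum2

/-! The metric of the slab in the adapted frame. -/

open scoped Manifold ContDiff Topology
open Matrix Filter Set MeasureTheory Real

namespace Pool.Agent.Lib.MP_94aef8_gt

theorem aom_fd (i : Fin 4) (p : E4) :
    HasFDerivAt (fun y : E4 => y i) (EuclideanSpace.proj i : E4 →L[ℝ] ℝ) p :=
  (EuclideanSpace.proj i : E4 →L[ℝ] ℝ).hasFDerivAt

theorem aom_cd (i : Fin 4) : ContDiff ℝ ∞ (fun y : E4 => y i) :=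
  (EuclideanSpace.proj i : E4 →L[ℝ] ℝ).contDiff

theorem aom_pd_lin (c u w : ℝ) (i j a : Fin 4) (p : E4) :
    pd a (fun y : E4 => c + (u * y i + w * y j)) p = u * bas a i + w * bas a j := by
  unfold pd
  rw [((((aom_fd i p).const_mul u).fun_add ((aom_fd j p).const_mul w)).const_add c).fderiv]
  simp

theorem aom_pd_3 {Y : ℝ → ℝ} {Y' : ℝ} {p : E4} (hY : HasDerivAt Y Y' (p 3)) (a : Fin 4) :
    pd a (fun y : E4 => Y (y 3)) p = Y' * bas a 3 := by
  unfold pd
  have := (hY.comp_hasFDerivAt p (aom_fd 3 p)).fderiv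
  rw [show (fun y : E4 => Y (y 3)) = Y ∘ fun y : E4 => y 3 from rfl, this]
  simp

theorem aom_sq1 (J : Mat) (a : Fin 4 → ℝ) : Jᵀ * sq1 a * J = sq1 (a ᵥ* J) := by
  unfold sq1
  rw [Matrix.mul_vecMulVec, Matrix.vecMulVec_mul, Matrix.mulVec_transpose]

namespace Par

variable {P : Par} {q p : E4} {α β Y' : ℝ} {Y : ℝ → ℝ}

/-- The four component functions are affine in `p 0`, `p 1`, `p 2`, or functions of `p 3`. -/
theorem jac_fr (P : Par) (hY : HasDerivAt Y Y' (p 3)) :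
    jac (fun y => P.fr q α β (Y (y 3)) y) p = !![α / P.nu, -(2 * P.n * β) / P.nu, 0, 0;
      2 * P.n * α / P.nu, β / P.nu, 0, 0; 0, 0, β, 0; 0, 0, 0, Y'] := by
  have e0 : (fun y : E4 => P.fr q α β (Y (y 3)) y 0) =
      fun y => q 0 + (α / P.nu * y 0 + -(2 * P.n * β) / P.nu * y 1) := by
    funext y
    simp only [fr, mk4_0]
    ring
  have e1 : (fun y : E4 => P.fr q α β (Y (y 3)) y 1) =
      fun y => q 1 + (2 * P.n * α / P.nu * y 0 + β / P.nu * y 1) := by
    funext y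
    simp only [fr, mk4_1]
    ring
  have e2 : (fun y : E4 => P.fr q α β (Y (y 3)) y 2) = fun y => q 2 + (β * y 2 + 0 * y 2) := by
    funext y
    simp only [fr, mk4_2]
    ring
  have e3 : (fun y : E4 => P.fr q α β (Y (y 3)) y 3) = fun y => Y (y 3) := rfl
  ext i a
  fin_cases i
  · refine (congrArg (fun f => pd a f p) e0).trans ?_
    simp only [aom_pd_lin]
    fin_cases a <;> simp [bas]
  · refine (congrArg (fun f => pd a f p) e1).trans ?_
    simp only [aom_pd_lin]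
    fin_cases a <;> simp [bas]
  · refine (congrArg (fun f => pd a f p) e2).trans ?_
    simp only [aom_pd_lin]
    fin_cases a <;> simp [bas]
  · refine (congrArg (fun f => pd a f p) e3).trans ?_
    simp only [aom_pd_3 hY]
    fin_cases a <;> simp [bas]

theorem aom_nu_ne (P : Par) : P.nu ≠ 0 := (lt_of_lt_of_le one_pos P.one_le_nu).ne'

/-- `nu_sq`. -/
theorem det_jac_fr (P : Par) (hY : HasDerivAt Y Y' (p 3)) :
    (jac (fun y => P.fr q α β (Y (y 3)) y) p).det = α * β ^ 2 * Y' := by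
  rw [P.jac_fr hY]
  have h0 := P.aom_nu_ne
  have h2 := P.nu_sq
  simp [Matrix.det_succ_row_zero, Fin.sum_univ_succ, Fin.succAbove]
  field_simp
  rw [h2]
  ring

/-- `Jᵀ * sq1 a * J = sq1 (a ᵥ* J)`; the four covectors of `GO` pull back to `Y' e3`, `α e0`,
`β e1`, `β e2` (`nu_sq`). -/
theorem pull_fr (P : Par) (hY : HasDerivAt Y Y' (p 3)) :
    pull (fun y => P.fr q α β (Y (y 3)) y) P.GO p =
      diagonal ![α ^ 2 * P.vO (Y (p 3)) / Y (p 3) ^ 2, β ^ 2 / Y (p 3) ^ 2, β ^ 2 / Y (p 3) ^ 2,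
        Y' ^ 2 / (P.vO (Y (p 3)) * Y (p 3) ^ 2)] := by
  have h0 := P.aom_nu_ne
  have h2 := P.nu_sq
  unfold pull
  rw [P.jac_fr hY]
  generalize hJ : (!![α / P.nu, -(2 * P.n * β) / P.nu, 0, 0;
      2 * P.n * α / P.nu, β / P.nu, 0, 0; 0, 0, β, 0; 0, 0, 0, Y'] : Mat) = J
  have e3 : ee 3 ᵥ* J = ![0, 0, 0, Y'] := by
    subst hJ
    funext i
    fin_cases i <;> simp [ee]
  have e2 : ee 2 ᵥ* J = ![0, 0, β, 0] := by
    subst hJ
    funext i
    fin_cases i <;> simp [ee]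
  have e0 : ![1 / P.nu, 2 * P.n / P.nu, 0, 0] ᵥ* J = ![α, 0, 0, 0] := by
    subst hJ
    funext i
    fin_cases i <;> simp [Matrix.vecMul, dotProduct, Fin.sum_univ_four]
    · field_simp
      rw [h2]
      ring
    · field_simp
      ring
  have e1 : ![-2 * P.n / P.nu, 1 / P.nu, 0, 0] ᵥ* J = ![0, β, 0, 0] := by
    subst hJ
    funext i
    fin_cases i <;> simp [Matrix.vecMul, dotProduct, Fin.sum_univ_four]
    · field_simp
      ring
    · field_simp
      rw [h2]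
      ring
  simp only [GO, fr, mk4_3, Matrix.mul_smul, Matrix.smul_mul, Matrix.mul_add, Matrix.add_mul,
    aom_sq1, e0, e1, e2, e3]
  ext i j
  fin_cases i <;> fin_cases j <;> simp [sq1] <;> ring

theorem ld_fr (P : Par) (q : E4) (hα : α ≠ 0) (hβ : β ≠ 0) {I : Set ℝ} (hI : IsOpen I)
    (hs : ContDiffOn ℝ ∞ Y I) (h0 : ∀ t ∈ I, deriv Y t ≠ 0) {U V : Set E4} (hU : IsOpen U)
    (hUI : ∀ y ∈ U, y 3 ∈ I) (hm : ∀ y ∈ U, P.fr q α β (Y (y 3)) y ∈ V) :
    LDif (fun y => P.fr q α β (Y (y 3)) y) U V := by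
  refine ⟨hU, ?_, hm, fun y hy => ?_⟩
  · refine contDiffOn_euclidean.2 fun i => ?_
    fin_cases i
    · exact (contDiff_const.add (((contDiff_const.mul (aom_cd 0)).sub
        (contDiff_const.mul (aom_cd 1))).div_const _)).contDiffOn
    · exact (contDiff_const.add (((contDiff_const.mul (aom_cd 0)).add
        (contDiff_const.mul (aom_cd 1))).div_const _)).contDiffOn
    · exact (contDiff_const.add (contDiff_const.mul (aom_cd 2))).contDiffOn
    · exact hs.comp (aom_cd 3).contDiffOn hUI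
  · have hd : DifferentiableAt ℝ Y (y 3) :=
      (hs.contDiffAt (hI.mem_nhds (hUI y hy))).differentiableAt (by simp)
    rw [P.det_jac_fr hd.hasDerivAt]
    exact mul_ne_zero (mul_ne_zero hα (pow_ne_zero _ hβ)) (h0 _ (hUI y hy))

/-- The frame map with unit scales. -/
noncomputable def T0 (P : Par) (q y : E4) : E4 := P.fr q 1 1 (y 3) y

theorem isOpen_UO (P : Par) : IsOpen P.UO :=
  (isOpen_lt continuous_const (aom_cd 3).continuous).inter
    (isOpen_lt ((continuous_const.mul (aom_cd 3).continuous).mul continuous_const) continuous_const)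

theorem ld_T0 (P : Par) (q : E4) : LDif (P.T0 q) P.UO P.UO :=
  P.ld_fr (Y := fun t => t) q one_ne_zero one_ne_zero isOpen_univ contDiffOn_id
    (fun t _ => by simp) P.isOpen_UO (fun _ _ => mem_univ _) fun _ hy => hy

theorem pull_T0 (P : Par) (q y : E4) : pull (P.T0 q) P.GO y = Gd (aG P.vO 0) y := by
  refine (P.pull_fr (q := q) (α := 1) (β := 1) (Y := fun t => t) (hasDerivAt_id' (y 3))).trans ?_
  unfold Gd
  congr 1
  funext i
  fin_cases i <;> simp [aG]

theorem T0_base (P : Par) (q : E4) : P.T0 q (mk4 0 0 0 (q 3)) = q := by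
  ext i
  fin_cases i <;> simp [T0, fr]

theorem vO_smooth (P : Par) : ContDiff ℝ ∞ P.vO :=
  contDiff_const.sub ((smoothTransition.contDiff.comp (contDiff_id.sub contDiff_const)).mul
    ((contDiff_const.mul contDiff_id).pow 3))

theorem Ok.vO_pos (hP : P.Ok) {y : ℝ} (h0 : 0 < y) (h1 : P.δ * y < 1) : 0 < P.vO y := by
  have h2 : 0 ≤ P.δ * y := (mul_pos hP.δ0 h0).le
  have h3 : (P.δ * y) ^ 3 < 1 := pow_lt_one₀ h2 h1 (by norm_num)
  have h4 := mul_le_of_le_one_left (pow_nonneg h2 3) (smoothTransition.le_one (y - 3))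
  unfold vO
  linarith

theorem Ok.UO_lt (hP : P.Ok) (hp : p ∈ P.UO) : 0 < p 3 ∧ P.δ * p 3 < 1 := by
  have h0 : 0 < p 3 := lt_trans (by norm_num) hp.1
  refine ⟨h0, lt_of_le_of_lt ?_ hp.2⟩
  exact le_mul_of_one_le_right (mul_pos hP.δ0 h0).le (by nlinarith [sq_nonneg (P.l / 10)])

/-- Take determinants in `pull_T0` at the base point. -/
theorem Ok.rho_GO (hP : P.Ok) (hp : p ∈ P.UO) : rho P.GO p = (p 3 ^ 4)⁻¹ := by
  obtain ⟨h0, h1⟩ := hP.UO_lt hp
  have hv := (hP.vO_pos h0 h1).ne'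
  have e := congrArg Matrix.det (P.pull_T0 p (mk4 0 0 0 (p 3)))
  have hJ : (jac (P.T0 p) (mk4 0 0 0 (p 3))).det = 1 :=
    (P.det_jac_fr (q := p) (α := 1) (β := 1) (Y := fun t => t) (hasDerivAt_id' _)).trans (by norm_num)
  unfold pull Gd at e
  rw [Matrix.det_mul, Matrix.det_mul, Matrix.det_transpose, hJ, P.T0_base, Matrix.det_diagonal,
    Fin.prod_univ_four] at e
  have e' : (P.GO p).det = ((p 3 ^ 4)⁻¹) ^ 2 := by
    rw [one_mul, mul_one] at e
    rw [e]
    simp [aG]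
    field_simp
  unfold rho
  rw [e', Real.sqrt_sq (by positivity)]

end Par

end Pool.Agent.Lib.MP_94aef8_gt
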