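import Pool.Agent.Lib.MP_94aef8_gt.J.AJ
import Pool.Agent.Lib.MP_94aef8_gt.J.AF12
import Pool.Agent.Lib.MP_94aef8_gt.J.AF3b
import Pool.Agent.Lib.MP_94aef8_gt.J.AF4
import Pool.Agent.Lib.MP_94aef8_gt.J.ATr

/-! The patches are good. -/

open scoped Manifold ContDiff Topology
open Matrix Filter Set MeasureTheory Real

namespace Pool.Agent.Lib.MP_94aef8_gt

variable {P : Par} {A : Arith P.K} {D : MD P A}

/-- `FP.of_comp` with `c = 1`. -/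
theorem AP.fp1 (a : AP D) (hP : P.Ok) (c : A.C) {q : E4} (hq : q ∈ P.A1) :
    FP a.g (D.pO c ∘ P.T1 q) (Q 3) 1 (G1 (min (q 3) 5, (P.δ * q 3) ^ 3)) :=
  FP.of_comp (c := 1) (D.ptO c) (fun x hx => by rw [a.gO c x hx, one_smul]) (hP.ld_T1 hq).1 one_pos
    fun y hy => by rw [hP.pull_T1 hq y hy, one_pow]

theorem AP.fp2 (a : AP D) (hP : P.Ok) (c : A.C) {q : E4} (hq : q ∈ P.A2) :
    FP a.g (D.pO c ∘ P.T2 q) (Q 3) (q 3 / 2) (G2 (q 3)) :=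
  FP.of_comp (c := 1) (D.ptO c) (fun x hx => by rw [a.gO c x hx, one_smul]) (hP.ld_T2 hq)
    (by linarith [hq.1, hP.l_pos]) fun y hy => by rw [hP.pull_T2 hq y hy, one_smul]

theorem AP.fp3 (a : AP D) (hP : P.Ok) (c : A.C) (j : ℤ) {q : E4} (hq : q ∈ P.A3) :
    FP a.g (D.pT c j ∘ T3 q) (Q 3) (R3 q) (G3 (P.z3 q)) :=
  FP.of_comp (c := 1) (D.ptT hP c j) (fun x hx => (a.gT c j x hx).trans (one_smul _ _).symm)
    (hP.ld_T3 hq) (hP.R3_A3 hq).1 fun y hy => by rw [hP.pull_T3 hq y hy, one_smul]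

theorem AP.fp4 (a : AP D) (hP : P.Ok) (c : A.C) (j : ℤ) (e : ℤˣ) {q : E4} (hq : q ∈ A4) :
    FP a.g (D.pN c j e ∘ T4 q) (Q 3) P.ϱ (G4 (q, P.B * P.ϱ)) :=
  FP.of_comp (D.ptN c j e) (a.gN c j e) (ld_T4 hq) hP.ϱ0 fun y _ => by rw [pull_T4]

theorem Par.Geom.beta_mem (hP : P.Geom) : P.B * P.ϱ ∈ Icc (0 : ℝ) 1 := by
  have h1 := hP.B_nonneg
  refine ⟨mul_nonneg h1 hP.ϱ0.le, ?_⟩
  linarith [mul_le_mul_of_nonneg_left hP.toOk.rho_le h1, hP.B_l]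

/-- First family: `s = 1` (`sO`, `ld_T1`). Second: `s_yw` with `w = q3 (1 + cc y3)`.
Third: `sC`, `Rn_sh_le`, `Rn_sh_ge`, `T3_mem`. Fourth: `sN`. -/
theorem AP.s_Th (a : AP D) (hP : P.Ok) (i : Ix P A.C) : 0 < i.sig ∧ i.sig ≤ 1 ∧ ∀ y ∈ Q 3,
    a.s (D.Th i y) ≤ 5 * i.sig ∧ i.sig ≤ 5 * a.s (D.Th i y) := by
  have l0 := hP.l_pos
  have l1 := hP.l_le
  have r0 := hP.ϱ0
  have r1 := hP.rho_le
  cases i with
  | f1 c q =>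
    refine ⟨one_pos, le_rfl, fun y hy => ?_⟩
    have h := a.sO c _ ((hP.ld_T1 q.2).1.maps hy) ((hP.ld_T1 q.2).2 y hy)
    change a.s (D.pO c (P.T1 q.1 y)) ≤ 5 * 1 ∧ 1 ≤ 5 * a.s (D.pO c (P.T1 q.1 y))
    rw [h]
    norm_num
  | f2 c q =>
    obtain ⟨q, q1, q2⟩ := q
    change 0 < q 3 / 2 ∧ q 3 / 2 ≤ 1 ∧ ∀ y ∈ Q 3, a.s (D.pO c (P.T2 q y)) ≤ 5 * (q 3 / 2) ∧
      q 3 / 2 ≤ 5 * a.s (D.pO c (P.T2 q y))
    refine ⟨by linarith, by linarith, fun y hy => ?_⟩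
    have q0 : 0 < q 3 := by linarith
    obtain ⟨y1, y2⟩ := abs_lt.1 (hy 3)
    have w1 : 97 / 100 * q 3 ≤ q 3 * (1 + cc * y 3) := by
      rw [cc]
      nlinarith
    have w2 : q 3 * (1 + cc * y 3) ≤ 103 / 100 * q 3 := by
      rw [cc]
      nlinarith
    obtain ⟨h1, h2⟩ := a.s_yw hP c (P.T2_three q y) (by linarith) (by nlinarith)
    refine ⟨by linarith, ?_⟩
    rcases min_le_iff.1 h1 with h | h <;> linarith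
  | f3 c j q =>
    obtain ⟨q, hq⟩ := q
    obtain ⟨q0, q1⟩ := hP.R3_A3 hq
    change 0 < R3 q ∧ R3 q ≤ 1 ∧ ∀ y ∈ Q 3, a.s (D.pC c (P.sh j (T3 q y))) ≤ 5 * R3 q ∧
      R3 q ≤ 5 * a.s (D.pC c (P.sh j (T3 q y)))
    refine ⟨q0, by linarith, fun y hy => ?_⟩
    obtain ⟨h1, h2, h3, h4⟩ := hP.T3_mem hq hy
    have h5 := hP.Rn_sh_le j (T3 q y)
    have h6 := hP.Rn_sh_ge j h2
    rw [a.sC c _ (hP.sh_mem j h1)]
    refine ⟨(min_le_right _ _).trans (by linarith), ?_⟩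
    rcases min_choice 1 (P.Rn (P.sh j (T3 q y))) with h | h <;> rw [h] <;> linarith
  | f4 c j e q =>
    obtain ⟨q, hq⟩ := q
    change 0 < P.ϱ ∧ P.ϱ ≤ 1 ∧ ∀ y ∈ Q 3, a.s (D.pN c j e (T4 q y)) ≤ 5 * P.ϱ ∧
      P.ϱ ≤ 5 * a.s (D.pN c j e (T4 q y))
    refine ⟨r0, by linarith, fun y hy => ?_⟩
    have h1 : u01 (T4 q y) < 3 := (ld_T4 hq).maps hy
    have h2 := Par.anum2_u_nonneg (T4 q y)
    rw [a.sN c j e _ h1]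
    constructor <;> nlinarith

/-- `FamOK.goodB` for the four families, `FP.goodB`. -/
theorem gpt_Th : ∃ C, 5 ≤ C ∧ ∀ P : Par, P.Geom → ∀ (A : Arith P.K) (D : MD P A) (a : AP D)
    (i : Ix P A.C), GPt a.g a.s C (D.Th i) i.sig := by
  obtain ⟨C1, h1⟩ := famOK_G1.goodB
  obtain ⟨C2, h2⟩ := famOK_G2.goodB
  obtain ⟨C3, h3⟩ := famOK_G3.goodB
  obtain ⟨C4, h4⟩ := famOK_G4.goodB
  obtain ⟨C, c0, c1, c2, c3, c4⟩ : ∃ C : ℝ, 5 ≤ C ∧ C1 ≤ C ∧ C2 ≤ C ∧ C3 ≤ C ∧ C4 ≤ C :=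
    ⟨max 5 (max C1 (max C2 (max C3 C4))), by simp⟩
  refine ⟨C, c0, fun P hP A D a i => ?_⟩
  have hO := hP.toOk
  obtain ⟨s0, s1, s2⟩ := a.s_Th hO i
  have key : ∀ G, FP a.g (D.Th i) (Q 3) i.sig G → GoodB C G → GPt a.g a.s C (D.Th i) i.sig :=
    fun G H hG => ⟨H.pt, s0, s1, H.goodB hG, fun y hy => (s2 y hy).1.trans (by gcongr),
      fun y hy => (s2 y hy).2.trans
        (mul_le_mul_of_nonneg_right c0 (by linarith [(s2 y hy).2]))⟩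
  cases i with
  | f1 c q => exact key _ (a.fp1 hO c q.2) (h1 _ (hO.mem_K1 q.2) C c1)
  | f2 c q =>
    exact key _ (a.fp2 hO c q.2) (h2 _ ⟨by linarith [q.2.1, hO.l_pos], q.2.2⟩ C c2)
  | f3 c j q => exact key _ (a.fp3 hO c j q.2) (h3 _ (hP.mem_K3 q.2) C c3)
  | f4 c j e q => exact key _ (a.fp4 hO c j e q.2) (h4 _ ⟨q.2, hP.beta_mem⟩ C c4)

end Pool.Agent.Lib.MP_94aef8_gt
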