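import Pool.Agent.Lib.MP_94aef8_gt.J.APat
import Pool.Agent.Lib.MP_94aef8_gt.J.ASW
import Pool.Agent.Lib.MP_94aef8_gt.J.AOm2

/-! Lower bounds for the potentials. -/

open scoped Manifold ContDiff Topology
open Matrix Filter Set MeasureTheory Real

namespace Pool.Agent.Lib.MP_94aef8_gt

theorem apot_n0 {P : Par} {A : Arith P.K} {D : MD P A} (a : AP D) (h : D.M → Mat) (m : D.M) :
    0 ≤ n0 a.g h m := ji_ipM_nonneg (a.good.pos m) _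

theorem apot_fp {P : Par} {A : Arith P.K} {D : MD P A} (a : AP D) (h : D.M → Mat) {θ : E4 → D.M}
    {σ c C : ℝ} {G : Tn} (H : FP a.g θ (Q 3) σ G) (hc : 0 ≤ c)
    (e : ∀ k : Mat, cvq G 0 k ≤ c * ipM (G 0) k k) (hC : 2 * c / σ ^ 2 ≤ C) {m : D.M}
    (hm : θ 0 = m) : -C * n0 a.g h m ≤ GKoi a.g h m ∧ -C * n0 a.g h m ≤ GPot a.g h m := by
  subst hm
  have h1 := H.cvq_ge (h := h) a.good (zero_mem_Q three_pos) hc e
  have h2 := mul_le_mul_of_nonneg_right (neg_le_neg hC) (apot_n0 a h (θ 0))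
  exact ⟨h2.trans h1.1, h2.trans h1.2⟩

theorem apot_A3 {P : Par} (hP : P.Ok) {x : E4} (h1 : u01 x ≤ P.l ^ 2) (h2 : |x 2| ≤ P.l / 2)
    (h3 : 3 * P.ϱ ≤ R3 x) : x ∈ P.A3 := by
  have := hP.l_pos
  have := hP.ϱ0
  exact ⟨by nlinarith, by linarith, by linarith⟩

/-- `P1_onto`, `yw_mem`, `trOC`, `slab_potM`: `δ y = 1 / r`, `r = 1 + 3 / 4 u ≤ 5 / 2`,
`2 (1 - r⁻¹ ^ 3) ≥ 2 (1 - r⁻¹) ≥ u / 4`. The point is `pC c (sh j x)`, `u01 (sh j x) = u01 x`. -/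
theorem pot_out : ∃ δ0, 0 < δ0 ∧ ∀ P : Par, P.Ok → P.δ ≤ δ0 → ∀ (A : Arith P.K) (D : MD P A)
    (a : AP D) (h : D.M → Mat), (∀ x, (h x).IsSymm) → ∀ c j (x : E4), P.l ^ 2 ≤ u01 x →
      u01 x ≤ 2 → u01 x / 4 * n0 a.g h (D.pT c j x) ≤ GKoi a.g h (D.pT c j x) ∧
        -20 * n0 a.g h (D.pT c j x) ≤ GPot a.g h (D.pT c j x) := by
  obtain ⟨δ0, h0, H⟩ := slab_potM
  refine ⟨δ0, h0, fun P hP hδ A D a h hs c j x h1 h2 => ?_⟩
  have hl := hP.l_pos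
  have hu : 0 < u01 x := lt_of_lt_of_le (by positivity) h1
  obtain ⟨p, e1, e2⟩ := hP.P1_onto (P.sh j x) (by rwa [P.anum2_u_sh])
  rw [P.anum2_u_sh] at e1
  have hw := sq_sqrt hu.le
  obtain ⟨hp, hy, -⟩ := hP.yw_mem e1 (by linarith [le_sqrt_of_sq_le h1]) (by linarith)
  have e : D.pT c j x = D.pO c p := by rw [← D.trOC c p hp hy, e2]; rfl
  obtain ⟨h3, h4⟩ := H P hP hδ A D a h hs c p hp
  rw [e]
  refine ⟨le_trans (mul_le_mul_of_nonneg_right (le_min (by linarith) ?_) (apot_n0 a h _)) h3, h4⟩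
  have h5 : P.δ * p 3 * (1 + 3 / 4 * u01 x) = 1 := by
    have := hP.δ0
    rw [e1, Par.yw, hw]
    field_simp
  have h6 : 0 < P.δ * p 3 := mul_pos hP.δ0 (hP.UO_lt hp).1
  have h7 := (hP.UO_lt hp).2
  generalize P.δ * p 3 = t at h5 h6 h7
  have h8 : t ^ 3 ≤ t := pow_le_of_le_one h6.le h7.le three_ne_zero
  have h9 : 2 / 5 ≤ t := by nlinarith
  nlinarith

/-- `fp3`, `FamOK.curv` with the flat partner (`rm_G3`), distance at most `ϱ / R + R`,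
`FP.cvq_ge`. -/
theorem pot_tube : ∃ C, 0 ≤ C ∧ ∀ P : Par, P.Geom → ∀ (A : Arith P.K) (D : MD P A) (a : AP D)
    (h : D.M → Mat) (c : A.C) (j : ℤ), ∀ x ∈ P.A3,
      -(C * (P.ϱ / R3 x ^ 3 + 1 / R3 x)) * n0 a.g h (D.pT c j x) ≤ GKoi a.g h (D.pT c j x) ∧
        -(C * (P.ϱ / R3 x ^ 3 + 1 / R3 x)) * n0 a.g h (D.pT c j x) ≤ GPot a.g h (D.pT c j x) := by
  obtain ⟨C, h0, H⟩ := famOK_G3.curv
  refine ⟨2 * C, by positivity, fun P hP A D a h c j x hx => ?_⟩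
  have hR := (hP.toOk.R3_A3 hx).1
  have hϱ := hP.ϱ0
  have hK := hP.mem_K3 hx
  have hK' : ((P.z3 x).1, (0 : ℝ), R3 x / P.l, P.B * R3 x, (0 : ℝ)) ∈ K3 :=
    ⟨hK.1, ⟨le_rfl, by norm_num⟩, hK.2.2.1, hK.2.2.2.1, le_rfl, zero_le_one⟩
  refine apot_fp a h (a.fp3 hP.toOk c j hx) (mul_nonneg h0 (norm_nonneg _))
    (H _ hK _ hK' (rm_G3 _ _ _ 0)) ?_ (congrArg (D.pT c j) (T3_zero x))
  have h1 : ‖P.z3 x - ((P.z3 x).1, (0 : ℝ), R3 x / P.l, P.B * R3 x, (0 : ℝ))‖ ≤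
      P.ϱ / R3 x + R3 x := by
    have h2 : 0 ≤ P.ϱ / R3 x := by positivity
    simp only [Par.z3, Prod.mk_sub_mk, sub_self, sub_zero, Prod.norm_def, norm_zero,
      Real.norm_eq_abs, abs_of_nonneg h2, abs_of_pos hR, max_le_iff]
    refine ⟨?_, ?_, ?_, ?_, ?_⟩ <;> linarith
  refine le_trans (div_le_div_of_nonneg_right (mul_le_mul_of_nonneg_left
    (mul_le_mul_of_nonneg_left h1 h0) zero_le_two) (sq_nonneg _)) (le_of_eq ?_)
  field_simp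

/-- A crude bound, valid everywhere. `ji_cov`; in the four cases take the patch centred at the
point (`fp1` ... `fp4`), `FamOK.curv0`, `FP.cvq_ge`; the scale is at least `ϱ`. -/
theorem pot_all : ∃ C, 0 ≤ C ∧ ∀ P : Par, P.Geom → ∀ (A : Arith P.K) (D : MD P A) (a : AP D)
    (h : D.M → Mat) (m : D.M), -(C * (P.ϱ ^ 2)⁻¹) * n0 a.g h m ≤ GKoi a.g h m ∧
      -(C * (P.ϱ ^ 2)⁻¹) * n0 a.g h m ≤ GPot a.g h m := by
  obtain ⟨C1, h1, H1⟩ := famOK_G1.curv0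
  obtain ⟨C2, h2, H2⟩ := famOK_G2.curv0
  obtain ⟨C3, h3, H3⟩ := famOK_G3.curv0
  obtain ⟨C4, h4, H4⟩ := famOK_G4.curv0
  refine ⟨2 * (C1 + C2 + C3 + C4), by positivity, fun P hP A D a h m => ?_⟩
  have hϱ := hP.ϱ0
  have hl := hP.toOk.l_le
  have hr := hP.toOk.rho_le
  have key : ∀ {c σ : ℝ}, c ≤ C1 + C2 + C3 + C4 → P.ϱ ≤ σ →
      2 * c / σ ^ 2 ≤ 2 * (C1 + C2 + C3 + C4) * (P.ϱ ^ 2)⁻¹ := fun hc hσ => by
    rw [← div_eq_mul_inv]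
    gcongr
  rcases ji_cov D hP m with ⟨c, p, e1, e2, e⟩ | ⟨c, p, w, e1, e2, e3, e⟩ | ⟨c, j, x, e1, e2, e3, e⟩ |
    ⟨c, j, s, z, e1, e2, e⟩
  · have hq : p ∈ P.A1 := ⟨by linarith, by linarith⟩
    exact apot_fp a h (a.fp1 hP.toOk c hq) h1 (H1 _ (hP.toOk.mem_K1 hq))
      (key (by linarith) (by linarith)) ((congrArg (D.pO c) (P.T1_zero p)).trans e)
  · have hq : mk4 (p 0) (p 1) (p 2) w ∈ P.A2 :=
      ⟨show _ ≤ w by linarith, show w ≤ _ by linarith⟩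
    refine apot_fp a h (a.fp2 hP.toOk c hq) h2
      (H2 _ ⟨show _ ≤ w by linarith, hq.2⟩) (key (by linarith) (show _ ≤ w / 2 by linarith))
      ((congrArg (D.pO c) ((P.T2_zero _).trans ?_)).trans e)
    ext i
    fin_cases i
    exacts [rfl, rfl, rfl, e3.symm]
  · have hq := apot_A3 hP.toOk e1 e2 e3
    exact apot_fp a h (a.fp3 hP.toOk c j hq) h3 (H3 _ (hP.mem_K3 hq))
      (key (by linarith) (by linarith)) ((congrArg (D.pT c j) (T3_zero x)).trans e)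
  · have hq : z ∈ A4 := ⟨by linarith, by linarith⟩
    exact apot_fp a h (a.fp4 hP.toOk c j s hq) h4 (H4 _ ⟨hq, hP.beta_mem⟩)
      (key (by linarith) le_rfl) ((congrArg (D.pN c j s) (T4_zero z)).trans e)

/-- Outside the boxes: `ji_cov`; the inner slab and the tube lie in the boxes (`ji_box_onto`,
`trOC`, `yw_mem`, `Rn_ge`, `Rn_sh`); outer slab by `sO`, `slab_potM`; bolt by `sN`. -/
theorem pot_rest : ∃ δ0, 0 < δ0 ∧ ∀ P : Par, P.Geom → P.δ ≤ δ0 → ∀ (A : Arith P.K) (D : MD P A)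
    (a : AP D) (h : D.M → Mat), (∀ x, (h x).IsSymm) → ∀ m : D.M,
      (∀ c (j : Fin (P.K / 2)), m ∉ D.pT c (j : ℕ) '' P.Box) → a.s m ≤ 3 * P.ϱ ∨
        (a.s m = 1 ∧ n0 a.g h m ≤ GKoi a.g h m ∧ -20 * n0 a.g h m ≤ GPot a.g h m) := by
  obtain ⟨δ0, h0, H⟩ := slab_potM
  refine ⟨δ0, h0, fun P hP hδ A D a h hs m hm => ?_⟩
  have hϱ := hP.ϱ0
  have hδ0 := hP.δ0
  have hl0 := hP.toOk.l_pos
  have hl := hP.toOk.l_le
  have hr := hP.toOk.rho_le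
  rcases ji_cov D hP m with ⟨c, p, e1, e2, rfl⟩ | ⟨c, p, w, e1, e2, e3, rfl⟩ |
    ⟨c, j, x, e1, e2, e3, rfl⟩ | ⟨c, j, s, z, e1, e2, rfl⟩
  · have h1 : 0 < P.δ * p 3 := mul_pos hδ0 (by linarith)
    have h2 : (P.l / 10) ^ 2 ≤ 1 := pow_le_one₀ (by linarith) (by linarith)
    have hp : p ∈ P.UO := ⟨by linarith, by nlinarith⟩
    obtain ⟨h3, h4⟩ := H P hP.toOk hδ A D a h hs c p hp
    have h5 : (P.δ * p 3) ^ 3 ≤ P.δ * p 3 := pow_le_of_le_one h1.le (by linarith) three_ne_zero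
    rw [min_eq_left (by linarith), one_mul] at h3
    exact Or.inr ⟨a.sO c p hp (by rw [le_div_iff₀ (by positivity)]; linarith), h3, h4⟩
  · have h1 : w ^ 2 < 2 := by nlinarith
    obtain ⟨hp, hy, -, hc, hu⟩ := hP.toOk.yw_mem e3 (by linarith) (by linarith)
    have h2 := hP.toOk.Rn_ge (P.P1 p)
    have h3 := P.anum2_Rn_nonneg (P.P1 p)
    obtain ⟨j, x, hx, e⟩ := ji_box_onto D hP c hc (by linarith) (by nlinarith)
    exact absurd ⟨x, hx, e.trans (D.trOC c p hp hy)⟩ (hm c j)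
  · have h1 : u01 x < 2 := by nlinarith
    obtain ⟨j', x', hx, e⟩ := ji_box_onto D hP c
      (hP.toOk.sh_mem j (x := x) ⟨by linarith, by linarith, by linarith⟩)
      (by rwa [P.anum2_u_sh]) (by rw [hP.toOk.Rn_sh j e2]; linarith)
    exact absurd ⟨x', hx, e⟩ (hm c j')
  · rw [a.sN c j s z (show u01 z < 3 by linarith)]
    exact Or.inl (by nlinarith)

end Pool.Agent.Lib.MP_94aef8_gt
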