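import Pool.Agent.Lib.MP_94aef8_gt.J.BCov

/-! The balls round the centres. -/

open scoped Manifold ContDiff Topology ENNReal
open Matrix Filter Set MeasureTheory Real

namespace Pool.Agent.Lib.MP_94aef8_gt

variable {P : Par} {A : Arith P.K}

/-- The ball round the centre `j`. -/
def MD.Ub (D : MD P A) (c : A.C) (j : ℤ) : Set D.M :=
  D.pT c j '' {x | P.ϱ < R3 x ∧ R3 x < P.l / 20} ∪ ⋃ e, D.pN c j e '' UN

/-- The chart of the ball in unit scale. -/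
noncomputable def MD.Ps (D : MD P A) (c : A.C) (j : ℤ) : E4 → D.M := D.pC c ∘ P.sc j

variable {D : MD P A}

theorem isOpen_OT (T : ℝ) : IsOpen (OT T) :=
  (isOpen_lt continuous_const continuous_R3).inter (isOpen_lt continuous_R3 continuous_const)

theorem measurableSet_OP (T t : ℝ) : MeasurableSet (OP T t) :=
  (isOpen_OT T).measurableSet.inter
    ((isClosed_le continuous_const (aom_cd 3).continuous).measurableSet.inter
      (isOpen_lt (aom_cd 3).continuous continuous_const).measurableSet)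

theorem MD.Ps_eq (D : MD P A) (c : A.C) (j : ℤ) (x : E4) : D.Ps c j x = D.pT c j (P.ϱ • x) :=
  congrArg (D.pC c) (P.sc_eq j x)

theorem Par.Ok.smul_OT (hP : P.Ok) {x : E4} (hx : x ∈ OT (P.l / (100 * P.ϱ))) :
    P.ϱ • x ∈ P.UT ∧ P.ϱ < R3 (P.ϱ • x) ∧ R3 (P.ϱ • x) < P.l / 100 := by
  have hϱ := hP.ϱ0
  have hl := hP.l_pos
  have h1 : P.ϱ < R3 (P.ϱ • x) := by
    rw [R3_smul hϱ.le]
    exact lt_mul_of_one_lt_right hϱ hx.1
  have h2 : R3 (P.ϱ • x) < P.l / 100 := by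
    have := hx.2
    rw [lt_div_iff₀ (by positivity)] at this
    rw [R3_smul hϱ.le]
    linarith
  exact ⟨hP.mem_UT h1 (by linarith), h1, h2⟩

theorem bball_mem (hP : P.Ok) {x : E4} (hx : P.ϱ < R3 x ∧ R3 x < P.l / 20) :
    x ∈ P.UT ∧ |x 2| < P.l / 20 :=
  ⟨hP.mem_UT hx.1 (by linarith [hP.l_pos, hx.2]), (abs_le_R3 x).2.2.trans_lt hx.2⟩

/-- `Pt.measurableSet_image` or `Pt.isOpen_image`. -/
theorem MD.meas_Ub (D : MD P A) (hP : P.Ok) (c : A.C) (j : ℤ) : MeasurableSet (D.Ub c j) :=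
  ((D.ptT hP c j).isOpen_image ((isOpen_lt continuous_const continuous_R3).inter
    (isOpen_lt continuous_R3 continuous_const)) fun _ hx => (bball_mem hP hx).1).measurableSet.union
    (isOpen_iUnion fun e =>
      (D.ptN c j e).isOpen_image (D.ptN c j e).isOpen subset_rfl).measurableSet

/-- `djCN`: the index `j''` with `Rj j'' < 4 ϱ` is `j`. -/
theorem MD.pT_eq_pN (D : MD P A) (hP : P.Ok) {c c' : A.C} {j j' : Fin (P.K / 2)} {e : ℤˣ}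
    {x z : E4} (hx : x ∈ P.UT) (h : |x 2| ≤ P.l / 2) (hz : z ∈ UN)
    (he : D.pT c (j : ℕ) x = D.pN c' (j' : ℕ) e z) : c = c' ∧ j = j' := by
  obtain ⟨h1, k, a, h2, h3, -⟩ := D.djCN c c' _ e _ (hP.sh_mem _ hx) z hz he
  refine ⟨h1, (hP.fin_eq (a := a) ?_).symm⟩
  by_cases hk : ((j : ℕ) : ℤ) - k = 0
  · rwa [sub_eq_zero.1 hk]
  · have h4 := Par.anum2_far hP.l_pos (x 2) hk
    have h5 := hP.rho_le
    have h6 := hP.l_pos
    rw [Par.anum2_Rj_sh] at h3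
    have h7 := (abs_le_sqrt (le_add_of_nonneg_left (Par.anum2_u_nonneg x))).trans_lt h3
    linarith

/-- `pT_eq`, `pT_eq_pN`, `eqN`, `fin_eq`. -/
theorem MD.disj_Ub (D : MD P A) (hP : P.Ok) : Pairwise fun b b' : A.C × Fin (P.K / 2) =>
    Disjoint (D.Ub b.1 (b.2 : ℕ)) (D.Ub b'.1 (b'.2 : ℕ)) := by
  refine fun b b' hb => Set.disjoint_left.2 fun m hm hm' => hb (Prod.ext_iff.2 ?_)
  have hl := hP.l_pos
  simp only [MD.Ub, mem_union, mem_iUnion] at hm hm'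
  rcases hm with ⟨x, hx, rfl⟩ | ⟨e, z, hz, rfl⟩ <;>
    rcases hm' with ⟨x', hx', h⟩ | ⟨e', z', hz', h⟩
  · have h1 := bball_mem hP hx
    have h2 := bball_mem hP hx'
    have h3 := D.pT_eq hP h1.1 h2.1 ((abs_sub _ _).trans_lt (by linarith [h1.2, h2.2])) h.symm
    exact ⟨h3.1, h3.2.1⟩
  · have h1 := bball_mem hP hx
    exact D.pT_eq_pN hP h1.1 (by linarith [h1.2]) hz' h.symm
  · have h1 := bball_mem hP hx'
    exact (D.pT_eq_pN hP h1.1 (by linarith [h1.2]) hz h).imp Eq.symm Eq.symm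
  · obtain ⟨h1, ⟨a, h2⟩, -⟩ := (D.eqN _ _ _ _ _ _ z hz z' hz').1 h.symm
    exact ⟨h1, hP.fin_eq h2⟩

/-- `s_T`, `sN`. -/
theorem AP.s_Ub (X : AP D) (hP : P.Ok) {c : A.C} {j : ℤ} {m : D.M} (hm : m ∈ D.Ub c j) :
    X.s m < P.l / 5 := by
  have hl := hP.l_pos
  simp only [MD.Ub, mem_union, mem_iUnion] at hm
  rcases hm with ⟨x, hx, rfl⟩ | ⟨e, z, hz, rfl⟩
  · have h1 := bball_mem hP hx
    rw [X.s_T hP c j h1.1 (by linarith [h1.2])]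
    exact (min_le_right _ _).trans_lt (by linarith [hx.2])
  · have h1 : u01 z < 3 := hz
    rw [X.sN c j e z hz]
    nlinarith [hP.rho_le, hP.ϱ0]

/-- `cov_fin`; in the slabs `l ≤ s` (`sO`, `s_yw`). -/
theorem AP.cov_small (X : AP D) (hP : P.Ok) {m : D.M} (hm : X.s m < P.l) :
    (∃ c, ∃ j : Fin (P.K / 2), ∃ x ∈ P.W3, R3 x = X.s m ∧ D.pT c (j : ℕ) x = m) ∨
      ∃ c, ∃ j : Fin (P.K / 2), ∃ e, m ∈ D.pN c (j : ℕ) e '' W4 := by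
  have hl := hP.l_pos
  have hl1 := hP.l_le
  have hδ := hP.δ0
  rcases D.cov_fin hP m with ⟨c, q, hq, rfl⟩ | ⟨c, q, hq, rfl⟩ | ⟨c, j, x, hx, rfl⟩ | h
  · have h1 : 3 / 8 ≤ P.T0 0 q 3 := hq.1
    have h2 : P.δ * P.T0 0 q 3 ≤ 47 / 100 := hq.2
    rw [Function.comp_apply, X.sO c _ (hP.mem_UO (by linarith) (by linarith))
      (by rw [le_div_iff₀ (by positivity)]; linarith)] at hm
    linarith
  · have h1 := (X.s_yw hP c (P.Y2_three q) (by linarith [hq.1]) (by nlinarith [hq.1, hq.2])).1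
    exact absurd ((le_min (by linarith) hq.1).trans h1) (not_le.2 hm)
  · have h1 := X.s_T hP c (j : ℕ) (hP.W3_sub hx) hx.2.1
    refine Or.inl ⟨c, j, x, hx, ?_, rfl⟩
    rcases min_choice 1 (R3 x) with h | h <;> linarith
  · exact Or.inr h

theorem AP.small_Ub (X : AP D) (hP : P.Ok) {m : D.M} (hm : X.s m < P.l / 20) :
    ∃ b : A.C × Fin (P.K / 2), m ∈ D.Ub b.1 (b.2 : ℕ) := by
  rcases X.cov_small hP (hm.trans (by linarith [hP.l_pos])) with ⟨c, j, x, hx, h1, h2⟩ |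
    ⟨c, j, e, h⟩
  · exact ⟨(c, j), Or.inl ⟨x, ⟨by linarith [hx.2.2, hP.ϱ0], h1 ▸ hm⟩, h2⟩⟩
  · exact ⟨(c, j), Or.inr (mem_iUnion.2 ⟨e, image_mono W4_sub h⟩)⟩

/-- `ptT`, `ld_aff` with `q = 0`, `Pt.comp_ldif`, `Pt.congr`. -/
theorem MD.pt_Ps (D : MD P A) (hP : P.Ok) (c : A.C) (j : ℤ) :
    Pt (D.Ps c j) (OT (P.l / (100 * P.ϱ))) :=
  ((D.ptT hP c j).comp_ldif (ld_aff 0 hP.ϱ0.ne' (isOpen_OT _) fun y hy => by
    rw [zero_add]
    exact (hP.smul_OT hy).1)).congr fun y _ => by rw [D.Ps_eq, Function.comp_apply, zero_add]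

theorem AP.g_Ps (X : AP D) (hP : P.Ok) (c : A.C) (j : ℤ) : ∀ x ∈ OT (P.l / (100 * P.ϱ)),
    gpull (D.Ps c j) X.g x = P.ϱ ^ 2 • GB (P.B * P.ϱ) x := fun x hx => by
  have hϱ := hP.ϱ0
  exact X.gB c j x hx.1 (hx.2.trans_le
    (div_le_div_of_nonneg_left hP.l_pos.le (by positivity) (by linarith)))

theorem AP.s_Ps (X : AP D) (hP : P.Ok) (c : A.C) (j : ℤ) :
    ∀ x ∈ OT (P.l / (100 * P.ϱ)), X.s (D.Ps c j x) = P.ϱ * R3 x := fun x hx => by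
  obtain ⟨h1, -, h2⟩ := hP.smul_OT hx
  have hl := hP.l_pos
  rw [D.Ps_eq, X.s_T hP c j h1 (by linarith [(abs_le_R3 (P.ϱ • x)).2.2]),
    min_eq_right (by linarith [hP.l_le]), R3_smul hP.ϱ0.le]

theorem MD.mem_Ps (D : MD P A) (hP : P.Ok) (c : A.C) (j : ℤ) :
    ∀ x ∈ OT (P.l / (100 * P.ϱ)), D.Ps c j x ∈ D.Ub c j := fun x hx => by
  obtain ⟨-, h1, h2⟩ := hP.smul_OT hx
  exact Or.inl ⟨_, ⟨h1, by linarith [hP.l_pos]⟩, (D.Ps_eq c j x).symm⟩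

theorem bball_sym (X : AP D) (hP : P.Ok) (c : A.C) (j : ℤ) (u : Sy) {τ : E4 → E4}
    (h : ∀ x, P.actC u (P.sc j x) = P.sc j (τ x)) :
    ∃ F ∈ X.S, ∀ x ∈ OT (P.l / (100 * P.ϱ)), F (D.Ps c j x) = D.Ps c j (τ x) := by
  obtain ⟨F, hF, e⟩ := X.sym c u
  refine ⟨F, hF, fun x hx => (e _ ?_).trans (congrArg (D.pC c) (h x))⟩
  rw [P.sc_eq]
  exact hP.sh_mem j (hP.smul_OT hx).1

/-- `X.sym c u` with `u = ⟨1, 1, ![0, 1, 0]⟩`, `⟨1, 1, ![1, 2 n, 0]⟩`, `⟨-1, 1, 0⟩`,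
`⟨1, -1, ![0, 0, 2 j]⟩`; then `actC u (sc j x) = sc j (τ x)`. -/
theorem AP.sym_Ps (X : AP D) (hP : P.Ok) (c : A.C) (j : ℤ) : ∀ τ ∈ Four ((P.K : ℝ) / 2),
    ∃ F ∈ X.S, ∀ x ∈ OT (P.l / (100 * P.ϱ)), F (D.Ps c j x) = D.Ps c j (τ x) := by
  have e : 2 * π / ((P.K : ℝ) / 2) = 4 * π / P.K := by ring
  rintro τ (rfl | rfl | rfl | rfl)
  · refine bball_sym X hP c j ⟨1, 1, ![0, 1, 0]⟩ fun x => ext_4 ?_ ?_ ?_ ?_ <;>
      simp [Par.actC, Par.sc, rot, tsh]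
    ring
  · refine bball_sym X hP c j ⟨1, 1, ![1, 2 * P.n, 0]⟩ fun x => ext_4 ?_ ?_ ?_ ?_ <;>
      simp [Par.actC, Par.sc, rot, e] <;> ring
  · refine bball_sym X hP c j ⟨-1, 1, 0⟩ fun x => ext_4 ?_ ?_ ?_ ?_ <;>
      simp [Par.actC, Par.sc, rot, fl1]
  · refine bball_sym X hP c j ⟨1, -1, ![0, 0, 2 * j]⟩ fun x => ext_4 ?_ ?_ ?_ ?_ <;>
      simp [Par.actC, Par.sc, rot, fl2, Par.l]
    ring

end Pool.Agent.Lib.MP_94aef8_gt
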