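import Pool.Agent.Lib.MP_94aef8_gt.J.BF1

/-! The third family: averaging and multiplicity. -/

open scoped Manifold ContDiff Topology ENNReal
open Matrix Filter Set MeasureTheory Real

namespace Pool.Agent.Lib.MP_94aef8_gt

/-- The region reached by the third family. -/
def Par.X3 (P : Par) : Set E4 :=
  {x | u01 x ≤ (13 / 10 * P.l) ^ 2 ∧ |x 2| ≤ 7 / 10 * P.l ∧ 2 * P.ϱ ≤ R3 x}

/-- The bounds for the volume density of the tube. -/
def Par.RhoT (P : Par) (C : ℝ) : Prop := 1 ≤ C ∧ ∀ x ∈ P.UT, C⁻¹ ≤ rho P.GT x ∧ rho P.GT x ≤ C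

variable {P : Par} {A : Arith P.K} {D : MD P A} {C : ℝ}

/-- `x = q + (r / 3) • y` with `y ∈ CQ`, `R3_add`. -/
theorem R3_near {x q : E4} {r : ℝ} (h : ∀ i, |x i - q i| ≤ r) : |R3 x - R3 q| ≤ 2 * r := by
  have hr : 0 ≤ r := (abs_nonneg _).trans (h 0)
  have e : mk4 (x 0) (x 1) (x 2) 0 - mk4 (q 0) (q 1) (q 2) 0 =
      mk4 ((x - q) 0) ((x - q) 1) ((x - q) 2) 0 := by
    ext i
    fin_cases i <;> simp
  rw [anum_norm x, anum_norm q]
  refine (abs_norm_sub_norm_le _ _).trans ?_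
  rw [e, ← anum_norm, R3]
  refine Real.sqrt_le_iff.2 ⟨by positivity, ?_⟩
  have h0 := sq_le_sq' (abs_le.1 (h 0)).1 (abs_le.1 (h 0)).2
  have h1 := sq_le_sq' (abs_le.1 (h 1)).1 (abs_le.1 (h 1)).2
  have h2 := sq_le_sq' (abs_le.1 (h 2)).1 (abs_le.1 (h 2)).2
  simp only [u01, PiLp.sub_apply]
  nlinarith [sq_nonneg r]

theorem u01_near {x q : E4} {r w : ℝ} (h : ∀ i, |x i - q i| ≤ r) (hw : 0 ≤ w) (hq : u01 q ≤ w ^ 2) :
    u01 x ≤ (w + 2 * r) ^ 2 := by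
  have hr : 0 ≤ r := (abs_nonneg _).trans (h 0)
  unfold u01 at hq ⊢
  have key : ∀ a b : ℝ, |a - b| ≤ r → b ^ 2 ≤ w ^ 2 → a ^ 2 ≤ b ^ 2 + 2 * (w * r) + r ^ 2 := by
    intro a b h1 h2
    have h3 : |b| ≤ w := abs_le_of_sq_le_sq h2 hw
    have h4 : b * (a - b) ≤ w * r :=
      (le_abs_self _).trans (by rw [abs_mul]; exact mul_le_mul h3 h1 (abs_nonneg _) hw)
    have h5 := sq_le_sq' (abs_le.1 h1).1 (abs_le.1 h1).2
    nlinarith
  have h0 := key _ _ (h 0) (by nlinarith [sq_nonneg (q 1)])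
  have h1 := key _ _ (h 1) (by nlinarith [sq_nonneg (q 0)])
  nlinarith [sq_nonneg r]

theorem bf3_meas (a b e : ℝ) : MeasurableSet {x : E4 | u01 x ≤ a ∧ |x 2| ≤ b ∧ e ≤ R3 x} := by
  have h1 : Continuous u01 := by unfold u01; fun_prop
  have h2 : Continuous fun x : E4 => |x 2| := by fun_prop
  exact ((isClosed_le h1 continuous_const).inter ((isClosed_le h2 continuous_const).inter
    (isClosed_le continuous_const continuous_R3))).measurableSet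

theorem bf3_inv (τ a b e : ℝ) : InvS (VT τ) {x : E4 | u01 x ≤ a ∧ |x 2| ≤ b ∧ e ≤ R3 x} := by
  rintro _ ⟨k, rfl⟩ x
  have h : (x + mk4 0 0 0 (k * τ)) 2 = x 2 := by simp
  simp only [mem_ofPred_eq, R3_per, u01_per, h]

theorem bf3_R3_le {x : E4} {l : ℝ} (hl : 0 < l) (h1 : u01 x ≤ (6 / 5 * l) ^ 2)
    (h2 : |x 2| ≤ 3 / 5 * l) : R3 x ≤ 3 / 2 * l := by
  have h3 := sq_le_sq' (abs_le.1 h2).1 (abs_le.1 h2).2
  refine Real.sqrt_le_iff.2 ⟨by positivity, ?_⟩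
  nlinarith [sq_nonneg l]

/-- On `A3` one has `R3 ≤ 3 / 2 l`; `R3_near`, `u01_near`, `R3_per`, `u01_per`. -/
theorem Par.Ok.slow3 (hP : P.Ok) :
    Slow (VT (4 * π * P.ϱ)) P.W3 P.A3 P.X3 (fun q _ => cc * R3 q) (fun _ => 1) 1 := by
  have hl := hP.l_pos
  have hϱ := hP.ϱ0
  refine ⟨bf3_meas _ _ _, bf3_meas _ _ _, bf3_inv _ _ _ _, bf3_inv _ _ _ _,
    fun _ => (continuous_const.mul continuous_R3).measurable, ?_, one_pos, fun q hq => ?_,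
    fun x hx => ?_, fun q hq x hx => ?_⟩
  · rintro _ ⟨k, rfl⟩ x
    simp only [R3_per]
  · have h3 := hq.2.2
    refine ⟨fun _ => ?_, zero_le_one⟩
    unfold cc
    linarith
  · obtain ⟨h1, h2, h3⟩ := hx
    have h4 := bf3_R3_le hl (h1.trans (by nlinarith)) (h2.trans (by linarith))
    refine ⟨fun _ => by unfold cc; linarith, fun q hq => ?_⟩
    have h5 : ∀ i, |q i - x i| ≤ R3 x / 200 := fun i => (hq i).le.trans (by unfold cc; linarith)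
    have h6 := abs_le.1 (R3_near h5)
    have h7 := u01_near h5 hl.le h1
    have h8 := abs_le.1 (h5 2)
    have h9 := abs_le.1 h2
    refine ⟨⟨h7.trans (pow_le_pow_left₀ (by linarith) (by linarith) 2),
      abs_le.2 ⟨by linarith, by linarith⟩, by linarith⟩, fun i => ?_⟩
    rw [abs_sub_comm]
    refine (hq i).trans_le ?_
    unfold cc
    linarith
  · obtain ⟨h1, h2, h3⟩ := hq
    have h4 := bf3_R3_le hl h1 h2
    have h5 : ∀ i, |x i - q i| ≤ R3 q / 50 := fun i => (hx i).le.trans (by unfold cc; linarith)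
    have h6 := abs_le.1 (R3_near h5)
    have h7 := u01_near h5 (by positivity) h1
    have h8 := abs_le.1 (h5 2)
    have h9 := abs_le.1 h2
    refine ⟨⟨h7.trans (pow_le_pow_left₀ (by linarith) (by linarith) 2),
      abs_le.2 ⟨by linarith, by linarith⟩, by linarith⟩, fun _ => ?_, by norm_num, by norm_num⟩
    unfold cc
    constructor <;> linarith

theorem Par.Ok.X3_sub (hP : P.Ok) : P.X3 ⊆ P.UT := by
  rintro x ⟨h1, h2, h3⟩
  have hl := hP.l_pos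
  have hl1 := hP.l_le
  have hϱ := hP.ϱ0
  exact ⟨by nlinarith, by linarith, by linarith⟩

/-- `PC.of_inj` (`ptT`, `gT`, `pT_per`, `pT_inj` with `t = 0`). -/
theorem AP.pc3 (X : AP D) (hP : P.Ok) (hC : P.RhoT C) (c : A.C) (j : ℤ) {W : Set E4}
    (hW : MeasurableSet W) (hi : InvS (VT (4 * π * P.ϱ)) W) (hU : W ⊆ P.UT) {Z : Set D.M}
    (hZ : ∀ x ∈ W, D.pT c j x ∈ Z) :
    PC X.g (D.pT c j) (VT (4 * π * P.ϱ)) (DT (4 * π * P.ϱ)) W (fun _ => 1) (C * 2) Z := by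
  have hϱ := hP.ϱ0
  have h1 := hC.1
  have h0 : DT (4 * π * P.ϱ) ∩ W ⊆ P.UT ∩ {x | 0 ≤ x 3 ∧ x 3 < 0 + 4 * π * P.ϱ} := fun x hx =>
    ⟨hU hx.2, hx.1.1, by rw [zero_add]; exact hx.1.2⟩
  refine PC.of_inj (D.ptT hP c j) X.good (fd_T (by positivity)).meas hW hU hi
    (fun v hv x hx => D.pT_per hP c j v hv x (hU hx)) measurable_const (fun _ _ _ => rfl)
    (by linarith) (fun x hx => ?_) ((D.pT_inj hP c j 0).mono h0) fun x hx => hZ x hx.2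
  have e : rho (gpull (D.pT c j) X.g) x = rho P.GT x := rho_eq_of_eq (X.gT c j x (hU hx))
  obtain ⟨h2, h3⟩ := hC.2 x (hU hx)
  rw [e, mul_one]
  exact ⟨h3, (inv_le_iff_one_le_mul₀' (by linarith)).1 h2⟩

/-- `PC.chain`, `dg_smul`. -/
theorem AP.chain3 (X : AP D) (hP : P.Ok) (hC : P.RhoT C) (c : A.C) (j : ℤ) {F₁ F₂ : D.M → ℝ≥0∞}
    (h₁ : Measurable F₁) (h₂ : Measurable F₂) {L : ℝ≥0∞} (h : D.Hyp F₁ F₂ L) :
    ∫⁻ x in D.pT c j '' P.W3, F₁ x ∂volT X.g ≤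
      ENNReal.ofReal (2 ^ 22 * C ^ 2) * L * ∫⁻ x, F₂ x ∂volT X.g := by
  have hϱ := hP.ϱ0
  have H := X.pc3 hP hC c j (W := P.X3) (bf3_meas _ _ _) (bf3_inv _ _ _ _) hP.X3_sub
    (Z := univ) fun _ _ => mem_univ _
  have h1 := H.chain (fd_T (by positivity)) hP.slow3 h₁ h₂ (L := L) fun q hq => by
    simp only [dg_smul]
    exact h (.f3 c j ⟨q, hq⟩)
  rwa [show (2 : ℝ) ^ 20 * 1 ^ 2 * (C * 2) ^ 2 = 2 ^ 22 * C ^ 2 by ring] at h1

/-- `PC.mult` with `W = X3 ∩ {R3 x ≤ 2 R3 q}`, `count_T` with `r = 2 cc R`, at most `R / ϱ`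
sheets because `5 / 2 ϱ ≤ R`. -/
theorem AP.mult3 (X : AP D) (hP : P.Ok) (hC : P.RhoT C) (c : A.C) (j : ℤ) (q : P.A3)
    {Z : Set D.M} (hZ : ∀ x ∈ P.UT, R3 x ≤ 2 * R3 q.1 → D.pT c j x ∈ Z) {F : D.M → ℝ≥0∞}
    (hF : Measurable F) : ∫⁻ y in Q 2, F (D.Th (.f3 c j q) y) ≤
      ENNReal.ofReal (10 ^ 9 * C * (P.ϱ * R3 q.1 ^ 3)⁻¹) * ∫⁻ x in Z, F x ∂volT X.g := by
  have hϱ := hP.ϱ0
  have hC1 := hC.1
  have hq := q.2.2.2
  have hR : 0 < R3 q.1 := by linarith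
  have hτ : 0 < 4 * π * P.ϱ := by positivity
  have ha : 0 < cc * R3 q.1 := by unfold cc; positivity
  have H := X.pc3 hP hC c j (W := P.X3 ∩ {x | R3 x ≤ 2 * R3 q.1})
    ((bf3_meas _ _ _).inter (isClosed_le continuous_R3 continuous_const).measurableSet)
    (fun v hv x => and_congr (bf3_inv _ _ _ _ v hv x) (by
      obtain ⟨k, rfl⟩ := hv
      simp only [mem_ofPred_eq, R3_per]))
    (inter_subset_left.trans hP.X3_sub) fun x hx => hZ x (hP.X3_sub hx.1) hx.2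
  obtain ⟨t, h1, h2, h3⟩ := count_T hτ (q.1 3) (r := 2 * (cc * R3 q.1)) (by positivity)
  have h4 := H.mult (a := fun _ => cc * R3 q.1) (q := q.1) (m0 := 1) (N := R3 q.1 / P.ϱ)
    (C := 10 ^ 9 * C * (P.ϱ * R3 q.1 ^ 3)⁻¹) (fd_T hτ).meas (fun _ => ha) (fun x hx => ?_) t h1
    (fun x hx => h3 x (hx 3).le) (h2.trans ?_) one_pos (fun _ _ => le_rfl) ?_ hF
  · simp only [dg_smul] at h4
    exact h4
  · obtain ⟨h5, h6, -⟩ := hP.slow3.out q.1 q.2 x hx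
    refine ⟨h5, ?_⟩
    have h7 := (h6 0).2
    unfold cc at h7
    change R3 x ≤ 2 * R3 q.1
    linarith
  · have h5 : 2 * (2 * (cc * R3 q.1)) / (4 * π * P.ϱ) ≤ R3 q.1 / P.ϱ / 100 := by
      rw [div_div, div_le_div_iff₀ hτ (by positivity)]
      unfold cc
      nlinarith [mul_pos hR hϱ, Real.pi_gt_three]
    have h6 : 5 / 2 ≤ R3 q.1 / P.ϱ := (le_div_iff₀ hϱ).2 hq
    linarith
  · have e : C * 2 * (R3 q.1 / P.ϱ) / (1 * ∏ _i : Fin 4, cc * R3 q.1) =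
        2 * 10 ^ 8 * C * (P.ϱ * R3 q.1 ^ 3)⁻¹ := by
      rw [Fin.prod_const]
      unfold cc
      field_simp
      norm_num
    rw [e]
    gcongr
    norm_num

end Pool.Agent.Lib.MP_94aef8_gt
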