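import Pool.Agent.Lib.MP_94aef8_gt.J.BF1
import Pool.Agent.Lib.MP_94aef8_gt.J.AF4

/-! The fourth family: averaging and multiplicity. -/

open scoped Manifold ContDiff Topology ENNReal
open Matrix Filter Set MeasureTheory Real

namespace Pool.Agent.Lib.MP_94aef8_gt

/-- The region reached by the fourth family. -/
def X4 : Set E4 := {z | u01 z ≤ 5 / 2 ∧ u23 z ≤ 2}

variable {P : Par} {A : Arith P.K} {D : MD P A}

theorem bf4_near {a b a' b' : ℝ} (h1 : |a' - a| < 2 * cc) (h2 : |b' - b| < 2 * cc) :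
    a' ^ 2 + b' ^ 2 ≤ 21 / 20 * (a ^ 2 + b ^ 2) + 1 / 50 := by
  rw [cc, abs_lt] at h1 h2
  have h3 : (a' - a) ^ 2 ≤ (1 / 50) ^ 2 := sq_le_sq' (by linarith) (by linarith)
  have h4 : (b' - b) ^ 2 ≤ (1 / 50) ^ 2 := sq_le_sq' (by linarith) (by linarith)
  nlinarith [sq_nonneg (a - 20 * (a' - a)), sq_nonneg (b - 20 * (b' - b))]

theorem bf4_meas (s t : ℝ) : MeasurableSet {z : E4 | u01 z ≤ s ∧ u23 z ≤ t} := by
  have h1 : Continuous u01 := by unfold u01; fun_prop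
  have h2 : Continuous u23 := by unfold u23; fun_prop
  exact ((isClosed_le h1 continuous_const).inter (isClosed_le h2 continuous_const)).measurableSet

theorem bf4_inv (W : Set E4) : InvS {0} W := by
  rintro _ rfl x
  rw [add_zero]

theorem bf4_cc : 0 < cc := by
  rw [cc]
  norm_num

theorem slow4 {m : ℝ} (hm : 0 ≤ m) : Slow {0} W4 A4 X4 (fun _ _ => cc) (fun _ => m) 1 := by
  have h0 := bf4_cc
  refine ⟨bf4_meas _ _, bf4_meas _ _, bf4_inv _, bf4_inv _, fun _ => measurable_const,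
    fun _ _ _ => rfl, one_pos, fun _ _ => ⟨fun _ => h0, hm⟩,
    fun x hx => ⟨fun _ => h0, fun q hq => ⟨?_, fun i => ?_⟩⟩,
    fun q hq x hx => ⟨?_, fun _ => ⟨by linarith, by linarith⟩, by linarith, by linarith⟩⟩
  · have h1 : ∀ i, |q i - x i| < 2 * cc := fun i => (hq i).trans (by linarith)
    have h2 : u01 q ≤ 21 / 20 * u01 x + 1 / 50 := bf4_near (h1 0) (h1 1)
    have h3 : u23 q ≤ 21 / 20 * u23 x + 1 / 50 := bf4_near (h1 2) (h1 3)
    exact ⟨by linarith [hx.1], by linarith [hx.2]⟩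
  · rw [abs_sub_comm]
    exact (hq i).trans (by linarith)
  · have h2 : u01 x ≤ 21 / 20 * u01 q + 1 / 50 := bf4_near (hx 0) (hx 1)
    have h3 : u23 x ≤ 21 / 20 * u23 q + 1 / 50 := bf4_near (hx 2) (hx 3)
    exact ⟨by linarith [hq.1], by linarith [hq.2]⟩

theorem X4_sub : X4 ⊆ UN := fun _ hz => hz.1.trans_lt (by norm_num)

/-- `gN`, `rho_sq_smul`, `rho_GN`. -/
theorem AP.rho_N (X : AP D) (hP : P.Ok) (c : A.C) (j : ℤ) (e : ℤˣ) {z : E4} (hz : z ∈ X4) :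
    rho (gpull (D.pN c j e) X.g) z ≤ 200 * P.ϱ ^ 4 ∧
      P.ϱ ^ 4 ≤ 200 * rho (gpull (D.pN c j e) X.g) z := by
  have h0 : 0 < P.ϱ ^ 4 := pow_pos hP.ϱ0 4
  have h1 : 0 ≤ u01 z := by unfold u01; positivity
  have h2 : 0 ≤ u23 z := by unfold u23; positivity
  have h3 := hz.1
  have h4 := hz.2
  have h5 : 0 < (1 + u23 z) ^ 2 := by positivity
  have h6 : 16 * (1 + u01 z) ^ 2 / (1 + u23 z) ^ 2 ≤ 200 := by
    rw [div_le_iff₀ h5]
    nlinarith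
  have h7 : 1 ≤ 16 * (1 + u01 z) ^ 2 / (1 + u23 z) ^ 2 := by
    rw [le_div_iff₀ h5]
    nlinarith
  rw [rho_sq_smul (X.gN c j e z (X4_sub hz)), rho_GN]
  constructor <;> nlinarith

/-- `PC.of_inj`, `pN_inj`. -/
theorem AP.pc4 (X : AP D) (hP : P.Ok) (c : A.C) (j : ℤ) (e : ℤˣ) {Z : Set D.M}
    (hZ : ∀ z ∈ UN, D.pN c j e z ∈ Z) :
    PC X.g (D.pN c j e) {0} univ X4 (fun _ => P.ϱ ^ 4) 400 Z := by
  rw [show (400 : ℝ) = 200 * 2 by norm_num]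
  refine PC.of_inj (D.ptN c j e) X.good MeasurableSet.univ (bf4_meas _ _) X4_sub (bf4_inv _) ?_
    measurable_const (fun _ _ _ => rfl) (by norm_num) (fun x hx => X.rho_N hP c j e hx)
    ((D.pN_inj c j e).mono fun _ hx => X4_sub hx.2) fun x hx => hZ x (X4_sub hx.2)
  rintro _ rfl x _
  rw [add_zero]

theorem AP.chain4 (X : AP D) (hP : P.Ok) (c : A.C) (j : ℤ) (e : ℤˣ) {F₁ F₂ : D.M → ℝ≥0∞}
    (h₁ : Measurable F₁) (h₂ : Measurable F₂) {L : ℝ≥0∞} (h : D.Hyp F₁ F₂ L) :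
    ∫⁻ x in D.pN c j e '' W4, F₁ x ∂volT X.g ≤
      ENNReal.ofReal (2 ^ 38) * L * ∫⁻ x, F₂ x ∂volT X.g := by
  refine ((X.pc4 hP c j e fun _ _ => mem_univ _).chain fd_univ (slow4 (pow_pos hP.ϱ0 4).le) h₁ h₂
    (L := L) fun q hq => ?_).trans ?_
  · simp only [dg_smul]
    exact h (.f4 c j e ⟨q, hq⟩)
  · gcongr
    norm_num

/-- `PC.mult` with `t = {0}`. -/
theorem AP.mult4 (X : AP D) (hP : P.Ok) (c : A.C) (j : ℤ) (e : ℤˣ) (q : A4) {Z : Set D.M}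
    (hZ : ∀ z ∈ UN, D.pN c j e z ∈ Z) {F : D.M → ℝ≥0∞} (hF : Measurable F) :
    ∫⁻ y in Q 2, F (D.Th (.f4 c j e q) y) ≤
      ENNReal.ofReal (10 ^ 11 * (P.ϱ * P.ϱ ^ 3)⁻¹) * ∫⁻ x in Z, F x ∂volT X.g := by
  have h0 := hP.ϱ0
  have h1 := (X.pc4 hP c j e hZ).mult (a := fun _ => cc) (q := q.1) (m0 := P.ϱ ^ 4) (N := 1)
    (C := 10 ^ 11 * (P.ϱ * P.ϱ ^ 3)⁻¹) MeasurableSet.univ (fun _ => bf4_cc)
    (fun x hx => ((slow4 le_rfl).out q.1 q.2 x hx).1) {0} (fun v hv => Finset.mem_singleton.1 hv)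
    (fun x _ => ⟨0, Finset.mem_singleton_self _, mem_univ _⟩) (by simp) (pow_pos h0 4)
    (fun _ _ => le_rfl) (by
      rw [Finset.prod_const, Finset.card_univ, Fintype.card_fin, cc, div_le_iff₀ (by positivity)]
      field_simp
      norm_num) hF
  simp only [dg_smul] at h1
  exact h1

end Pool.Agent.Lib.MP_94aef8_gt
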