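import Pool.Agent.Lib.MP_94aef8_gt.J.BBall
import Pool.Agent.Lib.MP_94aef8_gt.J.BF3
import Pool.Agent.Lib.MP_94aef8_gt.J.BF4
import Pool.Agent.Lib.MP_94aef8_gt.J.ASW

/-! Integrals over the balls. -/

open scoped Manifold ContDiff Topology ENNReal
open Matrix Filter Set MeasureTheory Real

namespace Pool.Agent.Lib.MP_94aef8_gt

variable {P : Par} {A : Arith P.K} {D : MD P A} {C E : ℝ}

/-- `g_Ps`, `rho_sq_smul`, `rho_GB`. -/
theorem AP.rho_Ps (X : AP D) (hP : P.Ok) (c : A.C) (j : ℤ) {x : E4}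
    (hx : x ∈ OT (P.l / (100 * P.ϱ))) : rho (gpull (D.Ps c j) X.g) x = P.ϱ ^ 4 := by
  rw [rho_sq_smul (G' := GB (P.B * P.ϱ)) (X.g_Ps hP c j x hx), rho_GB _ hx.1, mul_one]

theorem bball2_T (D : MD P A) (hP : P.Ok) (c : A.C) (j : ℤ) {x : E4} (h1 : P.ϱ < R3 x)
    (h2 : R3 x < P.l / 20) (h3 : R3 x < E * P.ϱ) : D.pT c j x ∈ D.Ps c j '' OP E 0 := by
  have hϱ := hP.ϱ0
  have hl := hP.l_pos
  have hU : x ∈ P.UT := hP.mem_UT h1 (by linarith)
  have hτ : 0 < 4 * π * P.ϱ := by positivity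
  obtain ⟨v, hv, hD⟩ := (fd_T hτ).cov x
  have hper := D.pT_per hP c j v hv x hU
  have hR : R3 (x + v) = R3 x := by
    obtain ⟨k, rfl⟩ := hv
    exact R3_per x _
  have hR' : R3 (P.ϱ⁻¹ • (x + v)) = P.ϱ⁻¹ * R3 x := by
    rw [R3_smul (inv_nonneg.2 hϱ.le), hR]
  have h4 : (P.ϱ⁻¹ • (x + v)) 3 = P.ϱ⁻¹ * (x + v) 3 := rfl
  refine ⟨P.ϱ⁻¹ • (x + v), ⟨⟨?_, ?_⟩, ?_, ?_⟩, ?_⟩
  · rw [hR', lt_inv_mul_iff₀ hϱ]
    linarith
  · rw [hR', inv_mul_lt_iff₀ hϱ]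
    linarith
  · rw [h4]
    exact mul_nonneg (inv_nonneg.2 hϱ.le) hD.1
  · rw [h4, inv_mul_lt_iff₀ hϱ]
    have := hD.2
    linarith
  · rw [D.Ps_eq, smul_smul, mul_inv_cancel₀ hϱ.ne', one_smul, hper]

/-- A point of the ball lies on the bolt or is `pT c j x'` with `R3 x' = s` (`P2u_inv`, `pN_P2u`,
`sN`, `s_T`); move `x' 3` into one period (`fd_T.cov`, `pT_per`) and put `x = ϱ⁻¹ • x'`. -/
theorem AP.Ub_sub (X : AP D) (hP : P.Ok) (c : A.C) (j : ℤ) :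
    D.Ub c j ∩ {m | X.s m < E * P.ϱ} ⊆
      D.Ps c j '' OP E 0 ∪ ⋃ e, D.pN c j e '' {z | u01 z = 0} := by
  have hϱ := hP.ϱ0
  have hl := hP.l_pos
  have hl1 := hP.l_le
  have hr := hP.rho_le
  rintro m ⟨hm | hm, hs⟩
  · obtain ⟨x, ⟨h1, h2⟩, rfl⟩ := hm
    have hU : x ∈ P.UT := hP.mem_UT h1 (by linarith)
    have h3 := (abs_le_R3 x).2.2
    have h4 : X.s (D.pT c j x) < E * P.ϱ := hs
    rw [X.s_T hP c j hU (by linarith), min_eq_right (by linarith)] at h4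
    exact Or.inl (bball2_T D hP c j h1 h2 h4)
  · obtain ⟨e, z, hz, rfl⟩ := mem_iUnion.1 hm
    have h4 : X.s (D.pN c j e z) < E * P.ϱ := hs
    rw [X.sN c j e z hz] at h4
    rcases (Par.anum2_u_nonneg z).eq_or_lt with h0 | h0
    · exact Or.inr (mem_iUnion.2 ⟨e, z, h0.symm, rfl⟩)
    · obtain ⟨x, hx1, hx2, rfl⟩ := P2u_inv e h0
      have hz' : u01 (P2u e x) < 3 := hz
      have hR : R3 (P.ϱ • x) = P.ϱ * R3 x := R3_smul hϱ.le x
      rw [D.pN_P2u hP c j e (by linarith) (by linarith) hx2]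
      refine Or.inl (bball2_T D hP c j ?_ ?_ ?_)
      · rw [hR]
        nlinarith
      · rw [hR]
        nlinarith
      · rw [hR, hx1]
        exact h4

theorem bball2_null (X : AP D) (c : A.C) (j : ℤ) :
    volT X.g (⋃ e, D.pN c j e '' {z | u01 z = 0}) = 0 := by
  refine measure_iUnion_null fun e => (D.ptN c j e).null_image ?_ ?_ X.good vol_u01_zero
  · refine (isClosed_eq ?_ continuous_const).measurableSet
    unfold u01
    fun_prop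
  · intro z hz
    have h : u01 z = 0 := hz
    show u01 z < 3
    linarith

theorem bball2_const (X : AP D) (hP : P.Ok) (c : A.C) (j : ℤ) {T t : ℝ}
    (hT : T ≤ P.l / (100 * P.ϱ)) (F : D.M → ℝ≥0∞) :
    ∫⁻ y in OP T t, ENNReal.ofReal (rho (gpull (D.Ps c j) X.g) y) * F (D.Ps c j y) =
      ENNReal.ofReal (P.ϱ ^ 4) * ∫⁻ y in OP T t, F (D.Ps c j y) := by
  rw [← lintegral_const_mul' _ _ ENNReal.ofReal_ne_top]
  refine setLIntegral_congr_fun (measurableSet_OP T t) fun y hy => ?_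
  have h : y ∈ OT (P.l / (100 * P.ϱ)) := ⟨hy.1.1, hy.1.2.trans_le hT⟩
  simp only [X.rho_Ps hP c j h]

/-- `Ub_sub`, `Pt.null_image` with `vol_u01_zero`, `Pt.lint_le`, `rho_Ps`. -/
theorem AP.u1 (X : AP D) (hP : P.Ok) (hE : E ≤ P.l / (100 * P.ϱ)) (c : A.C) (j : ℤ)
    (F : D.M → ℝ≥0∞) (hF : Measurable F) :
    ∫⁻ x in D.Ub c j ∩ {x | X.s x < E * P.ϱ}, F x ∂volT X.g ≤
      ENNReal.ofReal (P.ϱ ^ 4) * ∫⁻ y in OP E 0, F (D.Ps c j y) := by
  refine (lintegral_mono_set (X.Ub_sub hP c j)).trans ((lintegral_union_le _ _ _).trans ?_)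
  rw [setLIntegral_measure_zero _ _ (bball2_null X c j), add_zero, ← bball2_const X hP c j hE]
  exact (D.pt_Ps hP c j).lint_le (measurableSet_OP E 0)
    (fun y hy => ⟨hy.1.1, hy.1.2.trans_le hE⟩) X.good hF

/-- `pT_inj` with `ϱ t`, `Pt.lint_eq`, `mem_Ps`. -/
theorem AP.u2 (X : AP D) (hP : P.Ok) (c : A.C) (j : ℤ) (t : ℝ) (F : D.M → ℝ≥0∞)
    (hF : Measurable F) :
    ENNReal.ofReal (P.ϱ ^ 4) * ∫⁻ y in OP (P.l / (100 * P.ϱ)) t, F (D.Ps c j y) ≤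
      ∫⁻ x in D.Ub c j, F x ∂volT X.g := by
  have hϱ := hP.ϱ0
  have hm : ∀ y ∈ OP (P.l / (100 * P.ϱ)) t, P.ϱ • y ∈
      P.UT ∩ {x | P.ϱ * t ≤ x 3 ∧ x 3 < P.ϱ * t + 4 * π * P.ϱ} := by
    intro y hy
    have h3 : (P.ϱ • y) 3 = P.ϱ * y 3 := rfl
    refine ⟨(hP.smul_OT hy.1).1, ?_, ?_⟩
    · rw [h3]
      exact mul_le_mul_of_nonneg_left hy.2.1 hϱ.le
    · rw [h3]
      have := mul_lt_mul_of_pos_left hy.2.2 hϱ
      linarith
  have hi : InjOn (D.Ps c j) (OP (P.l / (100 * P.ϱ)) t) := by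
    intro y hy y' hy' e
    rw [D.Ps_eq, D.Ps_eq] at e
    exact smul_right_injective E4 hϱ.ne' (D.pT_inj hP c j (P.ϱ * t) (hm y hy) (hm y' hy') e)
  rw [← bball2_const X hP c j le_rfl, ← (D.pt_Ps hP c j).lint_eq (measurableSet_OP _ t)
    (fun y hy => hy.1) hi X.good hF]
  refine lintegral_mono_set ?_
  rintro _ ⟨y, hy, rfl⟩
  exact D.mem_Ps hP c j y hy.1

/-- For `5 / 2 ≤ R3 x` take `.f3 c j ⟨ϱ • x, _⟩` and `mult3`; otherwise `.f4 c j e ⟨P2u e x, _⟩`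
(`exists_sign`, `P2u_u01`, `P2u_u23`, `pN_P2u`) and `mult4`. -/
theorem AP.p5 (X : AP D) (hP : P.Ok) (hC : P.RhoT C) (c : A.C) (j : ℤ) {x : E4}
    (hx : x ∈ OT (P.l / (100 * P.ϱ))) : ∃ a : Ix P A.C, D.Th a 0 = D.Ps c j x ∧
      ∀ F : D.M → ℝ≥0∞, Measurable F → ∫⁻ y in Q 2, F (D.Th a y) ≤
        ENNReal.ofReal (10 ^ 11 * C * (P.ϱ * a.sig ^ 3)⁻¹) * ∫⁻ z in D.Ub c j, F z ∂volT X.g := by
  have hϱ := hP.ϱ0
  have hl := hP.l_pos
  have hC1 := hC.1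
  obtain ⟨-, b1, b2⟩ := hP.smul_OT hx
  have hR : R3 (P.ϱ • x) = P.ϱ * R3 x := R3_smul hϱ.le x
  by_cases h : 5 / 2 ≤ R3 x
  · have hq : P.ϱ • x ∈ P.A3 := by
      refine ⟨(u01_le_R3 _).trans (pow_le_pow_left₀ (by linarith) (by linarith) 2), ?_, ?_⟩
      · linarith [(abs_le_R3 (P.ϱ • x)).2.2]
      · rw [hR]
        nlinarith
    refine ⟨.f3 c j ⟨P.ϱ • x, hq⟩, ?_, fun F hF => ?_⟩
    · show D.pT c j (T3 (P.ϱ • x) 0) = _
      rw [T3, smul_zero, add_zero, D.Ps_eq]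
    · refine (X.mult3 hP hC c j ⟨P.ϱ • x, hq⟩ (Z := D.Ub c j) (fun y hy hy' => ?_) hF).trans ?_
      · have h1 : R3 y ≤ 2 * R3 (P.ϱ • x) := hy'
        exact Or.inl ⟨y, ⟨hy.2.2, by linarith⟩, rfl⟩
      · refine mul_le_mul_left (ENNReal.ofReal_le_ofReal ?_) _
        have h0 : 0 < R3 (P.ϱ • x) := by linarith
        show 10 ^ 9 * C * (P.ϱ * R3 (P.ϱ • x) ^ 3)⁻¹ ≤ 10 ^ 11 * C * (P.ϱ * R3 (P.ϱ • x) ^ 3)⁻¹
        refine mul_le_mul_of_nonneg_right (by linarith) (by positivity)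
  · have h1 := hx.1
    rw [not_le] at h
    obtain ⟨e, he⟩ := exists_sign (x 2)
    have hq : P2u e x ∈ A4 := by
      refine ⟨?_, (P2u_u23 e (by linarith) he).trans (by norm_num)⟩
      rw [P2u_u01 e h1.le]
      linarith
    refine ⟨.f4 c j e ⟨P2u e x, hq⟩, ?_, fun F hF => ?_⟩
    · show D.pN c j e (T4 (P2u e x) 0) = _
      rw [T4, smul_zero, add_zero, D.Ps_eq, D.pN_P2u hP c j e h1 (by linarith) (by linarith)]
    · refine (X.mult4 hP c j e ⟨P2u e x, hq⟩ (Z := D.Ub c j) (fun z hz => ?_) hF).trans ?_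
      · exact Or.inr (mem_iUnion.2 ⟨e, z, hz, rfl⟩)
      · refine mul_le_mul_left (ENNReal.ofReal_le_ofReal ?_) _
        show 10 ^ 11 * (P.ϱ * P.ϱ ^ 3)⁻¹ ≤ 10 ^ 11 * C * (P.ϱ * P.ϱ ^ 3)⁻¹
        refine mul_le_mul_of_nonneg_right (by linarith) (by positivity)

/-- `om2 (s x) * n0` is the sum of a continuous function and of the indicator of the open set
`{s < l / 5}` applied to a continuous function `φ ≥ 0` (`rho_le_s`, `sm_n0`, `GoodT.integrable`);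
`∑ b, ∫ U b, φ = ∫ ⋃ U b, φ` (`integral_iUnion_fintype`, `disj_Ub`, `meas_Ub`), `s_Ub`,
`setIntegral_mono_set`. -/
theorem AP.co_le (X : AP D) (hP : P.Geom) [Fintype A.C] {h : D.M → Mat} (hh : SmG h) :
    P.ka ^ 2 * ∫ x, (X.s x ^ 2)⁻¹ * n0 X.g h x ∂volT X.g +
      ∑ b : A.C × Fin (P.K / 2), ∫ x in D.Ub b.1 (b.2 : ℕ),
        ((X.s x * (1 + X.s x / P.s0)) ^ 2)⁻¹ * n0 X.g h x ∂volT X.g ≤
      ∫ x, P.om2 (X.s x) * n0 X.g h x ∂volT X.g := by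
  have hO := hP.toOk
  have hl := hO.l_pos
  have hs : ∀ x, 0 < X.s x := fun x => hO.ϱ0.trans_le (X.rho_le_s hP x).1
  have hs0 : 0 < P.s0 := mul_pos hl (Real.rpow_pos_of_pos hl _)
  have hn : Continuous (n0 X.g h) := (sm_n0 X.good hh).continuous
  have hsc := X.scont
  have c1 : Continuous fun x => (X.s x ^ 2)⁻¹ * n0 X.g h x :=
    ((hsc.pow 2).inv₀ fun x => (pow_pos (hs x) 2).ne').mul hn
  have c2 : Continuous fun x => ((X.s x * (1 + X.s x / P.s0)) ^ 2)⁻¹ * n0 X.g h x := by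
    refine (((hsc.mul (continuous_const.add (hsc.div_const _))).pow 2).inv₀ fun x => ?_).mul hn
    have h1 := hs x
    show (X.s x * (1 + X.s x / P.s0)) ^ 2 ≠ 0
    positivity
  have i1 := X.good.integrable c1
  have i2 := X.good.integrable c2
  have hm : MeasurableSet {x | X.s x < P.l / 5} :=
    (isOpen_lt hsc continuous_const).measurableSet
  have e : (fun x => P.om2 (X.s x) * n0 X.g h x) = fun x =>
      P.ka ^ 2 * ((X.s x ^ 2)⁻¹ * n0 X.g h x) + {x | X.s x < P.l / 5}.indicator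
        (fun x => ((X.s x * (1 + X.s x / P.s0)) ^ 2)⁻¹ * n0 X.g h x) x := by
    funext x
    rw [Par.om2, indicator_apply]
    by_cases hx : X.s x < P.l / 5
    · rw [if_pos hx, if_pos (show x ∈ {x | X.s x < P.l / 5} from hx), mul_pow, one_div,
        div_eq_mul_inv]
      ring
    · rw [if_neg hx, if_neg (show x ∉ {x | X.s x < P.l / 5} from hx), div_eq_mul_inv]
      ring
  rw [e, integral_add (i1.const_mul _) (i2.indicator hm), integral_const_mul, integral_indicator hm,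
    ← integral_iUnion_fintype (fun b : A.C × Fin (P.K / 2) => D.meas_Ub hO b.1 (b.2 : ℕ))
      (D.disj_Ub hO) fun _ => i2.integrableOn]
  refine add_le_add_right (setIntegral_mono_set i2.integrableOn
    (Eventually.of_forall fun x => ?_) (LE.le.eventuallyLE ?_)) _
  · exact mul_nonneg (by positivity) (n0_nonneg X.good h x)
  · intro m hm'
    obtain ⟨b, hb⟩ := mem_iUnion.1 hm'
    exact X.s_Ub hO hb

/-- The left side of `co_le` is nonnegative. -/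
theorem AP.om2_nonneg (X : AP D) (h : D.M → Mat) :
    0 ≤ ∫ x, P.om2 (X.s x) * n0 X.g h x ∂volT X.g := by
  refine integral_nonneg fun x => mul_nonneg ?_ (n0_nonneg X.good h x)
  unfold Par.om2
  split_ifs <;> positivity

end Pool.Agent.Lib.MP_94aef8_gt
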