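import Pool.Agent.Lib.MP_94aef8_gt.J.ANum2
import Pool.Agent.Lib.MP_94aef8_gt.C.Vol2
import Pool.Agent.Lib.MP_94aef8_gt.C.Loc

/-! Boxes, cells and their volumes. -/

open scoped Manifold ContDiff Topology ENNReal
open Matrix Filter Set MeasureTheory Real

namespace Pool.Agent.Lib.MP_94aef8_gt

/-- The point `q + diag(a) p`. -/
noncomputable def dg (a : Fin 4 → ℝ) (q p : E4) : E4 := WithLp.toLp 2 fun i => q i + a i * p i

/-- The box with centre `q` and half sides `r * a i`. -/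
def bx (q : E4) (a : Fin 4 → ℝ) (r : ℝ) : Set E4 := {x | ∀ i, |x i - q i| < r * a i}

/-- The cell of the lattice `K ℤ ^ 3`. -/
def cell (K : ℝ) : Set E4 := {p | (0 ≤ p 0 ∧ p 0 < K) ∧ (0 ≤ p 1 ∧ p 1 < K) ∧ 0 ≤ p 2 ∧ p 2 < K}

variable {a : Fin 4 → ℝ} {q p : E4} {r K : ℝ}

theorem dg_apply (a : Fin 4 → ℝ) (q p : E4) (i : Fin 4) : dg a q p i = q i + a i * p i := rfl

theorem ext_4 {p q : E4} (h0 : p 0 = q 0) (h1 : p 1 = q 1) (h2 : p 2 = q 2) (h3 : p 3 = q 3) :
    p = q := by
  ext i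
  fin_cases i
  exacts [h0, h1, h2, h3]

theorem dg_smul (c : ℝ) (q p : E4) : dg (fun _ => c) q p = q + c • p := by
  ext i
  simp [dg_apply]

theorem isOpen_bx (q : E4) (a : Fin 4 → ℝ) (r : ℝ) : IsOpen (bx q a r) := by
  have : bx q a r = ⋂ i : Fin 4, {x : E4 | |x i - q i| < r * a i} := by
    ext x
    simp [bx]
  rw [this]
  exact isOpen_iInter_of_finite fun i => isOpen_lt (by fun_prop) continuous_const

theorem dg_mem (ha : ∀ i, 0 < a i) : dg a q p ∈ bx q a r ↔ p ∈ Q r := by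
  refine forall_congr' fun i => ?_
  rw [dg_apply, add_sub_cancel_left, abs_mul, abs_of_pos (ha i), mul_comm r]
  exact mul_lt_mul_iff_right₀ (ha i)

theorem bx_mono (ha : ∀ i, 0 ≤ a i) {r' : ℝ} (h : r ≤ r') : bx q a r ⊆ bx q a r' :=
  fun _ hx i => (hx i).trans_le (mul_le_mul_of_nonneg_right h (ha i))

theorem measurableSet_cell (K : ℝ) : MeasurableSet (cell K) := by
  have h : ∀ i : Fin 4, MeasurableSet {p : E4 | 0 ≤ p i ∧ p i < K} := fun i =>
    (show Measurable fun p : E4 => p i by fun_prop) measurableSet_Ico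
  exact (h 0).inter ((h 1).inter (h 2))

/-- `PiLp.volume_preserving_ofLp` (or `toLp`), `Real.volume_pi_Ioo`. -/
theorem vol_bx (q : E4) (ha : ∀ i, 0 ≤ a i) (hr : 0 ≤ r) :
    volume (bx q a r) = ENNReal.ofReal (16 * r ^ 4 * ∏ i, a i) := by
  have e : bx q a r =
      WithLp.ofLp ⁻¹' (Set.pi univ fun i => Ioo (q i - r * a i) (q i + r * a i)) := by
    ext x
    simp only [bx, mem_ofPred_eq, mem_preimage, mem_univ_pi, mem_Ioo, abs_lt]
    exact forall_congr' fun i => ⟨fun h => ⟨by linarith, by linarith⟩,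
      fun h => ⟨by linarith, by linarith⟩⟩
  rw [e, (PiLp.volume_preserving_ofLp (Fin 4)).measure_preimage
    (MeasurableSet.univ_pi fun _ => measurableSet_Ioo).nullMeasurableSet, Real.volume_pi_Ioo,
    ← ENNReal.ofReal_prod_of_nonneg fun i _ => by nlinarith [mul_nonneg hr (ha i)]]
  refine congrArg _ ?_
  simp only [Fin.prod_univ_four]
  ring

theorem vol_Icc (lo hi : Fin 4 → ℝ) :
    volume {x : E4 | ∀ i, lo i ≤ x i ∧ x i ≤ hi i} = ∏ i, ENNReal.ofReal (hi i - lo i) := by
  have e : {x : E4 | ∀ i, lo i ≤ x i ∧ x i ≤ hi i} = WithLp.ofLp ⁻¹' Icc lo hi := by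
    ext x
    simp only [mem_ofPred_eq, mem_preimage, mem_Icc, Pi.le_def, forall_and]
  rw [e, (PiLp.volume_preserving_ofLp (Fin 4)).measure_preimage
    measurableSet_Icc.nullMeasurableSet, Real.volume_Icc_pi]

/-- The diagonal map. -/
noncomputable def bbox_dia (a : Fin 4 → ℝ) : E4 →L[ℝ] E4 :=
  LinearMap.toContinuousLinearMap
    { toFun := fun p => WithLp.toLp 2 fun i => a i * p i
      map_add' := fun p p' => by
        ext i
        simp [mul_add]
      map_smul' := fun c p => by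
        ext i
        simp [mul_left_comm] }

theorem bbox_det (a : Fin 4 → ℝ) : (bbox_dia a).det = ∏ i, a i := by
  rw [cmat_det, ← Matrix.det_diagonal]
  refine congrArg _ (Matrix.ext fun i j => ?_)
  simp [cmat, bbox_dia, bas, Matrix.diagonal_apply]

theorem bbox_deriv (a : Fin 4 → ℝ) (q p : E4) : HasFDerivAt (dg a q) (bbox_dia a) p :=
  (bbox_dia a).hasFDerivAt.const_add q

theorem bbox_image (q : E4) (r : ℝ) (ha : ∀ i, 0 < a i) : dg a q '' Q r = bx q a r := by
  ext x
  refine ⟨by rintro ⟨p, hp, rfl⟩; exact (dg_mem ha).2 hp, fun hx => ?_⟩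
  have e : dg a q (WithLp.toLp 2 fun i => (x i - q i) / a i) = x := by
    ext i
    rw [dg_apply, mul_div_cancel₀ _ (ha i).ne', add_sub_cancel]
  exact ⟨_, (dg_mem ha).1 (e.symm ▸ hx), e⟩

/-- `bx q a r = dg a q '' Q r`, `lintegral_image_eq_lintegral_abs_det_fderiv_mul` with the diagonal
map (`Matrix.toEuclideanLin (diagonal a)` or `cmat_det`), or `Measure.map_linearMap_addHaar_eq_smul_addHaar`
and the invariance under translations. -/
theorem lint_dg (q : E4) (r : ℝ) (ha : ∀ i, 0 < a i) {f : E4 → ℝ≥0∞} (hf : Measurable f) :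
    ∫⁻ p in Q r, f (dg a q p) = ENNReal.ofReal (∏ i, a i)⁻¹ * ∫⁻ x in bx q a r, f x := by
  have hp : 0 < ∏ i, a i := Finset.prod_pos fun i _ => ha i
  have hQ : MeasurableSet (Q r) := by
    have : Q r = bx 0 (fun _ => 1) r := by
      ext x
      simp [Q, bx]
    rw [this]
    exact (isOpen_bx _ _ _).measurableSet
  have hi : InjOn (dg a q) (Q r) := fun p _ p' _ e => by
    ext i
    have := congrArg (fun x : E4 => x i) e
    simp only [dg_apply, add_right_inj] at this
    exact mul_left_cancel₀ (ha i).ne' this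
  rw [← bbox_image q r ha, lintegral_image_eq_lintegral_abs_det_fderiv_mul volume hQ
    (fun p _ => (bbox_deriv a q p).hasFDerivWithinAt) hi f,
    lintegral_const_mul' _ _ ENNReal.ofReal_ne_top, bbox_det, abs_of_pos hp, ← mul_assoc,
    ← ENNReal.ofReal_mul (inv_nonneg.2 hp.le), inv_mul_cancel₀ hp.ne', ENNReal.ofReal_one, one_mul]

theorem bbox_pre (K : ℝ) (S : Set ℝ) : WithLp.toLp 2 ⁻¹' (cell K ∩ {p | p 3 ∈ S}) =
    Set.pi univ ![Ico 0 K, Ico 0 K, Ico 0 K, S] := by
  ext x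
  refine ⟨fun h i _ => ?_, fun h => ⟨⟨h 0 trivial, h 1 trivial, h 2 trivial⟩, h 3 trivial⟩⟩
  fin_cases i
  exacts [h.1.1, h.1.2.1, h.1.2.2, h.2]

/-- Move to `Fin 4 → ℝ`; the integrand is `∏ i, f i (x i)` with indicator functions
(`integral_fintype_prod_volume_eq_prod` or `integral_fintype_prod_eq_prod`). -/
theorem int_cell (hK : 0 ≤ K) {S : Set ℝ} (hS : MeasurableSet S) (φ : ℝ → ℝ) :
    ∫ p in cell K ∩ {p | p 3 ∈ S}, φ (p 3) = K ^ 3 * ∫ y in S, φ y := by
  rw [← (PiLp.volume_preserving_toLp (Fin 4)).setIntegral_preimage_emb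
    (MeasurableEquiv.toLp 2 (Fin 4 → ℝ)).measurableEmbedding, bbox_pre, volume_pi,
    Measure.restrict_pi_pi]
  have h := integral_fintype_prod_eq_prod (ι := Fin 4) (E := fun _ => ℝ)
    ![fun _ => (1 : ℝ), fun _ => 1, fun _ => 1, φ]
    (μ := fun i => volume.restrict (![Ico 0 K, Ico 0 K, Ico 0 K, S] i))
  simp only [Fin.prod_univ_four, cons_val_zero, cons_val_one, cons_val, one_mul, integral_const,
    smul_eq_mul, mul_one, measureReal_restrict_apply_univ, Real.volume_real_Ico_of_le hK,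
    sub_zero] at h
  rw [h]
  ring

theorem bbox_map (hK : 0 ≤ K) : Measure.map (fun p : E4 => p 3) (volume.restrict (cell K)) =
    ENNReal.ofReal (K ^ 3) • (volume : Measure ℝ) := by
  have hm : Measurable fun p : E4 => p 3 := by fun_prop
  refine Measure.ext fun S hS => ?_
  rw [Measure.map_apply hm hS, Measure.restrict_apply (hm hS), Measure.smul_apply, smul_eq_mul,
    ← (PiLp.volume_preserving_toLp (Fin 4)).measure_preimage
      ((hm hS).inter (measurableSet_cell K)).nullMeasurableSet, inter_comm]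
  refine (congrArg volume (bbox_pre K S)).trans ?_
  rw [volume_pi_pi, Fin.prod_univ_four, ENNReal.ofReal_pow hK]
  simp only [cons_val_zero, cons_val_one, cons_val, Real.volume_Ico, sub_zero]
  ring

/-- The map `p ↦ p 3` sends `volume.restrict (cell K)` to `ofReal (K ^ 3) • volume` (test on
intervals, `Real.measure_ext_Ioo_rat` or `Measure.ext_of_Ico`); this also gives `int_cell`. -/
theorem lint_cell (hK : 0 ≤ K) {S : Set ℝ} (hS : MeasurableSet S) {φ : ℝ → ℝ≥0∞}
    (hφ : Measurable φ) :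
    ∫⁻ p in cell K ∩ {p | p 3 ∈ S}, φ (p 3) = ENNReal.ofReal (K ^ 3) * ∫⁻ y in S, φ y := by
  have hm : Measurable fun p : E4 => p 3 := by fun_prop
  have h := setLIntegral_map (μ := volume.restrict (cell K)) hS hφ hm
  rw [bbox_map hK, Measure.restrict_smul, lintegral_smul_measure, smul_eq_mul,
    Measure.restrict_restrict (hm hS), inter_comm] at h
  exact h.symm

/-- Contained in the hyperplane `z 0 = 0` (`Measure.addHaar_submodule`), or in boxes of volume `0`. -/
theorem vol_u01_zero : volume {z : E4 | u01 z = 0} = 0 := by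
  refine measure_mono_null (t := LinearMap.ker (EuclideanSpace.projₗ (0 : Fin 4) : E4 →ₗ[ℝ] ℝ))
    (fun z hz => ?_) (Measure.addHaar_submodule _ _ fun e => ?_)
  · have h : z 0 ^ 2 + z 1 ^ 2 = 0 := hz
    change z 0 = 0
    nlinarith [sq_nonneg (z 0), sq_nonneg (z 1)]
  · have h : bas 0 ∈ LinearMap.ker (EuclideanSpace.projₗ (0 : Fin 4) : E4 →ₗ[ℝ] ℝ) := by
      rw [e]
      trivial
    simp [bas] at h

theorem rho_sq_smul {G G' : Tn} {c : ℝ} (e : G p = c ^ 2 • G' p) :
    rho G p = c ^ 4 * rho G' p := by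
  rw [rho, rho, e, Matrix.det_smul, Fintype.card_fin,
    show (c ^ 2) ^ 4 = (c ^ 4) ^ 2 by ring, Real.sqrt_mul (sq_nonneg _),
    Real.sqrt_sq (by positivity)]

theorem rho_eq_of_eq {G G' : Tn} (e : G p = G' p) : rho G p = rho G' p := by
  simp only [rho, e]

end Pool.Agent.Lib.MP_94aef8_gt
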