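import Pool.Agent.Lib.MP_94aef8_gt.J.BFD

/-! The averaging lemma for boxes with slowly varying sides. -/

open scoped Manifold ContDiff Topology ENNReal
open Matrix Filter Set MeasureTheory Real

namespace Pool.Agent.Lib.MP_94aef8_gt

/-- Boxes with centres in `Wc` and slowly varying sides `a`; they cover `W₁` with a margin and lie
in `W₂`; the density `m` varies slowly. -/
structure Slow (V W₁ Wc W₂ : Set E4) (a : E4 → Fin 4 → ℝ) (m : E4 → ℝ) (c : ℝ) : Prop where
  meas₁ : MeasurableSet W₁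
  measc : MeasurableSet Wc
  inv₁ : InvS V W₁
  invc : InvS V Wc
  measa : ∀ i, Measurable fun q => a q i
  inva : InvF V a
  cpos : 0 < c
  pos : ∀ q ∈ Wc, (∀ i, 0 < a q i) ∧ 0 ≤ m q
  inn : ∀ x ∈ W₁, (∀ i, 0 < a x i) ∧ ∀ q ∈ bx x (a x) (1 / 2), q ∈ Wc ∧ x ∈ bx q (a q) 1
  out : ∀ q ∈ Wc, ∀ x ∈ bx q (a q) 2, x ∈ W₂ ∧ (∀ i, a q i ≤ 2 * a x i ∧ a x i ≤ 2 * a q i) ∧
    m x ≤ c * m q ∧ m q ≤ c * m x

variable {V D W₁ Wc W₂ : Set E4} {a : E4 → Fin 4 → ℝ} {m : E4 → ℝ} {c : ℝ}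

open Classical in
/-- The averaging kernel. -/
noncomputable def ker (Wc : Set E4) (a : E4 → Fin 4 → ℝ) (m : E4 → ℝ) (r : ℝ) (q x : E4) : ℝ≥0∞ :=
  if q ∈ Wc ∧ x ∈ bx q (a q) r then ENNReal.ofReal (m q * (∏ i, a q i)⁻¹) else 0

theorem bchain_self {x : E4} {b : Fin 4 → ℝ} (hb : ∀ i, 0 < b i) {r : ℝ} (hr : 0 < r) :
    x ∈ bx x b r := fun i => by
  rw [sub_self, abs_zero]
  exact mul_pos hr (hb i)

theorem bchain_prod {b b' : Fin 4 → ℝ} (hb : ∀ i, 0 < b i) (h : ∀ i, b i ≤ 2 * b' i) :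
    ∏ i, b i ≤ 16 * ∏ i, b' i := by
  refine (Finset.prod_le_prod (fun i _ => (hb i).le) fun i _ => h i).trans_eq ?_
  rw [Finset.prod_mul_distrib, Finset.prod_const, Finset.card_univ, Fintype.card_fin]
  norm_num

theorem Slow.sub (H : Slow V W₁ Wc W₂ a m c) : W₁ ⊆ W₂ := fun x hx =>
  (H.out x ((H.inn x hx).2 x (bchain_self (H.inn x hx).1 one_half_pos)).1 x
    (bchain_self (H.inn x hx).1 two_pos)).1

theorem Slow.ker_meas (H : Slow V W₁ Wc W₂ a m c) (hm : Measurable m) (r : ℝ) :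
    Measurable (Function.uncurry (ker Wc a m r)) := by
  have h1 : MeasurableSet {z : E4 × E4 | z.1 ∈ Wc ∧ z.2 ∈ bx z.1 (a z.1) r} := by
    refine (measurable_fst H.measc).inter ?_
    change MeasurableSet {z : E4 × E4 | ∀ i, |z.2 i - z.1 i| < r * a z.1 i}
    rw [ofPred_forall]
    exact MeasurableSet.iInter fun i => measurableSet_lt (by fun_prop)
      (((H.measa i).comp measurable_fst).const_mul r)
  exact Measurable.ite h1 (((hm.mul (Finset.measurable_prod _ fun i _ => H.measa i).inv).comp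
    measurable_fst).ennreal_ofReal) measurable_const

theorem Slow.ker_inv (H : Slow V W₁ Wc W₂ a m c) (hm : InvF V m) (r : ℝ) :
    ∀ v ∈ V, ∀ q x, ker Wc a m r (q + v) (x + v) = ker Wc a m r q x := by
  intro v hv q x
  have h1 : x + v ∈ bx (q + v) (a q) r ↔ x ∈ bx q (a q) r := forall_congr' fun i => by
    rw [PiLp.add_apply, PiLp.add_apply, add_sub_add_right_eq_sub]
  rw [ker, ker, H.inva v hv, hm v hv, H.invc v hv q, h1]

/-- On `bx x (a x) (1 / 2)`, of volume `∏ a x i`, the kernel is at least `m x / (16 c ∏ a x i)`. -/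
theorem Slow.ker_lo (H : Slow V W₁ Wc W₂ a m c) {x : E4} (hx : x ∈ W₁) :
    ENNReal.ofReal (m x) ≤ ENNReal.ofReal (16 * c) * ∫⁻ q, ker Wc a m 1 q x := by
  obtain ⟨ha, h⟩ := H.inn x hx
  have hc := H.cpos
  have hP : 0 < ∏ i, a x i := Finset.prod_pos fun i _ => ha i
  have h1 : ∀ q ∈ bx x (a x) (1 / 2),
      ENNReal.ofReal (m x / (16 * c * ∏ i, a x i)) ≤ ker Wc a m 1 q x := fun q hq => by
    obtain ⟨h2, h3⟩ := h q hq
    obtain ⟨h4, h5⟩ := H.pos q h2
    obtain ⟨-, h6, h7, -⟩ := H.out q h2 x (bx_mono (fun i => (h4 i).le) one_le_two h3)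
    have h8 := bchain_prod h4 fun i => (h6 i).1
    have h9 : 0 < ∏ i, a q i := Finset.prod_pos fun i _ => h4 i
    rw [ker, if_pos ⟨h2, h3⟩, ← div_eq_mul_inv]
    refine ENNReal.ofReal_le_ofReal ?_
    rw [div_le_div_iff₀ (by positivity) h9]
    calc m x * ∏ i, a q i ≤ c * m q * (16 * ∏ i, a x i) :=
          mul_le_mul h7 h8 h9.le (by positivity)
      _ = _ := by ring
  have h2 := (setLIntegral_mono' (μ := volume) (isOpen_bx _ _ _).measurableSet h1).trans
    (setLIntegral_le_lintegral _ _)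
  rw [setLIntegral_const, vol_bx x (fun i => (ha i).le) one_half_pos.le,
    ← ENNReal.ofReal_mul' (by positivity)] at h2
  refine le_trans (le_of_eq ?_) (mul_le_mul_right h2 _)
  rw [← ENNReal.ofReal_mul (by positivity)]
  congr 1
  field_simp
  norm_num

/-- The kernel vanishes unless `x ∈ W₂` and `q ∈ bx x (a x) 4`, and it is at most
`16 c m x / ∏ a x i`. If it vanishes for all `q` there is nothing to prove. -/
theorem Slow.ker_up (H : Slow V W₁ Wc W₂ a m c) (x : E4) : ∫⁻ q, ker Wc a m 2 q x ≤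
    W₂.indicator (fun x => ENNReal.ofReal (65536 * c) * ENNReal.ofReal (m x)) x := by
  by_cases h : ∃ q, q ∈ Wc ∧ x ∈ bx q (a q) 2
  · obtain ⟨q₀, h1, h2⟩ := h
    have hc := H.cpos
    have ha : ∀ i, 0 < a x i := fun i => by
      linarith [((H.out q₀ h1 x h2).2.1 i).1, (H.pos q₀ h1).1 i]
    have hP : 0 < ∏ i, a x i := Finset.prod_pos fun i _ => ha i
    have h3 : ∀ q, ker Wc a m 2 q x ≤ (bx x (a x) 4).indicator
        (fun _ => ENNReal.ofReal (16 * c * m x / ∏ i, a x i)) q := fun q => by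
      rw [ker]
      split_ifs with h4
      · obtain ⟨h5, h6⟩ := H.pos q h4.1
        obtain ⟨-, h7, -, h8⟩ := H.out q h4.1 x h4.2
        have h9 : q ∈ bx x (a x) 4 := fun i => by
          rw [abs_sub_comm]
          linarith [h4.2 i, (h7 i).1]
        have h10 := bchain_prod ha fun i => (h7 i).2
        have h11 : 0 < ∏ i, a q i := Finset.prod_pos fun i _ => h5 i
        rw [indicator_of_mem h9, ← div_eq_mul_inv]
        refine ENNReal.ofReal_le_ofReal ?_
        rw [div_le_div_iff₀ h11 hP]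
        calc m q * ∏ i, a x i ≤ c * m x * (16 * ∏ i, a q i) :=
              mul_le_mul h8 h10 hP.le (h6.trans h8)
          _ = _ := by ring
      · exact zero_le
    refine (lintegral_mono h3).trans (le_of_eq ?_)
    rw [lintegral_indicator_const (isOpen_bx _ _ _).measurableSet,
      vol_bx x (fun i => (ha i).le) (by norm_num), indicator_of_mem (H.out q₀ h1 x h2).1,
      ← ENNReal.ofReal_mul' (by positivity), ← ENNReal.ofReal_mul (by positivity)]
    congr 1
    field_simp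
    ring
  · have h1 : ∀ q, ker Wc a m 2 q x = 0 := fun q => if_neg fun h1 => h ⟨q, h1⟩
    simp only [h1, lintegral_zero, zero_le]

/-- `lint_dg`. -/
theorem Slow.ker_int (H : Slow V W₁ Wc W₂ a m c) (r : ℝ) {f : E4 → ℝ≥0∞} (hf : Measurable f)
    (q : E4) : ∫⁻ x, ker Wc a m r q x * f x =
      Wc.indicator (fun q => ENNReal.ofReal (m q) * ∫⁻ p in Q r, f (dg (a q) q p)) q := by
  by_cases hq : q ∈ Wc
  · rw [indicator_of_mem hq, lint_dg q r (H.pos q hq).1 hf, ← mul_assoc,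
      ← ENNReal.ofReal_mul (H.pos q hq).2, ← lintegral_const_mul _ hf,
      ← lintegral_indicator (isOpen_bx _ _ _).measurableSet]
    refine lintegral_congr fun x => ?_
    by_cases hx : x ∈ bx q (a q) r
    · rw [indicator_of_mem hx, ker, if_pos ⟨hq, hx⟩]
    · rw [indicator_of_notMem hx, ker, if_neg fun h => hx h.2, zero_mul]
  · have h1 : ∀ x, ker Wc a m r q x = 0 := fun x => if_neg fun h1 => hq h1.1
    simp only [h1, zero_mul, lintegral_zero, indicator_of_notMem hq]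

/-- `ker_lo`, `FD.swap` for `ker 1 q x * f₁ x`, `ker_int`, the hypothesis, `ker_int`, `FD.swap`,
`ker_up`. -/
theorem Slow.chain (H : Slow V W₁ Wc W₂ a m c) (hD : FD V D) (hW : MeasurableSet W₂)
    (hm : Measurable m) (hmi : InvF V m) {f₁ f₂ : E4 → ℝ≥0∞} (h₁ : Measurable f₁)
    (h₂ : Measurable f₂) (i₁ : InvF V f₁) (i₂ : InvF V f₂) {L : ℝ≥0∞}
    (h : ∀ q ∈ Wc, ∫⁻ p in Q 1, f₁ (dg (a q) q p) ≤ L * ∫⁻ p in Q 2, f₂ (dg (a q) q p)) :
    ∫⁻ x in D ∩ W₁, f₁ x * ENNReal.ofReal (m x) ≤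
      ENNReal.ofReal (2 ^ 20 * c ^ 2) * L * ∫⁻ x in D ∩ W₂, f₂ x * ENNReal.ofReal (m x) := by
  have hc := H.cpos
  have km : ∀ (r : ℝ) {f : E4 → ℝ≥0∞}, Measurable f →
      Measurable (Function.uncurry fun q x => ker Wc a m r q x * f x) :=
    fun r f hf => (H.ker_meas hm r).mul (hf.comp measurable_snd)
  have sw : ∀ (r : ℝ) {f : E4 → ℝ≥0∞}, Measurable f → InvF V f →
      ∫⁻ q in D, ∫⁻ x, ker Wc a m r q x * f x = ∫⁻ x in D, (∫⁻ q, ker Wc a m r q x) * f x :=
    fun r f hf hi => by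
      rw [hD.swap (km r hf) fun v hv q x => by rw [H.ker_inv hmi r v hv, hi v hv]]
      exact lintegral_congr fun x => lintegral_mul_const _ (H.ker_meas hm r).of_uncurry_right
  calc ∫⁻ x in D ∩ W₁, f₁ x * ENNReal.ofReal (m x)
      ≤ ∫⁻ x in D ∩ W₁, ENNReal.ofReal (16 * c) * ((∫⁻ q, ker Wc a m 1 q x) * f₁ x) :=
        setLIntegral_mono' (hD.meas.inter H.meas₁) fun x hx => by
          rw [mul_comm, ← mul_assoc]
          exact mul_le_mul_left (H.ker_lo hx.2) _
    _ ≤ ∫⁻ x in D, ENNReal.ofReal (16 * c) * ((∫⁻ q, ker Wc a m 1 q x) * f₁ x) :=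
        lintegral_mono_set inter_subset_left
    _ = ENNReal.ofReal (16 * c) * ∫⁻ q in D, ∫⁻ x, ker Wc a m 1 q x * f₁ x := by
        rw [lintegral_const_mul' _ _ ENNReal.ofReal_ne_top, sw 1 h₁ i₁]
    _ ≤ ENNReal.ofReal (16 * c) * ∫⁻ q in D, L * ∫⁻ x, ker Wc a m 2 q x * f₂ x := by
        refine mul_le_mul_right (lintegral_mono fun q => ?_) _
        rw [H.ker_int 1 h₁, H.ker_int 2 h₂]
        by_cases hq : q ∈ Wc
        · rw [indicator_of_mem hq, indicator_of_mem hq, mul_left_comm]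
          exact mul_le_mul_right (h q hq) _
        · rw [indicator_of_notMem hq]
          exact zero_le
    _ = ENNReal.ofReal (16 * c) * (L * ∫⁻ x in D, (∫⁻ q, ker Wc a m 2 q x) * f₂ x) := by
        rw [lintegral_const_mul _ (km 2 h₂).lintegral_prod_right, sw 2 h₂ i₂]
    _ ≤ ENNReal.ofReal (16 * c) * (L * ∫⁻ x in D, W₂.indicator
          (fun x => ENNReal.ofReal (65536 * c) * (f₂ x * ENNReal.ofReal (m x))) x) := by
        refine mul_le_mul_right (mul_le_mul_right (lintegral_mono fun x => ?_) _) _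
        refine (mul_le_mul_left (H.ker_up x) _).trans (le_of_eq ?_)
        by_cases hx : x ∈ W₂
        · rw [indicator_of_mem hx, indicator_of_mem hx, mul_assoc, mul_comm (f₂ x)]
        · rw [indicator_of_notMem hx, indicator_of_notMem hx, zero_mul]
    _ = _ := by
        rw [lintegral_indicator hW, Measure.restrict_restrict hW, inter_comm W₂,
          lintegral_const_mul' _ _ ENNReal.ofReal_ne_top, mul_left_comm L, ← mul_assoc,
          ← ENNReal.ofReal_mul (by positivity), ← mul_assoc]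
        congr 3
        ring

end Pool.Agent.Lib.MP_94aef8_gt
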