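import Pool.Agent.Lib.MP_94aef8_gt.J.BBox

/-! Pieces of the slabs on which the projection is injective. -/

open scoped Manifold ContDiff Topology ENNReal
open Matrix Filter Set MeasureTheory Real

namespace Pool.Agent.Lib.MP_94aef8_gt

/-- A finite list of compact pieces of the truncated slabs; no transition map moves a point
inside one piece. -/
structure Arith.Pcs {K : ℕ} (A : Arith K) {N : ℕ} (κ : Fin N → A.C) (B : Fin N → Set E4) :
    Prop where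
  cpt : ∀ i, IsCompact (B i)
  sub : ∀ i, ∀ p ∈ B i, 17 / 50 ≤ p 3 ∧ p 3 ≤ 59 / 20
  inj : ∀ i, ∀ p ∈ B i, ∀ τ ∈ A.Tr (κ i) (κ i), τ p ∈ B i → τ p = p
  cov : ∀ c, ∀ p ∈ cell K, 17 / 50 ≤ p 3 → p 3 ≤ 59 / 20 → ∃ i, κ i = c ∧ p ∈ B i

variable {K : ℕ}

/-- Only finitely many `τ` move a point of `S` into `S` (`proper`). Each of them is the identity on
`UH` or has no fixed point (`free`), and then `dist (τ p) p` is bounded below on `S` (`ld`,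
`IsCompact.exists_forall_le'`). -/
theorem Arith.exists_eps (A : Arith K) (c : A.C) {S : Set E4} (hS : IsCompact S) (hU : S ⊆ UH) :
    ∃ ε > 0, ∀ p ∈ S, ∀ τ ∈ A.Tr c c, τ p ∈ S → dist (τ p) p < ε → τ p = p := by
  have h1 : ∀ τ ∈ {τ | τ ∈ A.Tr c c ∧ ∃ p ∈ S, τ p ∈ S},
      ∀ᶠ ε in 𝓝[>] (0 : ℝ), ∀ p ∈ S, dist (τ p) p < ε → τ p = p := fun τ hτ => by
    by_cases hf : ∃ p ∈ UH, τ p = p
    · obtain ⟨p, hp, e⟩ := hf
      exact Eventually.of_forall fun ε q hq _ => A.free hτ.1 p hp e q (hU hq)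
    · obtain ⟨a, ha, h⟩ := hS.exists_forall_le' (f := fun p => dist (τ p) p) (a := 0)
        (fun p hp => (((A.ld hτ.1).smooth.continuousOn.mono hU) p hp).dist continuousWithinAt_id)
        fun p hp => dist_pos.2 fun e => hf ⟨p, hU hp, e⟩
      filter_upwards [Ioo_mem_nhdsGT ha] with ε hε q hq hd
      exact absurd (hd.trans hε.2) (not_lt.2 (h q hq))
  obtain ⟨ε, h2, h3⟩ :=
    (((eventually_all_finite (A.proper c c S S hS hS hU hU)).2 h1).and self_mem_nhdsWithin).exists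
  exact ⟨ε, h3, fun p hp τ hτ hm hd => h2 τ ⟨hτ, p, hp, hm⟩ p hp hd⟩

/-- The closed truncated cell. -/
def bgrpS (K : ℝ) : Set E4 :=
  {p | ((0 ≤ p 0 ∧ p 0 ≤ K) ∧ (0 ≤ p 1 ∧ p 1 ≤ K) ∧ 0 ≤ p 2 ∧ p 2 ≤ K) ∧
    17 / 50 ≤ p 3 ∧ p 3 ≤ 59 / 20}

theorem bgrp_cpt (K : ℝ) : IsCompact (bgrpS K) := by
  have c : ∀ i : Fin 4, Continuous fun p : E4 => p i := fun i => by fun_prop
  refine Metric.isCompact_of_isClosed_isBounded ?_ ?_
  · exact (((isClosed_le continuous_const (c 0)).inter (isClosed_le (c 0) continuous_const)).inter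
      (((isClosed_le continuous_const (c 1)).inter (isClosed_le (c 1) continuous_const)).inter
        ((isClosed_le continuous_const (c 2)).inter (isClosed_le (c 2) continuous_const)))).inter
      ((isClosed_le continuous_const (c 3)).inter (isClosed_le (c 3) continuous_const))
  · refine isBounded_iff_forall_norm_le.2 ⟨√(3 * K ^ 2 + 9), ?_⟩
    rintro y ⟨⟨⟨a0, b0⟩, ⟨a1, b1⟩, a2, b2⟩, a3, b3⟩
    rw [EuclideanSpace.norm_eq, Fin.sum_univ_four]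
    simp only [Real.norm_eq_abs, sq_abs]
    refine Real.sqrt_le_sqrt ?_
    have h0 := pow_le_pow_left₀ a0 b0 2
    have h1 := pow_le_pow_left₀ a1 b1 2
    have h2 := pow_le_pow_left₀ a2 b2 2
    have h3 : y 3 ^ 2 ≤ 9 := by nlinarith
    linarith

/-- `S = {0 ≤ p i ≤ K, 17 / 50 ≤ p 3 ≤ 59 / 20}` is compact; cover it by finitely many balls of
radius `ε / 3` (`IsCompact.finite_cover_balls` or `elim_nhds_subcover`), the pieces are
`S ∩ closedBall`; enumerate the finite type `Σ c, pieces` by `Finite.equivFin` (`A.fin`). -/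
theorem Arith.exists_pcs (A : Arith K) :
    ∃ (N : ℕ) (κ : Fin N → A.C) (B : Fin N → Set E4), A.Pcs κ B := by
  have hU : bgrpS K ⊆ UH := fun p hp => lt_of_lt_of_le (by norm_num) hp.2.1
  choose ε hε h using fun c => A.exists_eps c (bgrp_cpt K) hU
  choose t _ ht hc using fun c =>
    finite_cover_balls_of_compact (bgrp_cpt K) (e := ε c / 3) (div_pos (hε c) three_pos)
  have := A.fin
  have : ∀ c, Finite (t c) := fun c => (ht c).to_subtype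
  let e := Finite.equivFin (Σ c, t c)
  refine ⟨_, fun i => (e.symm i).1,
    fun i => bgrpS K ∩ Metric.closedBall (e.symm i).2.1 (ε (e.symm i).1 / 3),
    fun i => (bgrp_cpt K).inter_right Metric.isClosed_closedBall, fun i p hp => hp.1.2,
    fun i p hp τ hτ hm => h _ p hp.1 τ hτ hm.1 ?_, fun c p hp h1 h2 => ?_⟩
  · have h1 := Metric.mem_closedBall.1 hp.2
    have h2 := Metric.mem_closedBall.1 hm.2
    have h3 := dist_triangle_right (τ p) p (e.symm i).2.1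
    linarith [hε (e.symm i).1]
  · have hS : p ∈ bgrpS K :=
      ⟨⟨⟨hp.1.1, hp.1.2.le⟩, ⟨hp.2.1.1, hp.2.1.2.le⟩, hp.2.2.1, hp.2.2.2.le⟩, h1, h2⟩
    obtain ⟨x, hx, hb⟩ := mem_iUnion₂.1 (hc c hS)
    refine ⟨e ⟨c, x, hx⟩, ?_⟩
    rw [e.symm_apply_apply]
    exact ⟨rfl, hS, Metric.ball_subset_closedBall hb⟩

theorem trl_three (K : ℝ) (v : Fin 3 → ℤ) (p : E4) : trl K v p 3 = p 3 := rfl

theorem bgrp_floor {K : ℝ} (hK : 0 < K) (x : ℝ) : ∃ v : ℤ, 0 ≤ x + K * v ∧ x + K * v < K := by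
  have h1 := Int.sub_floor_div_mul_nonneg x hK
  have h2 := Int.sub_floor_div_mul_lt x hK
  refine ⟨-⌊x / K⌋, ?_, ?_⟩ <;> push_cast <;> linarith

theorem exists_trl_cell {K : ℝ} (hK : 0 < K) (p : E4) : ∃ v, trl K v p ∈ cell K := by
  obtain ⟨a, ha⟩ := bgrp_floor hK (p 0)
  obtain ⟨b, hb⟩ := bgrp_floor hK (p 1)
  obtain ⟨c, hc⟩ := bgrp_floor hK (p 2)
  exact ⟨![a, b, c], ha, hb, hc⟩

theorem bgrp_zero {K x : ℝ} {v : ℤ} (h : 0 ≤ x ∧ x < K) (h' : 0 ≤ x + K * v ∧ x + K * v < K) :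
    x + K * v = x := by
  have hK : 0 < K := h.1.trans_lt h.2
  have h1 : (v : ℝ) < 1 := by nlinarith [h.1, h'.2]
  have h2 : (-1 : ℝ) < v := by nlinarith [h.2, h'.1]
  have h3 : v < 1 := by exact_mod_cast h1
  have h4 : -1 < v := by exact_mod_cast h2
  obtain rfl : v = 0 := by omega
  simp

theorem trl_cell_eq {K : ℝ} {v : Fin 3 → ℤ} {p : E4} (hp : p ∈ cell K) (h : trl K v p ∈ cell K) :
    trl K v p = p :=
  ext_4 (bgrp_zero hp.1 h.1) (bgrp_zero hp.2.1 h.2.1) (bgrp_zero hp.2.2 h.2.2) rfl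

variable {P : Par} {A : Arith P.K}

theorem Par.Ok.mem_UO (hP : P.Ok) {p : E4} (h1 : 17 / 50 ≤ p 3) (h2 : P.δ * p 3 ≤ 99 / 100) :
    p ∈ P.UO := by
  refine ⟨lt_of_lt_of_le (by norm_num) h1, ?_⟩
  have h0 := hP.δ0
  have h3 := hP.δ1
  have h4 : (P.l / 10) ^ 2 ≤ 1 / 100 := by
    unfold Par.l
    nlinarith
  have h5 : P.δ * p 3 * (1 + 3 / 4 * (P.l / 10) ^ 2) ≤ 99 / 100 * (1 + 3 / 4 * (1 / 100)) :=
    mul_le_mul h2 (by linarith) (by positivity) (by norm_num)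
  linarith

theorem bgrp_UH {p : E4} (hp : p ∈ P.UO) : p ∈ UH := lt_trans (by norm_num) hp.1

/-- `eqO`, `lat`. -/
theorem MD.pO_trl (D : MD P A) (c : A.C) (v : Fin 3 → ℤ) {p : E4} (hp : p ∈ P.UO) :
    D.pO c (trl P.K v p) = D.pO c p := by
  obtain ⟨τ, hτ, h⟩ := A.lat c v
  exact ((D.eqO c c p hp (trl P.K v p) hp).2 ⟨τ, hτ, h p (bgrp_UH hp)⟩).symm

/-- `eqO`, `high`. -/
theorem MD.pO_high (D : MD P A) {c c' : A.C} {p p' : E4} (hp : p ∈ P.UO) (hp' : p' ∈ P.UO)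
    (h : 1 < p 3 * p' 3) (e : D.pO c p = D.pO c' p') : c = c' ∧ ∃ v, p' = trl P.K v p := by
  obtain ⟨τ, hτ, rfl⟩ := (D.eqO c c' p hp p' hp').1 e
  obtain ⟨h1, v, h2⟩ := A.high hτ p (bgrp_UH hp) h
  exact ⟨h1, v, h2 p (bgrp_UH hp)⟩

theorem MD.pO_inj_high (D : MD P A) (c : A.C) :
    InjOn (D.pO c) (cell P.K ∩ {p | p ∈ P.UO ∧ 1 < p 3}) := by
  rintro p ⟨h1, h2, h3⟩ p' ⟨h1', h2', h3'⟩ e
  obtain ⟨-, v, rfl⟩ := D.pO_high h2 h2' (one_lt_mul_of_lt_of_le h3 h3'.le) e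
  exact (trl_cell_eq h1 h1').symm

theorem MD.pO_inj_pcs (D : MD P A) (hP : P.Ok) {N : ℕ} {κ : Fin N → A.C} {B : Fin N → Set E4}
    (hB : A.Pcs κ B) (i : Fin N) : InjOn (D.pO (κ i)) (B i) := by
  have hU : ∀ p ∈ B i, p ∈ P.UO := fun p hp => hP.mem_UO (hB.sub i p hp).1 (by
    have h1 := hB.sub i p hp
    nlinarith [hP.δ0, hP.δ1, h1.1, h1.2])
  intro p hp p' hp' e
  obtain ⟨τ, hτ, rfl⟩ := (D.eqO _ _ p (hU p hp) p' (hU p' hp')).1 e
  exact (hB.inj i p hp τ hτ hp').symm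

/-- `red`; a large height of `τ p` is excluded by `high`. -/
theorem MD.pO_red (D : MD P A) (hP : P.Ok) (c : A.C) {p : E4} (hp : p ∈ P.UO) :
    ∃ c', ∃ p' ∈ P.UO, 3 / 8 ≤ p' 3 ∧ D.pO c' p' = D.pO c p := by
  obtain ⟨c', τ, hτ, h⟩ := A.red c p (bgrp_UH hp)
  have hU : τ p ∈ P.UO := by
    rcases le_or_gt (τ p 3) 3 with h3 | h3
    · exact hP.mem_UO (le_trans (by norm_num) h) (by nlinarith [hP.δ0, hP.δ1])
    · obtain ⟨-, v, hv⟩ := A.high hτ p (bgrp_UH hp) (by nlinarith [hp.1])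
      rw [hv p (bgrp_UH hp)]
      exact hp
  exact ⟨c', τ p, hU, h, ((D.eqO c c' p hp _ hU).2 ⟨τ, hτ, rfl⟩).symm⟩

end Pool.Agent.Lib.MP_94aef8_gt
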