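import Pool.Agent.Lib.MP_94aef8_gt.J.BFD
import Pool.Agent.Lib.MP_94aef8_gt.J.AOm

/-! The lattice of the slab in the adapted frame. -/

open scoped Manifold ContDiff Topology ENNReal
open Matrix Filter Set MeasureTheory Real

namespace Pool.Agent.Lib.MP_94aef8_gt

namespace Par

/-- The inverse of the frame map `T0 0`. -/
noncomputable def Fi (P : Par) (q : E4) : E4 :=
  mk4 ((q 0 + 2 * P.n * q 1) / P.nu) ((-(2 * P.n * q 0) + q 1) / P.nu) (q 2) (q 3)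

/-- The lattice in the adapted frame. -/
def VO (P : Par) : Set E4 := {v | ∃ k : Fin 3 → ℤ, v = P.Fi (trl P.K k 0)}

/-- The cell in the adapted frame. -/
def DO (P : Par) : Set E4 := {q | P.T0 0 q ∈ cell P.K}

/-- The scales of the second family. -/
noncomputable def a2 (P : Par) (q : E4) : Fin 4 → ℝ :=
  ![2 * cc / (3 * P.δ), cc * q 3 / P.δ, cc * q 3 / P.δ, cc * q 3]

/-- The chart of the second family: adapted frame and the radius `w = |X|` as last coordinate. -/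
noncomputable def Y2 (P : Par) (q : E4) : E4 := P.fr 0 1 1 (P.yw (q 3)) q

variable {P : Par}

theorem T0_three (P : Par) (q y : E4) : P.T0 q y 3 = y 3 := rfl

theorem Y2_three (P : Par) (q : E4) : P.Y2 q 3 = P.yw (q 3) := rfl

theorem Fi_three (P : Par) (q : E4) : P.Fi q 3 = q 3 := rfl

theorem blat_f0 (P : Par) (y : ℝ) (q : E4) :
    P.fr 0 1 1 y q 0 = (q 0 - 2 * P.n * q 1) / P.nu := by simp [fr]

theorem blat_f1 (P : Par) (y : ℝ) (q : E4) :
    P.fr 0 1 1 y q 1 = (2 * P.n * q 0 + q 1) / P.nu := by simp [fr]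

theorem blat_f2 (P : Par) (y : ℝ) (q : E4) : P.fr 0 1 1 y q 2 = q 2 := by simp [fr]

theorem blat_nu (P : Par) : P.nu ≠ 0 := (zero_lt_one.trans_le P.one_le_nu).ne'

/-- `nu_sq`, `one_le_nu`. -/
theorem T0_Fi (P : Par) (q : E4) : P.T0 0 (P.Fi q) = q := by
  have h1 := P.blat_nu
  have h2 := P.nu_sq
  refine ext_4 ?_ ?_ (P.blat_f2 _ _) rfl
  · rw [T0, blat_f0]
    simp only [Fi, mk4_0, mk4_1]
    field_simp
    rw [h2]
    ring
  · rw [T0, blat_f1]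
    simp only [Fi, mk4_0, mk4_1]
    field_simp
    rw [h2]
    ring

theorem Fi_T0 (P : Par) (q : E4) : P.Fi (P.T0 0 q) = q := by
  have h1 := P.blat_nu
  have h2 := P.nu_sq
  refine ext_4 ?_ ?_ (P.blat_f2 (q 3) q) rfl
  · simp only [Fi, T0, mk4_0, blat_f0, blat_f1]
    field_simp
    rw [h2]
    ring
  · simp only [Fi, T0, mk4_1, blat_f0, blat_f1]
    field_simp
    rw [h2]
    ring

theorem VO_three {v : E4} (hv : v ∈ P.VO) : v 3 = 0 := by
  obtain ⟨k, rfl⟩ := hv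
  rfl

theorem blat_add (P : Par) (y : ℝ) (k : Fin 3 → ℤ) (q : E4) :
    P.fr 0 1 1 y (q + P.Fi (trl P.K k 0)) = trl P.K k (P.fr 0 1 1 y q) := by
  have h1 := P.blat_nu
  have h2 := P.nu_sq
  refine ext_4 ?_ ?_ ?_ rfl
  · simp only [Fi, trl, mk4_0, mk4_1, blat_f0, PiLp.add_apply, PiLp.zero_apply]
    field_simp
    linear_combination -(P.K * k 0 : ℝ) * h2
  · simp only [Fi, trl, mk4_0, mk4_1, blat_f1, PiLp.add_apply, PiLp.zero_apply]
    field_simp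
    linear_combination -(P.K * k 1 : ℝ) * h2
  · simp only [Fi, trl, mk4_2, blat_f2, PiLp.add_apply, PiLp.zero_apply, zero_add]

theorem blat_three (P : Par) (k : Fin 3 → ℤ) (q : E4) : (q + P.Fi (trl P.K k 0)) 3 = q 3 :=
  add_zero (q 3)

theorem T0_add (P : Par) (k : Fin 3 → ℤ) (q : E4) :
    P.T0 0 (q + P.Fi (trl P.K k 0)) = trl P.K k (P.T0 0 q) := by
  rw [T0, blat_three, blat_add, T0]

theorem Y2_add (P : Par) (k : Fin 3 → ℤ) (q : E4) :
    P.Y2 (q + P.Fi (trl P.K k 0)) = trl P.K k (P.Y2 q) := by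
  rw [Y2, blat_three, blat_add, Y2]

theorem Y2_cell (P : Par) (q : E4) : P.Y2 q ∈ cell P.K ↔ q ∈ P.DO := by
  rfl

theorem T1_eq (P : Par) (q p : E4) : P.T1 (P.T0 0 q) p = P.T0 0 (dg (fun _ => cc * q 3) q p) := by
  refine ext_4 ?_ ?_ ?_ ?_
  · simp only [T1, T0, fr, mk4_0, mk4_3, dg_apply, PiLp.zero_apply]
    ring
  · simp only [T1, T0, fr, mk4_1, mk4_3, dg_apply, PiLp.zero_apply]
    ring
  · simp only [T1, T0, fr, mk4_2, mk4_3, dg_apply, PiLp.zero_apply]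
    ring
  · simp only [T1, T0, fr, mk4_3, dg_apply]
    ring

theorem T2_eq (P : Par) (q p : E4) : P.T2 (P.T0 0 q) p = P.Y2 (dg (P.a2 q) q p) := by
  have a0 : P.a2 q 0 = 2 * cc / (3 * P.δ) := rfl
  have a1 : P.a2 q 1 = cc * q 3 / P.δ := rfl
  have a2 : P.a2 q 2 = cc * q 3 / P.δ := rfl
  have a3 : P.a2 q 3 = cc * q 3 := rfl
  refine ext_4 ?_ ?_ ?_ ?_
  · simp only [T2, T0, Y2, fr, mk4_0, mk4_3, dg_apply, PiLp.zero_apply, a0, a1]
    ring
  · simp only [T2, T0, Y2, fr, mk4_1, mk4_3, dg_apply, PiLp.zero_apply, a0, a1]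
    ring
  · simp only [T2, T0, Y2, fr, mk4_2, mk4_3, dg_apply, PiLp.zero_apply, a2]
    ring
  · simp only [T2, T0, Y2, fr, mk4_3, dg_apply, a3]
    congr 1
    ring

theorem continuous_T0 (P : Par) : Continuous (P.T0 0) := by
  refine (PiLp.continuous_toLp 2 _).comp (continuous_pi fun i => ?_)
  fin_cases i <;> simp <;> fun_prop

/-- `FD.of_exact` with `k ↦ Fi (trl K k 0)`, `T0_add`. -/
theorem Ok.fd_O (hP : P.Ok) : FD P.VO P.DO := by
  have hK : (0 : ℝ) < P.K := by exact_mod_cast hP.K0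
  let φ : (Fin 3 → ℤ) →+ E4 := AddMonoidHom.mk' (fun k => P.Fi (trl P.K k 0)) fun a b => by
    refine ext_4 ?_ ?_ ?_ (add_zero (0 : ℝ)).symm
    · simp only [Fi, trl, mk4_0, mk4_1, PiLp.add_apply, PiLp.zero_apply, Pi.add_apply,
        Int.cast_add]
      ring
    · simp only [Fi, trl, mk4_0, mk4_1, PiLp.add_apply, PiLp.zero_apply, Pi.add_apply,
        Int.cast_add]
      ring
    · simp only [Fi, trl, mk4_2, PiLp.add_apply, PiLp.zero_apply, Pi.add_apply, Int.cast_add]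
      ring
  have e : P.VO = range φ := Set.ext fun v => exists_congr fun k => eq_comm
  rw [e]
  refine FD.of_exact φ (P.continuous_T0.measurable (measurableSet_cell P.K)) fun x => ?_
  have h : ∀ z : ℝ, ∃! m : ℤ, 0 ≤ z + P.K * m ∧ z + P.K * m < P.K := fun z => by
    simpa only [mem_Ico, zero_add, zsmul_eq_mul, mul_comm] using
      existsUnique_add_zsmul_mem_Ico hK z 0
  have h2 : ∀ k, x + φ k ∈ P.DO ↔ trl P.K k (P.T0 0 x) ∈ cell P.K := fun k => by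
    rw [← T0_add]
    rfl
  obtain ⟨m0, a0, b0⟩ := h (P.T0 0 x 0)
  obtain ⟨m1, a1, b1⟩ := h (P.T0 0 x 1)
  obtain ⟨m2, a2, b2⟩ := h (P.T0 0 x 2)
  refine ⟨![m0, m1, m2], (h2 _).2 ⟨a0, a1, a2⟩, fun k hk => ?_⟩
  obtain ⟨c0, c1, c2⟩ := (h2 k).1 hk
  funext i
  fin_cases i
  exacts [b0 _ c0, b1 _ c1, b2 _ c2]

theorem blat_est (P : Par) {a b r : ℝ} (ha : |a| ≤ r) (hb : |b| ≤ r) :
    |(a + 2 * P.n * b) / P.nu| ≤ 2 * r := by
  have h1 := P.one_le_nu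
  have h2 : |2 * (P.n : ℝ)| ≤ P.nu := Real.abs_le_sqrt (by linarith)
  have h3 : 0 ≤ r := (abs_nonneg a).trans ha
  have h4 : |2 * P.n * b| ≤ P.nu * r := by
    rw [abs_mul]
    exact mul_le_mul h2 hb (abs_nonneg _) (by linarith)
  have h5 := abs_add_le a (2 * P.n * b)
  have h6 := mul_le_mul_of_nonneg_right h1 h3
  rw [abs_div, abs_of_pos (by linarith : 0 < P.nu), div_le_iff₀ (by linarith)]
  linarith

/-- The first two coordinates of `T0 0 x` and `T0 0 q` differ by at most `2 r`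
(`1 ≤ ν`, `2 |n| ≤ ν`); `count_int` three times, `4 ≤ K`. -/
theorem Ok.count_O (hP : P.Ok) (q : E4) {r r' : ℝ} (hr : 0 ≤ r) (hr' : 0 ≤ r') : ∃ t : Finset E4,
    (∀ v ∈ t, v ∈ P.VO) ∧ (t.card : ℝ) ≤ (r + 2) ^ 2 * (r' + 2) ∧ ∀ x : E4, |x 0 - q 0| ≤ r →
      |x 1 - q 1| ≤ r → |x 2 - q 2| ≤ r' → ∃ v ∈ t, x + v ∈ P.DO := by
  classical
  have h4 := anum_K hP
  have hK : (0 : ℝ) < P.K := by linarith
  obtain ⟨t0, a0, b0⟩ := count_int hK (P.T0 0 q 0) (r := 2 * r) (by linarith)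
  obtain ⟨t1, a1, b1⟩ := count_int hK (P.T0 0 q 1) (r := 2 * r) (by linarith)
  obtain ⟨t2, a2, b2⟩ := count_int hK (P.T0 0 q 2) hr'
  have e1 : 2 * (2 * r) / P.K ≤ r := by
    rw [div_le_iff₀ hK]
    nlinarith
  have e2 : 2 * r' / P.K ≤ r' := by
    rw [div_le_iff₀ hK]
    nlinarith
  refine ⟨(t0 ×ˢ t1 ×ˢ t2).image fun k => P.Fi (trl P.K ![k.1, k.2.1, k.2.2] 0), fun v hv => ?_,
    ?_, fun x h0 h1 h2 => ?_⟩
  · obtain ⟨k, -, rfl⟩ := Finset.mem_image.1 hv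
    exact ⟨_, rfl⟩
  · refine (Nat.cast_le.2 Finset.card_image_le).trans ?_
    rw [Finset.card_product, Finset.card_product, sq, mul_assoc]
    push_cast
    exact mul_le_mul (by linarith) (mul_le_mul (by linarith) (by linarith) (Nat.cast_nonneg _)
      (by linarith)) (by positivity) (by linarith)
  · obtain ⟨k0, m0, c0⟩ := b0 (P.T0 0 x 0) (by
      have h := P.blat_est h0 ((abs_neg _).trans_le h1)
      rw [T0, T0, blat_f0, blat_f0]
      refine (le_of_eq (congrArg _ ?_)).trans h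
      ring)
    obtain ⟨k1, m1, c1⟩ := b1 (P.T0 0 x 1) (by
      have h := P.blat_est h1 h0
      rw [T0, T0, blat_f1, blat_f1]
      refine (le_of_eq (congrArg _ ?_)).trans h
      ring)
    obtain ⟨k2, m2, c2⟩ := b2 (P.T0 0 x 2) (by
      rw [T0, T0, blat_f2, blat_f2]
      exact h2)
    refine ⟨_, Finset.mem_image_of_mem _ (a := (k0, k1, k2))
      (Finset.mem_product.2 ⟨m0, Finset.mem_product.2 ⟨m1, m2⟩⟩), ?_⟩
    change P.T0 0 (x + _) ∈ cell P.K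
    rw [T0_add]
    rw [mul_comm] at c0 c1 c2
    exact ⟨c0, c1, c2⟩

theorem blat_rho (hP : P.Geom) : P.ϱ * (16 * π ^ 2) = 3 * ((P.K : ℝ) ^ 2 * P.δ ^ 2) := by
  have h3 := P.one_le_nu
  have h4 := anum_K hP.toOk
  have h5 : P.δ * (3 * P.K * P.nu) = 4 * π := by
    rw [hP.hδ]
    field_simp
  have h6 : P.ϱ * (4 * π * P.nu) = P.δ * P.K := by
    rw [hP.hϱ]
    field_simp
  apply mul_right_cancel₀ P.blat_nu
  linear_combination 4 * π * h6 - P.δ * P.K * h5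

/-- `ϱ = 3 K ^ 2 δ ^ 2 / (16 π ^ 2)`. -/
theorem Geom.rho_le_sq (hP : P.Geom) : P.ϱ ≤ (P.K : ℝ) ^ 2 * P.δ ^ 2 := by
  have h7 := blat_rho hP
  have h8 : P.ϱ * 9 ≤ P.ϱ * π ^ 2 :=
    mul_le_mul_of_nonneg_left (by nlinarith [pi_gt_three]) hP.ϱ0.le
  linarith [hP.ϱ0]

/-- `4 ≤ K`, `π ^ 2 ≤ 12`. -/
theorem Geom.sq_le_rho (hP : P.Geom) : P.δ ^ 2 ≤ 4 * P.ϱ := by
  have h7 := blat_rho hP
  have h4 := anum_K hP.toOk
  have h8 : P.ϱ * π ^ 2 ≤ P.ϱ * 12 :=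
    mul_le_mul_of_nonneg_left (by nlinarith [pi_lt_d2, pi_pos]) hP.ϱ0.le
  have h9 : 16 * P.δ ^ 2 ≤ (P.K : ℝ) ^ 2 * P.δ ^ 2 :=
    mul_le_mul_of_nonneg_right (by nlinarith) (sq_nonneg _)
  linarith

end Par

end Pool.Agent.Lib.MP_94aef8_gt
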