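import Pool.Agent.Lib.MP_94aef8_gt.J.BTube
import Pool.Agent.Lib.MP_94aef8_gt.J.BGrp
import Pool.Agent.Lib.MP_94aef8_gt.J.BLat

/-! The sharp covering and the boxes round the centres. -/

open scoped Manifold ContDiff Topology ENNReal
open Matrix Filter Set MeasureTheory Real

namespace Pool.Agent.Lib.MP_94aef8_gt

/-- The target of the first family. -/
def Par.W1 (P : Par) : Set E4 := {q | 3 / 8 ≤ q 3 ∧ P.δ * q 3 ≤ 47 / 100}

/-- The target of the second family. -/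
def Par.W2 (P : Par) : Set E4 := {q | P.l ≤ q 3 ∧ q 3 ≤ 31 / 25}

/-- The target of the third family. -/
def Par.W3 (P : Par) : Set E4 := {x | u01 x ≤ P.l ^ 2 ∧ |x 2| ≤ P.l / 2 ∧ 3 * P.ϱ ≤ R3 x}

/-- The target of the fourth family. -/
def W4 : Set E4 := {z | u01 z ≤ 2 ∧ u23 z ≤ 1}

variable {P : Par} {A : Arith P.K}

theorem Par.Ok.W3_sub (hP : P.Ok) : P.W3 ⊆ P.UT := fun x hx => by
  have h1 := hP.l_pos
  have h2 := hP.l_le
  have h3 := hP.ϱ0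
  exact ⟨by nlinarith [hx.1], by linarith [hx.2.1], by linarith [hx.2.2]⟩

theorem W4_sub : W4 ⊆ UN := fun _ hz => hz.1.trans_lt (by norm_num : (2 : ℝ) < 3)

/-- If `1 < u23 z` change the hemisphere (`eqN`, `P3`, `u23 (P3 z) = 1 / u23 z`). If `2 < u01 z`
use `P2u_inv`, `pN_P2u`: third case with `ϱ • x`, `3 < R3 x < 4`. -/
theorem MD.cov_N (D : MD P A) (hP : P.Ok) (c : A.C) (j : ℤ) (e : ℤˣ) {z : E4} (hz : z ∈ UN) :
    D.Cov (D.pN c j e z) := by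
  have hz' : u01 z < 3 := hz
  by_cases h1 : u01 z ≤ 2
  · refine Or.inr (Or.inr (Or.inr ?_))
    by_cases h2 : u23 z ≤ 1
    · exact ⟨c, j, e, z, h1, h2, rfl⟩
    · have h3 : u23 z ≠ 0 := fun h => h2 (by rw [h]; norm_num)
      have h4 : u23 (P3 z) = 1 / u23 z := by
        have : u23 (P3 z) = u23 z / u23 z ^ 2 := by
          conv_rhs => rw [u23, add_div, ← u23]
          simp only [u23, P3, mk4_2, mk4_3, div_pow]
        rw [this]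
        field_simp
      refine ⟨c, j, -e, P3 z, h1, ?_, ((D.eqN c c j j e (-e) z hz (P3 z) hz).2
        ⟨rfl, ⟨0, by simp⟩, Or.inr ⟨by rcases Int.units_eq_one_or e with rfl | rfl <;> decide, h3, rfl⟩⟩).symm⟩
      rw [h4, div_le_one (by linarith)]
      linarith
  · obtain ⟨x, a1, a2, rfl⟩ := P2u_inv e (z := z) (by linarith)
    have h2 := hP.ϱ0
    have h3 := hP.rho_le
    have h4 := R3_smul h2.le x
    have h5 := u01_le_R3 (P.ϱ • x)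
    have h6 := (abs_le_R3 (P.ϱ • x)).2.2
    have h7 : 3 * P.ϱ ≤ R3 (P.ϱ • x) := by nlinarith
    have h8 : R3 (P.ϱ • x) ≤ 4 * P.ϱ := by nlinarith
    exact Or.inr (Or.inr (Or.inl ⟨c, j, P.ϱ • x, by nlinarith, by linarith, h7,
      (D.pN_P2u hP c j e (by linarith) (by linarith) a2).symm⟩))

/-- If `l ^ 2 ≤ u01 x` use `P1_onto`, `yw_mem`, `trOC` with `w = √(u01 x)`: second case for
`w ≤ 31 / 25`, else first case. Otherwise `exists_sh`: third case for `3 ϱ ≤ R`, else `pN_P2u` at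
`ϱ⁻¹ • x'` with `exists_sign`, fourth case. -/
theorem MD.cov_C (D : MD P A) (hP : P.Ok) (c : A.C) {x : E4} (hx : x ∈ P.UC) :
    D.Cov (D.pC c x) := by
  have hl := hP.l_pos
  have hϱ := hP.ϱ0
  have hδ := hP.δ0
  by_cases h1 : P.l ^ 2 ≤ u01 x
  · have h0 : 0 < u01 x := lt_of_lt_of_le (by positivity) h1
    obtain ⟨p, a1, a2⟩ := hP.P1_onto x h0
    have h2 : P.l ≤ √(u01 x) := Real.le_sqrt_of_sq_le h1
    obtain ⟨b1, b2, b3, -, -⟩ := hP.yw_mem a1 (by linarith) (by rw [Real.sq_sqrt h0.le]; exact hx.1)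
    have e := D.trOC c p b1 b2
    rw [a2] at e
    by_cases h3 : √(u01 x) ≤ 31 / 25
    · exact Or.inr (Or.inl ⟨c, p, _, h2, h3, a1, e.symm⟩)
    · refine Or.inl ⟨c, p, by linarith, ?_, e.symm⟩
      rw [a1, Par.yw, mul_one_div, div_le_iff₀ (by positivity)]
      have h4 : (31 / 25 : ℝ) ^ 2 ≤ √(u01 x) ^ 2 := by gcongr; linarith
      nlinarith
  · obtain ⟨x', a1, a2, a3, a4, a5, -⟩ := hP.exists_sh hx
    have e : D.pT c (P.jn x) x' = D.pC c x := congrArg (D.pC c) a2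
    refine Or.inr (Or.inr ?_)
    by_cases h2 : 3 * P.ϱ ≤ R3 x'
    · exact Or.inl ⟨c, _, x', by linarith, abs_le.2 ⟨a3, a4.le⟩, h2, e⟩
    · obtain ⟨ε, hε⟩ := exists_sign ((P.ϱ⁻¹ • x') 2)
      have h3 := R3_smul (inv_pos.2 hϱ).le x'
      have h4 : 1 < R3 (P.ϱ⁻¹ • x') := by
        rw [h3, lt_inv_mul_iff₀ hϱ, mul_one]
        exact a1.2.2
      have h5 : R3 (P.ϱ⁻¹ • x') < 3 := by
        rw [h3, inv_mul_lt_iff₀ hϱ]
        linarith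
      have h6 := D.pN_P2u hP c (P.jn x) ε h4 (by linarith) (by linarith)
      rw [smul_inv_smul₀ hϱ.ne', e] at h6
      exact Or.inr ⟨c, _, ε, _, by rw [P2u_u01 ε h4.le]; linarith, P2u_u23 ε (by linarith) hε, h6⟩

/-- `pO_red`; for `47 / 100 < δ y` one has `1 / (3 δ) < y`, `y = yw w`, `yw_mem`, `trOC`, `cov_C`. -/
theorem MD.cov_O (D : MD P A) (hP : P.Ok) (c : A.C) {p : E4} (hp : p ∈ P.UO) :
    D.Cov (D.pO c p) := by
  obtain ⟨c, p, hp, h38, e⟩ := D.pO_red hP c hp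
  rw [← e]
  by_cases h : P.δ * p 3 ≤ 47 / 100
  · exact Or.inl ⟨c, p, h38, h, rfl⟩
  have hδ := hP.δ0
  have h0 : 0 < P.δ * p 3 := by linarith
  have h1 : (P.l / 10) ^ 2 < 4 / 3 * (1 / (P.δ * p 3) - 1) := by
    have h2 : 1 + 3 / 4 * (P.l / 10) ^ 2 < 1 / (P.δ * p 3) := by
      rw [lt_div_iff₀ h0, mul_comm]
      exact hp.2
    linarith
  have h3 : 1 / (P.δ * p 3) < 3 := by
    rw [div_lt_iff₀ h0]
    linarith
  have h4 : 0 ≤ 4 / 3 * (1 / (P.δ * p 3) - 1) := (sq_nonneg _).trans h1.le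
  have h5 : p 3 = P.yw √(4 / 3 * (1 / (P.δ * p 3) - 1)) := by
    have h6 : p 3 ≠ 0 := by linarith
    rw [Par.yw, Real.sq_sqrt h4]
    field_simp
    ring
  obtain ⟨b1, b2, -, b4, -⟩ := hP.yw_mem h5 (Real.lt_sqrt_of_sq_lt h1)
    (by rw [Real.sq_sqrt h4]; linarith)
  rw [← D.trOC c p b1 b2]
  exact D.cov_C hP c b4

theorem MD.cov (D : MD P A) (hP : P.Ok) (m : D.M) : D.Cov m := by
  rcases D.cover m with ⟨c, p, hp, rfl⟩ | ⟨c, x, hx, rfl⟩ | ⟨c, j, e, z, hz, rfl⟩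
  exacts [D.cov_O hP c hp, D.cov_C hP c hx, D.cov_N hP c j e hz]

/-- The covering with finitely many pieces, slabs in the adapted frame (`T0_Fi`; for the second
case `q = Fi (mk4 (p 0) (p 1) (p 2) w)`; `pT_mod`). -/
theorem MD.cov_fin (D : MD P A) (hP : P.Ok) (m : D.M) :
    (∃ c, m ∈ (D.pO c ∘ P.T0 0) '' P.W1) ∨ (∃ c, m ∈ (D.pO c ∘ P.Y2) '' P.W2) ∨
      (∃ c, ∃ j : Fin (P.K / 2), m ∈ D.pT c (j : ℕ) '' P.W3) ∨
        ∃ c, ∃ j : Fin (P.K / 2), ∃ e, m ∈ D.pN c (j : ℕ) e '' W4 := by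
  rcases D.cov hP m with ⟨c, p, h1, h2, rfl⟩ | ⟨c, p, w, h1, h2, h3, rfl⟩ |
    ⟨c, j, x, h1, h2, h3, rfl⟩ | ⟨c, j, e, z, h1, h2, rfl⟩
  · exact Or.inl ⟨c, P.Fi p, ⟨h1, h2⟩, congrArg (D.pO c) (P.T0_Fi p)⟩
  · have e := P.T0_Fi (mk4 (p 0) (p 1) (p 2) w)
    exact Or.inr (Or.inl ⟨c, P.Fi (mk4 (p 0) (p 1) (p 2) w), ⟨h1, h2⟩, congrArg (D.pO c)
      (ext_4 (congrArg (· 0) e) (congrArg (· 1) e) (congrArg (· 2) e) h3.symm)⟩)
  · obtain ⟨j', e, -⟩ := D.pT_mod hP c j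
    exact Or.inr (Or.inr (Or.inl ⟨c, j', x, ⟨h1, h2, h3⟩, (e x (hP.W3_sub ⟨h1, h2, h3⟩)).symm⟩))
  · obtain ⟨j', -, e'⟩ := D.pT_mod hP c j
    exact Or.inr (Or.inr (Or.inr ⟨c, j', e, z, ⟨h1, h2⟩, (e' e z (W4_sub ⟨h1, h2⟩)).symm⟩))

theorem Par.Ok.Box_subB (hP : P.Ok) : P.Box ⊆ P.UT := fun x hx => by
  have h1 := hP.l_pos
  have h3 := hP.ϱ0
  obtain ⟨a1, a2, a3, -, -, a4⟩ := hx
  exact ⟨by linarith, abs_lt.2 ⟨by linarith, by linarith⟩, by linarith⟩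

/-- `pT_eq`. -/
theorem MD.box_inj (D : MD P A) (hP : P.Ok) {c c' : A.C} {j j' : Fin (P.K / 2)} {x x' : E4}
    (hx : x ∈ P.Box) (hx' : x' ∈ P.Box) (e : D.pT c (j : ℕ) x = D.pT c' (j' : ℕ) x') :
    c = c' ∧ j = j' ∧ x = x' := by
  obtain ⟨h1, h2, _, ⟨k, rfl⟩, h3⟩ := D.pT_eq hP (hP.Box_subB hx) (hP.Box_subB hx') (abs_lt.2
    ⟨by linarith [hx.2.1, hx'.2.2.1], by linarith [hx'.2.1, hx.2.2.1]⟩) e
  have h4 : x' 3 = x 3 + k * (4 * π * P.ϱ) := by rw [h3]; rfl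
  obtain ⟨-, -, -, a1, a2, -⟩ := hx
  obtain ⟨-, -, -, b1, b2, -⟩ := hx'
  have h5 : (k : ℝ) < 1 := by nlinarith
  have h6 : (-1 : ℝ) < k := by nlinarith
  obtain rfl : k = 0 := by
    have h7 : k < 1 := by exact_mod_cast h5
    have h8 : -1 < k := by exact_mod_cast h6
    omega
  refine ⟨h1, h2, ?_⟩
  rw [h3]
  exact ext_4 (by simp) (by simp) (by simp) (by simp)

/-- `exists_sh`, `pT_mod`, `fd_T.cov`, `pT_per`. -/
theorem MD.box_onto (D : MD P A) (hP : P.Ok) (c : A.C) {x : E4} (hx : x ∈ P.UC) (h1 : u01 x < 2)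
    (h2 : 2 * P.ϱ < P.Rn x) :
    ∃ j : Fin (P.K / 2), ∃ x' ∈ P.Box, D.pT c (j : ℕ) x' = D.pC c x := by
  obtain ⟨x', a1, a2, a3, a4, a5, a6⟩ := hP.exists_sh hx
  obtain ⟨j, e, -⟩ := D.pT_mod hP c (P.jn x)
  have hϱ := hP.ϱ0
  obtain ⟨v, hv, hD⟩ := (fd_T (τ := 4 * π * P.ϱ) (by positivity)).cov x'
  refine ⟨j, x' + v, ?_, ((D.pT_per hP c _ v hv x' a1).trans (e x' a1).symm).trans
    (congrArg (D.pC c) a2)⟩
  obtain ⟨k, rfl⟩ := hv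
  have h3 : (x' + mk4 0 0 0 (k * (4 * π * P.ϱ))) 2 = x' 2 := by simp
  exact ⟨by rwa [u01_per, a5], by rwa [h3], by rwa [h3], hD.1, hD.2, by rwa [R3_per, a6]⟩

end Pool.Agent.Lib.MP_94aef8_gt
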