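import Pool.Agent.Lib.MP_94aef8_gt.J.BPC
import Pool.Agent.Lib.MP_94aef8_gt.J.BCov

/-! The first family: averaging and multiplicity. -/

open scoped Manifold ContDiff Topology ENNReal
open Matrix Filter Set MeasureTheory Real

namespace Pool.Agent.Lib.MP_94aef8_gt

/-- The hypothesis of the chain property. -/
def MD.Hyp {P : Par} {A : Arith P.K} (D : MD P A) (F₁ F₂ : D.M → ℝ≥0∞) (L : ℝ≥0∞) : Prop :=
  ∀ a, ∫⁻ y in Q 1, F₁ (D.Th a y) ≤ L * ∫⁻ y in Q 2, F₂ (D.Th a y)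

/-- The region reached by the first family. -/
def Par.X1 (P : Par) : Set E4 := {q | 17 / 50 ≤ q 3 ∧ P.δ * q 3 ≤ 49 / 100}

variable {P : Par} {A : Arith P.K} {D : MD P A} {N : ℕ} {κ : Fin N → A.C} {B : Fin N → Set E4}

theorem bf1_add {v : E4} (hv : v ∈ P.VO) (x : E4) : (x + v) 3 = x 3 := by
  rw [PiLp.add_apply, Par.VO_three hv, add_zero]

theorem bf1_inv {s t : ℝ} (hs : 0 < s) (h : s ≤ 11 / 10 * t) : (t ^ 4)⁻¹ ≤ 2 * (s ^ 4)⁻¹ := by
  have ht : 0 < t := by linarith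
  have h1 := pow_le_pow_left₀ hs.le h 4
  rw [← div_eq_mul_inv, inv_eq_one_div, div_le_div_iff₀ (by positivity) (by positivity)]
  rw [mul_pow] at h1
  nlinarith [pow_pos ht 4]

theorem bf1_meas (a b c : ℝ) : MeasurableSet {q : E4 | a ≤ q 3 ∧ b * q 3 ≤ c} :=
  have h : Continuous fun q : E4 => q 3 := by fun_prop
  ((isClosed_le continuous_const h).inter
    (isClosed_le (continuous_const.mul h) continuous_const)).measurableSet

theorem bf1_invS (a b c : ℝ) : InvS P.VO {q : E4 | a ≤ q 3 ∧ b * q 3 ≤ c} := fun v hv x => by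
  simp only [mem_ofPred_eq, bf1_add hv]

/-- Everything depends on `q 3` only (`VO_three`); `cc = 1 / 100`. -/
theorem Par.Ok.slow1 (hP : P.Ok) :
    Slow P.VO P.W1 P.A1 P.X1 (fun q _ => cc * q 3) (fun q => (q 3 ^ 4)⁻¹) 2 := by
  have hδ := hP.δ0
  refine ⟨bf1_meas _ _ _, bf1_meas _ _ _, bf1_invS _ _ _, bf1_invS _ _ _, fun _ => by fun_prop,
    fun v hv x => by simp only [bf1_add hv], two_pos, fun q hq => ⟨fun _ => ?_, by positivity⟩,
    fun x hx => ⟨fun _ => ?_, fun q hq => ?_⟩, fun q hq x hx => ?_⟩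
  · unfold cc
    linarith [hq.1]
  · unfold cc
    linarith [hx.1]
  · obtain ⟨h1, h2⟩ := hx
    have h3 := abs_lt.1 (hq 3)
    unfold cc at h3
    have h4 : P.δ * q 3 ≤ P.δ * (201 / 200 * x 3) := mul_le_mul_of_nonneg_left (by linarith) hδ.le
    refine ⟨⟨by linarith, by linarith⟩, fun i => ?_⟩
    have h5 := hq i
    rw [abs_sub_comm] at h5
    unfold cc at h5 ⊢
    linarith
  · obtain ⟨h1, h2⟩ := hq
    have h3 := abs_lt.1 (hx 3)
    unfold cc at h3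
    have h4 : P.δ * x 3 ≤ P.δ * (51 / 50 * q 3) := mul_le_mul_of_nonneg_left (by linarith) hδ.le
    refine ⟨⟨by linarith, by linarith⟩, fun _ => ?_, bf1_inv (by linarith) (by linarith),
      bf1_inv (by linarith) (by linarith)⟩
    unfold cc
    constructor <;> linarith

theorem bf1_sub (hP : P.Ok) : P.X1 ⊆ P.UO := fun _ hq => hP.mem_UO hq.1 (by linarith [hq.2])

theorem bf1_rho (X : AP D) (hP : P.Ok) (c : A.C) {x : E4} (hx : x ∈ P.UO) :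
    rho (gpull (D.pO c ∘ P.T0 0) X.g) x = (x 3 ^ 4)⁻¹ := by
  have h1 : (jac (P.T0 0) x).det = 1 * 1 ^ 2 * 1 :=
    P.det_jac_fr (q := 0) (α := 1) (β := 1) (Y := fun t => t) (hasDerivAt_id' (x 3))
  have h2 : P.T0 0 x ∈ P.UO := hx
  rw [rho_eq_of_eq ((D.ptO c).gpull_ldif (P.ld_T0 0) hx X.g), rho_pull, h1,
    rho_eq_of_eq (X.gO c _ h2), hP.rho_GO h2, P.T0_three]
  simp

/-- `PC.of_pieces` with `U = UO`, `c = 1`, `ι = Option (Fin N)`, pieces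
`T0 0 ⁻¹' {p ∈ B i | κ i = c}` and `{1 < q 3}` (`pO_inj_pcs`, `pO_inj_high`, `Fi_T0`). The patch is
`Pt.comp_ldif` with `ld_T0`; the density is `rho_pull`, `det_jac_fr` (value `1`), `gO`, `rho_GO`,
`Pt.gpull_ldif`; periodicity is `T0_add`, `pO_trl`. -/
theorem AP.pc1 (X : AP D) (hP : P.Ok) (hB : A.Pcs κ B) (c : A.C) :
    PC X.g (D.pO c ∘ P.T0 0) P.VO P.DO P.X1 (fun q => (q 3 ^ 4)⁻¹) (N + 2) univ := by
  have hi : ∀ {q q' : E4}, P.T0 0 q = P.T0 0 q' → q = q' := fun e =>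
    (P.Fi_T0 _).symm.trans ((congrArg P.Fi e).trans (P.Fi_T0 _))
  have h := PC.of_pieces (V := P.VO) (D := P.DO) (W := P.X1) (m := fun q => (q 3 ^ 4)⁻¹)
    (Z := univ) ((D.ptO c).comp_ldif (P.ld_T0 0)) X.good hP.fd_O.meas (bf1_meas _ _ _)
    (bf1_sub hP) (bf1_invS _ _ _) (fun v hv x hx => by
      obtain ⟨k, rfl⟩ := hv
      rw [Function.comp_apply, P.T0_add]
      exact D.pO_trl c k (p := P.T0 0 x) (bf1_sub hP hx)) (by fun_prop)
    (fun v hv x => by simp only [bf1_add hv]) zero_le_one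
    (fun x hx => by rw [bf1_rho X hP c (bf1_sub hP hx), one_mul]; exact ⟨le_rfl, le_rfl⟩)
    (fun o : Option (Fin N) => o.elim {q | 1 < q 3} fun i => {q | κ i = c} ∩ P.T0 0 ⁻¹' B i)
    (fun o => ?_) (fun o => ?_) (fun x hx => ?_) fun _ _ => mem_univ _
  · rw [Fintype.card_option, Fintype.card_fin, one_mul, Nat.cast_succ, add_assoc,
      one_add_one_eq_two] at h
    exact h
  · cases o with
    | none => exact (isOpen_lt continuous_const (by fun_prop)).measurableSet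
    | some i =>
      exact (MeasurableSet.const _).inter
        ((hB.cpt i).isClosed.preimage P.continuous_T0).measurableSet
  · cases o with
    | none =>
      exact fun q hq q' hq' e => hi (D.pO_inj_high c ⟨hq.2.1, bf1_sub hP hq.2.2, hq.1⟩
        ⟨hq'.2.1, bf1_sub hP hq'.2.2, hq'.1⟩ e)
    | some i =>
      intro q hq q' hq' e
      obtain rfl : κ i = c := hq.1.1
      exact hi (D.pO_inj_pcs hP hB i hq.1.2 hq'.1.2 e)
  · by_cases h1 : 1 < x 3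
    · exact ⟨none, h1⟩
    · obtain ⟨i, h2, h3⟩ := hB.cov c (P.T0 0 x) hx.1 hx.2.1 ((not_lt.1 h1).trans (by norm_num))
      exact ⟨some i, h2, h3⟩

/-- `PC.chain`, `T1_eq`, index `.f1 c ⟨T0 0 q, _⟩`. -/
theorem AP.chain1 (X : AP D) (hP : P.Ok) (hB : A.Pcs κ B) (c : A.C) {F₁ F₂ : D.M → ℝ≥0∞}
    (h₁ : Measurable F₁) (h₂ : Measurable F₂) {L : ℝ≥0∞} (h : D.Hyp F₁ F₂ L) :
    ∫⁻ x in (D.pO c ∘ P.T0 0) '' P.W1, F₁ x ∂volT X.g ≤
      ENNReal.ofReal (2 ^ 22 * (N + 2) ^ 2) * L * ∫⁻ x, F₂ x ∂volT X.g := by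
  have h1 := (X.pc1 hP hB c).chain hP.fd_O hP.slow1 h₁ h₂ (L := L) fun q hq => by
    simpa only [MD.Th, Function.comp_apply, P.T1_eq] using h (.f1 c ⟨P.T0 0 q, hq⟩)
  rwa [show (2 : ℝ) ^ 20 * 2 ^ 2 = 2 ^ 22 by norm_num] at h1

/-- `PC.mult` at the centre `Fi q` (`T0_Fi`, `T1_eq`), `m0 = ((2 y) ^ 4)⁻¹`, `count_O` with
`r = r' = 2 cc y`, `r + 2 ≤ 1 / δ`, and `δ⁻¹ ^ 3 ≤ δ⁻¹ ^ 4 ≤ K ^ 4 / ϱ ^ 2` (`rho_le_sq`). -/
theorem AP.mult1 (X : AP D) (hP : P.Geom) (hB : A.Pcs κ B) (c : A.C) (q : P.A1)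
    {F : D.M → ℝ≥0∞} (hF : Measurable F) : ∫⁻ y in Q 2, F (D.Th (.f1 c q) y) ≤
      ENNReal.ofReal (10 ^ 11 * (N + 2) * P.K ^ 4 * ((P.ϱ * 1) ^ 2)⁻¹) * ∫⁻ x, F x ∂volT X.g := by
  obtain ⟨q, hq⟩ := q
  obtain ⟨q, rfl⟩ : ∃ q', q = P.T0 0 q' := ⟨_, (P.T0_Fi q).symm⟩
  have hq' : q ∈ P.A1 := hq
  have hO := hP.toOk
  have hδ := hO.δ0
  have hϱ := hO.ϱ0
  have hy : 0 < q 3 := lt_of_lt_of_le (by norm_num) hq'.1
  have ha := (hO.slow1.pos q hq').1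
  obtain ⟨t, h1, h2, h3⟩ := hO.count_O q (r := 2 * (cc * q 3)) (r' := 2 * (cc * q 3))
    (by linarith [ha 0]) (by linarith [ha 0])
  have h4 : 2 * (cc * q 3) + 2 ≤ P.δ⁻¹ := by
    rw [inv_eq_one_div, le_div_iff₀ hδ]
    unfold cc
    linarith [hq'.2, hO.δ1]
  have h5 : (t.card : ℝ) ≤ P.δ⁻¹ ^ 3 := by
    refine h2.trans ?_
    rw [← pow_succ]
    exact pow_le_pow_left₀ (by linarith [ha 0]) h4 3
  have h6 : P.δ⁻¹ ^ 3 ≤ P.K ^ 4 * ((P.ϱ * 1) ^ 2)⁻¹ := by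
    have h7 : 1 ≤ P.δ⁻¹ := (one_le_inv₀ hδ).2 (hO.δ1.trans (by norm_num))
    refine (pow_le_pow_right₀ h7 (by norm_num : 3 ≤ 4)).trans ?_
    rw [mul_one, ← div_eq_mul_inv, inv_pow, inv_eq_one_div,
      div_le_div_iff₀ (by positivity) (by positivity), one_mul]
    exact (pow_le_pow_left₀ hϱ.le hP.rho_le_sq 2).trans_eq (by ring)
  have h8 := (X.pc1 hO hB c).mult (m0 := (q 3 ^ 4)⁻¹ / 2)
    (C := 10 ^ 11 * (N + 2) * P.K ^ 4 * ((P.ϱ * 1) ^ 2)⁻¹) hO.fd_O.meas ha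
    (fun x hx => (hO.slow1.out q hq' x hx).1) t h1
    (fun x hx => h3 x (hx 0).le (hx 1).le (hx 2).le) h5 (by positivity)
    (fun x hx => by linarith [(hO.slow1.out q hq' x hx).2.2.2]) (by
      have e : (q 3 ^ 4)⁻¹ / 2 * ∏ _i : Fin 4, cc * q 3 = 1 / (2 * 10 ^ 8) := by
        rw [Finset.prod_const, Finset.card_univ, Fintype.card_fin, cc]
        field_simp
        norm_num
      have h9 : (0 : ℝ) ≤ N + 2 := by positivity
      have h10 := mul_le_mul_of_nonneg_left h6 h9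
      have h11 : (0 : ℝ) ≤ (N + 2) * P.δ⁻¹ ^ 3 := by positivity
      rw [e, div_div_eq_mul_div, div_one]
      linarith) hF
  simpa only [MD.Th, Function.comp_apply, P.T1_eq, Measure.restrict_univ] using h8

end Pool.Agent.Lib.MP_94aef8_gt
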