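import Pool.Agent.Lib.MP_94aef8_gt.J.BF1

/-! The second family: averaging and multiplicity. -/

open scoped Manifold ContDiff Topology ENNReal
open Matrix Filter Set MeasureTheory Real

namespace Pool.Agent.Lib.MP_94aef8_gt

/-- The region reached by the second family. -/
def Par.X2 (P : Par) : Set E4 := {q | 4 / 5 * P.l ≤ q 3 ∧ q 3 ≤ 13 / 10}

/-- The domain of the chart of the second family. -/
def Par.U2 (P : Par) : Set E4 := {q | P.l / 10 < q 3 ∧ q 3 < 3 / 2}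

variable {P : Par} {A : Arith P.K} {D : MD P A}

theorem bf2_add {v : E4} (hv : v ∈ P.VO) (x : E4) : (x + v) 3 = x 3 := by
  rw [PiLp.add_apply, Par.VO_three hv, add_zero]

theorem bf2_meas (a b : ℝ) : MeasurableSet {q : E4 | a ≤ q 3 ∧ q 3 ≤ b} :=
  (measurableSet_le measurable_const (aom_cd 3).continuous.measurable).inter
    (measurableSet_le (aom_cd 3).continuous.measurable measurable_const)

theorem bf2_inv (a b : ℝ) : InvS P.VO {q : E4 | a ≤ q 3 ∧ q 3 ≤ b} := fun v hv x => by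
  rw [mem_ofPred_eq, bf2_add hv, mem_ofPred_eq]

theorem bf2_pos (hP : P.Ok) {q : E4} (h : 0 < q 3) (i : Fin 4) : 0 < P.a2 q i := by
  have := hP.δ0
  fin_cases i <;> simp only [Par.a2, cc] <;> simp <;> positivity

theorem bf2_cmp (hP : P.Ok) {q x : E4} (h : x 3 ≤ 2 * q 3) (i : Fin 4) :
    P.a2 x i ≤ 2 * P.a2 q i := by
  have h0 := hP.δ0
  have h1 : cc * x 3 ≤ 2 * (cc * q 3) := by
    rw [cc]
    linarith
  have h2 : cc * x 3 / P.δ ≤ 2 * (cc * q 3 / P.δ) := by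
    rw [← mul_div_assoc 2]
    gcongr
  have h3 : 0 < 2 * cc / (3 * P.δ) := by
    rw [cc]
    positivity
  fin_cases i
  exacts [le_mul_of_one_le_left h3.le one_le_two, h2, h2, h1]

theorem bf2_mem (hP : P.Ok) {q : E4} (hq : q ∈ P.U2) : P.Y2 q ∈ P.UO ∧ 1 < P.Y2 q 3 := by
  have h := hP.yw_mem (P.Y2_three q) hq.1 (by nlinarith [hq.1, hq.2, hP.l_pos])
  exact ⟨h.1, by linarith [h.2.2.1]⟩

theorem Par.Ok.slow2 (hP : P.Ok) :
    Slow P.VO P.W2 P.A2 P.X2 P.a2 (fun q => P.δ ^ 3 * q 3) 2 := by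
  have hl := hP.l_pos
  have hδ := pow_pos hP.δ0 3
  refine ⟨bf2_meas _ _, bf2_meas _ _, bf2_inv _ _, bf2_inv _ _, fun i => ?_,
    fun v hv x => by simp only [Par.a2, bf2_add hv], two_pos, fun q hq => ?_,
    fun x hx => ⟨bf2_pos hP (by linarith [hx.1]), fun q hq => ?_⟩, fun q hq x hx => ?_⟩
  · have := (aom_cd 3).continuous.measurable
    fin_cases i
    exacts [measurable_const, (this.const_mul cc).div_const _, (this.const_mul cc).div_const _,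
      this.const_mul cc]
  · have h : 0 < q 3 := by linarith [hq.1]
    exact ⟨bf2_pos hP h, by positivity⟩
  · obtain ⟨h1, h2⟩ := hx
    obtain ⟨h3, h4⟩ := abs_lt.1 (show |q 3 - x 3| < 1 / 2 * (1 / 100 * x 3) from hq 3)
    refine ⟨⟨by linarith, by linarith⟩, fun i => ?_⟩
    rw [abs_sub_comm]
    linarith [hq i, bf2_cmp hP (show x 3 ≤ 2 * q 3 by linarith) i]
  · obtain ⟨h1, h2⟩ := hq
    obtain ⟨h3, h4⟩ := abs_lt.1 (show |x 3 - q 3| < 2 * (1 / 100 * q 3) from hx 3)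
    have h5 : x 3 ≤ 2 * q 3 := by linarith
    have h6 : q 3 ≤ 2 * x 3 := by linarith
    exact ⟨⟨by linarith, by linarith⟩, fun i => ⟨bf2_cmp hP h6 i, bf2_cmp hP h5 i⟩,
      by nlinarith, by nlinarith⟩

theorem Par.Ok.hasDerivAt_yw (hP : P.Ok) (w : ℝ) :
    HasDerivAt P.yw (-(3 / 2 * w) / (P.δ * (1 + 3 / 4 * w ^ 2) ^ 2)) w := by
  have := hP.δ0
  refine ((hasDerivAt_const w (1 : ℝ)).div (((((hasDerivAt_pow 2 w).const_mul (3 / 4)).const_add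
    1).const_mul P.δ)) (by positivity)).congr_deriv ?_
  field_simp
  ring

/-- `ld_fr` with `I = Ioi 0`, `yw_mem`. -/
theorem Par.Ok.ld_Y2 (hP : P.Ok) : LDif P.Y2 P.U2 P.UO := by
  have := hP.δ0
  refine P.ld_fr (Y := P.yw) 0 one_ne_zero one_ne_zero (isOpen_Ioi (a := 0))
    (ContDiff.contDiffOn ?_) (fun t ht => ?_)
    ((isOpen_lt continuous_const (aom_cd 3).continuous).inter
      (isOpen_lt (aom_cd 3).continuous continuous_const))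
    (fun y hy => lt_trans (by linarith [hP.l_pos]) hy.1) fun y hy => (bf2_mem hP hy).1
  · exact contDiff_const.div (by fun_prop) fun t => by positivity
  · have h : 0 < t := ht
    rw [(hP.hasDerivAt_yw t).deriv]
    exact div_ne_zero (neg_ne_zero.2 (by positivity)) (by positivity)

/-- `rho_pull`, `det_jac_fr`, `rho_GO`. -/
theorem Par.Ok.rho_Y2 (hP : P.Ok) {q : E4} (hq : q ∈ P.U2) :
    rho (pull P.Y2 P.GO) q = 3 / 2 * (P.δ ^ 3 * q 3) * (1 + 3 / 4 * q 3 ^ 2) ^ 2 := by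
  have := hP.δ0
  have h : 0 < q 3 := lt_trans (by linarith [hP.l_pos]) hq.1
  rw [rho_pull, hP.rho_GO (bf2_mem hP hq).1, show (jac P.Y2 q).det = _ from
    P.det_jac_fr (hP.hasDerivAt_yw (q 3)), P.Y2_three, Par.yw, one_pow, one_mul, one_mul, neg_div,
    abs_neg, abs_of_pos (by positivity)]
  field_simp

theorem Par.Ok.inj_Y2 (hP : P.Ok) : InjOn P.Y2 P.U2 := by
  intro q hq q' hq' e
  have := hP.δ0
  have hl := hP.l_pos
  have h1 : P.yw (q 3) = P.yw (q' 3) := congrArg (· 3) e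
  have h2 := (Par.anum2_yw hP (P.Y2_three q)).symm.trans
    (Par.anum2_yw hP ((P.Y2_three q).trans h1))
  have h3 := (sq_eq_sq₀ (by linarith [hq.1]) (by linarith [hq'.1])).1 h2
  rw [← P.Fi_T0 q, ← P.Fi_T0 q']
  exact congrArg _ (ext_4 (congrArg (· 0) e) (congrArg (· 1) e) (congrArg (· 2) e) h3)

/-- `PC.of_inj` with `c = 8` (`pO_inj_high`, `Y2_cell`, `Y2_add`, `pO_trl`). -/
theorem AP.pc2 (X : AP D) (hP : P.Ok) (c : A.C) :
    PC X.g (D.pO c ∘ P.Y2) P.VO P.DO P.X2 (fun q => P.δ ^ 3 * q 3) 16 univ := by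
  have hl := hP.l_pos
  have hU : P.X2 ⊆ P.U2 := fun q hq => ⟨by linarith [hq.1], by linarith [hq.2]⟩
  rw [show (16 : ℝ) = 8 * 2 by norm_num]
  refine PC.of_inj ((D.ptO c).comp_ldif hP.ld_Y2) X.good hP.fd_O.meas (bf2_meas _ _) hU
    (bf2_inv _ _) ?_ ((aom_cd 3).continuous.measurable.const_mul _)
    (fun v hv x => by simp only [bf2_add hv]) (by norm_num) (fun x hx => ?_)
    (fun x hx x' hx' e => hP.inj_Y2 (hU hx.2) (hU hx'.2) (D.pO_inj_high c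
      ⟨(P.Y2_cell x).2 hx.1, bf2_mem hP (hU hx.2)⟩ ⟨(P.Y2_cell x').2 hx'.1, bf2_mem hP (hU hx'.2)⟩ e))
    fun _ _ => mem_univ _
  · rintro _ ⟨k, rfl⟩ x hx
    exact (congrArg _ (P.Y2_add k x)).trans (D.pO_trl c k (bf2_mem hP (hU hx)).1)
  · have e : gpull (D.pO c ∘ P.Y2) X.g x = pull P.Y2 P.GO x := by
      rw [(D.ptO c).gpull_ldif hP.ld_Y2 (hU hx), pull, pull, X.gO c _ (bf2_mem hP (hU hx)).1]
    rw [rho_eq_of_eq e, hP.rho_Y2 (hU hx)]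
    have h1 : 0 < x 3 := by linarith [hx.1]
    have h2 : 0 < P.δ ^ 3 * x 3 := mul_pos (pow_pos hP.δ0 3) h1
    have h3 : x 3 ^ 2 ≤ (13 / 10) ^ 2 := pow_le_pow_left₀ h1.le hx.2 2
    have h4 : (1 + 3 / 4 * x 3 ^ 2) ^ 2 ≤ 16 / 3 := by nlinarith [sq_nonneg (x 3)]
    have h5 : 1 ≤ (1 + 3 / 4 * x 3 ^ 2) ^ 2 := by nlinarith [sq_nonneg (x 3)]
    constructor <;> nlinarith

/-- `PC.chain`, `T2_eq`. -/
theorem AP.chain2 (X : AP D) (hP : P.Ok) (c : A.C) {F₁ F₂ : D.M → ℝ≥0∞}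
    (h₁ : Measurable F₁) (h₂ : Measurable F₂) {L : ℝ≥0∞} (h : D.Hyp F₁ F₂ L) :
    ∫⁻ x in (D.pO c ∘ P.Y2) '' P.W2, F₁ x ∂volT X.g ≤
      ENNReal.ofReal (2 ^ 30) * L * ∫⁻ x, F₂ x ∂volT X.g := by
  rw [show (2 : ℝ) ^ 30 = 2 ^ 20 * 2 ^ 2 * 16 ^ 2 by norm_num]
  refine (X.pc2 hP c).chain hP.fd_O hP.slow2 h₁ h₂ fun q hq => ?_
  simpa only [MD.Th, Function.comp_apply, P.T2_eq] using h (.f2 c ⟨P.T0 0 q, hq⟩)

/-- `PC.mult` at the centre `Fi q`, `m0 = δ ^ 3 w / 2`, `m0 ∏ a = cc ^ 4 w ^ 4 / 3`, `count_O` with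
`r = 3 / (100 δ)`, `r' = 2 cc w / δ`, `r + 2 ≤ 1 / δ`, `r' + 2 ≤ 2 w / δ`, then `δ ≤ w` and
`δ⁻¹ ^ 4 ≤ K ^ 4 / ϱ ^ 2` (`rho_le_sq`). -/
theorem AP.mult2 (X : AP D) (hP : P.Geom) (c : A.C) (q : P.A2) {F : D.M → ℝ≥0∞}
    (hF : Measurable F) : ∫⁻ y in Q 2, F (D.Th (.f2 c q) y) ≤
      ENNReal.ofReal (10 ^ 11 * P.K ^ 4 * ((P.ϱ * (q.1 3 / 2)) ^ 2)⁻¹) * ∫⁻ x, F x ∂volT X.g := by
  obtain ⟨q, hq⟩ := q
  obtain ⟨q, rfl⟩ : ∃ q', q = P.T0 0 q' := ⟨_, (P.T0_Fi q).symm⟩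
  replace hq : q ∈ P.A2 := hq
  have hO := hP.toOk
  have hδ := hO.δ0
  have hδ1 := hO.δ1
  have hϱ := hO.ϱ0
  have h1 : 9 / 10 * (2 * P.δ) ≤ q 3 := hq.1
  have h2 := hq.2
  have h0 : 0 < q 3 := by linarith
  obtain ⟨t, t1, t2, t3⟩ := hO.count_O q (r := 3 / (100 * P.δ)) (r' := 2 * (cc * q 3 / P.δ))
    (by positivity) (by rw [cc]; positivity)
  simp only [MD.Th, Function.comp_apply, P.T2_eq, P.T0_three]
  rw [← Measure.restrict_univ (μ := volT X.g)]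
  refine (X.pc2 hO c).mult (m0 := P.δ ^ 3 * q 3 / 2) (N := (1 / P.δ) ^ 2 * (2 * q 3 / P.δ))
    hO.fd_O.meas (bf2_pos hO h0) (fun x hx => (hO.slow2.out q hq x hx).1) t t1
    (fun x hx => t3 x ((hx 0).le.trans ?_) ((hx 1).le.trans ?_) (hx 2).le) (t2.trans ?_)
    (by positivity) (fun x hx => by linarith [(hO.slow2.out q hq x hx).2.2.2]) ?_ hF
  · change 2 * (2 * (1 / 100) / (3 * P.δ)) ≤ _
    field_simp
    norm_num
  · change 2 * (1 / 100 * q 3 / P.δ) ≤ _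
    field_simp
    linarith
  · rw [cc]
    gcongr <;> field_simp <;> linarith
  · have h3 := pow_le_pow_left₀ hϱ.le hP.rho_le_sq 2
    have h4 : (P.K : ℝ) ^ 4 * P.δ ^ 3 * P.δ ≤ P.K ^ 4 * P.δ ^ 3 * q 3 :=
      mul_le_mul_of_nonneg_left (by linarith) (by positivity)
    rw [Fin.prod_univ_four]
    change 16 * _ / (_ * (2 * (1 / 100) / (3 * P.δ) * (1 / 100 * q 3 / P.δ) *
      (1 / 100 * q 3 / P.δ) * (1 / 100 * q 3))) ≤ _
    field_simp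
    nlinarith [sq_nonneg P.ϱ]

end Pool.Agent.Lib.MP_94aef8_gt
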