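import Pool.Agent.Lib.MP_94aef8_gt.J.BBox

/-! Fundamental domains of groups of translations. -/

open scoped Manifold ContDiff Topology ENNReal
open Matrix Filter Set MeasureTheory Real

namespace Pool.Agent.Lib.MP_94aef8_gt

/-- Invariance of a function under the translations from `V`. -/
def InvF {α : Type} (V : Set E4) (f : E4 → α) : Prop := ∀ v ∈ V, ∀ x, f (x + v) = f x

/-- Invariance of a set under the translations from `V`. -/
def InvS (V W : Set E4) : Prop := ∀ v ∈ V, ∀ x, x + v ∈ W ↔ x ∈ W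

/-- `D` is a fundamental domain for the translations from `V`. -/
structure FD (V D : Set E4) : Prop where
  meas : MeasurableSet D
  cov : ∀ x, ∃ v ∈ V, x + v ∈ D
  sh : ∀ f : E4 → ℝ≥0∞, Measurable f → InvF V f → ∀ u, ∫⁻ x in D, f (x + u) = ∫⁻ x in D, f x

/-- Periods of the last coordinate. -/
def VT (τ : ℝ) : Set E4 := {v | ∃ k : ℤ, v = mk4 0 0 0 (k * τ)}

/-- One period of the last coordinate. -/
def DT (τ : ℝ) : Set E4 := {x | 0 ≤ x 3 ∧ x 3 < τ}

variable {V D S : Set E4} {τ : ℝ}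

theorem bfd_shift (hD : MeasurableSet D) {f : E4 → ℝ≥0∞} (hf : Measurable f) (u : E4) :
    ∫⁻ x in {x | x + u ∈ D}, f (x + u) = ∫⁻ x in D, f x :=
  (measurePreserving_add_right volume u).setLIntegral_comp_preimage hD hf

/-- Cut `D` into the sets `D ∩ {x | x + u + φ k ∈ D}`, `k : G` (`lintegral_iUnion`), translate the
piece `k` by `u + φ k` (`lintegral_add_right_eq_self`, indicator functions); the images
`D ∩ {y | y - u - φ k ∈ D}` form a partition of `D` (use `-k`). Or `IsAddFundamentalDomain.mk'`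
for `AddAction.compHom E4 φ` and `IsAddFundamentalDomain.setLIntegral_eq`. -/
theorem FD.of_exact {G : Type} [AddCommGroup G] [Countable G] (φ : G →+ E4) (hD : MeasurableSet D)
    (h : ∀ x, ∃! k : G, x + φ k ∈ D) : FD (range φ) D := by
  refine ⟨hD, fun x => ?_, fun f hf hi u => ?_⟩
  · obtain ⟨k, hk, -⟩ := h x
    exact ⟨φ k, mem_range_self k, hk⟩
  let _ : AddAction G E4 := AddAction.compHom E4 φ
  have e : ∀ (k : G) (x : E4), k +ᵥ x = x + φ k := fun k x => add_comm (φ k) x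
  have _ : MeasurableConstVAdd G E4 := ⟨fun k => measurable_const_add (φ k)⟩
  have _ : VAddInvariantMeasure G E4 volume := ⟨fun k s _ => measure_preimage_add volume (φ k) s⟩
  have hD' : MeasurableSet {x | x + -u ∈ D} := measurable_add_const (-u) hD
  have h1 : IsAddFundamentalDomain G D volume :=
    IsAddFundamentalDomain.mk' hD.nullMeasurableSet fun x => by simpa only [e] using h x
  have h2 : IsAddFundamentalDomain G {x | x + -u ∈ D} volume :=
    IsAddFundamentalDomain.mk' hD'.nullMeasurableSet fun x => by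
      simpa only [e, mem_ofPred_eq, add_right_comm x (-u)] using h (x + -u)
  rw [h1.setLIntegral_eq h2 f fun k x => by rw [e, hi _ (mem_range_self k)],
    ← bfd_shift hD' hf u]
  simp only [mem_ofPred_eq, add_neg_cancel_right, ofPred_mem_eq]

theorem fd_univ : FD {0} univ :=
  ⟨MeasurableSet.univ, fun _ => ⟨0, rfl, mem_univ _⟩, fun f _ _ u => by
    rw [Measure.restrict_univ, lintegral_add_right_eq_self]⟩

theorem bfd_meas (τ : ℝ) : MeasurableSet (DT τ) :=
  (measurableSet_Ico (a := (0 : ℝ)) (b := τ)).preimage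
    (EuclideanSpace.proj (3 : Fin 4) : E4 →L[ℝ] ℝ).continuous.measurable

/-- `FD.of_exact` with `k ↦ mk4 0 0 0 (k * τ)`, `k = -⌊x 3 / τ⌋` (`existsUnique_add_zsmul_mem_Ico`). -/
theorem fd_T (hτ : 0 < τ) : FD (VT τ) (DT τ) := by
  let φ : ℤ →+ E4 := AddMonoidHom.mk' (fun k => mk4 0 0 0 (k * τ)) fun a b => by
    refine ext_4 ?_ ?_ ?_ ?_ <;> simp [add_mul]
  have e : VT τ = range φ := Set.ext fun v => exists_congr fun k => eq_comm
  rw [e]
  refine FD.of_exact φ (bfd_meas τ) fun x => ?_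
  have h := existsUnique_add_zsmul_mem_Ico hτ (x 3) 0
  simp only [zero_add, zsmul_eq_mul] at h
  exact h

/-- Substitute `x = q + u`, Tonelli (`lintegral_lintegral_swap`), `FD.sh` for
`q ↦ k (q - u) q`, Tonelli, substitute `q = x - u` (`lintegral_sub_left_eq_self`). -/
theorem FD.swap (hD : FD V D) {k : E4 → E4 → ℝ≥0∞} (hk : Measurable (Function.uncurry k))
    (hi : ∀ v ∈ V, ∀ q x, k (q + v) (x + v) = k q x) :
    ∫⁻ q in D, ∫⁻ x, k q x = ∫⁻ x in D, ∫⁻ q, k q x := by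
  have m1 : Measurable (Function.uncurry fun q u => k q (q + u)) :=
    hk.comp (measurable_fst.prodMk (measurable_fst.add measurable_snd))
  have m2 : Measurable (Function.uncurry fun x u => k (x - u) x) :=
    hk.comp ((measurable_fst.sub measurable_snd).prodMk measurable_fst)
  have e1 : ∀ q, ∫⁻ x, k q x = ∫⁻ u, k q (q + u) := fun q =>
    (lintegral_add_left_eq_self (fun x => k q x) q).symm
  have e2 : ∀ x, ∫⁻ q, k q x = ∫⁻ u, k (x - u) x := fun x =>
    (lintegral_sub_left_eq_self (fun q => k q x) x).symm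
  simp only [e1, e2]
  rw [lintegral_lintegral_swap m1.aemeasurable, lintegral_lintegral_swap m2.aemeasurable]
  refine lintegral_congr fun u => ?_
  have h := hD.sh (fun x => k (x - u) x)
    (hk.comp ((measurable_id.sub_const u).prodMk measurable_id))
    (fun v hv x => by simp only [add_sub_right_comm x v u, hi v hv]) u
  simpa only [add_sub_cancel_right] using h

/-- `S ⊆ ⋃ v ∈ t, {x | x + v ∈ D}`. -/
theorem lint_le_card (hD : MeasurableSet D) (t : Finset E4) (ht : ∀ v ∈ t, v ∈ V)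
    (hS : ∀ x ∈ S, ∃ v ∈ t, x + v ∈ D) {f : E4 → ℝ≥0∞} (hf : Measurable f) (hi : InvF V f) :
    ∫⁻ x in S, f x ≤ t.card * ∫⁻ x in D, f x := by
  have h1 : S ⊆ ⋃ v : t, {x : E4 | x + v.1 ∈ D} := fun x hx => by
    obtain ⟨v, hv, h⟩ := hS x hx
    exact mem_iUnion.2 ⟨⟨v, hv⟩, h⟩
  refine (lintegral_mono_set h1).trans ((lintegral_iUnion_le _ _).trans (le_of_eq ?_))
  have h2 : ∀ v : t, ∫⁻ x in {x : E4 | x + v.1 ∈ D}, f x = ∫⁻ x in D, f x := fun v => by
    rw [← bfd_shift hD hf v]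
    exact lintegral_congr fun x => (hi v (ht v v.2) x).symm
  simp only [h2, tsum_fintype, Finset.sum_const, Finset.card_univ, Fintype.card_coe, nsmul_eq_mul]

/-- The integers between `⌊(z - r) / τ⌋` and `⌊(z + r) / τ⌋`. -/
theorem count_int (hτ : 0 < τ) (z : ℝ) {r : ℝ} (hr : 0 ≤ r) : ∃ t : Finset ℤ,
    (t.card : ℝ) ≤ 2 * r / τ + 2 ∧ ∀ y, |y - z| ≤ r → ∃ k ∈ t, 0 ≤ y + k * τ ∧ y + k * τ < τ := by
  refine ⟨Finset.Icc (-⌊(z + r) / τ⌋) (-⌊(z - r) / τ⌋), ?_, fun y hy => ⟨-⌊y / τ⌋, ?_, ?_, ?_⟩⟩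
  · have h1 : ⌊(z - r) / τ⌋ ≤ ⌊(z + r) / τ⌋ := Int.floor_mono (by gcongr; linarith)
    have h2 := Int.card_Icc_of_le (-⌊(z + r) / τ⌋) (-⌊(z - r) / τ⌋) (by omega)
    have h3 : ((Finset.Icc (-⌊(z + r) / τ⌋) (-⌊(z - r) / τ⌋)).card : ℝ) =
        -⌊(z - r) / τ⌋ + 1 - -⌊(z + r) / τ⌋ := by exact_mod_cast h2
    have h4 : (z + r) / τ - (z - r) / τ = 2 * r / τ := by ring
    linarith [Int.floor_le ((z + r) / τ), Int.lt_floor_add_one ((z - r) / τ)]
  · rw [abs_le] at hy
    exact Finset.mem_Icc.2 ⟨neg_le_neg (Int.floor_mono (by gcongr; linarith)),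
      neg_le_neg (Int.floor_mono (by gcongr; linarith))⟩
  · have h := (le_div_iff₀ hτ).1 (Int.floor_le (y / τ))
    push_cast
    linarith
  · have h := (div_lt_iff₀ hτ).1 (Int.lt_floor_add_one (y / τ))
    push_cast
    linarith

theorem count_T (hτ : 0 < τ) (z : ℝ) {r : ℝ} (hr : 0 ≤ r) : ∃ t : Finset E4, (∀ v ∈ t, v ∈ VT τ) ∧
    (t.card : ℝ) ≤ 2 * r / τ + 2 ∧ ∀ x : E4, |x 3 - z| ≤ r → ∃ v ∈ t, x + v ∈ DT τ := by
  classical
  obtain ⟨t, h1, h2⟩ := count_int hτ z hr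
  refine ⟨t.image fun k : ℤ => mk4 0 0 0 (k * τ), fun v hv => ?_,
    le_trans (by exact_mod_cast Finset.card_image_le) h1, fun x hx => ?_⟩
  · obtain ⟨k, -, rfl⟩ := Finset.mem_image.1 hv
    exact ⟨k, rfl⟩
  · obtain ⟨k, hk, h⟩ := h2 _ hx
    exact ⟨_, Finset.mem_image_of_mem _ hk, h⟩

end Pool.Agent.Lib.MP_94aef8_gt
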