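import Pool.Agent.Lib.MP_94aef8_gt.J.BVol
import Pool.Agent.Lib.MP_94aef8_gt.J.AOm2

/-! The thick part. -/

open scoped Manifold ContDiff Topology ENNReal
open Matrix Filter Set MeasureTheory Real

namespace Pool.Agent.Lib.MP_94aef8_gt

/-- The points of the piece `i` that are not equivalent to points of earlier pieces. -/
def Arith.new {K : ℕ} (A : Arith K) {N : ℕ} (κ : Fin N → A.C) (B : Fin N → Set E4) (i : Fin N) :
    Set E4 := {p | p ∈ B i ∧ ∀ i' < i, ∀ τ ∈ A.Tr (κ i) (κ i'), τ p ∉ B i'}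

/-- The hyperbolic volume of the thick part. -/
noncomputable def Arith.volH {K : ℕ} (A : Arith K) {N : ℕ} (κ : Fin N → A.C) (B : Fin N → Set E4) :
    ℝ := ∑ i, ∫ p in A.new κ B i, (p 3 ^ 4)⁻¹

variable {P : Par} {A : Arith P.K}

/-- The thick part. -/
def MD.Hs (D : MD P A) : Set D.M := ⋃ c, D.pO c '' {p | 17 / 50 ≤ p 3 ∧ p 3 ≤ 59 / 20}

/-- The integrand. -/
noncomputable def AP.u {D : MD P A} (X : AP D) (x : D.M) : ℝ := trg X.g (GRic X.g) x + 6

variable {D : MD P A} {N : ℕ} {κ : Fin N → A.C} {B : Fin N → Set E4}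

/-- `sm_trg`, `smG_GRic`. -/
theorem AP.continuous_u (X : AP D) : Continuous X.u :=
  (sm_trg X.good (smG_GRic X.good)).continuous.add continuous_const

theorem AP.integrable_u (X : AP D) : Integrable X.u (volT X.g) :=
  X.good.integrable X.continuous_u

theorem bj3a_UO (hP : P.Ok) {p : E4} (hp : 17 / 50 ≤ p 3 ∧ p 3 ≤ 59 / 20) : p ∈ P.UO :=
  hP.mem_UO hp.1 (by nlinarith [hP.δ0, hP.δ1, hp.1, hp.2])

theorem MD.meas_Hs (D : MD P A) (hP : P.Ok) : MeasurableSet D.Hs := by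
  have := A.fin
  refine MeasurableSet.iUnion fun c => (D.ptO c).measurableSet_image ?_ fun p hp => bj3a_UO hP hp
  have h3 : Continuous fun p : E4 => p 3 := by fun_prop
  exact ((isClosed_le continuous_const h3).inter (isClosed_le h3 continuous_const)).measurableSet

theorem bj3a_new (D : MD P A) (hP : P.Ok) (hB : A.Pcs κ B) (i : Fin N) (p : E4) :
    p ∈ A.new κ B i ↔ p ∈ B i ∧ ∀ i' < i, D.pO (κ i) p ∉ D.pO (κ i') '' B i' := by
  refine and_congr_right fun hp => forall₂_congr fun i' _ => ?_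
  have hU := bj3a_UO hP (hB.sub i p hp)
  constructor
  · rintro h ⟨q, hq, e⟩
    obtain ⟨τ, hτ, rfl⟩ := (D.eqO _ _ p hU q (bj3a_UO hP (hB.sub i' q hq))).1 e.symm
    exact h τ hτ hq
  · exact fun h τ hτ hq =>
      h ⟨_, hq, ((D.eqO _ _ p hU _ (bj3a_UO hP (hB.sub i' _ hq))).2 ⟨τ, hτ, rfl⟩).symm⟩

/-- `new i = B i \ ⋃ i' < i, (B i ∩ pO (κ i) ⁻¹' (pO (κ i') '' B i'))` (`eqO`), and these sets are
closed (`ContinuousOn.preimage_isClosed_of_isClosed`, compact images). -/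
theorem MD.meas_new (D : MD P A) (hP : P.Ok) (hB : A.Pcs κ B) (i : Fin N) :
    MeasurableSet (A.new κ B i) := by
  have e : A.new κ B i =
      B i \ ⋃ i' ∈ {i' | i' < i}, (B i ∩ D.pO (κ i) ⁻¹' (D.pO (κ i') '' B i')) := by
    ext p
    rw [bj3a_new D hP hB]
    simp only [Set.mem_sdiff, mem_iUnion, mem_ofPred_eq, mem_inter_iff, mem_preimage, not_exists,
      not_and]
    exact ⟨fun h => ⟨h.1, fun i' hi _ => h.2 i' hi⟩, fun h => ⟨h.1, fun i' hi => h.2 i' hi h.1⟩⟩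
  rw [e]
  have hc : ∀ j, ContinuousOn (D.pO (κ j)) (B j) := fun j =>
    (D.ptO _).continuousOn.mono fun p hp => bj3a_UO hP (hB.sub j p hp)
  refine (hB.cpt i).isClosed.measurableSet.diff (MeasurableSet.biUnion (to_countable _)
    fun i' _ => IsClosed.measurableSet ?_)
  exact (hc i).preimage_isClosed_of_isClosed (hB.cpt i).isClosed
    ((hB.cpt i').image_of_continuousOn (hc i')).isClosed

/-- Move the point into the cell, take the least index `i` with `m ∈ pO (κ i) '' B i`. -/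
theorem MD.Hs_eq (D : MD P A) (hP : P.Ok) (hB : A.Pcs κ B) :
    D.Hs = ⋃ i, D.pO (κ i) '' A.new κ B i := by
  ext m
  simp only [MD.Hs, mem_iUnion]
  constructor
  · rintro ⟨c, p, hp, rfl⟩
    obtain ⟨v, hv⟩ := exists_trl_cell (K := (P.K : ℝ)) (by exact_mod_cast hP.K0) p
    obtain ⟨i, hi, hpi⟩ := hB.cov c _ hv hp.1 hp.2
    have hne : ({j | D.pO c p ∈ D.pO (κ j) '' B j} : Set (Fin N)).Nonempty :=
      ⟨i, _, hpi, by rw [hi, D.pO_trl c v (bj3a_UO hP hp)]⟩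
    obtain ⟨j, ⟨q, hq, e⟩, hmin⟩ := (wellFounded_lt (α := Fin N)).has_min _ hne
    refine ⟨j, q, (bj3a_new D hP hB j q).2 ⟨hq, fun i' hi' h => hmin i' ?_ hi'⟩, e⟩
    rw [mem_ofPred_eq, ← e]
    exact h
  · rintro ⟨i, p, hp, rfl⟩
    exact ⟨κ i, p, hB.sub i p hp.1, rfl⟩

theorem MD.disj_new (D : MD P A) (hP : P.Ok) (hB : A.Pcs κ B) :
    Pairwise fun i i' => Disjoint (D.pO (κ i) '' A.new κ B i) (D.pO (κ i') '' A.new κ B i') := by
  have key : ∀ i i', i' < i →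
      Disjoint (D.pO (κ i) '' A.new κ B i) (D.pO (κ i') '' A.new κ B i') := fun i i' h => by
    rw [Set.disjoint_left]
    rintro _ ⟨p, hp, rfl⟩ ⟨q, hq, e⟩
    exact ((bj3a_new D hP hB i p).1 hp).2 i' h ⟨q, hq.1, e⟩
  intro i i' h
  rcases lt_or_gt_of_ne h with h | h
  exacts [(key i' i h).symm, key i i' h]

/-- For `y < 3` the function `vO` is `1` near `y`. -/
theorem Par.vO_low (P : Par) {y : ℝ} (hy : y < 3) :
    P.vO y = 1 ∧ deriv P.vO y = 0 ∧ deriv (deriv P.vO) y = 0 := by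
  have h1 : ∀ t < 3, P.vO t = 1 := fun t ht => by
    rw [Par.vO, smoothTransition.zero_of_nonpos (by linarith), zero_mul, sub_zero]
  have h2 : ∀ t < 3, P.vO =ᶠ[𝓝 t] fun _ => 1 := fun t ht =>
    (gt_mem_nhds ht).mono fun s hs => h1 s hs
  have h3 : ∀ t < 3, deriv P.vO t = 0 := fun t ht => by rw [(h2 t ht).deriv_eq, deriv_const]
  have h4 : deriv P.vO =ᶠ[𝓝 y] fun _ => 0 := (gt_mem_nhds hy).mono fun s hs => h3 s hs
  exact ⟨h1 y hy, h3 y hy, by rw [h4.deriv_eq, deriv_const]⟩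

/-- `integral_iUnion_fintype`, `Pt.int_eq`, `pO_inj_pcs`, `gO`, `rho_GO`, `scal_slab`, `vO_low`. -/
theorem AP.int_Hs (X : AP D) (hP : P.Ok) (hB : A.Pcs κ B) :
    ∫ x in D.Hs, X.u x ∂volT X.g = -6 * A.volH κ B := by
  have hU : ∀ i, A.new κ B i ⊆ P.UO := fun i p hp => bj3a_UO hP (hB.sub i p hp.1)
  rw [D.Hs_eq hP hB, integral_iUnion_fintype
    (fun i => (D.ptO _).measurableSet_image (D.meas_new hP hB i) (hU i)) (D.disj_new hP hB)
    fun i => X.integrable_u.integrableOn, Arith.volH, Finset.mul_sum]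
  refine Finset.sum_congr rfl fun i _ => ?_
  rw [(D.ptO _).int_eq (D.meas_new hP hB i) (hU i)
    ((D.pO_inj_pcs hP hB i).mono fun p hp => hp.1) X.good X.continuous_u.measurable,
    ← integral_const_mul]
  refine setIntegral_congr_fun (D.meas_new hP hB i) fun p hp => ?_
  have h3 : p 3 < 3 := by linarith [(hB.sub i p hp.1).2]
  obtain ⟨a, b, c⟩ := P.vO_low h3
  have e : rho (gpull (D.pO (κ i)) X.g) p = (p 3 ^ 4)⁻¹ := by
    rw [← hP.rho_GO (hU i hp), rho, rho, X.gO _ p (hU i hp)]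
  simp only [AP.u]
  rw [e, X.scal_slab hP _ (hU i hp), a, b, c]
  ring

end Pool.Agent.Lib.MP_94aef8_gt
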