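import Pool.Agent.Lib.MP_94aef8_gt.J.BVol

/-! The size of the error. -/

open scoped Manifold ContDiff Topology ENNReal
open Matrix Filter Set MeasureTheory Real

namespace Pool.Agent.Lib.MP_94aef8_gt

variable {P : Par} {A : Arith P.K} {D : MD P A} {C C' : ℝ}

/-- `B_l`, `rho_le_sq`. -/
theorem Par.Geom.sizes (hP : P.Geom) : P.ϱ / P.l + P.l ≤ P.K ^ 2 * P.δ ∧ P.B * P.ϱ ≤ 2 * P.K ^ 2 * P.δ := by
  have hδ := hP.δ0
  have hK := Par.anum_K hP.toOk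
  have hK2 : (16 : ℝ) ≤ (P.K : ℝ) ^ 2 := by nlinarith
  have h1 := hP.rho_le_sq
  have h2 := hP.B_l
  have h3 := hP.B_nonneg
  rw [Par.l] at h2 ⊢
  constructor
  · have h4 : P.ϱ / (2 * P.δ) ≤ (P.K : ℝ) ^ 2 * P.δ / 2 := by
      rw [div_le_iff₀ (by positivity)]
      nlinarith
    nlinarith
  · calc P.B * P.ϱ ≤ P.B * ((P.K : ℝ) ^ 2 * P.δ ^ 2) := mul_le_mul_of_nonneg_left h1 h3
      _ = (P.B * (2 * P.δ)) * ((P.K : ℝ) ^ 2 * P.δ / 2) := by ring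
      _ ≤ 4 * ((P.K : ℝ) ^ 2 * P.δ / 2) := mul_le_mul_of_nonneg_right h2 (by positivity)
      _ = 2 * P.K ^ 2 * P.δ := by ring

theorem bny_mid (hP : P.Geom) {s : ℝ} (hs : P.l / 40 ≤ s) :
    0 ≤ P.ϱ / P.l + P.l ∧ P.ϱ / P.l + P.l ≤ 20 * (P.K : ℝ) ^ 2 * s ∧ P.δ ≤ 20 * s := by
  have hl := hP.toOk.l_pos
  have hϱ := hP.ϱ0
  have h1 := hP.sizes.1
  have h2 : P.δ ≤ 20 * s := by
    rw [Par.l] at hs
    linarith
  refine ⟨by positivity, h1.trans ?_, h2⟩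
  calc (P.K : ℝ) ^ 2 * P.δ ≤ (P.K : ℝ) ^ 2 * (20 * s) :=
        mul_le_mul_of_nonneg_left h2 (by positivity)
    _ = _ := by ring

/-- The square of a sum of four terms is at most four times the sum of the squares. -/
theorem Par.Geom.eta_sq (hP : P.Geom) {s : ℝ} (hs : P.ϱ ≤ s) : P.eta s ^ 2 / s ^ 2 ≤
    16 * P.δ ^ 6 + (if s ≤ P.l / 5 then 2000 * (P.K : ℝ) ^ 4 else 0) +
      if s ≤ 3 * P.ϱ then 4 * P.B ^ 2 else 0 := by
  have hϱ := hP.ϱ0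
  have hs0 : 0 < s := lt_of_lt_of_le hϱ hs
  have hδ := hP.δ0
  have hl := hP.toOk.l_pos
  have hl1 := hP.toOk.l_le
  have hK := Par.anum_K hP.toOk
  have hK4 : (1 : ℝ) ≤ (P.K : ℝ) ^ 4 := one_le_pow₀ (by linarith)
  have hB := hP.B_nonneg
  have e4 : ∀ a b c d : ℝ, (a + b + c + d) ^ 2 ≤ 4 * a ^ 2 + 4 * b ^ 2 + 4 * c ^ 2 + 4 * d ^ 2 :=
    fun a b c d => by
      nlinarith [sq_nonneg (a - b), sq_nonneg (a - c), sq_nonneg (a - d), sq_nonneg (b - c),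
        sq_nonneg (b - d), sq_nonneg (c - d)]
  have h1 : 4 * (if 1 / 2 ≤ s then P.δ ^ 3 else 0) ^ 2 ≤ 16 * P.δ ^ 6 * s ^ 2 := by
    split_ifs with h
    · have h5 : 1 ≤ 4 * s ^ 2 := by nlinarith
      have h6 : 0 ≤ P.δ ^ 6 := by positivity
      nlinarith
    · rw [zero_pow two_ne_zero, mul_zero]
      positivity
  have h2 : 4 * (if P.l / 40 ≤ s ∧ s ≤ P.l / 5 then P.ϱ / P.l + P.l else 0) ^ 2 ≤
      (if s ≤ P.l / 5 then 1600 * (P.K : ℝ) ^ 4 else 0) * s ^ 2 := by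
    split_ifs with h h'
    · obtain ⟨a1, a2, -⟩ := bny_mid hP h.1
      have h5 := pow_le_pow_left₀ a1 a2 2
      calc _ ≤ 4 * (20 * (P.K : ℝ) ^ 2 * s) ^ 2 := by linarith
        _ = _ := by ring
    · exact absurd h.2 h'
    · rw [zero_pow two_ne_zero, mul_zero]
      positivity
    · simp
  have h3 : 4 * (if s ≤ P.l / 40 then s ^ 2 else 0) ^ 2 ≤
      (if s ≤ P.l / 5 then 400 * (P.K : ℝ) ^ 4 else 0) * s ^ 2 := by
    split_ifs with h h'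
    · have h5 : s ^ 2 ≤ 1 := pow_le_one₀ hs0.le (by linarith)
      have h6 : 0 ≤ s ^ 2 := sq_nonneg s
      have h7 : 4 * s ^ 2 ≤ 400 * (P.K : ℝ) ^ 4 := by linarith
      calc 4 * (s ^ 2) ^ 2 = 4 * s ^ 2 * s ^ 2 := by ring
        _ ≤ _ := mul_le_mul_of_nonneg_right h7 h6
    · exact absurd (by linarith) h'
    · rw [zero_pow two_ne_zero, mul_zero]
      positivity
    · simp
  have h4 : 4 * (if s ≤ 3 * P.ϱ then P.B * P.ϱ else 0) ^ 2 ≤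
      (if s ≤ 3 * P.ϱ then 4 * P.B ^ 2 else 0) * s ^ 2 := by
    split_ifs with h
    · have h5 := pow_le_pow_left₀ hϱ.le hs 2
      calc 4 * (P.B * P.ϱ) ^ 2 = 4 * P.B ^ 2 * P.ϱ ^ 2 := by ring
        _ ≤ _ := mul_le_mul_of_nonneg_left h5 (by positivity)
    · simp
  have h5 : (if s ≤ P.l / 5 then 2000 * (P.K : ℝ) ^ 4 else 0) =
      (if s ≤ P.l / 5 then 1600 * (P.K : ℝ) ^ 4 else 0) +
        if s ≤ P.l / 5 then 400 * (P.K : ℝ) ^ 4 else 0 := by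
    split_ifs <;> ring
  rw [div_le_iff₀ (by positivity), Par.eta, h5]
  refine (e4 _ _ _ _).trans ?_
  linarith

theorem Par.Geom.eta_le (hP : P.Geom) {s : ℝ} (hs : P.ϱ ≤ s) : P.eta s / s ^ 2 ≤
    500 * (P.K : ℝ) ^ 2 / P.δ + if s ≤ 3 * P.ϱ then P.B / P.ϱ else 0 := by
  have hϱ := hP.ϱ0
  have hs0 : 0 < s := lt_of_lt_of_le hϱ hs
  have hδ := hP.δ0
  have hδ1 := hP.δ1
  have hK := Par.anum_K hP.toOk
  have hK2 : (1 : ℝ) ≤ (P.K : ℝ) ^ 2 := one_le_pow₀ (by linarith)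
  have hB := hP.B_nonneg
  have h0 : 1 ≤ (P.K : ℝ) ^ 2 / P.δ := by
    rw [le_div_iff₀ hδ]
    linarith
  have hs2 : 0 < s ^ 2 := by positivity
  have h1 : (if 1 / 2 ≤ s then P.δ ^ 3 else 0) ≤ 4 * s ^ 2 := by
    split_ifs with h
    · have h5 : P.δ ^ 3 ≤ 1 := pow_le_one₀ hδ.le (by linarith)
      nlinarith
    · positivity
  have h2 : (if P.l / 40 ≤ s ∧ s ≤ P.l / 5 then P.ϱ / P.l + P.l else 0) ≤
      400 * ((P.K : ℝ) ^ 2 / P.δ) * s ^ 2 := by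
    split_ifs with h
    · obtain ⟨-, -, a3⟩ := bny_mid hP h.1
      have h5 := pow_le_pow_left₀ hδ.le a3 2
      calc _ ≤ (P.K : ℝ) ^ 2 * P.δ := hP.sizes.1
        _ = (P.K : ℝ) ^ 2 / P.δ * P.δ ^ 2 := by field_simp
        _ ≤ (P.K : ℝ) ^ 2 / P.δ * (20 * s) ^ 2 := mul_le_mul_of_nonneg_left h5 (by positivity)
        _ = _ := by ring
    · positivity
  have h3 : (if s ≤ P.l / 40 then s ^ 2 else 0) ≤ s ^ 2 := by
    split_ifs
    · exact le_rfl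
    · exact hs2.le
  have h4 : (if s ≤ 3 * P.ϱ then P.B * P.ϱ else 0) ≤
      (if s ≤ 3 * P.ϱ then P.B / P.ϱ else 0) * s ^ 2 := by
    split_ifs with h
    · have h5 := pow_le_pow_left₀ hϱ.le hs 2
      calc P.B * P.ϱ = P.B / P.ϱ * P.ϱ ^ 2 := by field_simp
        _ ≤ _ := mul_le_mul_of_nonneg_left h5 (by positivity)
    · simp
  have h5 : 5 * s ^ 2 ≤ 100 * ((P.K : ℝ) ^ 2 / P.δ) * s ^ 2 :=
    mul_le_mul_of_nonneg_right (by linarith) hs2.le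
  rw [div_le_iff₀ hs2, Par.eta, mul_div_assoc]
  linarith

/-- `integral_mono_of_nonneg` against a sum of indicator functions. -/
theorem int_le_steps {M : Type} [MeasurableSpace M] (μ : Measure M) [IsFiniteMeasure μ] {f : M → ℝ}
    {S T : Set M} (hS : MeasurableSet S) (hT : MeasurableSet T) {a b c : ℝ} (h0 : ∀ x, 0 ≤ f x)
    (h : ∀ x, f x ≤ a + S.indicator (fun _ => b) x + T.indicator (fun _ => c) x) :
    ∫ x, f x ∂μ ≤ a * μ.real univ + b * μ.real S + c * μ.real T := by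
  have i1 : Integrable (fun _ : M => a) μ := integrable_const a
  have i2 : Integrable (S.indicator fun _ : M => b) μ := (integrable_const b).indicator hS
  have i3 : Integrable (T.indicator fun _ : M => c) μ := (integrable_const c).indicator hT
  refine (integral_mono_of_nonneg (Eventually.of_forall h0) ((i1.add i2).add i3)
    (Eventually.of_forall h)).trans_eq ?_
  have e1 := integral_add (i1.add i2) i3
  have e2 := integral_add i1 i2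
  simp only [Pi.add_apply] at e1 e2 ⊢
  rw [e1, e2, integral_const, integral_indicator_const _ hS, integral_indicator_const _ hT,
    smul_eq_mul, smul_eq_mul, smul_eq_mul]
  ring

theorem bny_num (hP : P.Geom) : 16 * P.δ ^ 6 * (P.K : ℝ) ^ 3 ≤ 256 * (P.K ^ 5 * P.δ * P.ϱ ^ 2) ∧
    (P.l / 5) ^ 3 * P.ϱ ≤ P.δ * P.ϱ ^ 2 ∧
    4 * P.B ^ 2 * ((3 * P.ϱ) ^ 3 * P.ϱ) ≤ 500 * (P.K ^ 4 * P.δ * P.ϱ ^ 2) := by
  have hϱ := hP.ϱ0
  have hδ := hP.δ0
  have hδ1 := hP.δ1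
  have hK := Par.anum_K hP.toOk
  have hB := hP.B_nonneg
  have h1 := hP.sq_le_rho
  have h2 : P.δ ^ 2 ≤ P.δ := by nlinarith
  refine ⟨?_, ?_, ?_⟩
  · have h3 := pow_le_pow_left₀ (sq_nonneg _) h1 2
    have h4 : (P.K : ℝ) ^ 3 ≤ P.K ^ 5 := pow_le_pow_right₀ (by linarith) (by norm_num)
    calc 16 * P.δ ^ 6 * (P.K : ℝ) ^ 3 = 16 * (P.δ ^ 2 * (P.δ ^ 2) ^ 2 * (P.K : ℝ) ^ 3) := by ring
      _ ≤ 16 * (P.δ * (4 * P.ϱ) ^ 2 * (P.K : ℝ) ^ 5) := by gcongr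
      _ = _ := by ring
  · calc (P.l / 5) ^ 3 * P.ϱ = 8 / 125 * (P.δ * P.ϱ) * P.δ ^ 2 := by
          rw [Par.l]
          ring
      _ ≤ 8 / 125 * (P.δ * P.ϱ) * (4 * P.ϱ) := by gcongr
      _ = 32 / 125 * (P.δ * P.ϱ ^ 2) := by ring
      _ ≤ _ := by
          have : 0 ≤ P.δ * P.ϱ ^ 2 := by positivity
          linarith
  · have h3 := pow_le_pow_left₀ (mul_nonneg hB hϱ.le) hP.sizes.2 2
    calc 4 * P.B ^ 2 * ((3 * P.ϱ) ^ 3 * P.ϱ) = 108 * P.ϱ ^ 2 * (P.B * P.ϱ) ^ 2 := by ring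
      _ ≤ 108 * P.ϱ ^ 2 * (2 * P.K ^ 2 * P.δ) ^ 2 := by gcongr
      _ = 432 * (P.K ^ 4 * P.ϱ ^ 2) * P.δ ^ 2 := by ring
      _ ≤ 432 * (P.K ^ 4 * P.ϱ ^ 2) * P.δ := by gcongr
      _ = 432 * (P.K ^ 4 * P.δ * P.ϱ ^ 2) := by ring
      _ ≤ _ := by
          have : 0 ≤ (P.K : ℝ) ^ 4 * P.δ * P.ϱ ^ 2 := by positivity
          linarith

/-- `eta_sq`, `int_le_steps`, `vol_univ`, `vol_small` for `l / 5` and `3 ϱ`, `sq_le_rho`, `sizes`:
`16 δ ^ 6 ≤ 256 δ ϱ ^ 2`, `(l / 5) ^ 3 ϱ ≤ δ ϱ ^ 2`, `4 B ^ 2 27 ϱ ^ 4 ≤ 500 K ^ 4 δ ϱ ^ 2`. -/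
theorem AP.ny (X : AP D) (hP : P.Geom) (hC : P.RhoT C) (h0 : 0 ≤ C')
    (h : ∀ m, ∀ i ≤ 4, X.s m ^ (4 * i + 4) * n0 X.g ((GP X.g)^[i] (GE X.g)) m ≤
      C' * P.eta (X.s m) ^ 2) :
    NY2 X.g X.s (GE X.g) ≤ 10 ^ 9 * C * C' * (Nat.card A.C * P.K ^ 5) * P.δ * P.ϱ ^ 2 := by
  have hO := hP.toOk
  have hϱ := hP.ϱ0
  have hδ := hP.δ0
  have hl := hO.l_pos
  have hϱl := hO.rho_le
  have hC1 := hC.1
  have := X.good.finite
  have hm : ∀ r : ℝ, MeasurableSet {m | X.s m ≤ r} := fun r =>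
    (isClosed_le X.scont continuous_const).measurableSet
  have v0 := X.vol_univ hO hC
  have v1 := X.vol_small hO hC (r := P.l / 5) (by linarith) (by linarith)
  have v2 := X.vol_small hO hC (r := 3 * P.ϱ) (by linarith) (by linarith)
  obtain ⟨n1, n2, n3⟩ := bny_num hP
  obtain ⟨N, hN⟩ : ∃ N : ℝ, N = 20000 * C * C' * Nat.card A.C := ⟨_, rfl⟩
  have hN0 : 0 ≤ N := by
    rw [hN]
    positivity
  obtain ⟨W, hW⟩ : ∃ W : ℝ, W = P.K ^ 5 * P.δ * P.ϱ ^ 2 := ⟨_, rfl⟩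
  have hW0 : 0 ≤ W := by
    rw [hW]
    positivity
  have key : ∀ i ∈ Finset.range 5,
      ∫ x, X.s x ^ (4 * i + 2) * n0 X.g ((GP X.g)^[i] (GE X.g)) x ∂volT X.g ≤ 2756 * (N * W) := by
    intro i hi
    have hi4 : i ≤ 4 := Nat.lt_succ_iff.1 (Finset.mem_range.1 hi)
    refine (int_le_steps (volT X.g) (hm (P.l / 5)) (hm (3 * P.ϱ)) (a := C' * (16 * P.δ ^ 6))
      (b := C' * (2000 * (P.K : ℝ) ^ 4)) (c := C' * (4 * P.B ^ 2)) (fun x => ?_)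
      fun x => ?_).trans ?_
    · have h1 := (X.rho_le_s hP x).1
      exact mul_nonneg (pow_nonneg (by linarith) _) (n0_nonneg X.good _ _)
    · have h1 := (X.rho_le_s hP x).1
      have hs0 : 0 < X.s x := by linarith
      have h2 := mul_le_mul_of_nonneg_left (hP.eta_sq h1) h0
      have h3 : X.s x ^ (4 * i + 2) * n0 X.g ((GP X.g)^[i] (GE X.g)) x ≤
          C' * (P.eta (X.s x) ^ 2 / X.s x ^ 2) := by
        rw [← mul_div_assoc, le_div_iff₀ (by positivity)]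
        refine le_of_eq_of_le ?_ (h x i hi4)
        ring
      refine h3.trans (h2.trans_eq ?_)
      simp only [Set.indicator_apply, Set.mem_ofPred_eq]
      split_ifs <;> ring
    · have a1 : C' * (16 * P.δ ^ 6) * (volT X.g).real univ ≤ 256 * (N * W) := by
        calc _ ≤ C' * (16 * P.δ ^ 6) * (20000 * C * (Nat.card A.C * P.K ^ 3)) := by gcongr
          _ = N * (16 * P.δ ^ 6 * (P.K : ℝ) ^ 3) := by
              rw [hN]
              ring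
          _ ≤ N * (256 * (P.K ^ 5 * P.δ * P.ϱ ^ 2)) := by gcongr
          _ = _ := by
              rw [hW]
              ring
      have a2 : C' * (2000 * (P.K : ℝ) ^ 4) * (volT X.g).real {m | X.s m ≤ P.l / 5} ≤
          2000 * (N * W) := by
        calc _ ≤ C' * (2000 * (P.K : ℝ) ^ 4) *
              (20000 * C * (Nat.card A.C * P.K) * ((P.l / 5) ^ 3 * P.ϱ)) := by gcongr
          _ = 2000 * N * P.K ^ 5 * ((P.l / 5) ^ 3 * P.ϱ) := by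
              rw [hN]
              ring
          _ ≤ 2000 * N * P.K ^ 5 * (P.δ * P.ϱ ^ 2) := by gcongr
          _ = _ := by
              rw [hW]
              ring
      have a3 : C' * (4 * P.B ^ 2) * (volT X.g).real {m | X.s m ≤ 3 * P.ϱ} ≤ 500 * (N * W) := by
        calc _ ≤ C' * (4 * P.B ^ 2) *
              (20000 * C * (Nat.card A.C * P.K) * ((3 * P.ϱ) ^ 3 * P.ϱ)) := by gcongr
          _ = N * P.K * (4 * P.B ^ 2 * ((3 * P.ϱ) ^ 3 * P.ϱ)) := by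
              rw [hN]
              ring
          _ ≤ N * P.K * (500 * (P.K ^ 4 * P.δ * P.ϱ ^ 2)) := by gcongr
          _ = _ := by
              rw [hW]
              ring
      linarith
  have h5 := Finset.sum_le_card_nsmul _ _ _ key
  rw [Finset.card_range, nsmul_eq_mul] at h5
  have e : 10 ^ 9 * C * C' * (Nat.card A.C * P.K ^ 5) * P.δ * P.ϱ ^ 2 = 50000 * (N * W) := by
    rw [hN, hW]
    ring
  have h6 := mul_nonneg hN0 hW0
  rw [NY2, e]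
  refine h5.trans ?_
  push_cast
  linarith

end Pool.Agent.Lib.MP_94aef8_gt
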