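import Pool.Agent.Lib.MP_94aef8_gt.J.BJ3a
import Pool.Agent.Lib.MP_94aef8_gt.J.BNY

/-! The cusps and the rest. -/

open scoped Manifold ContDiff Topology ENNReal
open Matrix Filter Set MeasureTheory Real

namespace Pool.Agent.Lib.MP_94aef8_gt

variable {P : Par} {A : Arith P.K}

/-- The part of the cusp between the thick part and the tube. -/
def MD.Cu (D : MD P A) (c : A.C) : Set D.M :=
  D.pO c '' (cell P.K ∩ {p | p 3 ∈ Ioc (59 / 20) (P.yw P.l)})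

variable {D : MD P A} {C C' : ℝ}

theorem bj3b_sub (hP : P.Ok) : cell P.K ∩ {p | p 3 ∈ Ioc (59 / 20) (P.yw P.l)} ⊆ P.UO :=
  fun p hp => hP.yw_l.2 p (lt_trans (by norm_num) hp.2.1) hp.2.2

theorem bj3b_meas (P : Par) : MeasurableSet (cell P.K ∩ {p | p 3 ∈ Ioc (59 / 20) (P.yw P.l)}) :=
  (measurableSet_cell _).inter ((aom_cd 3).continuous.measurable measurableSet_Ioc)

theorem MD.meas_Cu (D : MD P A) (hP : P.Ok) (c : A.C) : MeasurableSet (D.Cu c) :=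
  (D.ptO c).measurableSet_image (bj3b_meas P) (bj3b_sub hP)

/-- `pO_high`. -/
theorem MD.disj_Cu (D : MD P A) (hP : P.Ok) : Pairwise fun c c' => Disjoint (D.Cu c) (D.Cu c') := by
  intro c c' h
  refine Set.disjoint_left.2 ?_
  rintro _ ⟨p, hp, rfl⟩ ⟨p', hp', e⟩
  refine h (D.pO_high (bj3b_sub hP hp) (bj3b_sub hP hp') ?_ e.symm).1
  have h1 : 59 / 20 < p 3 := hp.2.1
  have h2 : 59 / 20 < p' 3 := hp'.2.1
  nlinarith

/-- `pO_high`, `1 < 17 / 50 * (59 / 20)`. -/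
theorem MD.disj_Hs_Cu (D : MD P A) (hP : P.Ok) : Disjoint D.Hs (⋃ c, D.Cu c) := by
  refine Set.disjoint_left.2 fun m h h' => ?_
  obtain ⟨c, p, ⟨h1, h2⟩, rfl⟩ := mem_iUnion.1 h
  obtain ⟨c', p', hp', e⟩ := mem_iUnion.1 h'
  have h3 : 59 / 20 < p' 3 := hp'.2.1
  have h4 := hP.δ0
  have h5 := hP.δ1
  obtain ⟨-, v, rfl⟩ := D.pO_high (hP.mem_UO h1 (by nlinarith)) (bj3b_sub hP hp') (by nlinarith)
    e.symm
  rw [trl_three] at h3
  linarith

/-- `cov_Tb`, `exists_trl_cell`, `pO_trl`. -/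
theorem MD.rest_sub (D : MD P A) (hP : P.Ok) : (D.Hs ∪ ⋃ c, D.Cu c)ᶜ ⊆ D.Tb (2 * P.l) := by
  intro m hm
  refine (D.cov_Tb hP m).resolve_left ?_
  rintro ⟨c, p, h1, h2, rfl⟩
  refine hm ?_
  rcases le_or_gt (p 3) (59 / 20) with h | h
  · exact Or.inl (mem_iUnion.2 ⟨c, p, ⟨by linarith, h⟩, rfl⟩)
  · obtain ⟨v, hv⟩ := exists_trl_cell (K := P.K) (Nat.cast_pos.2 hP.K0) p
    exact Or.inr (mem_iUnion.2 ⟨c, _, ⟨hv, h, h2⟩,
      D.pO_trl c v (hP.yw_l.2 p (by linarith) h2)⟩)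

/-- For `4 < y` the function `vO` is `1 - δ ^ 3 y ^ 3` near `y`. -/
theorem Par.vO_high (P : Par) {y : ℝ} (hy : 4 < y) :
    P.vO y = 1 - (P.δ * y) ^ 3 ∧ deriv P.vO y = -(3 * P.δ ^ 3 * y ^ 2) := by
  have h : ∀ t, 4 < t → P.vO t = 1 - (P.δ * t) ^ 3 := fun t ht => by
    rw [Par.vO, smoothTransition.one_of_one_le (by linarith), one_mul]
  have e : P.vO =ᶠ[𝓝 y] fun t => 1 - (P.δ * t) ^ 3 := (lt_mem_nhds hy).mono h
  refine ⟨h y hy, ?_⟩
  rw [e.deriv_eq, ((((hasDerivAt_id' y).const_mul P.δ).fun_pow 3).const_sub 1).deriv]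
  simp only [Nat.cast_ofNat, Nat.add_one_sub_one]
  ring

/-- `Pt.int_eq`, `pO_inj_high`, `gO`, `rho_GO`, `scal_slab`, `int_cell`,
`intervalIntegral.integral_eq_sub_of_hasDerivAt` with `hasDerivAt_scal` (the derivative is
continuous on the interval by `vO_smooth`), `vO_low`, `vO_high`. -/
theorem AP.int_Cu (X : AP D) (hP : P.Ok) (c : A.C) : ∫ x in D.Cu c, X.u x ∂volT X.g =
    P.K ^ 3 * (2 / P.yw P.l ^ 3 - P.δ ^ 3 - 2 / (59 / 20) ^ 3) := by
  have hy := hP.yw_l.1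
  have hab : (59 / 20 : ℝ) ≤ P.yw P.l := by linarith
  have h0 : ∀ t ∈ uIcc (59 / 20 : ℝ) (P.yw P.l), t ≠ 0 := fun t ht => by
    rw [uIcc_of_le hab] at ht
    linarith [ht.1]
  have h1 : ContDiff ℝ ∞ (deriv P.vO) := (contDiff_infty_iff_deriv.1 P.vO_smooth).2
  have h2 := (contDiff_infty_iff_deriv.1 h1).2.continuous
  have h3 := h1.continuous
  have h4 := P.vO_smooth.continuous
  have hi : InjOn (D.pO c) (cell P.K ∩ {p | p 3 ∈ Ioc (59 / 20) (P.yw P.l)}) :=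
    (D.pO_inj_high c).mono fun p hp =>
      mem_inter hp.1 (And.intro (bj3b_sub hP hp) (lt_trans (by norm_num) hp.2.1))
  rw [MD.Cu, (D.ptO c).int_eq (bj3b_meas P) (bj3b_sub hP) hi X.good X.continuous_u.measurable,
    setIntegral_congr_fun (bj3b_meas P) (g := fun p : E4 => (fun y : ℝ =>
      (-(y ^ 2 * deriv (deriv P.vO) y) + 6 * y * deriv P.vO y - 12 * P.vO y + 6) * (y ^ 4)⁻¹)
        (p 3)) fun p hp => by
      have hp' := bj3b_sub hP hp
      simp only [AP.u]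
      rw [rho_eq_of_eq (X.gO c p hp'), hP.rho_GO hp', X.scal_slab hP c hp', mul_comm],
    int_cell (Nat.cast_nonneg _) measurableSet_Ioc fun y : ℝ =>
      (-(y ^ 2 * deriv (deriv P.vO) y) + 6 * y * deriv P.vO y - 12 * P.vO y + 6) * (y ^ 4)⁻¹,
    ← intervalIntegral.integral_of_le hab,
    intervalIntegral.integral_eq_sub_of_hasDerivAt (fun t ht => P.hasDerivAt_scal (h0 t ht))
      (ContinuousOn.intervalIntegrable (ContinuousOn.mul (by fun_prop)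
        (ContinuousOn.inv₀ (by fun_prop) fun t ht => pow_ne_zero _ (h0 t ht)))),
    (P.vO_high hy).1, (P.vO_high hy).2, (P.vO_low (y := 59 / 20) (by norm_num)).1,
    (P.vO_low (y := 59 / 20) (by norm_num)).2.1]
  have h5 : P.yw P.l ≠ 0 := by linarith
  field_simp
  ring

/-- `1 / yw l = δ (1 + 3 δ ^ 2)`. -/
theorem Par.Ok.yw_cube (hP : P.Ok) : |2 / P.yw P.l ^ 3 - 2 * P.δ ^ 3| ≤ P.δ ^ 4 := by
  have h0 := hP.δ0
  have h1 := hP.δ1
  have e : 2 / P.yw P.l ^ 3 - 2 * P.δ ^ 3 =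
      P.δ ^ 4 * (P.δ * (18 + 54 * P.δ ^ 2 + 54 * (P.δ ^ 2) ^ 2)) := by
    rw [Par.yw, Par.l]
    field_simp
    ring
  have h2 : P.δ ^ 2 ≤ 1 := by nlinarith
  have h3 : (P.δ ^ 2) ^ 2 ≤ P.δ ^ 2 := by nlinarith [sq_nonneg P.δ]
  have h4 : P.δ ^ 2 ≤ 1 / 100 := by nlinarith
  rw [e, abs_of_nonneg (by positivity)]
  exact mul_le_of_le_one_right (by positivity) (by nlinarith)

/-- `GE = GRic + 3 g`, `g⁻¹ g = 1`. -/
theorem AP.u_eq (X : AP D) (x : D.M) : X.u x = trg X.g (GE X.g) x - 6 := by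
  have h : IsUnit (X.g x).det := (X.good.pos x).det_pos.ne'.isUnit
  rw [AP.u, trg, trg, GE, Matrix.mul_add, Matrix.mul_smul, Matrix.nonsing_inv_mul _ h,
    Matrix.trace_add, Matrix.trace_smul, Matrix.trace_one]
  simp only [Fintype.card_fin, Nat.cast_ofNat, smul_eq_mul]
  ring

theorem bj3b_num {C C' n K δ ϱ B V W : ℝ} (hC : 1 ≤ C) (h0 : 0 ≤ C') (hn : 0 ≤ n) (hK : 4 ≤ K)
    (hδ : 0 < δ) (hδ1 : δ ≤ 1 / 100) (hϱ : 0 < ϱ) (hϱ1 : ϱ ≤ K ^ 2 * δ ^ 2) (hB : 0 ≤ B)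
    (hB1 : B * ϱ ≤ 2 * K ^ 2 * δ) (hV : V ≤ 20000 * C * (n * K) * ((2 * (2 * δ)) ^ 3 * ϱ))
    (hW : W ≤ 20000 * C * (n * K) * ((3 * ϱ) ^ 3 * ϱ)) :
    (C' * (500 * K ^ 2 / δ) + 6) * V + C' * (B / ϱ) * W ≤
      10 ^ 9 * C * (C' + 1) * (n * K ^ 7) * δ ^ 4 := by
  have hK1 : 1 ≤ K := by linarith
  have a1 : V ≤ 20000 * C * (n * K) * ((2 * (2 * δ)) ^ 3 * (K ^ 2 * δ ^ 2)) :=
    hV.trans (by gcongr)
  have a2 : (C' * (500 * K ^ 2 / δ) + 6) * V ≤
      (640000000 * C' * K ^ 5 + 7680000 * (δ * K ^ 3)) * (C * n * δ ^ 4) := by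
    refine (mul_le_mul_of_nonneg_left a1 (by positivity)).trans (le_of_eq ?_)
    field_simp
    ring
  have a3 : C' * (B / ϱ) * W ≤ 540000 * C' * K * (B * ϱ * ϱ ^ 2) * (C * n) := by
    refine (mul_le_mul_of_nonneg_left hW (by positivity)).trans (le_of_eq ?_)
    field_simp
    ring
  have a4 : 540000 * C' * K * (B * ϱ * ϱ ^ 2) * (C * n) ≤
      540000 * C' * K * (2 * K ^ 2 * δ * (K ^ 2 * δ ^ 2) ^ 2) * (C * n) := by gcongr
  have a5 : K ^ 5 ≤ K ^ 7 := pow_le_pow_right₀ hK1 (by norm_num)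
  have a6 : δ * K ^ 3 ≤ 1 * K ^ 7 :=
    mul_le_mul (by linarith) (pow_le_pow_right₀ hK1 (by norm_num)) (by positivity) zero_le_one
  have a7 : C' * K ^ 5 ≤ C' * K ^ 7 := by gcongr
  have a8 : δ * (C' * K ^ 7) ≤ 1 * (C' * K ^ 7) :=
    mul_le_mul_of_nonneg_right (by linarith) (by positivity)
  have a9 : 640000000 * C' * K ^ 5 + 7680000 * (δ * K ^ 3) + 1080000 * (δ * (C' * K ^ 7)) ≤
      10 ^ 9 * (C' + 1) * K ^ 7 := by
    have : 0 ≤ C' * K ^ 7 := by positivity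
    have : 0 ≤ K ^ 7 := by positivity
    linarith
  have a10 := mul_le_mul_of_nonneg_right a9 (show 0 ≤ C * n * δ ^ 4 by positivity)
  linarith

/-- `|∫ S, u| ≤ ∫ S.indicator |u|`, `int_le_steps` with `a = 0`, `Tb (2 l)` and `{s ≤ 3 ϱ}`;
`eta_le`, `vol_Tb`, `vol_small`, `rho_le_sq`, `sizes`. -/
theorem AP.int_rest (X : AP D) (hP : P.Geom) (hC : P.RhoT C) (h0 : 0 ≤ C')
    (h : ∀ m, |trg X.g (GE X.g) m| ≤ C' * (P.eta (X.s m) / X.s m ^ 2)) {S : Set D.M}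
    (hS : MeasurableSet S) (hT : S ⊆ D.Tb (2 * P.l)) : |∫ x in S, X.u x ∂volT X.g| ≤
      10 ^ 9 * C * (C' + 1) * (Nat.card A.C * P.K ^ 7) * P.δ ^ 4 := by
  have := X.good.finite
  have hO := hP.toOk
  have h1 := hO.l_pos
  have h2 := hO.rho_le
  have h3 := hO.ϱ0
  have h4 := hO.δ0
  have h5 := hP.B_nonneg
  have key := int_le_steps (volT X.g) (f := S.indicator fun x => |X.u x|) (a := 0)
    (b := C' * (500 * P.K ^ 2 / P.δ) + 6) (c := C' * (P.B / P.ϱ)) (D.meas_Tb hO (2 * P.l))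
    (T := {m | X.s m ≤ 3 * P.ϱ}) (isClosed_le X.scont continuous_const).measurableSet
    (fun x => indicator_nonneg (fun _ _ => abs_nonneg _) x) fun x => by
      by_cases hx : x ∈ S
      · have h6 := (h x).trans
          (mul_le_mul_of_nonneg_left (hP.eta_le (X.rho_le_s hP x).1) h0)
        have h7 : |X.u x| ≤ |trg X.g (GE X.g) x| + 6 := by
          rw [X.u_eq]
          exact (abs_sub _ _).trans (by norm_num)
        rw [indicator_of_mem hx, indicator_of_mem (hT hx)]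
        by_cases hs : X.s x ≤ 3 * P.ϱ
        · rw [if_pos hs] at h6
          rw [indicator_of_mem (s := {m | X.s m ≤ 3 * P.ϱ}) hs]
          linarith
        · rw [if_neg hs] at h6
          rw [indicator_of_notMem (s := {m | X.s m ≤ 3 * P.ϱ}) hs]
          linarith
      · rw [indicator_of_notMem hx, zero_add]
        exact add_nonneg (indicator_nonneg (fun _ _ => by positivity) x)
          (indicator_nonneg (fun _ _ => by positivity) x)
  rw [integral_indicator hS, zero_mul, zero_add] at key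
  refine (abs_integral_le_integral_abs.trans key).trans ?_
  exact bj3b_num hC.1 h0 (Nat.cast_nonneg _) (Par.anum_K hO) h4 hO.δ1 h3 hP.rho_le_sq h5 hP.sizes.2
    (X.vol_Tb hO hC (by linarith)) (X.vol_small hO hC (by linarith) (by linarith))

/-- `integral_add_compl`, `setIntegral_union`, `integral_iUnion_fintype`. -/
theorem AP.total (X : AP D) (hP : P.Geom) (hC : P.RhoT C) (h0 : 0 ≤ C')
    (h : ∀ m, |trg X.g (GE X.g) m| ≤ C' * (P.eta (X.s m) / X.s m ^ 2)) {N : ℕ} {κ : Fin N → A.C}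
    {B : Fin N → Set E4} (hB : A.Pcs κ B) :
    |1 / 6 * (∫ x, X.u x ∂volT X.g) + (A.volH κ B + Nat.card A.C * P.K ^ 3 / (3 * (59 / 20) ^ 3)) -
        Nat.card A.C * P.K ^ 3 / 6 * P.δ ^ 3| ≤
      (10 ^ 9 * C * (C' + 1) * (Nat.card A.C * P.K ^ 7) + Nat.card A.C * P.K ^ 3) * P.δ ^ 4 := by
  have := A.fin
  have := Fintype.ofFinite A.C
  have hO := hP.toOk
  have m1 : MeasurableSet (⋃ c, D.Cu c) := MeasurableSet.iUnion (D.meas_Cu hO)
  have m2 := (D.meas_Hs hO).union m1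
  have h1 := X.int_rest hP hC h0 h m2.compl (D.rest_sub hO)
  have h2 := integral_add_compl m2 X.integrable_u
  rw [setIntegral_union (D.disj_Hs_Cu hO) m1 X.integrable_u.integrableOn
      X.integrable_u.integrableOn, X.int_Hs hO hB,
    integral_iUnion_fintype (D.meas_Cu hO) (D.disj_Cu hO) fun _ => X.integrable_u.integrableOn,
    Finset.sum_congr rfl fun c _ => X.int_Cu hO c, Finset.sum_const, Finset.card_univ,
    ← Nat.card_eq_fintype_card, nsmul_eq_mul] at h2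
  have h3 := mul_le_mul_of_nonneg_left hO.yw_cube
    (show (0 : ℝ) ≤ Nat.card A.C * P.K ^ 3 by positivity)
  rw [← abs_of_nonneg (show (0 : ℝ) ≤ Nat.card A.C * P.K ^ 3 by positivity), ← abs_mul,
    abs_of_nonneg (show (0 : ℝ) ≤ Nat.card A.C * P.K ^ 3 by positivity)] at h3
  have h4 := (abs_nonneg _).trans h1
  have h5 := (abs_nonneg _).trans h3
  have e : (Nat.card A.C * P.K ^ 3 / (3 * (59 / 20) ^ 3) : ℝ) =
      1 / 6 * (Nat.card A.C * (P.K ^ 3 * (2 / (59 / 20) ^ 3))) := by ring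
  rw [← h2, e]
  generalize (2 / (59 / 20) ^ 3 : ℝ) = t
  generalize 2 / P.yw P.l ^ 3 = Y at h3 ⊢
  rw [abs_le] at h1 h3 ⊢
  constructor <;> linarith [h1.1, h1.2, h3.1, h3.2]

end Pool.Agent.Lib.MP_94aef8_gt
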