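import Pool.Agent.Lib.MP_94aef8_gt.J.BChain

/-! Periodic charts. -/

open scoped Manifold ContDiff Topology ENNReal
open Matrix Filter Set MeasureTheory Real

namespace Pool.Agent.Lib.MP_94aef8_gt

variable {M : Type} [TopologicalSpace M] [ChartedSpace E4 M] [MeasurableSpace M]

/-- A chart `θ` on `W`, periodic under `V`, with volume density comparable to `m`; on `D ∩ W` it
has bounded multiplicity and its values lie in `Z`. -/
structure PC (g : M → Mat) (θ : E4 → M) (V D W : Set E4) (m : E4 → ℝ) (c : ℝ) (Z : Set M) :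
    Prop where
  meas : MeasurableSet W
  inv : InvS V W
  per : ∀ v ∈ V, ∀ x ∈ W, θ (x + v) = θ x
  measm : Measurable m
  invm : InvF V m
  cpos : 0 ≤ c
  am : ∀ F : M → ℝ≥0∞, Measurable F → Measurable (W.indicator fun x => F (θ x))
  lo : ∀ S, MeasurableSet S → S ⊆ W → ∀ F : M → ℝ≥0∞, Measurable F →
    ∫⁻ x in θ '' S, F x ∂volT g ≤ ENNReal.ofReal c * ∫⁻ x in S, F (θ x) * ENNReal.ofReal (m x)
  up : ∀ F : M → ℝ≥0∞, Measurable F → ∫⁻ x in D ∩ W, F (θ x) * ENNReal.ofReal (m x) ≤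
    ENNReal.ofReal c * ∫⁻ x in Z, F x ∂volT g

variable {g : M → Mat} {θ : E4 → M} {U V D W W₁ Wc : Set E4} {m : E4 → ℝ} {c c' : ℝ} {Z : Set M}

theorem bpc_mul {S : Set E4} (hS : MeasurableSet S) {u w : E4 → ℝ} (hc : 0 ≤ c)
    (h : ∀ x ∈ S, u x ≤ c * w x) (f : E4 → ℝ≥0∞) :
    ∫⁻ x in S, f x * ENNReal.ofReal (u x) ≤
      ENNReal.ofReal c * ∫⁻ x in S, f x * ENNReal.ofReal (w x) := by
  rw [← lintegral_const_mul' _ _ ENNReal.ofReal_ne_top]
  refine setLIntegral_mono' hS fun x hx => ?_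
  rw [mul_left_comm, ← ENNReal.ofReal_mul hc]
  exact mul_le_mul_right (ENNReal.ofReal_le_ofReal (h x hx)) _

/-- `am`: `ContinuousOn.measurable_piecewise` or `measurable_of_restrict_of_restrict_compl`
(`Pt.continuousOn`). `lo`: `Pt.lint_le`. `up`: `D ∩ W ⊆ ⋃ i, B i ∩ (D ∩ W)`, `lintegral_iUnion_le`,
`Pt.lint_eq` on every piece, `lintegral_mono_set`. -/
theorem PC.of_pieces [IsManifold (𝓡 4) ∞ M] [BorelSpace M] (hθ : Pt θ U) (hg : GoodT g)
    (hD : MeasurableSet D) (hW : MeasurableSet W) (hU : W ⊆ U) (hi : InvS V W)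
    (hp : ∀ v ∈ V, ∀ x ∈ W, θ (x + v) = θ x) (hm : Measurable m) (hmi : InvF V m) (hc : 0 ≤ c)
    (hρ : ∀ x ∈ W, rho (gpull θ g) x ≤ c * m x ∧ m x ≤ c * rho (gpull θ g) x)
    {ι : Type} [Fintype ι] (B : ι → Set E4) (hB : ∀ i, MeasurableSet (B i))
    (hBi : ∀ i, InjOn θ (B i ∩ (D ∩ W))) (hcov : ∀ x ∈ D ∩ W, ∃ i, x ∈ B i)
    (hZ : ∀ x ∈ D ∩ W, θ x ∈ Z) : PC g θ V D W m (c * (Fintype.card ι + 1)) Z := by
  have hn : (0 : ℝ) ≤ Fintype.card ι := Nat.cast_nonneg _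
  refine ⟨hW, hi, hp, hm, hmi, by positivity, fun F hF => ?_, fun S hS hSW F hF => ?_,
    fun F hF => ?_⟩
  · refine measurable_of_restrict_of_restrict_compl hW ?_ ?_
    · have e : W.domRestrict (W.indicator fun x => F (θ x)) = F ∘ W.domRestrict θ :=
        funext fun x => indicator_of_mem x.2 _
      rw [e]
      exact hF.comp (hθ.continuousOn.mono hU).domRestrict.measurable
    · have e : Wᶜ.domRestrict (W.indicator fun x => F (θ x)) = fun _ => 0 :=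
        funext fun x => indicator_of_notMem x.2 _
      rw [e]
      exact measurable_const
  · refine (hθ.lint_le hS (hSW.trans hU) hg hF).trans ?_
    simp only [mul_comm _ (F _)]
    exact (bpc_mul hS hc (fun x hx => (hρ x (hSW hx)).1) _).trans
      (mul_le_mul_left (ENNReal.ofReal_le_ofReal (by nlinarith)) _)
  · have h1 : ∀ i, ∫⁻ x in B i ∩ (D ∩ W), F (θ x) * ENNReal.ofReal (m x) ≤
        ENNReal.ofReal c * ∫⁻ x in Z, F x ∂volT g := fun i => by
      have h2 := (hB i).inter (hD.inter hW)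
      refine (bpc_mul h2 hc (fun x hx => (hρ x hx.2.2).2) _).trans (mul_le_mul_right ?_ _)
      simp only [mul_comm (F _)]
      rw [← hθ.lint_eq h2 (fun x hx => hU hx.2.2) (hBi i) hg hF]
      exact lintegral_mono_set (image_subset_iff.2 fun x hx => hZ x hx.2)
    refine ((lintegral_mono_set (t := ⋃ i, B i ∩ (D ∩ W)) fun x hx =>
      mem_iUnion.2 ((hcov x hx).imp fun i h => ⟨h, hx⟩)).trans (lintegral_iUnion_le _ _)).trans ?_
    rw [tsum_fintype]
    refine (Finset.sum_le_card_nsmul _ _ _ fun i _ => h1 i).trans ?_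
    rw [nsmul_eq_mul, ← mul_assoc, Finset.card_univ, ← ENNReal.ofReal_natCast,
      ← ENNReal.ofReal_mul hn]
    exact mul_le_mul_left (ENNReal.ofReal_le_ofReal (by nlinarith)) _

/-- One piece. -/
theorem PC.of_inj [IsManifold (𝓡 4) ∞ M] [BorelSpace M] (hθ : Pt θ U) (hg : GoodT g)
    (hD : MeasurableSet D) (hW : MeasurableSet W) (hU : W ⊆ U) (hi : InvS V W)
    (hp : ∀ v ∈ V, ∀ x ∈ W, θ (x + v) = θ x) (hm : Measurable m) (hmi : InvF V m) (hc : 0 ≤ c)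
    (hρ : ∀ x ∈ W, rho (gpull θ g) x ≤ c * m x ∧ m x ≤ c * rho (gpull θ g) x)
    (hBi : InjOn θ (D ∩ W)) (hZ : ∀ x ∈ D ∩ W, θ x ∈ Z) : PC g θ V D W m (c * 2) Z := by
  have h := PC.of_pieces hθ hg hD hW hU hi hp hm hmi hc hρ (fun _ : Unit => univ)
    (fun _ => MeasurableSet.univ) (fun _ => hBi.mono inter_subset_right)
    (fun _ _ => ⟨(), mem_univ _⟩) hZ
  rwa [Fintype.card_unit, Nat.cast_one, one_add_one_eq_two] at h

theorem bpc_inv (H : PC g θ V D W m c Z) (F : M → ℝ≥0∞) :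
    InvF V (W.indicator fun x => F (θ x)) := by
  intro v hv x
  by_cases hx : x ∈ W
  · rw [indicator_of_mem hx, indicator_of_mem ((H.inv v hv x).2 hx), H.per v hv x hx]
  · rw [indicator_of_notMem hx, indicator_of_notMem fun h => hx ((H.inv v hv x).1 h)]

theorem bpc_Q {a : Fin 4 → ℝ} {q : E4} {r : ℝ} (ha : ∀ i, 0 < a i) (hW : bx q a r ⊆ W)
    (f : E4 → ℝ≥0∞) : ∫⁻ p in Q r, W.indicator f (dg a q p) = ∫⁻ p in Q r, f (dg a q p) := by
  have e : Q r = bx 0 (fun _ => 1) r := by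
    ext p
    simp [Q, bx]
  exact setLIntegral_congr_fun (e ▸ (isOpen_bx _ _ _).measurableSet) fun p hp =>
    indicator_of_mem (hW ((dg_mem ha).2 hp)) _

theorem bpc_ind {S : Set E4} (hS : MeasurableSet S) (h : S ⊆ W) (f u : E4 → ℝ≥0∞) :
    ∫⁻ x in S, W.indicator f x * u x = ∫⁻ x in S, f x * u x :=
  setLIntegral_congr_fun hS fun x hx => by rw [indicator_of_mem (h hx)]

/-- `θ '' W₁ = θ '' (D ∩ W₁)` (`FD.cov`, `Slow.sub`); `Slow.chain` for the functions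
`W.indicator fun x => F (θ x)`. -/
theorem PC.chain {a : E4 → Fin 4 → ℝ} (H : PC g θ V D W m c univ) (hD : FD V D)
    (hS : Slow V W₁ Wc W a m c') {F₁ F₂ : M → ℝ≥0∞} (h₁ : Measurable F₁) (h₂ : Measurable F₂)
    {L : ℝ≥0∞} (h : ∀ q ∈ Wc,
      ∫⁻ p in Q 1, F₁ (θ (dg (a q) q p)) ≤ L * ∫⁻ p in Q 2, F₂ (θ (dg (a q) q p))) :
    ∫⁻ x in θ '' W₁, F₁ x ∂volT g ≤
      ENNReal.ofReal (2 ^ 20 * c' ^ 2 * c ^ 2) * L * ∫⁻ x, F₂ x ∂volT g := by
  have s1 : θ '' W₁ ⊆ θ '' (D ∩ W₁) := by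
    rintro _ ⟨x, hx, rfl⟩
    obtain ⟨v, hv, h3⟩ := hD.cov x
    exact ⟨x + v, ⟨h3, (hS.inv₁ v hv x).2 hx⟩, H.per v hv x (hS.sub hx)⟩
  have m1 := hD.meas.inter hS.meas₁
  have s2 : D ∩ W₁ ⊆ W := inter_subset_right.trans hS.sub
  have h3 := hS.chain hD H.meas H.measm H.invm (H.am F₁ h₁) (H.am F₂ h₂) (bpc_inv H F₁)
    (bpc_inv H F₂) (L := L) fun q hq => by
      have ha := (hS.pos q hq).1
      have h4 : bx q (a q) 2 ⊆ W := fun x hx => (hS.out q hq x hx).1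
      rw [bpc_Q ha h4, bpc_Q ha ((bx_mono (fun i => (ha i).le) one_le_two).trans h4)]
      exact h q hq
  rw [bpc_ind m1 s2, bpc_ind (hD.meas.inter H.meas) inter_subset_right] at h3
  have h5 := H.up F₂ h₂
  rw [Measure.restrict_univ] at h5
  refine ((lintegral_mono_set s1).trans (H.lo _ m1 s2 F₁ h₁)).trans
    ((mul_le_mul_right (h3.trans (mul_le_mul_right h5 _)) _).trans (le_of_eq ?_))
  rw [ENNReal.ofReal_mul (p := 2 ^ 20 * c' ^ 2) (by positivity), ENNReal.ofReal_pow H.cpos]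
  ring

/-- `lint_dg`, then `lint_le_card` for `W.indicator (fun x => F (θ x)) * ofReal (m x)`. -/
theorem PC.mult {a : Fin 4 → ℝ} {q : E4} {m0 N C : ℝ} (H : PC g θ V D W m c Z)
    (hD : MeasurableSet D) (ha : ∀ i, 0 < a i) (hW : bx q a 2 ⊆ W) (t : Finset E4)
    (ht : ∀ v ∈ t, v ∈ V) (hS : ∀ x ∈ bx q a 2, ∃ v ∈ t, x + v ∈ D) (hN : (t.card : ℝ) ≤ N)
    (h0 : 0 < m0) (hm : ∀ x ∈ bx q a 2, m0 ≤ m x) (hC : c * N / (m0 * ∏ i, a i) ≤ C)
    {F : M → ℝ≥0∞} (hF : Measurable F) :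
    ∫⁻ p in Q 2, F (θ (dg a q p)) ≤ ENNReal.ofReal C * ∫⁻ x in Z, F x ∂volT g := by
  have hP : 0 < ∏ i, a i := Finset.prod_pos fun i _ => ha i
  have hc := H.cpos
  have h1 := bpc_mul (isOpen_bx q a 2).measurableSet (u := fun _ => 1) (inv_pos.2 h0).le
    (fun x hx => (le_inv_mul_iff₀ h0).2 ((mul_one m0).le.trans (hm x hx)))
    (W.indicator fun x => F (θ x))
  simp only [ENNReal.ofReal_one, mul_one] at h1
  have h2 := lint_le_card hD t ht hS ((H.am F hF).mul H.measm.ennreal_ofReal) fun v hv x => by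
    simp only [Pi.mul_apply, bpc_inv H F v hv x, H.invm v hv x]
  simp only [Pi.mul_apply] at h2
  have h3 : ∫⁻ x in D, W.indicator (fun x => F (θ x)) x * ENNReal.ofReal (m x) =
      ∫⁻ x in D ∩ W, F (θ x) * ENNReal.ofReal (m x) := by
    rw [inter_comm, ← setLIntegral_indicator H.meas]
    exact lintegral_congr fun x => (indicator_mul_left W (fun x => F (θ x))
      fun x => ENNReal.ofReal (m x)).symm
  rw [h3] at h2
  rw [← bpc_Q ha hW fun x => F (θ x), lint_dg q 2 ha (H.am F hF)]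
  refine (mul_le_mul_right (h1.trans (mul_le_mul_right (h2.trans
    (mul_le_mul_right (H.up F hF) _)) _)) _).trans ?_
  rw [← mul_assoc, ← mul_assoc, ← mul_assoc, ← ENNReal.ofReal_natCast,
    ← ENNReal.ofReal_mul (by positivity), ← ENNReal.ofReal_mul (by positivity),
    ← ENNReal.ofReal_mul (by positivity)]
  refine mul_le_mul_left (ENNReal.ofReal_le_ofReal (le_trans ?_ hC)) _
  calc _ = c * t.card / (m0 * ∏ i, a i) := by field_simp
    _ ≤ _ := by gcongr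

end Pool.Agent.Lib.MP_94aef8_gt
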