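import Pool.Agent.Lib.MP_94aef8_gt.J.BF2
import Pool.Agent.Lib.MP_94aef8_gt.J.BF3
import Pool.Agent.Lib.MP_94aef8_gt.J.BF4
import Pool.Agent.Lib.MP_94aef8_gt.J.AF12
import Pool.Agent.Lib.MP_94aef8_gt.J.AF3b

/-! The system of good patches. -/

open scoped Manifold ContDiff Topology ENNReal
open Matrix Filter Set MeasureTheory Real

namespace Pool.Agent.Lib.MP_94aef8_gt

theorem GoodB.mono {C C' : ℝ} {G : Tn} (h : GoodB C G) (hC : C ≤ C') : GoodB C' G :=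
  ⟨h.good, fun y hy v => (h.ell y hy v).trans (mul_le_mul_of_nonneg_right hC (by
      simpa using (h.good.pos y hy).posSemidef.dotProduct_mulVec_nonneg v)),
    fun a b w hw y hy => (h.bdd a b w hw y hy).trans hC⟩

theorem GPt.mono {M : Type} [TopologicalSpace M] [ChartedSpace E4 M] {g : M → Mat} {s : M → ℝ}
    {C C' σ : ℝ} {Θ : E4 → M} (h : GPt g s C Θ σ) (hs : ∀ x, 0 ≤ s x) (hC : C ≤ C') :
    GPt g s C' Θ σ :=
  ⟨h.pt, h.σpos, h.σle, h.good.mono hC,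
    fun y hy => (h.sle y hy).trans (mul_le_mul_of_nonneg_right hC h.σpos.le),
    fun y hy => (h.sge y hy).trans (mul_le_mul_of_nonneg_right hC (hs _))⟩

/-- `lintegral_iUnion_le`, `tsum_fintype`. -/
theorem lint_fin_le {M ι : Type} [MeasurableSpace M] [Finite ι] (μ : Measure M) (S : ι → Set M)
    (F : M → ℝ≥0∞) {c : ℝ} (hc : 0 ≤ c) {I : ℝ≥0∞}
    (h : ∀ i, ∫⁻ x in S i, F x ∂μ ≤ ENNReal.ofReal c * I) :
    ∫⁻ x in ⋃ i, S i, F x ∂μ ≤ ENNReal.ofReal (Nat.card ι * c) * I := by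
  have := Fintype.ofFinite ι
  refine (lintegral_iUnion_le S F).trans ?_
  rw [tsum_fintype]
  refine (Finset.sum_le_sum fun i _ => h i).trans_eq ?_
  rw [Finset.sum_const, Finset.card_univ, nsmul_eq_mul, ENNReal.ofReal_mul (Nat.cast_nonneg _),
    ENNReal.ofReal_natCast, Nat.card_eq_fintype_card, mul_assoc]

variable {P : Par} {A : Arith P.K} {D : MD P A} {N : ℕ} {κ : Fin N → A.C} {B : Fin N → Set E4}
  {C : ℝ}

/-- `MD.cov`, `T1_zero`, `T2_zero`, `T3_zero`, `T4_zero`. -/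
theorem MD.th_onto (D : MD P A) (hP : P.Ok) (m : D.M) : ∃ a, D.Th a 0 = m := by
  have hl := hP.l_pos
  have hϱ := hP.ϱ0
  rcases D.cov hP m with ⟨c, p, h1, h2, rfl⟩ | ⟨c, p, w, h1, h2, h3, rfl⟩ |
    ⟨c, j, x, h1, h2, h3, rfl⟩ | ⟨c, j, e, z, h1, h2, rfl⟩
  · refine ⟨.f1 c ⟨p, by linarith, by linarith⟩, ?_⟩
    show D.pO c (P.T1 p 0) = _
    rw [P.T1_zero]
  · refine ⟨.f2 c ⟨mk4 (p 0) (p 1) (p 2) w, ?_, ?_⟩, ?_⟩
    · show 9 / 10 * P.l ≤ w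
      linarith
    · show w ≤ 5 / 4
      linarith
    · show D.pO c (P.T2 (mk4 (p 0) (p 1) (p 2) w) 0) = _
      rw [P.T2_zero]
      exact congrArg _ (ext_4 rfl rfl rfl h3.symm)
  · refine ⟨.f3 c j ⟨x, by nlinarith, by linarith, by linarith⟩, ?_⟩
    show D.pT c j (T3 x 0) = _
    rw [T3_zero]
  · refine ⟨.f4 c j e ⟨z, by linarith, by linarith⟩, ?_⟩
    show D.pN c j e (T4 z 0) = _
    rw [T4_zero]

/-- `cov_fin`, `lintegral_union_le`, `lint_fin_le` over `A.C`, `A.C × Fin (K / 2)`,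
`A.C × Fin (K / 2) × ℤˣ` (`A.fin`, `Nat.card ℤˣ = 2`), `chain1` to `chain4`. -/
theorem AP.chain (X : AP D) (hP : P.Ok) (hB : A.Pcs κ B) (hC : P.RhoT C) {F₁ F₂ : D.M → ℝ≥0∞}
    (h₁ : Measurable F₁) (h₂ : Measurable F₂) {L : ℝ≥0∞} (h : D.Hyp F₁ F₂ L) :
    ∫⁻ x, F₁ x ∂volT X.g ≤ ENNReal.ofReal (Nat.card A.C *
      (2 ^ 22 * (N + 2) ^ 2 + 2 ^ 30 + P.K * (2 ^ 22 * C ^ 2) + P.K * 2 ^ 38)) * L *
        ∫⁻ x, F₂ x ∂volT X.g := by
  have := A.fin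
  have hcov : (univ : Set D.M) ⊆ (((⋃ c : A.C, (D.pO c ∘ P.T0 0) '' P.W1) ∪
      ⋃ c : A.C, (D.pO c ∘ P.Y2) '' P.W2) ∪
      ⋃ i : A.C × Fin (P.K / 2), D.pT i.1 (i.2 : ℕ) '' P.W3) ∪
      ⋃ i : A.C × Fin (P.K / 2) × ℤˣ, D.pN i.1 (i.2.1 : ℕ) i.2.2 '' W4 := by
    intro m _
    rcases D.cov_fin hP m with ⟨c, h1⟩ | ⟨c, h1⟩ | ⟨c, j, h1⟩ | ⟨c, j, e, h1⟩
    · exact Or.inl (Or.inl (Or.inl (mem_iUnion.2 ⟨c, h1⟩)))
    · exact Or.inl (Or.inl (Or.inr (mem_iUnion.2 ⟨c, h1⟩)))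
    · exact Or.inl (Or.inr (mem_iUnion.2 ⟨(c, j), h1⟩))
    · exact Or.inr (mem_iUnion.2 ⟨(c, j, e), h1⟩)
  have b1 := lint_fin_le (volT X.g) (fun c : A.C => (D.pO c ∘ P.T0 0) '' P.W1) F₁
    (c := 2 ^ 22 * (N + 2) ^ 2) (by positivity) (I := L * ∫⁻ x, F₂ x ∂volT X.g)
    fun c => (X.chain1 hP hB c h₁ h₂ h).trans_eq (mul_assoc _ _ _)
  have b2 := lint_fin_le (volT X.g) (fun c : A.C => (D.pO c ∘ P.Y2) '' P.W2) F₁
    (c := 2 ^ 30) (by positivity) (I := L * ∫⁻ x, F₂ x ∂volT X.g)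
    fun c => (X.chain2 hP c h₁ h₂ h).trans_eq (mul_assoc _ _ _)
  have b3 := lint_fin_le (volT X.g)
    (fun i : A.C × Fin (P.K / 2) => D.pT i.1 (i.2 : ℕ) '' P.W3) F₁
    (c := 2 ^ 22 * C ^ 2) (by positivity) (I := L * ∫⁻ x, F₂ x ∂volT X.g)
    fun i => (X.chain3 hP hC i.1 _ h₁ h₂ h).trans_eq (mul_assoc _ _ _)
  have b4 := lint_fin_le (volT X.g)
    (fun i : A.C × Fin (P.K / 2) × ℤˣ => D.pN i.1 (i.2.1 : ℕ) i.2.2 '' W4) F₁
    (c := 2 ^ 38) (by positivity) (I := L * ∫⁻ x, F₂ x ∂volT X.g)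
    fun i => (X.chain4 hP i.1 _ i.2.2 h₁ h₂ h).trans_eq (mul_assoc _ _ _)
  have hu : Nat.card ℤˣ = 2 := by rw [Nat.card_eq_fintype_card, Fintype.card_units_int]
  simp only [Nat.card_prod, Nat.card_fin, hu] at b3 b4
  have hK : (((P.K / 2 : ℕ) : ℝ)) * 2 ≤ P.K := by exact_mod_cast Nat.div_mul_le_self P.K 2
  have hK0 : (0 : ℝ) ≤ ((P.K / 2 : ℕ) : ℝ) := Nat.cast_nonneg _
  have hn : (0 : ℝ) ≤ Nat.card A.C := Nat.cast_nonneg _
  rw [← setLIntegral_univ F₁]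
  refine (lintegral_mono_set hcov).trans ((lintegral_union_le _ _ _).trans ?_)
  refine (add_le_add ((lintegral_union_le _ _ _).trans (add_le_add
    ((lintegral_union_le _ _ _).trans (add_le_add b1 b2)) b3)) b4).trans ?_
  rw [mul_assoc _ L, ← add_mul, ← add_mul, ← add_mul,
    ← ENNReal.ofReal_add (by positivity) (by positivity),
    ← ENNReal.ofReal_add (by positivity) (by positivity),
    ← ENNReal.ofReal_add (by positivity) (by positivity)]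
  refine mul_le_mul_left (ENNReal.ofReal_le_ofReal ?_) _
  simp only [Nat.cast_mul, Nat.cast_ofNat]
  have e3 : ((P.K / 2 : ℕ) : ℝ) * (2 ^ 22 * C ^ 2) ≤ P.K * (2 ^ 22 * C ^ 2) :=
    mul_le_mul_of_nonneg_right (by linarith) (by positivity)
  have e4 : ((P.K / 2 : ℕ) : ℝ) * 2 * 2 ^ 38 ≤ P.K * 2 ^ 38 :=
    mul_le_mul_of_nonneg_right hK (by positivity)
  have f3 := mul_le_mul_of_nonneg_left e3 hn
  have f4 := mul_le_mul_of_nonneg_left e4 hn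
  linarith

/-- `mult1` to `mult4` with `Z = univ`; in the third family `ϱ ≤ R3 q`. -/
theorem AP.mult (X : AP D) (hP : P.Geom) (hB : A.Pcs κ B) (hC : P.RhoT C) {F : D.M → ℝ≥0∞}
    (hF : Measurable F) (a : Ix P A.C) : ∫⁻ y in Q 2, F (D.Th a y) ≤
      ENNReal.ofReal (10 ^ 11 * (N + 2) * P.K ^ 4 * C * ((P.ϱ * a.sig) ^ 2)⁻¹) *
        ∫⁻ x, F x ∂volT X.g := by
  have hO := hP.toOk
  have hϱ := hO.ϱ0
  have hK : (1 : ℝ) ≤ (P.K : ℝ) ^ 4 := one_le_pow₀ (by exact_mod_cast hO.K0)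
  have hN : (1 : ℝ) ≤ (N : ℝ) + 2 := by
    have : (0 : ℝ) ≤ N := Nat.cast_nonneg _
    linarith
  have hC1 := hC.1
  have hNK : (1 : ℝ) ≤ ((N : ℝ) + 2) * (P.K : ℝ) ^ 4 := one_le_mul_of_one_le_of_one_le hN hK
  have key : ∀ {u v a b : ℝ}, 0 ≤ a → 0 ≤ v → u ≤ v → a ≤ b → ∀ I : ℝ≥0∞,
      ENNReal.ofReal (u * a) * I ≤ ENNReal.ofReal (v * b) * I := fun ha hv h1 h2 I =>
    mul_le_mul_left (ENNReal.ofReal_le_ofReal (mul_le_mul h1 h2 ha hv)) _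
  rcases a with ⟨c, q⟩ | ⟨c, q⟩ | ⟨c, j, q⟩ | ⟨c, j, e, q⟩
  · refine (X.mult1 hP hB c q hF).trans (key (by positivity) (by positivity) ?_ le_rfl _)
    exact le_mul_of_one_le_right (by positivity) hC1
  · refine (X.mult2 hP c q hF).trans (key (by positivity) (by positivity) ?_ le_rfl _)
    have e1 : (P.K : ℝ) ^ 4 ≤ ((N : ℝ) + 2) * (P.K : ℝ) ^ 4 :=
      le_mul_of_one_le_left (by positivity) hN
    have e2 : ((N : ℝ) + 2) * (P.K : ℝ) ^ 4 ≤ ((N : ℝ) + 2) * (P.K : ℝ) ^ 4 * C :=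
      le_mul_of_one_le_right (by positivity) hC1
    linarith
  · have hR : P.ϱ ≤ R3 q.1 := by
      have := q.2.2.2
      linarith
    have hR0 : 0 < R3 q.1 := hϱ.trans_le hR
    refine (X.mult3 hO hC c j q (Z := univ) (fun _ _ _ => mem_univ _) hF).trans ?_
    rw [setLIntegral_univ]
    refine key (by positivity) (by positivity) ?_ ?_ _
    · have e2 : C ≤ ((N : ℝ) + 2) * (P.K : ℝ) ^ 4 * C := le_mul_of_one_le_left (by linarith) hNK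
      linarith
    · show _ ≤ ((P.ϱ * R3 q.1) ^ 2)⁻¹
      refine inv_anti₀ (by positivity) ?_
      have := mul_le_mul_of_nonneg_left hR (show 0 ≤ P.ϱ * R3 q.1 ^ 2 by positivity)
      linarith
  · refine (X.mult4 hO c j e q (Z := univ) (fun _ _ => mem_univ _) hF).trans ?_
    rw [setLIntegral_univ]
    refine key (by positivity) (by positivity) ?_ ?_ _
    · have e2 : (1 : ℝ) ≤ ((N : ℝ) + 2) * (P.K : ℝ) ^ 4 * C :=
        one_le_mul_of_one_le_of_one_le hNK hC1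
      linarith
    · show _ ≤ ((P.ϱ * P.ϱ) ^ 2)⁻¹
      exact le_of_eq (congrArg _ (by ring))

theorem AP.psys (X : AP D) (hP : P.Geom) (hB : A.Pcs κ B) (hC : P.RhoT C) {C₀ C₁ : ℝ}
    (h₀ : ∀ a : Ix P A.C, GPt X.g X.s C₀ (D.Th a) a.sig) (e₀ : C₀ ≤ C₁)
    (e₁ : Nat.card A.C *
      (2 ^ 22 * (N + 2) ^ 2 + 2 ^ 30 + P.K * (2 ^ 22 * C ^ 2) + P.K * 2 ^ 38) ≤ C₁)
    (e₂ : 10 ^ 11 * (N + 2) * P.K ^ 4 * C ≤ C₁) : PSys X.g X.s P.ϱ C₁ D.Th Ix.sig := by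
  have hO := hP.toOk
  have hs : ∀ x, 0 < X.s x := fun x => hO.ϱ0.trans_le (X.rho_le_s hP x).1
  have h₁ : ∀ a : Ix P A.C, GPt X.g X.s C₁ (D.Th a) a.sig := fun a =>
    (h₀ a).mono (fun x => (hs x).le) e₀
  refine ⟨X.scont, hs, fun a => (h₁ a).pt, fun a => (h₁ a).σpos, fun a => (h₁ a).σle,
    fun a => (h₁ a).good, fun a => (h₁ a).sle, fun a => (h₁ a).sge, D.th_onto hO,
    fun F₁ F₂ m₁ m₂ L h => (X.chain hO hB hC m₁ m₂ h).trans ?_,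
    fun F hF a => (X.mult hP hB hC hF a).trans ?_⟩
  · exact mul_le_mul_left (mul_le_mul_left (ENNReal.ofReal_le_ofReal e₁) _) _
  · exact mul_le_mul_left (ENNReal.ofReal_le_ofReal
      (mul_le_mul_of_nonneg_right e₂ (by positivity))) _

end Pool.Agent.Lib.MP_94aef8_gt
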