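import Pool.Agent.Lib.MP_94aef8_gt.J.BFD

/-! The charts of the tube and of the bolt: periods, injectivity, transitions. -/

open scoped Manifold ContDiff Topology ENNReal
open Matrix Filter Set MeasureTheory Real

namespace Pool.Agent.Lib.MP_94aef8_gt

theorem btube_sq (e : ℤˣ) : ((e : ℤ) : ℝ) ^ 2 = 1 := by
  rcases Int.units_eq_one_or e with rfl | rfl <;> simp

/-- `R = 1 + u01 z`, `x3 = 2 arg (z0 + i z1)`, `(x0, x1, x2) = R (2 z2, 2 z3, e (1 - v)) / (1 + v)`,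
`v = u23 z`. -/
theorem P2u_inv (e : ℤˣ) {z : E4} (hz : 0 < u01 z) :
    ∃ x : E4, R3 x = 1 + u01 z ∧ 0 < R3 x + ((e : ℤ) : ℝ) * x 2 ∧ P2u e x = z := by
  have he := btube_sq e
  have hv : 0 ≤ u23 z := by unfold u23; positivity
  have hw : 0 < √(u01 z) := Real.sqrt_pos.2 hz
  obtain ⟨θ, c1, c2⟩ : ∃ θ : ℝ, √(u01 z) * cos θ = z 0 ∧ √(u01 z) * sin θ = z 1 := by
    have hn : ‖(⟨z 0, z 1⟩ : ℂ)‖ = √(u01 z) := by
      rw [Complex.norm_eq_sqrt_sq_add_sq, u01]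
    have hz : (⟨z 0, z 1⟩ : ℂ) ≠ 0 := by
      rw [← norm_pos_iff, hn]
      exact hw
    refine ⟨Complex.arg ⟨z 0, z 1⟩, ?_, ?_⟩
    · rw [Complex.cos_arg hz, hn]
      field_simp
    · rw [Complex.sin_arg, hn]
      field_simp
  obtain ⟨x, x0, x1, x2, x3⟩ : ∃ x : E4, x 0 = (1 + u01 z) * (2 * z 2) / (1 + u23 z) ∧
      x 1 = (1 + u01 z) * (2 * z 3) / (1 + u23 z) ∧
      x 2 = (1 + u01 z) * (((e : ℤ) : ℝ) * (1 - u23 z)) / (1 + u23 z) ∧ x 3 = 2 * θ :=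
    ⟨mk4 _ _ _ _, rfl, rfl, rfl, rfl⟩
  have hR : R3 x = 1 + u01 z := by
    rw [R3, Real.sqrt_eq_iff_eq_sq (add_nonneg (Par.anum2_u_nonneg x) (sq_nonneg _))
      (by positivity), u01, x0, x1, x2]
    field_simp
    have h : u23 z = z 2 ^ 2 + z 3 ^ 2 := rfl
    linear_combination (1 - u23 z) ^ 2 * he - 4 * h
  have hd : R3 x + ((e : ℤ) : ℝ) * x 2 = 2 * (1 + u01 z) / (1 + u23 z) := by
    rw [hR, x2]
    field_simp
    linear_combination (1 - u23 z) * he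
  refine ⟨x, hR, by rw [hd]; positivity, ?_⟩
  have h2 : 2 * θ / 2 = θ := by ring
  rw [P2u, hd, hR, x0, x1, x3, add_sub_cancel_left, h2, c1, c2]
  refine ext_4 rfl rfl ?_ ?_ <;> simp only [mk4_2, mk4_3] <;> field_simp

theorem P2u_u01 (e : ℤˣ) {x : E4} (h : 1 ≤ R3 x) : u01 (P2u e x) = R3 x - 1 := by
  have h1 := Real.sq_sqrt (sub_nonneg.2 h)
  simp only [u01, P2u, mk4_0, mk4_1]
  linear_combination (cos (x 3 / 2) ^ 2 + sin (x 3 / 2) ^ 2) * h1 +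
    (R3 x - 1) * Real.cos_sq_add_sin_sq (x 3 / 2)

/-- `u23 = u01 x / (R + e x2) ^ 2` and `u01 x ≤ R ^ 2`. -/
theorem P2u_u23 (e : ℤˣ) {x : E4} (h : 0 < R3 x) (he : 0 ≤ ((e : ℤ) : ℝ) * x 2) :
    u23 (P2u e x) ≤ 1 := by
  have h1 := R3_sq x
  simp only [u23, P2u, mk4_2, mk4_3, div_pow]
  rw [← add_div, div_le_one (by positivity)]
  unfold u01 at h1
  nlinarith [sq_nonneg (x 2), mul_nonneg h.le he, sq_nonneg (((e : ℤ) : ℝ) * x 2)]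

theorem exists_sign (t : ℝ) : ∃ e : ℤˣ, 0 ≤ ((e : ℤ) : ℝ) * t := by
  rcases le_total 0 t with h | h
  · exact ⟨1, by simpa using h⟩
  · exact ⟨-1, by simpa using h⟩

theorem u01_smul (c : ℝ) (x : E4) : u01 (c • x) = c ^ 2 * u01 x := by
  simp only [u01, PiLp.smul_apply, smul_eq_mul]
  ring

theorem u01_le_R3 (x : E4) : u01 x ≤ R3 x ^ 2 := by
  rw [R3_sq]
  exact le_add_of_nonneg_right (sq_nonneg _)

theorem abs_le_R3 (x : E4) : |x 0| ≤ R3 x ∧ |x 1| ≤ R3 x ∧ |x 2| ≤ R3 x := by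
  refine ⟨Real.abs_le_sqrt ?_, Real.abs_le_sqrt ?_, Real.abs_le_sqrt ?_⟩ <;> unfold u01 <;>
    nlinarith [sq_nonneg (x 0), sq_nonneg (x 1), sq_nonneg (x 2)]

theorem R3_per (x : E4) (t : ℝ) : R3 (x + mk4 0 0 0 t) = R3 x := by
  simp [R3, u01]

theorem u01_per (x : E4) (t : ℝ) : u01 (x + mk4 0 0 0 t) = u01 x := by
  simp [u01]

variable {P : Par} {A : Arith P.K}

theorem Par.sc_eq (P : Par) (j : ℤ) (x : E4) : P.sc j x = P.sh j (P.ϱ • x) := by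
  simp [Par.sc, Par.sh]

theorem Par.Ok.mem_UT (hP : P.Ok) {x : E4} (h1 : P.ϱ < R3 x) (h2 : R3 x < 9 / 10 * P.l) :
    x ∈ P.UT := by
  have h3 := hP.l_le
  have h4 := hP.ϱ0
  refine ⟨(u01_le_R3 x).trans_lt ?_, (abs_le_R3 x).2.2.trans_lt h2, h1⟩
  nlinarith

theorem Par.invS_UT (P : Par) (τ : ℝ) : InvS (VT τ) P.UT := by
  rintro _ ⟨k, rfl⟩ x
  simp only [Par.UT, mem_ofPred_eq, R3_per, u01_per, PiLp.add_apply, mk4_2, add_zero]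

/-- Every point of the core lies in the tube of the nearest centre. -/
theorem Par.Ok.exists_sh (hP : P.Ok) {x : E4} (hx : x ∈ P.UC) : ∃ x' ∈ P.UT, P.sh (P.jn x) x' = x ∧
    -(P.l / 2) ≤ x' 2 ∧ x' 2 < P.l / 2 ∧ u01 x' = u01 x ∧ R3 x' = P.Rn x := by
  have hl := hP.l_pos
  have h1 : -(P.l / 2) ≤ P.zj (P.jn x) x := by
    have := (le_div_iff₀ hl).1 (sub_le_iff_le_add.2 (round_le_add_half (x 2 / P.l)))
    unfold Par.zj Par.jn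
    linarith
  have h2 : P.zj (P.jn x) x < P.l / 2 := by
    have := (div_lt_iff₀ hl).1 (sub_lt_iff_lt_add.1 (sub_half_lt_round (x 2 / P.l)))
    unfold Par.zj Par.jn
    linarith
  refine ⟨mk4 (x 0) (x 1) (P.zj (P.jn x) x) (x 3), ⟨hx.1, ?_, hx.2 _⟩, ?_, h1, h2, rfl, rfl⟩
  · rw [mk4_2, abs_lt]
    constructor <;> linarith
  · exact ext_4 rfl rfl (sub_add_cancel _ _) rfl

/-- `trCN` at the point `sc j x`, `usc j (sc j x) = x`. -/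
theorem MD.pN_P2u (D : MD P A) (hP : P.Ok) (c : A.C) (j : ℤ) (e : ℤˣ) {x : E4} (h1 : 1 < R3 x)
    (h4 : R3 x < 4) (he : 0 < R3 x + ((e : ℤ) : ℝ) * x 2) :
    D.pN c j e (P2u e x) = D.pT c j (P.ϱ • x) := by
  have hϱ := hP.ϱ0
  have hl := hP.rho_le
  have hR := R3_smul hϱ.le x
  have hU : P.ϱ • x ∈ P.UT := hP.mem_UT (by rw [hR]; nlinarith) (by rw [hR]; nlinarith)
  have h2 : P.Rj j (P.sh j (P.ϱ • x)) = P.ϱ * R3 x := by
    rw [Par.anum2_Rj_sh, ← hR]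
    simp [R3]
  have h3 : P.zj j (P.sh j (P.ϱ • x)) = P.ϱ * x 2 := by simp [Par.zj, Par.sh]
  have h5 : P.usc j (P.sh j (P.ϱ • x)) = x := by
    rw [Par.usc, h3]
    refine ext_4 ?_ ?_ ?_ ?_ <;> simp [Par.sh, hϱ.ne']
  have h6 := D.trCN c j e _ (hP.sh_mem j hU) (by rw [h2]; nlinarith)
    (by rw [h2, h3]; nlinarith [mul_pos hϱ he])
  rwa [h5] at h6

/-- `eqC` with `dk 0 k`. -/
theorem MD.pT_per (D : MD P A) (hP : P.Ok) (c : A.C) (j : ℤ) :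
    ∀ v ∈ VT (4 * π * P.ϱ), ∀ x ∈ P.UT, D.pT c j (x + v) = D.pT c j x := by
  intro v hv x hx
  have hx' := (P.invS_UT _ v hv x).2 hx
  obtain ⟨k, rfl⟩ := hv
  refine ((D.eqC c c _ (hP.sh_mem j hx) _ (hP.sh_mem j hx')).2 ⟨rfl, 0, k, ?_⟩).symm
  apply ext_4 <;> simp [Par.sh, Par.dk]

theorem btube_K (hP : P.Ok) : (P.K : ℤ) = 2 * ((P.K / 2 : ℕ) : ℤ) ∧ 0 < P.K / 2 := by
  have h1 := hP.K0
  have h2 := hP.K4
  omega

theorem btube_int {a : ℤ} {l : ℝ} (hl : 0 < l) (h : |(a : ℝ) * l| < l) : a = 0 := by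
  by_contra ha
  have h1 : (1 : ℝ) ≤ |(a : ℝ)| := by exact_mod_cast Int.one_le_abs ha
  rw [abs_mul, abs_of_pos hl] at h
  nlinarith

/-- `K = 2 (K / 2)`, `j' = j % (K / 2)`, `eqC` with `dk a 0` (`K δ = (K / 2) l`), `eqN`. -/
theorem MD.pT_mod (D : MD P A) (hP : P.Ok) (c : A.C) (j : ℤ) : ∃ j' : Fin (P.K / 2),
    (∀ x ∈ P.UT, D.pT c j x = D.pT c (j' : ℕ) x) ∧
      ∀ e, ∀ z ∈ UN, D.pN c j e z = D.pN c (j' : ℕ) e z := by
  obtain ⟨h1, h2⟩ := btube_K hP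
  have h3 : (0 : ℤ) < ((P.K / 2 : ℕ) : ℤ) := by exact_mod_cast h2
  have h4 := Int.emod_nonneg j h3.ne'
  have h5 := Int.emod_lt_of_pos j h3
  have h6 := Int.emod_add_mul_ediv j ((P.K / 2 : ℕ) : ℤ)
  obtain ⟨r, hr⟩ := Int.eq_ofNat_of_zero_le h4
  have h7 : 2 * ((r : ℤ) - j) = -(j / ((P.K / 2 : ℕ) : ℤ)) * P.K := by
    rw [← hr]
    linear_combination 2 * h6 + (j / ((P.K / 2 : ℕ) : ℤ)) * h1
  generalize -(j / ((P.K / 2 : ℕ) : ℤ)) = a at h7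
  refine ⟨⟨r, by omega⟩, fun x hx => ?_, fun e z hz => ?_⟩
  · refine (D.eqC c c _ (hP.sh_mem j hx) _ (hP.sh_mem r hx)).2 ⟨rfl, a, 0, ?_⟩
    have h8 : 2 * ((r : ℝ) - j) = a * P.K := by exact_mod_cast h7
    apply ext_4 <;> simp [Par.sh, Par.dk, Par.l]
    linear_combination P.δ * h8
  · exact (D.eqN c c j r e e z hz z hz).2 ⟨rfl, ⟨a, h7⟩, Or.inl ⟨rfl, rfl⟩⟩

theorem Par.Ok.fin_eq (hP : P.Ok) {j j' : Fin (P.K / 2)} {a : ℤ}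
    (h : 2 * (((j' : ℕ) : ℤ) - ((j : ℕ) : ℤ)) = a * P.K) : j = j' := by
  obtain ⟨h1, h2⟩ := btube_K hP
  have h3 := j.2
  have h4 := j'.2
  have h5 : ((j' : ℕ) : ℤ) - ((j : ℕ) : ℤ) = a * ((P.K / 2 : ℕ) : ℤ) := by
    rw [h1] at h
    linarith
  have h6 : a = 0 := by
    rcases lt_trichotomy a 0 with ha | ha | ha
    · have : a * ((P.K / 2 : ℕ) : ℤ) ≤ -1 * ((P.K / 2 : ℕ) : ℤ) :=
        mul_le_mul_of_nonneg_right (by omega) (by omega)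
      omega
    · exact ha
    · have : 1 * ((P.K / 2 : ℕ) : ℤ) ≤ a * ((P.K / 2 : ℕ) : ℤ) :=
        mul_le_mul_of_nonneg_right (by omega) (by omega)
      omega
  rw [h6, zero_mul] at h5
  exact Fin.ext (by omega)

theorem btube_eq (D : MD P A) (hP : P.Ok) {c c' : A.C} {j j' : ℤ} {x x' : E4}
    (hx : x ∈ P.UT) (hx' : x' ∈ P.UT) (e : D.pT c j x = D.pT c' j' x') :
    c = c' ∧ ∃ a b : ℤ, x' 0 = x 0 ∧ x' 1 = x 1 ∧
      x' 2 + j' * P.l = x 2 + j * P.l + a * (P.K * P.δ) ∧ x' 3 = x 3 + b * (4 * π * P.ϱ) := by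
  obtain ⟨h1, a, b, h2⟩ := (D.eqC c c' _ (hP.sh_mem j hx) _ (hP.sh_mem j' hx')).1 e
  exact ⟨h1, a, b, congrArg (· 0) h2, congrArg (· 1) h2, congrArg (· 2) h2, congrArg (· 3) h2⟩

/-- `eqC`: `x' 2 - x 2 = (j - j' + a K / 2) l`, so the integer vanishes; `fin_eq`. -/
theorem MD.pT_eq (D : MD P A) (hP : P.Ok) {c c' : A.C} {j j' : Fin (P.K / 2)} {x x' : E4}
    (hx : x ∈ P.UT) (hx' : x' ∈ P.UT) (h : |x 2 - x' 2| < P.l)
    (e : D.pT c (j : ℕ) x = D.pT c' (j' : ℕ) x') :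
    c = c' ∧ j = j' ∧ ∃ v ∈ VT (4 * π * P.ϱ), x' = x + v := by
  obtain ⟨h1, a, b, e0, e1, e2, e3⟩ := btube_eq D hP hx hx' e
  have hK : (P.K : ℝ) = 2 * ((P.K / 2 : ℕ) : ℝ) := by exact_mod_cast (btube_K hP).1
  have h2 : x 2 - x' 2 =
      ((((j' : ℕ) : ℤ) - ((j : ℕ) : ℤ) - a * ((P.K / 2 : ℕ) : ℤ) : ℤ) : ℝ) * P.l := by
    rw [hK] at e2
    simp only [Int.cast_sub, Int.cast_mul, Int.cast_natCast, Par.l] at e2 ⊢
    linarith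
  rw [h2] at h
  have h3 := btube_int hP.l_pos h
  rw [h3, Int.cast_zero, zero_mul] at h2
  refine ⟨h1, hP.fin_eq (a := a) ?_, _, ⟨b, rfl⟩, ?_⟩
  · linear_combination 2 * h3 - a * (btube_K hP).1
  · apply ext_4 <;> simp [e0, e1, e3]
    linarith

/-- `|x 2 - x' 2| < 2 l ≤ K δ`. -/
theorem MD.pT_inj (D : MD P A) (hP : P.Ok) (c : A.C) (j : ℤ) (t : ℝ) :
    InjOn (D.pT c j) (P.UT ∩ {x | t ≤ x 3 ∧ x 3 < t + 4 * π * P.ϱ}) := by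
  rintro x ⟨hx, h1, h2⟩ x' ⟨hx', h3, h4⟩ e
  obtain ⟨-, a, b, e0, e1, e2, e3⟩ := btube_eq D hP hx hx' e
  have hδ := hP.δ0
  have hK := Par.anum_K hP
  have hτ : 0 < 4 * π * P.ϱ := by have := hP.ϱ0; positivity
  have ha : a = 0 := by
    refine btube_int (l := P.K * P.δ) (by positivity) ?_
    have h5 := abs_lt.1 hx.2.1
    have h6 := abs_lt.1 hx'.2.1
    have h7 : 4 * P.δ ≤ P.K * P.δ := mul_le_mul_of_nonneg_right hK hδ.le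
    rw [Par.l] at h5 h6
    rw [abs_lt]
    constructor <;> linarith [h5.1, h5.2, h6.1, h6.2]
  have hb : b = 0 := by
    refine btube_int hτ ?_
    rw [abs_lt]
    constructor <;> linarith
  rw [ha] at e2
  rw [hb] at e3
  refine ext_4 e0.symm e1.symm ?_ ?_
  · simpa using e2.symm
  · simpa using e3.symm

theorem MD.pN_inj (D : MD P A) (c : A.C) (j : ℤ) (e : ℤˣ) : InjOn (D.pN c j e) UN := by
  intro z hz z' hz' h
  rcases ((D.eqN c c j j e e z hz z' hz').1 h).2.2 with h1 | h1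
  · exact h1.2.symm
  · exact absurd rfl h1.1

end Pool.Agent.Lib.MP_94aef8_gt
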