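import Pool.Agent.Lib.MP_94aef8_gt.J.BBall
import Pool.Agent.Lib.MP_94aef8_gt.J.BF3
import Pool.Agent.Lib.MP_94aef8_gt.J.BF4
import Pool.Agent.Lib.MP_94aef8_gt.J.BPSys

/-! Volumes. -/

open scoped Manifold ContDiff Topology ENNReal
open Matrix Filter Set MeasureTheory Real

namespace Pool.Agent.Lib.MP_94aef8_gt

variable {P : Par} {A : Arith P.K}

/-- The part of the tubes with `R ≤ r`, together with the neighbourhoods of the bolts. -/
def MD.Tb (D : MD P A) (r : ℝ) : Set D.M :=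
  (⋃ b : A.C × Fin (P.K / 2), D.pT b.1 (b.2 : ℕ) '' (P.W3 ∩ {x | R3 x ≤ r})) ∪
    ⋃ b : A.C × Fin (P.K / 2) × ℤˣ, D.pN b.1 (b.2.1 : ℕ) b.2.2 '' W4

variable {D : MD P A} {C : ℝ}

theorem bvol_u01 : Continuous u01 := by
  unfold u01
  fun_prop

theorem bvol_u23 : Continuous u23 := by
  unfold u23
  fun_prop

theorem bvol_W3 (P : Par) (r : ℝ) : MeasurableSet (P.W3 ∩ {x | R3 x ≤ r}) :=
  (((isClosed_le bvol_u01 continuous_const).inter
    ((isClosed_le (f := fun x : E4 => |x 2|) (by fun_prop) continuous_const).inter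
      (isClosed_le continuous_const continuous_R3))).inter
        (isClosed_le continuous_R3 continuous_const)).measurableSet

theorem bvol_W4 : MeasurableSet W4 :=
  ((isClosed_le bvol_u01 continuous_const).inter
    (isClosed_le bvol_u23 continuous_const)).measurableSet

theorem bvol_box {θ : E4 → D.M} {U S : Set E4} {g : D.M → Mat} (hθ : Pt θ U) (hg : GoodT g)
    (hS : MeasurableSet S) (hU : S ⊆ U) {m : ℝ} (hm : ∀ y ∈ S, rho (gpull θ g) y ≤ m)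
    {lo hi : Fin 4 → ℝ} (hb : ∀ y ∈ S, ∀ i, lo i ≤ y i ∧ y i ≤ hi i) :
    volT g (θ '' S) ≤ ENNReal.ofReal m * ∏ i, ENNReal.ofReal (hi i - lo i) := by
  have h1 := hθ.lint_le hS hU hg (F := fun _ => 1) measurable_const
  rw [setLIntegral_one] at h1
  refine h1.trans ((setLIntegral_mono' (g := fun _ => ENNReal.ofReal m) hS fun y hy => ?_).trans ?_)
  · rw [mul_one]
    exact ENNReal.ofReal_le_ofReal (hm y hy)
  · rw [setLIntegral_const, ← vol_Icc]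
    exact mul_le_mul_right (measure_mono hb) _

theorem bvol_fin {M ι : Type} [MeasurableSpace M] [Finite ι] (μ : Measure M) (S : ι → Set M)
    {c : ℝ} (hc : 0 ≤ c) (h : ∀ i, μ (S i) ≤ ENNReal.ofReal c) :
    μ (⋃ i, S i) ≤ ENNReal.ofReal (Nat.card ι * c) := by
  have := lint_fin_le μ S (fun _ => 1) hc (I := 1) fun i => by
    rw [setLIntegral_one, mul_one]
    exact h i
  rwa [setLIntegral_one, mul_one] at this

theorem MD.meas_Tb (D : MD P A) (hP : P.Ok) (r : ℝ) : MeasurableSet (D.Tb r) := by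
  have := A.fin
  exact (MeasurableSet.iUnion fun b => (D.ptT hP _ _).measurableSet_image (bvol_W3 P r)
    (inter_subset_left.trans hP.W3_sub)).union
      (MeasurableSet.iUnion fun b => (D.ptN _ _ _).measurableSet_image bvol_W4 W4_sub)

/-- The image is that of the part in `DT (4 π ϱ)`, which lies in a box of sides `2 r, 2 r, 2 r,
4 π ϱ` (`vol_Icc`, `abs_le_R3`); `Pt.lint_le` with `F = 1`, or `pc3.lo`. -/
theorem AP.vol_T (X : AP D) (hP : P.Ok) (hC : P.RhoT C) (c : A.C) (j : ℤ) {r : ℝ} (hr : 0 ≤ r) :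
    volT X.g (D.pT c j '' (P.W3 ∩ {x | R3 x ≤ r})) ≤ ENNReal.ofReal (300 * C * (r ^ 3 * P.ϱ)) := by
  have hϱ := hP.ϱ0
  have hτ : 0 < 4 * π * P.ϱ := by positivity
  have h1 : D.pT c j '' (P.W3 ∩ {x | R3 x ≤ r}) ⊆
      D.pT c j '' (P.W3 ∩ {x | R3 x ≤ r} ∩ DT (4 * π * P.ϱ)) := by
    rintro _ ⟨x, hx, rfl⟩
    obtain ⟨v, hv, h2⟩ := (fd_T hτ).cov x
    refine ⟨x + v, ⟨?_, h2⟩, D.pT_per hP c j v hv x (hP.W3_sub hx.1)⟩
    obtain ⟨k, rfl⟩ := hv
    have e : (x + mk4 0 0 0 (k * (4 * π * P.ϱ))) 2 = x 2 := by simp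
    simp only [Par.W3, mem_inter_iff, mem_ofPred_eq, R3_per, u01_per, e]
    exact hx
  have h2 := bvol_box (D.ptT hP c j) X.good ((bvol_W3 P r).inter (fd_T hτ).meas)
    (fun x hx => hP.W3_sub hx.1.1) (m := C) (fun y hy => by
      exact (rho_eq_of_eq (G' := P.GT) (X.gT c j y (hP.W3_sub hy.1.1))).trans_le
        (hC.2 y (hP.W3_sub hy.1.1)).2)
    (lo := ![-r, -r, -r, 0]) (hi := ![r, r, r, 4 * π * P.ϱ]) fun y hy i => by
      obtain ⟨a0, a1, a2⟩ := abs_le_R3 y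
      have a3 : R3 y ≤ r := hy.1.2
      fin_cases i
      exacts [abs_le.1 (a0.trans a3), abs_le.1 (a1.trans a3), abs_le.1 (a2.trans a3),
        ⟨hy.2.1, hy.2.2.le⟩]
  have hC0 : 0 ≤ C := zero_le_one.trans hC.1
  refine ((measure_mono h1).trans h2).trans ?_
  rw [← ENNReal.ofReal_prod_of_nonneg fun i _ => by
    fin_cases i <;> simp [hr, hτ.le], ← ENNReal.ofReal_mul hC0]
  refine ENNReal.ofReal_le_ofReal ?_
  simp only [Fin.prod_univ_four, cons_val_zero, cons_val_one, cons_val]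
  have h3 : 0 ≤ C * (r ^ 3 * P.ϱ) := by positivity
  nlinarith [mul_le_mul_of_nonneg_right pi_le_four h3]

/-- `W4` lies in a box of sides `3, 3, 2, 2`; `pc4.lo` or `rho_N`. -/
theorem AP.vol_N (X : AP D) (hP : P.Ok) (c : A.C) (j : ℤ) (e : ℤˣ) :
    volT X.g (D.pN c j e '' W4) ≤ ENNReal.ofReal (15000 * P.ϱ ^ 4) := by
  have h2 := bvol_box (D.ptN c j e) X.good bvol_W4 W4_sub (m := 200 * P.ϱ ^ 4)
    (fun y hy => (X.rho_N hP c j e ⟨by linarith [hy.1], by linarith [hy.2]⟩).1)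
    (lo := ![-(3 / 2), -(3 / 2), -1, -1]) (hi := ![3 / 2, 3 / 2, 1, 1]) fun y hy i => by
      have a0 : y 0 ^ 2 + y 1 ^ 2 ≤ 2 := hy.1
      have a1 : y 2 ^ 2 + y 3 ^ 2 ≤ 1 := hy.2
      fin_cases i
      exacts [abs_le_of_sq_le_sq' (a := y 0) (by nlinarith [sq_nonneg (y 1)]) (by norm_num),
        abs_le_of_sq_le_sq' (a := y 1) (by nlinarith [sq_nonneg (y 0)]) (by norm_num),
        abs_le_of_sq_le_sq' (a := y 2) (by nlinarith [sq_nonneg (y 3)]) (by norm_num),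
        abs_le_of_sq_le_sq' (a := y 3) (by nlinarith [sq_nonneg (y 2)]) (by norm_num)]
  refine h2.trans ?_
  rw [← ENNReal.ofReal_prod_of_nonneg fun i _ => by
    fin_cases i <;> norm_num, ← ENNReal.ofReal_mul (by positivity)]
  refine ENNReal.ofReal_le_ofReal ?_
  simp only [Fin.prod_univ_four, cons_val_zero, cons_val_one, cons_val]
  nlinarith [pow_nonneg hP.ϱ0.le 4]

theorem AP.vol_Tb (X : AP D) (hP : P.Ok) (hC : P.RhoT C) {r : ℝ} (hr : P.ϱ ≤ r) :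
    (volT X.g).real (D.Tb r) ≤ 20000 * C * (Nat.card A.C * P.K) * (r ^ 3 * P.ϱ) := by
  have := A.fin
  have hϱ := hP.ϱ0
  have hr0 : 0 ≤ r := hϱ.le.trans hr
  have hC0 : 0 ≤ C := zero_le_one.trans hC.1
  have h1 := bvol_fin (volT X.g) _ (by positivity)
    fun b : A.C × Fin (P.K / 2) => X.vol_T hP hC b.1 (b.2 : ℕ) hr0
  have h2 := bvol_fin (volT X.g) _ (by positivity)
    fun b : A.C × Fin (P.K / 2) × ℤˣ => X.vol_N hP b.1 (b.2.1 : ℕ) b.2.2
  have h3 := (measure_union_le _ _).trans (add_le_add h1 h2)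
  rw [← ENNReal.ofReal_add (by positivity) (by positivity)] at h3
  refine (ENNReal.toReal_le_of_le_ofReal (by positivity) h3).trans ?_
  have e : Nat.card ℤˣ = 2 := by rw [Nat.card_eq_fintype_card, Fintype.card_units_int]
  rw [Nat.card_prod, Nat.card_prod, Nat.card_prod, Nat.card_fin, e]
  push_cast
  have h4 : ((P.K / 2 : ℕ) : ℝ) ≤ P.K / 2 := Nat.cast_div_le
  have h5 : P.ϱ ^ 4 ≤ C * (r ^ 3 * P.ϱ) := by
    rw [pow_succ]
    exact (mul_le_mul_of_nonneg_right (pow_le_pow_left₀ hϱ.le hr 3) hϱ.le).trans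
      (le_mul_of_one_le_left (by positivity) hC.1)
  have h6 : 0 ≤ C * (r ^ 3 * P.ϱ) := by positivity
  have h7 : (0 : ℝ) ≤ Nat.card A.C := Nat.cast_nonneg _
  have h8 := mul_le_mul_of_nonneg_left (mul_le_mul h4 h5 (by positivity) (by positivity)) h7
  have h9 := mul_le_mul_of_nonneg_left (mul_le_mul_of_nonneg_right h4 h6) h7
  have h10 : 0 ≤ Nat.card A.C * (P.K * (C * (r ^ 3 * P.ϱ))) := by positivity
  nlinarith

/-- `cov_small`. -/
theorem AP.mem_Tb (X : AP D) (hP : P.Ok) {r : ℝ} (hr : r < P.l) {m : D.M} (hm : X.s m ≤ r) :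
    m ∈ D.Tb r := by
  rcases X.cov_small hP (hm.trans_lt hr) with ⟨c, j, x, hx, h1, h2⟩ | ⟨c, j, e, h⟩
  · exact Or.inl (mem_iUnion.2 ⟨(c, j), x, ⟨hx, h1.trans_le hm⟩, h2⟩)
  · exact Or.inr (mem_iUnion.2 ⟨(c, j, e), h⟩)

theorem AP.vol_small (X : AP D) (hP : P.Ok) (hC : P.RhoT C) {r : ℝ} (h1 : P.ϱ ≤ r) (h2 : r < P.l) :
    (volT X.g).real {m | X.s m ≤ r} ≤ 20000 * C * (Nat.card A.C * P.K) * (r ^ 3 * P.ϱ) := by
  have := X.good.finite
  exact (measureReal_mono fun m hm => X.mem_Tb hP h2 hm).trans (X.vol_Tb hP hC h1)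

theorem bvol_int : ∫⁻ y in Ioi (1 / 3 : ℝ), ENNReal.ofReal (y ^ 4)⁻¹ = ENNReal.ofReal 9 := by
  have h1 : ∀ y ∈ Ioi (1 / 3 : ℝ), ENNReal.ofReal (y ^ 4)⁻¹ = ENNReal.ofReal (y ^ (-4 : ℝ)) :=
    fun y hy => by
      rw [rpow_neg (by linarith [mem_Ioi.1 hy]), ← rpow_natCast]
      norm_num
  rw [setLIntegral_congr_fun measurableSet_Ioi h1, ← ofReal_integral_eq_lintegral_ofReal
    (integrableOn_Ioi_rpow_of_lt (by norm_num) (by norm_num))
    ((ae_restrict_iff' measurableSet_Ioi).2 (ae_of_all _ fun y hy =>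
      rpow_nonneg (by linarith [mem_Ioi.1 hy]) _)),
    integral_Ioi_rpow_of_lt (by norm_num) (by norm_num)]
  congr 1
  rw [show (-4 + 1 : ℝ) = -(3 : ℕ) by norm_num, rpow_neg (by norm_num), rpow_natCast]
  norm_num

/-- The image is that of the part in the cell (`exists_trl_cell`, `pO_trl`); `Pt.lint_le`, `gO`,
`rho_GO`, `lint_cell`, `∫ y in Ioi (1 / 3), y ^ (-4) = 9` (`integral_Ioi_rpow_of_lt`,
`integrableOn_Ioi_rpow_of_lt`, `ofReal_integral_eq_lintegral_ofReal`). -/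
theorem AP.vol_O (X : AP D) (hP : P.Ok) (c : A.C) :
    volT X.g (D.pO c '' P.UO) ≤ ENNReal.ofReal (9 * P.K ^ 3) := by
  have hK : (0 : ℝ) < P.K := Nat.cast_pos.2 hP.K0
  have h1 : D.pO c '' P.UO ⊆ D.pO c '' (cell P.K ∩ P.UO) := by
    rintro _ ⟨p, hp, rfl⟩
    obtain ⟨v, hv⟩ := exists_trl_cell hK p
    exact ⟨_, ⟨hv, hp⟩, D.pO_trl c v hp⟩
  have hS := (measurableSet_cell P.K).inter P.isOpen_UO.measurableSet
  have h2 := (D.ptO c).lint_le hS inter_subset_right X.good (F := fun _ => 1) measurable_const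
  rw [setLIntegral_one, setLIntegral_congr_fun hS
    (g := fun p => ENNReal.ofReal (p 3 ^ 4)⁻¹) fun p hp => by
      rw [mul_one, rho_eq_of_eq (G' := P.GO) (X.gO c p hp.2), hP.rho_GO hp.2]] at h2
  have h3 := lint_cell hK.le (S := Ioi (1 / 3)) measurableSet_Ioi
    (φ := fun y => ENNReal.ofReal (y ^ 4)⁻¹) (by fun_prop)
  rw [bvol_int, ← ENNReal.ofReal_mul (by positivity), mul_comm] at h3
  refine (((measure_mono h1).trans h2).trans (lintegral_mono_set fun p hp => ?_)).trans_eq h3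
  exact ⟨hp.1, hp.2.1⟩

/-- `MD.cov`, `pT_mod`, `yw_mem`; in the third case `R3 x ≤ 2 l`. -/
theorem MD.cov_Tb (D : MD P A) (hP : P.Ok) (m : D.M) :
    (∃ c, ∃ p : E4, 3 / 8 ≤ p 3 ∧ p 3 ≤ P.yw P.l ∧ D.pO c p = m) ∨ m ∈ D.Tb (2 * P.l) := by
  have hδ := hP.δ0
  have hl := hP.l_pos
  have hl' := hP.l_le
  rcases D.cov hP m with ⟨c, p, h1, h2, h3⟩ | ⟨c, p, w, h1, h2, h3, h4⟩ |
    ⟨c, j, x, h1, h2, h3, h4⟩ | ⟨c, j, e, z, h1, h2, h3⟩
  · refine Or.inl ⟨c, p, h1, ?_, h3⟩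
    rw [Par.yw, le_div_iff₀ (by positivity)]
    have h4 : 0 ≤ P.δ * p 3 := mul_nonneg hδ.le (by linarith)
    have h5 : P.l ^ 2 ≤ 1 := by nlinarith
    nlinarith [mul_le_mul h2 h5 (sq_nonneg _) (by norm_num)]
  · refine Or.inl ⟨c, p, ?_, ?_, h4⟩
    · linarith [(hP.yw_mem h3 (by linarith) (by nlinarith)).2.2.1]
    · rw [h3]
      exact one_div_le_one_div_of_le (by positivity)
        (mul_le_mul_of_nonneg_left (by nlinarith) hδ.le)
  · obtain ⟨j', e1, -⟩ := D.pT_mod hP c j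
    have hx : x ∈ P.W3 := ⟨h1, h2, h3⟩
    refine Or.inr (Or.inl (mem_iUnion.2 ⟨(c, j'), x, ⟨hx, ?_⟩,
      (e1 x (hP.W3_sub hx)).symm.trans h4⟩))
    have h5 := sq_le_sq' (abs_le.1 h2).1 (abs_le.1 h2).2
    exact (abs_le_of_sq_le_sq' (a := R3 x) (b := 2 * P.l) (by rw [R3_sq]; nlinarith)
      (by linarith)).2
  · obtain ⟨j', -, e1⟩ := D.pT_mod hP c j
    have hz : z ∈ W4 := ⟨h1, h2⟩
    exact Or.inr (Or.inr (mem_iUnion.2 ⟨(c, j', e), z, hz, (e1 e z (W4_sub hz)).symm.trans h3⟩))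

theorem Par.Ok.yw_l (hP : P.Ok) : 4 < P.yw P.l ∧ ∀ p : E4, 1 / 3 < p 3 → p 3 ≤ P.yw P.l → p ∈ P.UO := by
  have hδ := hP.δ0
  have hl := hP.l_pos
  have hl' := hP.l_le
  refine ⟨(hP.yw_mem (p := mk4 0 0 0 (P.yw P.l)) rfl (by linarith) (by nlinarith)).2.2.1,
    fun p h1 h2 => ⟨h1, ?_⟩⟩
  rw [Par.yw, le_div_iff₀ (by positivity)] at h2
  have h3 : 0 < P.δ * p 3 := mul_pos hδ (by linarith)
  nlinarith [mul_pos h3 (pow_pos hl 2)]

theorem AP.vol_univ (X : AP D) (hP : P.Ok) (hC : P.RhoT C) :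
    (volT X.g).real univ ≤ 20000 * C * (Nat.card A.C * P.K ^ 3) := by
  have := A.fin
  have := X.good.finite
  have hl := hP.l_pos
  have hl' := hP.l_le
  have hϱ := hP.ϱ0
  have hϱ' := hP.rho_le
  have hK := Par.anum_K hP
  have h1 : univ ⊆ (⋃ c, D.pO c '' P.UO) ∪ D.Tb (2 * P.l) := fun m _ => by
    rcases D.cov_Tb hP m with ⟨c, p, a1, a2, a3⟩ | h
    · exact Or.inl (mem_iUnion.2 ⟨c, p, hP.yw_l.2 p (by linarith) a2, a3⟩)
    · exact Or.inr h
  have h2 : (volT X.g).real (⋃ c, D.pO c '' P.UO) ≤ Nat.card A.C * (9 * P.K ^ 3) :=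
    ENNReal.toReal_le_of_le_ofReal (by positivity)
      (bvol_fin (volT X.g) _ (by positivity) fun c => X.vol_O hP c)
  have h3 := X.vol_Tb hP hC (r := 2 * P.l) (by linarith)
  have h4 : (2 * P.l) ^ 3 * P.ϱ ≤ 1 / 2 := by
    have := pow_le_one₀ (n := 3) (a := 2 * P.l) (by linarith) (by linarith)
    nlinarith
  have h5 : (P.K : ℝ) ≤ P.K ^ 3 := le_self_pow₀ (by linarith) (by norm_num)
  have h7 : (0 : ℝ) ≤ Nat.card A.C := Nat.cast_nonneg _
  have hC0 : 0 ≤ C := zero_le_one.trans hC.1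
  have h8 := mul_le_mul (mul_le_mul_of_nonneg_left (mul_le_mul_of_nonneg_left h5 h7) hC0) h4
    (by positivity) (by positivity)
  have h9 : (Nat.card A.C : ℝ) * P.K ^ 3 ≤ C * (Nat.card A.C * P.K ^ 3) :=
    le_mul_of_one_le_left (by positivity) hC.1
  have h10 : 0 ≤ C * (Nat.card A.C * P.K ^ 3) := by positivity
  refine ((measureReal_mono h1).trans (measureReal_union_le _ _)).trans ?_
  nlinarith

end Pool.Agent.Lib.MP_94aef8_gt
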