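import Pool.Agent.Lib.MP_94aef8_gt.J.APat
import Pool.Agent.Lib.MP_94aef8_gt.J.AErr
import Pool.Agent.Lib.MP_94aef8_gt.J.ACo4
import Pool.Agent.Lib.MP_94aef8_gt.J.BBall2
import Pool.Agent.Lib.MP_94aef8_gt.J.BJ3b
import Pool.Agent.Lib.MP_94aef8_gt.ParLim

/-! The theorems exported by block J. -/

open scoped Manifold ContDiff Topology ENNReal
open Matrix Filter Set MeasureTheory Real

namespace Pool.Agent.Lib.MP_94aef8_gt

theorem jmain_T {K : ℕ} (h0 : 0 < K) (E : ℝ) :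
    ∀ᶠ n : ℕ in atTop, E ≤ (par K n).l / (100 * (par K n).ϱ) := by
  have hK : (0 : ℝ) < K := by exact_mod_cast h0
  have hr : (0 : ℝ) < 3 * K ^ 2 / (16 * π ^ 2) := by positivity
  filter_upwards [par_δ_small h0
    (e := 1 / (50 * (|E| + 1) * (3 * K ^ 2 / (16 * π ^ 2)))) (by positivity)] with n hn
  have h1 := par_δ_pos h0 n
  have h2 := par_ϱ_pos K n
  have h3 := le_abs_self E
  rw [lt_div_iff₀ (by positivity)] at hn
  rw [le_div_iff₀ (by positivity), par_ϱ_eq h0, Par.l]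
  generalize 3 * (K : ℝ) ^ 2 / (16 * π ^ 2) = r at *
  generalize (par K n).δ = δ at *
  have h4 : E * (r * δ ^ 2) ≤ (|E| + 1) * (r * δ ^ 2) :=
    mul_le_mul_of_nonneg_right (by linarith) (by positivity)
  nlinarith

/-- Balls and coercivity; the constants do not depend on `K`. -/
theorem thmJ1 : ∃ C A c : ℝ, 0 < c ∧ ∀ K : ℕ, 0 < K → 4 ∣ K → ∀ Ar : Arith K, ∀ᶠ n : ℕ in atTop,
    ∀ (D : MD (par K n) Ar) (X : AP D), ∃ (B : Type) (_ : Fintype B) (U : B → Set D.M)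
      (Ψ : B → E4 → D.M), BSys X.g X.s X.S C A (par K n).ϱ ((par K n).B * (par K n).ϱ)
        ((par K n).l / (100 * (par K n).ϱ)) (K / 2) (c * (par K n).l ^ (1 / 10 : ℝ))
        (c * (par K n).l ^ (11 / 10 : ℝ)) U Ψ := by
  obtain ⟨C₀, -, h₀⟩ := gpt_Th
  obtain ⟨C₁, E, -, -, h₁⟩ := co_all
  obtain ⟨C₂, hC₂, h₂⟩ := rho_GT
  refine ⟨max (max C₀ C₁) (10 ^ 11 * C₂), E, 1, one_pos, fun K h0 h4 Ar => ?_⟩
  obtain ⟨l₀, hl₀, hn₀⟩ := h₁ K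
  filter_upwards [par_geom h0 h4, jmain_T h0 E, par_δ_small h0 (half_pos hl₀)] with n hP hE hn D X
  have hco := hn₀ (par K n) hP rfl (by rw [Par.l]; linarith) Ar D X
  have hpt := h₀ (par K n) hP Ar D X
  have hρ : (par K n).RhoT C₂ := ⟨hC₂, h₂ _ hP⟩
  have hO := hP.toOk
  have hl := hO.l_pos
  have hϱ := hO.ϱ0
  have hs : ∀ x, 0 < X.s x := fun x => hϱ.trans_le (X.rho_le_s hP x).1
  have := Ar.fin
  let _ : Fintype Ar.C := Fintype.ofFinite _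
  have e1 : 1 * (par K n).l ^ (1 / 10 : ℝ) = (par K n).ka := one_mul _
  have e2 : 1 * (par K n).l ^ (11 / 10 : ℝ) = (par K n).s0 := by
    rw [one_mul, Par.s0, Par.ka, show (11 / 10 : ℝ) = 1 + 1 / 10 by norm_num, Real.rpow_add hl,
      Real.rpow_one]
  rw [e1, e2]
  refine ⟨Ar.C × Fin ((par K n).K / 2), inferInstance, fun b => D.Ub b.1 (b.2 : ℕ),
    fun b => D.Ps b.1 (b.2 : ℕ), X.scont, hs, fun x => (X.rho_le_s hP x).2,
    fun b => D.meas_Ub hO _ _, D.disj_Ub hO, fun x hx => X.small_Ub hO ?_,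
    fun b => D.pt_Ps hO _ _, fun b => X.g_Ps hO _ _, fun b => X.s_Ps hO _ _,
    fun b => D.mem_Ps hO _ _, fun b => X.sym_Ps hO _ _, fun b => X.u1 hO hE _ _,
    fun b => X.u2 hO _ _, fun b x hx => ?_, fun h hh hsy => ?_⟩
  · rw [le_div_iff₀ (by positivity)] at hE
    linarith
  · obtain ⟨a, ha, hm⟩ := X.p5 hO hρ b.1 (b.2 : ℕ) hx
    refine ⟨D.Th a, a.sig, (hpt a).mono (fun x => (hs x).le)
      ((le_max_left _ _).trans (le_max_left _ _)), ha, fun F hF => (hm F hF).trans ?_⟩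
    have := (hpt a).σpos
    gcongr
    exact le_max_right _ _
  · exact (X.co_le hP hh).trans (hco h hh hsy _ ((le_max_right _ _).trans (le_max_left _ _)))

/-- Good patches and the size of the error. -/
theorem thmJ2 {K : ℕ} (h0 : 0 < K) (h4 : 4 ∣ K) (Ar : Arith K) : ∃ C : ℝ, ∀ᶠ n : ℕ in atTop,
    ∀ (D : MD (par K n) Ar) (X : AP D),
      (∃ (A : Type) (Θ : A → E4 → D.M) (σ : A → ℝ), PSys X.g X.s (par K n).ϱ C Θ σ) ∧
      NY2 X.g X.s (GE X.g) ≤ C * (par K n).δ * (par K n).ϱ ^ 2 := by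
  obtain ⟨C₀, -, h₀⟩ := gpt_Th
  obtain ⟨C₁, hC₁, h₁⟩ := err_all
  obtain ⟨C₂, hC₂, h₂⟩ := rho_GT
  obtain ⟨N, κ, B, hB⟩ := Ar.exists_pcs
  refine ⟨max (max C₀ (10 ^ 9 * C₂ * C₁ * (Nat.card Ar.C * K ^ 5)))
    (max (Nat.card Ar.C * (2 ^ 22 * (N + 2) ^ 2 + 2 ^ 30 + K * (2 ^ 22 * C₂ ^ 2) + K * 2 ^ 38))
      (10 ^ 11 * (N + 2) * K ^ 4 * C₂)), ?_⟩
  filter_upwards [par_geom h0 h4] with n hP D X
  have hρ : (par K n).RhoT C₂ := ⟨hC₂, h₂ _ hP⟩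
  refine ⟨⟨_, D.Th, Ix.sig, X.psys hP hB hρ (h₀ _ hP Ar D X)
    ((le_max_left _ _).trans (le_max_left _ _)) ((le_max_left _ _).trans (le_max_right _ _))
    ((le_max_right _ _).trans (le_max_right _ _))⟩,
    (X.ny hP hρ hC₁ (h₁ _ hP Ar D X)).trans ?_⟩
  have := hP.δ0
  gcongr
  exact (le_max_right _ _).trans (le_max_left _ _)

/-- The total scalar curvature. -/
theorem thmJ3 {K : ℕ} (h0 : 0 < K) (h4 : 4 ∣ K) (Ar : Arith K) : ∃ V c C : ℝ, 0 < c ∧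
    ∀ᶠ n : ℕ in atTop, ∀ (D : MD (par K n) Ar) (X : AP D),
      |1 / 6 * (∫ x, (trg X.g (GRic X.g) x + 6) ∂volT X.g) + V - c * (par K n).δ ^ 3| ≤
        C * (par K n).δ ^ 4 := by
  obtain ⟨C₁, hC₁, h₁⟩ := trg_all
  obtain ⟨C₂, hC₂, h₂⟩ := rho_GT
  obtain ⟨N, κ, B, hB⟩ := Ar.exists_pcs
  have := Ar.fin
  have := Ar.ne
  have hK : (0 : ℝ) < K := by exact_mod_cast h0
  have hc : (0 : ℝ) < Nat.card Ar.C := by exact_mod_cast Nat.card_pos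
  refine ⟨Ar.volH κ B + Nat.card Ar.C * K ^ 3 / (3 * (59 / 20) ^ 3), Nat.card Ar.C * K ^ 3 / 6,
    10 ^ 9 * C₂ * (C₁ + 1) * (Nat.card Ar.C * K ^ 7) + Nat.card Ar.C * K ^ 3, by positivity, ?_⟩
  filter_upwards [par_geom h0 h4] with n hP D X
  exact X.total hP ⟨hC₂, h₂ _ hP⟩ hC₁ 
    (fun m => (h₁ _ hP Ar D X m).trans_eq (mul_div_assoc _ _ _)) hB

end Pool.Agent.Lib.MP_94aef8_gt
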